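import Pool.Agent.Lib.MP_815ef6_nt.CS.Def

/-! Rational normal forms. -/

namespace Pool.Agent.Lib.MP_815ef6_nt.Ch
open Finset LaurentPolynomial Matrix

variable {ι : Type*} [Fintype ι] [DecidableEq ι]

theorem adp_det {μ κ : ι → ℚ} {u v : ι → ℂ} {P : Matrix ι ι ℂ} (hP : IsUnit P)
    (h : ((diagonal fun i => (μ i : ℂ)) + vecMulVec u v) * P = P * diagonal fun i => (κ i : ℂ))
    {x : ℚ} (hx : ∀ i, x ≠ μ i) :
    ∑ l, u l * v l / ((x : ℂ) - μ l) = ((1 - (∏ i, (x - κ i)) / ∏ i, (x - μ i) : ℚ) : ℂ) := by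
  have h0 : ∀ i, (x : ℂ) - μ i ≠ 0 := fun i => by exact_mod_cast sub_ne_zero.2 (hx i)
  have h1 : (diagonal fun i => (x : ℂ) - μ i) * (1 + vecMulVec (fun i => -u i / (x - μ i)) v) * P =
      P * diagonal fun i => (x : ℂ) - κ i := by
    have e : (diagonal fun i => (x : ℂ) - μ i) * (1 + vecMulVec (fun i => -u i / (x - μ i)) v) =
        (x : ℂ) • 1 - ((diagonal fun i => (μ i : ℂ)) + vecMulVec u v) := by
      ext i j
      have := h0 i
      by_cases k : i = j
      · subst k
        simp only [diagonal_mul, Matrix.add_apply, vecMulVec_apply, Matrix.sub_apply, Matrix.smul_apply, one_apply_eq,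
          diagonal_apply_eq, smul_eq_mul]
        field_simp
        ring
      · simp only [diagonal_mul, Matrix.add_apply, vecMulVec_apply, Matrix.sub_apply, Matrix.smul_apply, one_apply_ne k,
          diagonal_apply_ne _ k, smul_eq_mul]
        field_simp
        ring
    rw [e, sub_mul, h, smul_mul_assoc, one_mul]
    ext i j
    simp only [Matrix.sub_apply, Matrix.smul_apply, mul_diagonal, smul_eq_mul]
    ring
  have h2 := congrArg det h1
  rw [det_mul, det_mul, det_mul, mul_comm P.det, vecMulVec_eq Unit,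
    det_one_add_replicateCol_mul_replicateRow, det_diagonal, det_diagonal] at h2
  have h3 := mul_right_cancel₀ ((isUnit_iff_isUnit_det P).1 hP).ne_zero h2
  have h4 : ∏ i, ((x : ℂ) - μ i) ≠ 0 := prod_ne_zero_iff.2 fun i _ => h0 i
  push_cast
  rw [← h3, mul_div_cancel_left₀ _ h4, sub_add_cancel_left, dotProduct, ← sum_neg_distrib]
  exact sum_congr rfl fun i _ => by ring

theorem adp_rat {μ : ι → ℚ} {c : ι → ℂ}
    (h : ∀ x : ℚ, (∀ i, x ≠ μ i) → ∃ q : ℚ, ∑ l, c l / ((x : ℂ) - μ l) = q) (j : ι) :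
    ∃ q : ℚ, ∑ l, (if μ l = μ j then c l else 0) = q := by
  by_contra hn
  obtain ⟨f, h1, h2⟩ := (Submodule.span ℚ {(1 : ℂ)}).exists_dual_map_eq_bot_of_notMem
    (x := ∑ l, if μ l = μ j then c l else 0) (fun k => by
      obtain ⟨q, hq⟩ := Submodule.mem_span_singleton.1 k
      exact hn ⟨q, by rw [← hq, Rat.smul_one_eq_cast]⟩) inferInstance
  have h3 : ∀ q : ℚ, f q = 0 := fun q => by
    have k : f q ∈ (Submodule.span ℚ {(1 : ℂ)}).map f := Submodule.mem_map_of_mem
      (Submodule.mem_span_singleton.2 ⟨q, Rat.smul_one_eq_cast _ _⟩)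
    rwa [h2, Submodule.mem_bot] at k
  let N : Polynomial ℚ := ∑ l, Polynomial.C (f (c l)) *
    ∏ m ∈ (univ.image μ).erase (μ l), (Polynomial.X - Polynomial.C m)
  have h4 : ∀ x, N.eval x = ∑ l, f (c l) * ∏ m ∈ (univ.image μ).erase (μ l), (x - m) := fun x => by
    simp only [N, Polynomial.eval_finset_sum, Polynomial.eval_mul, Polynomial.eval_C,
      Polynomial.eval_prod, Polynomial.eval_sub, Polynomial.eval_X]
  have h5 : N = 0 := Polynomial.eq_zero_of_infinite_isRoot N
    ((Set.finite_range μ).infinite_compl.mono fun x hx => by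
      have k : ∀ i, x ≠ μ i := fun i e => hx ⟨i, e.symm⟩
      obtain ⟨q, hq⟩ := h x k
      have e := congrArg f hq
      rw [h3, map_sum] at e
      change N.eval x = 0
      rw [h4, ← zero_mul (∏ m ∈ univ.image μ, (x - m)), ← e, sum_mul]
      refine sum_congr rfl fun l _ => ?_
      rw [← mul_prod_erase _ _ (mem_image_of_mem μ (mem_univ l)), show c l / ((x : ℂ) - μ l) =
        (x - μ l)⁻¹ • c l by rw [Rat.smul_def, div_eq_inv_mul]; push_cast; rfl, map_smul,
        smul_eq_mul, mul_comm _ (f _), mul_assoc, inv_mul_cancel_left₀ (sub_ne_zero.2 (k l))])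
  have h6 := h4 (μ j)
  rw [h5, Polynomial.eval_zero, sum_congr rfl (g := fun l => f (if μ l = μ j then c l else 0) *
    ∏ m ∈ (univ.image μ).erase (μ j), (μ j - m)) fun l _ => ?_, ← sum_mul, ← map_sum] at h6
  · exact (mul_ne_zero h1 (prod_ne_zero_iff.2 fun m hm =>
      sub_ne_zero.2 (ne_of_mem_erase hm).symm)) h6.symm
  · split_ifs with k
    · rw [k]
    · rw [map_zero, zero_mul, prod_eq_zero (mem_erase.2 ⟨Ne.symm k, mem_image_of_mem μ
        (mem_univ j)⟩) (sub_self _), mul_zero]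

omit [Fintype ι] [DecidableEq ι] in
theorem adp_pick (μ : ι → ℚ) (u : ι → ℂ) : ∃ B : ι → Prop, (∀ l, B l → u l ≠ 0) ∧
    (∀ l l', B l → B l' → μ l = μ l' → l = l') ∧ ∀ l, u l ≠ 0 → ∃ l', B l' ∧ μ l = μ l' := by
  choose r hr using fun (m : ℚ) (h : ∃ l, μ l = m ∧ u l ≠ 0) => h
  refine ⟨fun l => ∃ m h, l = r m h, ?_, ?_, fun l hl => ⟨r _ ⟨l, rfl, hl⟩, ⟨_, _, rfl⟩,
    (hr _ _).1.symm⟩⟩
  · rintro _ ⟨m, h, rfl⟩
    exact (hr m h).2
  · rintro _ _ ⟨m, h, rfl⟩ ⟨m', h', rfl⟩ e
    rw [(hr m h).1, (hr m' h').1] at e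
    subst e
    rfl

theorem adapt {μ κ : ι → ℚ} {u v : ι → ℂ} {P : Matrix ι ι ℂ} (hP : IsUnit P)
    (h : ((diagonal fun i => (μ i : ℂ)) + vecMulVec u v) * P = P * diagonal fun i => (κ i : ℂ)) :
    ∃ (u' v' : ι → ℚ) (g : Matrix ι ι ℂ), IsUnit g ∧
      g * (diagonal fun i => (μ i : ℂ)) = (diagonal fun i => (μ i : ℂ)) * g ∧
      vecMulVec u v * g = g * vecMulVec (fun i => (u' i : ℂ)) (fun i => (v' i : ℂ)) ∧
      ∀ l l', u' l ≠ 0 → u' l' ≠ 0 → μ l = μ l' → l = l' := by
  classical
  choose γ hγ using adp_rat (μ := μ) (c := fun l => u l * v l) fun x hx => ⟨_, adp_det hP h hx⟩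
  obtain ⟨B, b1, b2, b3⟩ := adp_pick μ u
  let g : Matrix ι ι ℂ := fun i j => if B j then (if μ i = μ j then u i else 0) else
    if i = j then (if v j = 0 then 1 else (v j)⁻¹) else 0
  have g1 : ∀ (x : ι → ℂ) i j, B j → μ i = μ j → (∀ k, ¬ B k → i = k → x k = 0) →
      (g *ᵥ x) i = u i * x j := fun x i j hj e hx => by
    rw [mulVec, dotProduct, sum_eq_single j (fun k _ hk => ?_) (by simp)]
    · simp only [g, if_pos hj, if_pos e]
    · by_cases t : B k
      · simp only [g, if_pos t, if_neg fun e' : μ i = μ k => hk (b2 k j t hj (e'.symm.trans e)),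
          zero_mul]
      · by_cases t' : i = k
        · rw [hx k t t', mul_zero]
        · simp only [g, if_neg t, if_neg t', zero_mul]
  refine ⟨fun i => if B i then 1 else 0, fun j => if B j then γ j else if v j = 0 then 0 else 1, g,
    mulVec_injective_iff_isUnit.1 ((injective_iff_map_eq_zero g.mulVecLin).2 fun x hx => ?_), ?_, ?_,
    fun l l' k k' => b2 l l' (by_contra fun t => k (if_neg t)) (by_contra fun t => k' (if_neg t))⟩
  · have k : ∀ j, B j → x j = 0 := fun j hj => (mul_eq_zero.1 ((g1 x j j hj rfl fun k t e =>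
      absurd (e ▸ hj) t).symm.trans (congrFun hx j))).resolve_left (b1 j hj)
    funext i
    by_cases t : B i
    · exact k i t
    · have e : (g *ᵥ x) i = 0 := congrFun hx i
      rw [mulVec, dotProduct, sum_eq_single i (fun j _ hj => ?_) (by simp)] at e
      · refine (mul_eq_zero.1 e).resolve_left ?_
        simp only [g, if_neg t, if_true]
        split_ifs with t'
        exacts [one_ne_zero, inv_ne_zero t']
      · by_cases t' : B j
        · rw [k j t', mul_zero]
        · simp only [g, if_neg t', if_neg hj.symm, zero_mul]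
  · ext i j
    simp only [mul_diagonal, diagonal_mul, g]
    split_ifs with t1 t2 t3 <;> simp_all [mul_comm]
  · rw [vecMulVec_mul, mul_vecMulVec]
    congr 1
    · funext i
      by_cases t : u i = 0
      · rw [t, mulVec, dotProduct, sum_eq_zero fun j _ => ?_]
        by_cases t' : B j <;> simp [g, t, t']
      · obtain ⟨j, hj, e⟩ := b3 i t
        rw [g1 _ i j hj e fun k hk _ => by simp [hk]]
        simp [hj]
    · funext j
      rw [vecMul, dotProduct]
      by_cases t : B j
      · simp only [g, if_pos t, ← hγ]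
        exact sum_congr rfl fun i _ => by split_ifs <;> simp [mul_comm]
      · rw [sum_eq_single j (fun i _ hi => by simp only [g, if_neg t, if_neg hi, mul_zero]) (by simp)]
        by_cases t' : v j = 0 <;> simp [g, t, t']

end Pool.Agent.Lib.MP_815ef6_nt.Ch
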