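import Pool.Agent.Lib.MP_815ef6_nt.CS.Def

/-! Identities for the matrices of the falling powers. -/

namespace Pool.Agent.Lib.MP_815ef6_nt.Ch
open Finset LaurentPolynomial Matrix

section
variable {Λ Λ' : Type*} [CommRing Λ] [CommRing Λ'] {ι ι' : Type*} [Fintype ι] [DecidableEq ι]
  [Fintype ι'] [DecidableEq ι'] {d : Λ → Λ} {d' : Λ' → Λ'} {q : Λ} {A E : Matrix ι ι Λ}
  {A' : Matrix ι' ι' Λ} {G : Matrix ι ι' Λ}

/-- The falling powers of `d`. -/
def pf (d : Λ → Λ) : ℕ → Λ → Λ
  | 0, f => f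
  | m + 1, f => d (pf d m f) - m * pf d m f

/-- The upper right block for an extension. -/
def Zm (d : Λ → Λ) (q : Λ) (A : Matrix ι ι Λ) (E : Matrix ι ι' Λ) (A' : Matrix ι' ι' Λ) :
    ℕ → Matrix ι ι' Λ
  | 0 => 0
  | k + 1 => q • (Zm d q A E A' k).map d + Zm d q A E A' k * A' + Am d q A k * E -
      (k * (q + d q)) • Zm d q A E A' k

theorem Am1_zero (hd : Dv d) : d 0 = 0 := by simpa using hd.add 0 0

theorem Am1_one (hd : Dv d) : d 1 = 0 := by simpa using hd.mul 1 1

/-- A derivation as an additive map. -/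
def Am1_h (hd : Dv d) : Λ →+ Λ := AddMonoidHom.mk' d hd.add

theorem Am1_nat (hd : Dv d) (n : ℕ) : d n = 0 := by
  induction n with
  | zero => rw [Nat.cast_zero, Am1_zero hd]
  | succ n ih => rw [Nat.cast_succ, hd.add, ih, Am1_one hd, add_zero]

theorem Am1_sub (hd : Dv d) (f g : Λ) : d (f - g) = d f - d g := map_sub (Am1_h hd) f g

section
variable {α β : Type*}

theorem Am1_madd (hd : Dv d) (M N : Matrix α β Λ) : (M + N).map d = M.map d + N.map d :=
  Matrix.ext fun _ _ => hd.add _ _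

theorem Am1_mzero (hd : Dv d) : (0 : Matrix α β Λ).map d = 0 := Matrix.ext fun _ _ => Am1_zero hd

theorem Am1_msmul (hd : Dv d) (f : Λ) (M : Matrix α β Λ) :
    (f • M).map d = d f • M + f • M.map d := Matrix.ext fun _ _ => hd.mul _ _

theorem Am1_smul (φ : Λ →+* Λ') (f : Λ) (M : Matrix α β Λ) : (f • M).map φ = φ f • M.map φ :=
  Matrix.ext fun _ _ => map_mul φ _ _

theorem Am1_add (φ : Λ →+* Λ') (M N : Matrix α β Λ) : (M + N).map φ = M.map φ + N.map φ :=
  Matrix.ext fun _ _ => map_add φ _ _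

theorem Am1_sb (φ : Λ →+* Λ') (M N : Matrix α β Λ) : (M - N).map φ = M.map φ - N.map φ :=
  Matrix.ext fun _ _ => map_sub φ _ _

theorem Am1_comm (φ : Λ →+* Λ') (h : ∀ x, φ (d x) = d' (φ x)) (M : Matrix α β Λ) :
    (M.map d).map φ = (M.map φ).map d' := Matrix.ext fun _ _ => h _

theorem Am1_pf (M : Matrix α β Λ) (i : ℕ) :
    (M.map (pf d i)).map d = M.map (pf d (i + 1)) + (i : Λ) • M.map (pf d i) :=
  Matrix.ext fun _ _ => (sub_add_cancel _ _).symm

/-- The step of the recursion. -/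
def Am1_F (hd : Dv d) (q c : Λ) (B : Matrix ι' ι' Λ) : Matrix α ι' Λ →+ Matrix α ι' Λ :=
  AddMonoidHom.mk' (fun M => q • M.map d + M * B - c • M) fun M N => by
    rw [Am1_madd hd, Matrix.add_mul]
    module

theorem Am1_Fa (hd : Dv d) (q c : Λ) (B : Matrix ι' ι' Λ) (M : Matrix α ι' Λ) :
    Am1_F hd q c B M = q • M.map d + M * B - c • M := rfl

end

theorem Am1_mone (hd : Dv d) : (1 : Matrix ι ι Λ).map d = 0 := by
  ext i j
  rw [Matrix.map_apply, Matrix.one_apply]
  split_ifs
  exacts [Am1_one hd, Am1_zero hd]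

theorem Am1_conv {M : Type*} [AddCommGroup M] (F : M →+ M) (t : ℕ → ℕ → M) (m : ℕ)
    (h : ∀ i j, i + j = m → F (t i j) = t i (j + 1) + t (i + 1) j) :
    ∑ x ∈ antidiagonal (m + 1), (m + 1).choose x.1 • t x.1 x.2 =
      F (∑ x ∈ antidiagonal m, m.choose x.1 • t x.1 x.2) := by
  rw [sum_antidiagonal_choose_succ_nsmul, map_sum, ← sum_add_distrib]
  refine sum_congr rfl fun x hx => ?_
  have e := mem_antidiagonal.1 hx
  rw [map_nsmul, h _ _ e, smul_add, Nat.choose_symm_of_eq_add e.symm]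

theorem Am1_d (d : Λ → Λ) (q : Λ) (A : Matrix ι ι Λ) (k : ℕ) : q • (Am d q A k).map d =
    Am d q A (k + 1) - Am d q A k * A + (k * (q + d q)) • Am d q A k := by
  rw [Am]
  module

theorem Am_map (φ : Λ →+* Λ') (h : ∀ x, φ (d x) = d' (φ x)) (k : ℕ) :
    (Am d q A k).map φ = Am d' (φ q) (A.map φ) k := by
  induction k with
  | zero => exact Matrix.map_one _ (map_zero φ) (map_one φ)
  | succ k ih =>
    simp only [Am, Am1_sb, Am1_add, Am1_smul, Matrix.map_mul, Am1_comm φ h, ih, map_mul, map_add,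
      map_natCast, h]

theorem Zm_map (φ : Λ →+* Λ') (h : ∀ x, φ (d x) = d' (φ x)) (E : Matrix ι ι' Λ) (k : ℕ) :
    (Zm d q A E A' k).map φ = Zm d' (φ q) (A.map φ) (E.map φ) (A'.map φ) k := by
  induction k with
  | zero => exact Matrix.map_zero _ (map_zero φ)
  | succ k ih =>
    simp only [Zm, Am1_sb, Am1_add, Am1_smul, Matrix.map_mul, Am1_comm φ h, ih, map_mul, map_add,
      map_natCast, h, Am_map φ h]

theorem gf_map (φ : Λ →+* Λ') (h : ∀ x, φ (d x) = d' (φ x)) :
    (gf d q A A' G).map φ = gf d' (φ q) (A.map φ) (A'.map φ) (G.map φ) := by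
  simp only [gf, Am1_sb, Am1_add, Am1_smul, Matrix.map_mul, Am1_comm φ h]

theorem Rel.map {l n : Λ} {C W : Matrix ι ι Λ} (H : Rel d q A l C n W) (φ : Λ →+* Λ')
    (h : ∀ x, φ (d x) = d' (φ x)) :
    Rel d' (φ q) (A.map φ) (φ l) (C.map φ) (φ n) (W.map φ) := by
  have e := congrArg (fun M : Matrix ι ι Λ => M.map φ) H
  simp only [Am1_sb, Am1_smul, Matrix.map_mul, Am1_comm φ h, map_mul, h] at e
  exact e

theorem Dv.map_mul (hd : Dv d) {ι'' : Type*} (G : Matrix ι ι' Λ) (G' : Matrix ι' ι'' Λ) :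
    (G * G').map d = G.map d * G' + G * G'.map d := by
  ext i j
  simp only [Matrix.map_apply, Matrix.mul_apply, Matrix.add_apply, ← sum_add_distrib, ← hd.mul]
  exact map_sum (Am1_h hd) _ _

theorem gf_mul (hd : Dv d) {ι'' : Type*} [Fintype ι''] [DecidableEq ι''] (A'' : Matrix ι'' ι'' Λ)
    (G' : Matrix ι' ι'' Λ) :
    gf d q A A'' (G * G') = gf d q A A' G * G' + G * gf d q A' A'' G' := by
  simp only [gf, hd.map_mul, Matrix.add_mul, Matrix.sub_mul, Matrix.mul_add, Matrix.mul_sub,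
    Matrix.smul_mul, Matrix.mul_smul, Matrix.mul_assoc]
  module

theorem Rel.gf (hd : Dv d) {l n : Λ} {C W : Matrix ι ι Λ} (H : Rel d q A l C n W)
    {K : Matrix ι' ι' Λ} {U Y : Matrix ι ι' Λ} (h : n • U = W * Y) :
    (q * n ^ 2) • gf d l C (l • K) U = (l * n) • (W * gf d q A (q • K) Y) := by
  have e1 := congrArg (fun M : Matrix ι ι' Λ => M.map d) h
  have e2 := congrArg (· * Y) H
  have e3 := congrArg (C * ·) h
  have e4 := congrArg (· * K) h
  simp only [Ch.gf, hd.map_mul, Am1_msmul hd, Matrix.sub_mul, Matrix.mul_add,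
    Matrix.mul_sub, Matrix.smul_mul, Matrix.mul_smul, Matrix.mul_assoc] at e1 e2 e3 e4 ⊢
  linear_combination (norm := module) (q * n * l) • e1 + e2 - (q * n) • e3 + (q * n * l) • e4 -
    (q * l * d n) • h

theorem Am_scale (hd : Dv d) (f : Λ) (k : ℕ) : Am d (f * q) (f • A) k = f ^ k • Am d q A k := by
  induction k with
  | zero => rw [pow_zero, one_smul]; rfl
  | succ k ih =>
    rw [Am, Am, ih, Am1_msmul hd, hd.mul, Matrix.smul_mul, Matrix.mul_smul]
    linear_combination (norm := module) (q * hd.pow f k) • Am d q A k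

theorem Am_gauge (hd : Dv d) (h : gf d q A A' G = 0) (m : ℕ) : Am d q A m * G =
    ∑ x ∈ antidiagonal m, (m.choose x.1 * q ^ x.1) • (G.map (pf d x.1) * Am d q A' x.2) := by
  have e : ∀ m : ℕ, ∑ x ∈ antidiagonal m, (m.choose x.1 * q ^ x.1) •
      (G.map (pf d x.1) * Am d q A' x.2) = ∑ x ∈ antidiagonal m, m.choose x.1 • q ^ x.1 •
      (G.map (pf d x.1) * Am d q A' x.2) := fun m => sum_congr rfl fun x _ => by
    rw [mul_smul, Nat.cast_smul_eq_nsmul]
  rw [e]
  induction m with
  | zero =>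
    rw [Nat.antidiagonal_zero, sum_singleton, pow_zero, one_smul, Nat.choose_self, one_smul]
    exact (Matrix.one_mul G).trans (Matrix.mul_one G).symm
  | succ m ih =>
    rw [Am1_conv (Am1_F hd q (m * (q + d q)) A')
      (fun i j => q ^ i • (G.map (pf d i) * Am d q A' j)) m, ← ih]
    · have e1 := congrArg (Am d q A m * ·) h
      simp only [Am1_Fa, Am, gf, hd.map_mul, Matrix.add_mul, Matrix.sub_mul, Matrix.mul_add,
        Matrix.mul_sub, Matrix.smul_mul, Matrix.mul_smul, Matrix.mul_assoc, Matrix.mul_zero] at e1 ⊢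
      linear_combination (norm := module) -e1
    · rintro i j rfl
      simp only [Am1_Fa, Am, hd.map_mul, Am1_msmul hd, Am1_pf, Matrix.add_mul, Matrix.mul_add,
        Matrix.mul_sub, Matrix.smul_mul, Matrix.mul_smul, Matrix.mul_assoc]
      push_cast
      linear_combination (norm := module) hd.pow q i • (G.map (pf d i) * Am d q A' j)

theorem Am_gauge_p (hd : Dv d) (h : gf d q A A' G = 0) {p : ℕ} (hp : p.Prime) (h0 : (p : Λ) = 0)
    (hG : ∀ f, pf d p f = 0) : Am d q A p * G = G * Am d q A' p := by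
  rw [Am_gauge hd h, sum_eq_single (0, p) (fun x hx hx' => ?_) (by simp)]
  · rw [Nat.choose_zero_right, pow_zero, Nat.cast_one, mul_one, one_smul]
    rfl
  · have e := mem_antidiagonal.1 hx
    rcases (show x.1 ≤ p by omega).eq_or_lt with l | l
    · rw [l, show G.map (pf d p) = 0 from Matrix.ext fun _ _ => hG _, Matrix.zero_mul, smul_zero]
    · obtain ⟨c, hc⟩ := hp.dvd_choose_self (k := x.1)
        (fun l => hx' (Prod.ext l (by simp only; omega))) l
      rw [hc, Nat.cast_mul, h0, zero_mul, zero_mul, zero_smul]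

theorem Am_diag (hd : Dv d) {c : ι → Λ} (hc : ∀ i, d (c i) = 0) (m : ℕ) :
    Am d q (q • diagonal c) m = q ^ m • diagonal fun i => ∏ j ∈ range m, (c i - j) := by
  induction m with
  | zero => simp [Am]
  | succ m ih =>
    have e : (diagonal fun i => ∏ j ∈ range m, (c i - j)).map d = 0 := by
      rw [diagonal_map (Am1_zero hd), ← diagonal_zero]
      refine congrArg _ (funext fun i => ?_)
      refine prod_induction _ (fun x => d x = 0) (fun a b ha hb => ?_) (Am1_one hd) fun j _ => ?_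
      · rw [hd.mul, ha, hb, zero_mul, mul_zero, add_zero]
      · rw [Am1_sub hd, hc, Am1_nat hd, sub_zero]
    have e' : (diagonal fun i => ∏ j ∈ range (m + 1), (c i - j)) =
        (diagonal fun i => ∏ j ∈ range m, (c i - j)) * diagonal c -
          (m : Λ) • diagonal fun i => ∏ j ∈ range m, (c i - j) := by
      rw [diagonal_mul_diagonal, ← diagonal_smul, diagonal_sub]
      refine congrArg _ (funext fun i => ?_)
      rw [prod_range_succ, Pi.smul_apply, smul_eq_mul]
      ring
    rw [Am, ih, Am1_msmul hd, e, e', Matrix.smul_mul, Matrix.mul_smul]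
    linear_combination (norm := module) hd.pow q m • diagonal fun i => ∏ j ∈ range m, (c i - j)

theorem Am_dual (hd : Dv d) (m : ℕ) : ∑ x ∈ antidiagonal (m + 1),
    ((m + 1).choose x.1 : Λ) • (Am d q A x.1 * (Am d q (-Aᵀ) x.2)ᵀ) = 0 := by
  have e : ∀ m : ℕ, ∑ x ∈ antidiagonal (m + 1), (m + 1).choose x.1 •
      (Am d q A x.1 * (Am d q (-Aᵀ) x.2)ᵀ) = Am1_F hd q (m * (q + d q)) 0
      (∑ x ∈ antidiagonal m, m.choose x.1 • (Am d q A x.1 * (Am d q (-Aᵀ) x.2)ᵀ)) := fun m => by
    refine Am1_conv _ (fun i j => Am d q A i * (Am d q (-Aᵀ) j)ᵀ) m ?_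
    rintro i j rfl
    simp only [Am1_Fa, Am, hd.map_mul, Matrix.add_mul, Matrix.mul_add, Matrix.sub_mul,
      Matrix.mul_sub, Matrix.smul_mul, Matrix.mul_smul, Matrix.mul_assoc, transpose_sub,
      transpose_add, transpose_smul, transpose_mul, transpose_neg, transpose_transpose,
      transpose_map, Matrix.mul_neg, Matrix.mul_zero]
    push_cast
    module
  simp only [Nat.cast_smul_eq_nsmul]
  induction m with
  | zero => rw [e]; simp [Am1_Fa, Am, Am1_mone hd]
  | succ m ih => rw [e, ih, map_zero]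

theorem Am_blocks (hd : Dv d) (E : Matrix ι ι' Λ) (k : ℕ) : Am d q (fromBlocks A E 0 A') k =
    fromBlocks (Am d q A k) (Zm d q A E A' k) 0 (Am d q A' k) := by
  induction k with
  | zero => exact fromBlocks_one.symm
  | succ k ih =>
    simp only [Am, Zm, ih, fromBlocks_map, fromBlocks_multiply, sub_eq_add_neg, fromBlocks_smul,
      fromBlocks_neg, fromBlocks_add, Am1_mzero hd, Matrix.mul_zero, Matrix.zero_mul, smul_zero,
      add_zero, zero_add, neg_zero]
    congr 1
    abel

theorem Am_lin (hd : Dv d) {c : Λ} (hc : d c = 0) (k : ℕ) :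
    Dd (c ^ 2) (Am d q (A + c • E) k - Am d q A k - c • Zm d q A E A k) := by
  suffices H : ∃ R, Am d q (A + c • E) k = Am d q A k + c • Zm d q A E A k + c • c • R by
    obtain ⟨R, e⟩ := H
    intro i j
    refine ⟨R i j, ?_⟩
    rw [e, add_assoc, add_sub_cancel_left, add_sub_cancel_left, smul_smul, ← sq]
    rfl
  induction k with
  | zero => exact ⟨0, by simp [Am, Zm]⟩
  | succ k ih =>
    obtain ⟨R, e⟩ := ih
    refine ⟨q • R.map d + R * (A + c • E) + Zm d q A E A k * E - (k * (q + d q)) • R, ?_⟩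
    simp only [Am, Zm, e, Am1_madd hd, Am1_msmul hd, hc, Matrix.add_mul, Matrix.mul_add,
      Matrix.smul_mul, Matrix.mul_smul]
    module

theorem Am_reindex (e : ι' ≃ ι) (k : ℕ) :
    Am d q (A.submatrix e e) k = (Am d q A k).submatrix e e := by
  induction k with
  | zero => exact (submatrix_one_equiv e).symm
  | succ k ih =>
    rw [Am, Am, ih, submatrix_mul_equiv]
    rfl

theorem Am_cM {n : ℕ} (L : ℕ → Λ) (m : ℕ) (i j : Fin (n + 1)) :
    Am d (L (n + 1)) (cM n L) m i j = rr d 1 n L (bs _ i) m j := by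
  induction m generalizing j with
  | zero => simp only [Am, rr, bs, Matrix.one_apply, Fin.ext_iff, eq_comm]
  | succ m ih =>
    have e : ∀ r : ℕ → Λ, ∑ k : Fin (n + 1), r k * cM n L k j =
        L (n + 1) * sh r j - r n * L j := fun r => by
      rw [Fin.sum_univ_castSucc]
      simp only [cM, Fin.castSucc_ne_last, if_false, if_true, Fin.val_last, Fin.val_castSucc]
      refine Fin.cases ?_ (fun j => ?_) j
      · simp [sh]
      · rw [sum_eq_single j (fun k _ hk => ?_) (by simp)]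
        · simp only [Fin.val_succ, if_true, sh]
          ring
        · rw [if_neg, mul_zero]
          intro h
          exact hk (Fin.ext (by simpa using h.symm))
    simp only [Am, Matrix.sub_apply, Matrix.add_apply, Matrix.smul_apply, Matrix.map_apply,
      Matrix.mul_apply, ih, e, rr, st, smul_eq_mul]
    ring

end

end Pool.Agent.Lib.MP_815ef6_nt.Ch
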