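import Pool.Agent.Lib.MP_815ef6_nt.CS.Am1

/-! Falling powers on Laurent series, the projector. -/

namespace Pool.Agent.Lib.MP_815ef6_nt.Ch
open Finset LaurentPolynomial Matrix

section
variable {Λ M : Type*} [CommRing Λ] [AddCommGroup M] {ι ι' : Type*} [Fintype ι] [DecidableEq ι]
  {d : Λ → Λ} {p : ℕ}

theorem Amx_prod (hp : p.Prime) (h0 : (p : Λ) = 0) {x : Λ} (hx : x ^ p = x) :
    ∏ j ∈ range p, (x - j) = 0 := by
  obtain ⟨F, hF⟩ := prod_char (R := Λ) hp
  have := congrArg (Polynomial.eval x) hF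
  simpa [Polynomial.eval_prod, h0, hx] using this

theorem Amx_int (hp : p.Prime) (h0 : (p : Λ) = 0) (c : ℤ) : (c : Λ) ^ p = c := by
  obtain ⟨y, hy⟩ := Int.prime_dvd_pow_self_sub hp c
  have := congrArg (Int.cast : ℤ → Λ) hy
  push_cast at this
  rwa [h0, zero_mul, sub_eq_zero] at this

theorem Amx_add (hp : p.Prime) (h0 : (p : Λ) = 0) (c : ℤ) {x : Λ} (hx : x ^ p = x) :
    ((c : Λ) + x) ^ p = c + x := by
  obtain ⟨y, hy⟩ := exists_add_pow_prime_eq hp (c : Λ) x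
  rw [hy, Amx_int hp h0, hx, h0]
  ring

/-- The falling power as a polynomial. -/
noncomputable def Amx_P (m : ℕ) : Polynomial ℤ :=
  ∏ j ∈ range m, (Polynomial.X - Polynomial.C (j : ℤ))

theorem Amx_zero (E : Module.End ℤ M) (Y : M) : Polynomial.aeval E (Amx_P 0) Y = Y := by
  simp [Amx_P]

theorem Amx_succ (E : Module.End ℤ M) (m : ℕ) (Y : M) : Polynomial.aeval E (Amx_P (m + 1)) Y =
    E (Polynomial.aeval E (Amx_P m) Y) - m • Polynomial.aeval E (Amx_P m) Y := by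
  rw [Amx_P, prod_range_succ_comm, map_mul, map_sub, Polynomial.aeval_X, Polynomial.aeval_C]
  simp [Amx_P]

theorem Amx_pow (hp : p.Prime) (h0 : ∀ y : M, p • y = 0) (E : Module.End ℤ M) (Y : M)
    (h : Polynomial.aeval E (Amx_P p) Y = 0) : E^[p] Y = E Y := by
  obtain ⟨F, hF⟩ := prod_char (R := ℤ) hp
  rw [Amx_P, hF] at h
  simpa [h0, sub_eq_zero, Module.End.pow_apply] using h

theorem Amx_sum (hp : p.Prime) (h0 : ∀ y : M, p • y = 0) (f : ℕ → ℕ → M) :
    ∑ x ∈ antidiagonal p, p.choose x.1 • f x.1 x.2 = f 0 p + f p 0 := by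
  rw [sum_eq_add_of_mem (0, p) (p, 0) (by simp) (by simp) (by simp [hp.ne_zero.symm])]
  · simp
  · rintro ⟨i, k⟩ hx ⟨h1, h2⟩
    have e : i + k = p := mem_antidiagonal.1 hx
    obtain ⟨c, hc⟩ := hp.dvd_choose_self (k := i) (by rintro rfl; exact h1 (by simp [← e]))
      (by by_contra h; exact h2 (Prod.ext (by dsimp only; omega) (by dsimp only; omega)))
    rw [hc, mul_smul, h0]

theorem Amx_one (hd : Dv d) : d 1 = 0 := by simpa using hd.mul 1 1

theorem Amx_B (hd : Dv d) (a : Matrix ι ι Λ) (k : ℕ) : (Am d 1 (-aᵀ) (k + 1))ᵀ =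
    (Am d 1 (-aᵀ) k)ᵀ.map d - a * (Am d 1 (-aᵀ) k)ᵀ - k • (Am d 1 (-aᵀ) k)ᵀ := by
  rw [Am, Amx_one hd, add_zero, mul_one, one_smul, Nat.cast_smul_eq_nsmul, transpose_sub,
    transpose_add, transpose_mul, transpose_neg, transpose_transpose, transpose_smul,
    Matrix.neg_mul, ← sub_eq_add_neg, transpose_map]

theorem Amx_exp (hd : Dv d) (a : Matrix ι ι Λ) (E D : Module.End ℤ (Matrix ι ι' Λ))
    (hE : ∀ (B : Matrix ι ι Λ) Y, E (B * Y) = B.map d * Y + B * E Y)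
    (hD : ∀ Y, D Y = E Y - a * Y) (Y : Matrix ι ι' Λ) (m : ℕ) :
    Polynomial.aeval D (Amx_P m) Y = ∑ x ∈ antidiagonal m,
      m.choose x.1 • ((Am d 1 (-aᵀ) x.1)ᵀ * Polynomial.aeval E (Amx_P x.2) Y) := by
  induction m with
  | zero => simp [Amx_zero, Am]
  | succ m ih =>
    rw [Amx_succ, ih, sum_antidiagonal_choose_succ_nsmul
      (fun i k => (Am d 1 (-aᵀ) i)ᵀ * Polynomial.aeval E (Amx_P k) Y), map_sum, smul_sum,
      ← sum_sub_distrib, ← sum_add_distrib]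
    refine sum_congr rfl fun x hx => ?_
    have e : x.1 + x.2 = m := mem_antidiagonal.1 hx
    rw [Nat.choose_symm_of_eq_add (a := x.2) (b := x.1) (by omega), map_nsmul, smul_comm m,
      ← smul_sub, ← smul_add, hD, hE, Amx_succ, Amx_B hd, ← e]
    simp only [Matrix.sub_mul, Matrix.mul_sub, Matrix.smul_mul, Matrix.mul_smul, Matrix.mul_assoc,
      add_smul]
    congr 1
    abel

theorem Amx_main (hp : p.Prime) (h0 : (p : Λ) = 0) (hd : Dv d) {a : Matrix ι ι Λ}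
    (ha : Am d 1 a p = 0) (E D : Module.End ℤ (Matrix ι ι' Λ))
    (hE : ∀ (B : Matrix ι ι Λ) Y, E (B * Y) = B.map d * Y + B * E Y)
    (hD : ∀ Y, D Y = E Y - a * Y) (Y : Matrix ι ι' Λ)
    (hY : Polynomial.aeval E (Amx_P p) Y = 0) : D^[p] Y = D Y := by
  have k : ∀ {κ : Type _} (y : Matrix ι κ Λ), p • y = 0 := fun y => by
    rw [← Nat.cast_smul_eq_nsmul Λ, h0, zero_smul]
  have k' : ∀ y : Matrix ι ι' Λ, p • y = 0 := fun y => by
    rw [← Nat.cast_smul_eq_nsmul Λ, h0, zero_smul]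
  have hB : (Am d 1 (-aᵀ) p)ᵀ = 0 := by
    have := Am_dual (q := 1) (A := a) hd (p - 1)
    rw [Nat.sub_add_cancel hp.one_le] at this
    simp only [Nat.cast_smul_eq_nsmul] at this
    rw [Amx_sum hp k fun i j => Am d 1 a i * (Am d 1 (-aᵀ) j)ᵀ, ha] at this
    simpa [Am] using this
  refine Amx_pow hp k' D Y ?_
  rw [Amx_exp hd a E D hE hD,
    Amx_sum hp k' fun i j => (Am d 1 (-aᵀ) i)ᵀ * Polynomial.aeval E (Amx_P j) Y, hY, hB]
  simp

end

section
variable {R R' : Type*} [CommRing R] [CommRing R'] {ι ι' : Type*} [Fintype ι] [DecidableEq ι]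
  [Fintype ι'] [DecidableEq ι'] {b : Bool} {q : R[T;T⁻¹]} {A : Matrix ι ι R[T;T⁻¹]} {K : ι' → R}

theorem coeff_pf_th (m : ℕ) (f : R[T;T⁻¹]) (a : ℤ) :
    (pf th m f).coeff a = (∏ j ∈ range m, (a - j : R)) * f.coeff a := by
  induction m with
  | zero => simp [pf]
  | succ m ih =>
    rw [pf, ← nsmul_eq_mul, prod_range_succ]
    simp only [AddMonoidAlgebra.coeff_sub, AddMonoidAlgebra.coeff_smul, Finsupp.sub_apply,
      Finsupp.smul_apply, coeff_th, ih]
    ring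

theorem coeff_pf_dS (m : ℕ) (f : Ls R) (a : ℤ) :
    (pf (dS b) m f).coeff a = (∏ j ∈ range m, ((sg b * a : ℤ) - j : R)) * f.coeff a := by
  induction m with
  | zero => simp [pf]
  | succ m ih =>
    rw [pf, ← map_natCast cS, prod_range_succ, HahnSeries.coeff_sub, coeff_cS_mul, coeff_dS, ih]
    ring

theorem pf_th_p {p : ℕ} (hp : p.Prime) (h0 : (p : R) = 0) (f : R[T;T⁻¹]) : pf th p f = 0 := by
  ext a
  rw [coeff_pf_th, Amx_prod hp h0 (Amx_int hp h0 a), zero_mul]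
  rfl

theorem pf_dS_p {p : ℕ} (hp : p.Prime) (h0 : (p : R) = 0) (f : Ls R) : pf (dS b) p f = 0 := by
  ext a
  rw [coeff_pf_dS, Amx_prod hp h0 (Amx_int hp h0 _), zero_mul]
  rfl

theorem df_map (φ : R →+* R') (Ψ : Matrix ι ι' (Ls R)) : (df b q A K Ψ).map (mL φ) =
    df b (mp φ q) (A.map (mp φ)) (fun i => φ (K i)) (Ψ.map (mL φ)) := by
  rw [df, df, gf_map (mL φ) (mL_dS φ b), mL_io]
  congr 1
  · ext i j : 2
    simp only [map_apply, mL_io]
  · ext i j : 2
    rw [map_apply, Matrix.smul_apply, Matrix.smul_apply, smul_eq_mul, smul_eq_mul, map_mul, mL_io,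
      diagonal_apply, diagonal_apply]
    split_ifs
    · rw [mL_cS]
    · rw [map_zero]

/-- The connection of the Kummer systems. -/
noncomputable def Amx_E (ι : Type*) (b : Bool) (K : ι' → R) :
    Module.End ℤ (Matrix ι ι' (Ls R)) :=
  (AddMonoidHom.mk' (fun Y : Matrix ι ι' (Ls R) => Y.map (dS b) + Y * diagonal fun i => cS (K i))
    fun Y Z => by
      rw [Matrix.map_add _ (dv_dS b).add, Matrix.add_mul]
      abel).toIntLinearMap

omit [Fintype ι] [DecidableEq ι] in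
theorem Amx_E_apply (Y : Matrix ι ι' (Ls R)) :
    Amx_E ι b K Y = Y.map (dS b) + Y * diagonal fun i => cS (K i) := rfl

omit [Fintype ι] [DecidableEq ι] in
theorem Amx_coeff (Y : Matrix ι ι' (Ls R)) (m : ℕ) (i : ι) (j : ι') (a : ℤ) :
    (Polynomial.aeval (Amx_E ι b K) (Amx_P m) Y i j).coeff a =
      (∏ l ∈ range m, ((sg b * a : ℤ) + K j - l : R)) * (Y i j).coeff a := by
  induction m with
  | zero => simp [Amx_zero]
  | succ m ih =>
    rw [Amx_succ, Amx_E_apply, Matrix.sub_apply, Matrix.add_apply, mul_diagonal, map_apply,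
      Matrix.smul_apply, nsmul_eq_mul, ← map_natCast cS, mul_comm _ (cS (K j)),
      HahnSeries.coeff_sub, HahnSeries.coeff_add, coeff_cS_mul, coeff_cS_mul, coeff_dS, ih,
      prod_range_succ]
    ring

omit [DecidableEq ι] in
theorem Amx_D {u : Ls R} (hu : u * io b q = 1) (A : Matrix ι ι R[T;T⁻¹]) (K : ι' → R) :
    ∃ D : Module.End ℤ (Matrix ι ι' (Ls R)), (fun Y => u • df b q A K Y) = D ∧
      ∀ Y, D Y = Amx_E ι b K Y - (u • A.map (io b)) * Y := by
  refine ⟨Amx_E ι b K - (AddMonoidHom.mk' (fun Y => (u • A.map (io b)) * Y)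
    (Matrix.mul_add _)).toIntLinearMap, funext fun Y => ?_, fun Y => rfl⟩
  change _ = Amx_E ι b K Y - (u • A.map (io b)) * Y
  rw [Amx_E_apply, df, gf, smul_add, smul_sub, Matrix.mul_smul, smul_smul, smul_smul, hu, one_smul,
    one_smul, Matrix.smul_mul]
  abel

/-- The projector: for vanishing `p`-curvature the connection satisfies `D ^ p = D`. -/
theorem proj {p : ℕ} (hp : p.Prime) (h0 : (p : R) = 0) (hA : Am th q A p = 0) {u : Ls R}
    (hu : u * io b q = 1) (hK : ∀ i, K i ^ p = K i) (Y : Matrix ι ι' (Ls R)) :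
    (fun Y => u • df b q A K Y)^[p] Y = u • df b q A K Y := by
  obtain ⟨D, e, hD⟩ := Amx_D hu A K
  rw [congrFun e Y, e]
  refine Amx_main (a := u • A.map (io b)) hp (by rw [← map_natCast cS, h0, map_zero]) (dv_dS b) ?_
    (Amx_E ι b K) D (fun B Y => ?_) hD Y ?_
  · rw [← hu, Am_scale (dv_dS b), ← Am_map (io b) (io_th b), hA, Matrix.map_zero _ (map_zero _),
      smul_zero]
  · rw [Amx_E_apply, Amx_E_apply, (dv_dS b).map_mul, Matrix.mul_add, Matrix.mul_assoc, add_assoc]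
  · ext i j a
    rw [Amx_coeff, Amx_prod hp h0 (Amx_add hp h0 _ (hK j)), zero_mul]
    rfl

theorem Amx_iter {M : Type*} {D : M → M} {W : Set M} (hW : ∀ Z ∈ W, D Z ∈ W) {Y : M} (hY : Y ∈ W)
    (k : ℕ) : D^[k] Y ∈ W := by
  induction k with
  | zero => exact hY
  | succ k ih =>
    rw [Function.iterate_succ_apply']
    exact hW _ ih

theorem proj_sol {p : ℕ} (hp : p.Prime) (h0 : (p : R) = 0) (hA : Am th q A p = 0) {u : Ls R}
    (hu : u * io b q = 1) (hK : ∀ i, K i ^ p = K i) {W : Set (Matrix ι ι' (Ls R))}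
    (hW : ∀ Z ∈ W, u • df b q A K Z ∈ W) {Y : Matrix ι ι' (Ls R)} (hY : u • df b q A K Y ∈ W) :
    ∃ Z ∈ W, df b q A K (Y - Z) = 0 := by
  have h := proj hp h0 hA hu hK Y
  obtain ⟨k, rfl⟩ : ∃ k, p = k + 1 + 1 := ⟨p - 2, by have := hp.two_le; omega⟩
  refine ⟨(fun Y => u • df b q A K Y)^[k + 1] Y,
    Amx_iter (D := fun Y => u • df b q A K Y) hW hY k, ?_⟩
  obtain ⟨D, e, -⟩ := Amx_D hu A K
  rw [congrFun e Y, e, Function.iterate_succ_apply'] at h
  rw [← one_smul (Ls R) (df _ _ _ _ _), ← hu, mul_comm, mul_smul, congrFun e, e, map_sub, h,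
    sub_self, smul_zero]

theorem proj_mem {p : ℕ} (hp : p.Prime) (h0 : (p : R) = 0) (hA : Am th q A p = 0) {u : Ls R}
    (hu : u * io b q = 1) (hK : ∀ i, K i ^ p = K i) {W : Set (Matrix ι ι' (Ls R))}
    (hW : ∀ Z ∈ W, u • df b q A K Z ∈ W) {Y : Matrix ι ι' (Ls R)}
    (hY : u • df b q A K (u • df b q A K Y) ∈ W) : u • df b q A K Y ∈ W := by
  rw [← proj hp h0 hA hu hK Y]
  obtain ⟨k, rfl⟩ : ∃ k, p = k + 1 + 1 := ⟨p - 2, by have := hp.two_le; omega⟩
  exact Amx_iter (D := fun Y => u • df b q A K Y) hW hY k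

theorem exists_inv_one_sub (b : Bool) :
    ∃ u : Ls R, u * io b (1 - T 1) = 1 ∧
      ∀ a, u.coeff a = if b then (if 0 ≤ a then 1 else 0) else if 0 < a then -1 else 0 := by
  obtain ⟨u, hu⟩ : ∃ u : Ls R,
      ∀ a, u.coeff a = if b then (if 0 ≤ a then 1 else 0) else if 0 < a then -1 else 0 :=
    ⟨HahnSeries.ofSuppBddBelow
      (fun a => if b then (if 0 ≤ a then 1 else 0) else if 0 < a then -1 else 0) ⟨0, fun a h => by
      by_contra l
      apply h
      dsimp only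
      split_ifs <;> first | rfl | omega⟩, fun _ => rfl⟩
  refine ⟨u, HahnSeries.ext (funext fun a => ?_), hu⟩
  obtain ⟨c, rfl⟩ : ∃ c, a = c + sg b * 1 := ⟨a - sg b * 1, by ring⟩
  rw [map_sub, map_one, io_T, mul_sub, mul_one, HahnSeries.coeff_sub,
    HahnSeries.coeff_mul_single_add, hu, hu, HahnSeries.coeff_one]
  cases b <;> simp only [sg] <;> split_ifs <;> first | omega | simp_all

end

end Pool.Agent.Lib.MP_815ef6_nt.Ch
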