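import Pool.Agent.Lib.MP_815ef6_nt.CS.CmD

/-! Components: the easy properties. -/

namespace Pool.Agent.Lib.MP_815ef6_nt.Ch
open Finset LaurentPolynomial Matrix

section
variable {R R' : Type*} [CommRing R] [CommRing R'] {π : R →+* R'} {c : R}

theorem CmA_dvdL (hπ : ∀ x, π x = 0 ↔ c ∣ x) {f : Ls R} : cS c ∣ f ↔ mL π f = 0 := by
  rw [cS_dvd]
  refine ⟨fun h => HahnSeries.ext (funext fun a => (hπ _).2 (h a)), fun h a => (hπ _).1 ?_⟩
  rw [← coeff_mL, h]
  rfl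

theorem CmA_dvdP (hπ : ∀ x, π x = 0 ↔ c ∣ x) {f : R[T;T⁻¹]} : C c ∣ f ↔ mp π f = 0 := by
  rw [dvd_iff]
  refine ⟨fun h => LaurentPolynomial.ext fun a => by rw [coeff_mp, (hπ _).2 (h a)]; rfl,
    fun h a => (hπ _).1 ?_⟩
  rw [← coeff_mp, h]
  rfl

theorem CmA_DdL (hπ : ∀ x, π x = 0 ↔ c ∣ x) {ι ι' : Type*} {M : Matrix ι ι' (Ls R)} :
    Dd (cS c) M ↔ M.map (mL π) = 0 :=
  ⟨fun h => Matrix.ext fun i j => (CmA_dvdL hπ).1 (h i j),
    fun h i j => (CmA_dvdL hπ).2 (congrFun (congrFun h i) j)⟩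

theorem CmA_DdP (hπ : ∀ x, π x = 0 ↔ c ∣ x) {ι ι' : Type*} {M : Matrix ι ι' R[T;T⁻¹]} :
    Dd (C c) M ↔ M.map (mp π) = 0 :=
  ⟨fun h => Matrix.ext fun i j => (CmA_dvdP hπ).1 (h i j),
    fun h i j => (CmA_dvdP hπ).2 (congrFun (congrFun h i) j)⟩

theorem CmA_ker (c : R) (x : R) : Ideal.Quotient.mk (Ideal.span {c}) x = 0 ↔ c ∣ x := by
  rw [Ideal.Quotient.eq_zero_iff_mem, Ideal.mem_span_singleton]

theorem CmA_lift (hπ : Function.Surjective π) (g : Ls R') :
    ∃ f : Ls R, mL π f = g ∧ ∀ a, g.coeff a = 0 → f.coeff a = 0 := by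
  classical
  choose y hy using hπ
  refine ⟨⟨fun a => if g.coeff a = 0 then 0 else y (g.coeff a),
    g.isPWO_support.mono fun a h l => h (if_pos l)⟩, HahnSeries.ext (funext fun a => ?_),
    fun a h => if_pos h⟩
  rw [coeff_mL]
  dsimp only
  split_ifs with l
  · rw [l, map_zero]
  · exact hy _

theorem CmA_ps {f : Ls R} (h : ∀ a < 0, f.coeff a = 0) :
    HahnSeries.ofPowerSeries ℤ R (PowerSeries.mk fun n => f.coeff n) = f := by
  ext a
  rw [PowerSeries.coeff_coe]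
  split_ifs with l
  · exact (h a l).symm
  · rw [PowerSeries.coeff_mk, Int.natAbs_of_nonneg (not_lt.1 l)]

theorem CmA_ps_neg (f : PowerSeries R) {a : ℤ} (h : a < 0) :
    (HahnSeries.ofPowerSeries ℤ R f).coeff a = 0 := by
  rw [PowerSeries.coeff_coe, if_pos h]

theorem CmA_unit {f : Ls R} {lo : ℤ} (h : ∀ a < lo, f.coeff a = 0) (hu : IsUnit (f.coeff lo)) :
    ∃ g, f * g = 1 ∧ ∀ a < -lo, g.coeff a = 0 := by
  have e := CmA_ps (f := HahnSeries.single (-lo) 1 * f) fun a ha => by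
    rw [HahnSeries.coeff_single_mul, h _ (by omega), mul_zero]
  obtain ⟨v, hv⟩ := (PowerSeries.isUnit_iff_constantCoeff
    (φ := PowerSeries.mk fun n : ℕ => (HahnSeries.single (-lo) 1 * f).coeff n)).2 (by
      rw [← PowerSeries.coeff_zero_eq_constantCoeff_apply, PowerSeries.coeff_mk,
        HahnSeries.coeff_single_mul, one_mul]
      simpa using hu) |>.exists_right_inv
  refine ⟨HahnSeries.single (-lo) 1 * HahnSeries.ofPowerSeries ℤ R v, ?_, fun a ha => ?_⟩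
  · rw [← mul_assoc, mul_comm f, ← e, ← map_mul, hv, map_one]
  · rw [HahnSeries.coeff_single_mul, CmA_ps_neg _ (by omega), mul_zero]

theorem CmA_unit' {f : Ls R} {lo : ℤ} (h : ∀ a < lo, c ∣ f.coeff a)
    (hu : ∃ y, c ∣ f.coeff lo * y - 1) : ∃ g, cS c ∣ f * g - 1 ∧ ∀ a < -lo, g.coeff a = 0 := by
  obtain ⟨y, hy⟩ := hu
  obtain ⟨g, h1, h2⟩ := CmA_unit (f := mL (Ideal.Quotient.mk (Ideal.span {c})) f) (lo := lo)
    (fun a ha => (CmA_ker c _).2 (h a ha)) (IsUnit.of_mul_eq_one (Ideal.Quotient.mk _ y) (by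
      have := (CmA_ker c _).2 hy
      rwa [map_sub, map_mul, map_one, sub_eq_zero] at this))
  obtain ⟨g', rfl, h3⟩ := CmA_lift Ideal.Quotient.mk_surjective g
  exact ⟨g', (CmA_dvdL (CmA_ker c)).2 (by rw [map_sub, map_mul, h1, map_one, sub_self]),
    fun a ha => h3 a (h2 a ha)⟩

/-- A unit modulo `c` is a unit modulo the powers of `c`. -/
theorem CmA_isUnit {m : ℕ} (h0 : π (c ^ m) = 0) {f g : Ls R} (h : cS c ∣ f * g - 1) :
    IsUnit (mL π f) := by
  obtain ⟨x, y, e⟩ := core_inv h m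
  have := congrArg (mL π) e
  rw [← map_pow, map_mul, mL_cS, h0, map_zero, zero_mul, map_sub, map_one, sub_eq_zero,
    mul_left_comm, map_mul] at this
  exact IsUnit.of_mul_eq_one _ this

theorem CmA_cancel {ι ι' : Type*} {u : R} (hu : IsUnit u) {M : Matrix ι ι' R} (h : u • M = 0) :
    M = 0 :=
  Matrix.ext fun i j => hu.mul_right_eq_zero.1 (congrFun (congrFun h i) j)

theorem CmA_span {c' : R} {f : R[T;T⁻¹]} (h : ∀ a, f.coeff a ∈ Ideal.span {c, c'}) :
    ∃ y z, f = C c * y + C c' * z := by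
  choose y z e using fun a => Ideal.mem_span_pair.1 (h a)
  refine ⟨∑ a ∈ f.coeff.support, C (y a) * T a, ∑ a ∈ f.coeff.support, C (z a) * T a, ?_⟩
  rw [mul_sum, mul_sum, ← sum_add_distrib]
  refine LaurentPolynomial.ext fun k => ?_
  simp only [← mul_assoc, ← add_mul, ← map_mul, ← map_add, mul_comm c, mul_comm c', e,
    AddMonoidAlgebra.coeff_sum, Finsupp.coe_finsetSum, Finset.sum_apply, coeff_CT, sum_ite_eq']
  split_ifs with h
  · rfl
  · exact Finsupp.notMem_support_iff.1 h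

/-- The expansion after a change of the coefficients. -/
noncomputable def CmA_f (π : R →+* R') (b : Bool) : R[T;T⁻¹] →+* Ls R' := (mL π).comp (io b)

theorem CmA_f_th (b : Bool) (x : R[T;T⁻¹]) : CmA_f π b (th x) = dS b (CmA_f π b x) := by
  simp only [CmA_f, RingHom.comp_apply, io_th, mL_dS]

theorem CmA_f_eq (b : Bool) (x : R[T;T⁻¹]) : CmA_f π b x = io b (mp π x) := mL_io _ _ _

theorem CmA_f_C (b : Bool) (x : R) : CmA_f π b (C x) = cS (π x) := by
  rw [CmA_f_eq, mp_C, io_C]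

end

variable {B : Type*} [CommRing B] {ι : Type*} [Fintype ι] [DecidableEq ι] {s : B} {ρ : B →+* ℂ}
  {X : PD B ι} {K : Bool → ι → B} {P : Bool → Matrix ι ι B} {Y : CD B ι}

theorem un_of {f : B[T;T⁻¹]} {lo hi : ℤ} (h1 : ∀ a < lo, s ∣ f.coeff a) (h2 : ∀ a > hi, s ∣ f.coeff a)
    (h3 : ∃ y, s ∣ f.coeff lo * y - 1) (h4 : ∃ y, s ∣ f.coeff hi * y - 1) : Un s f := by
  intro b
  cases b
  · exact (CmA_unit' (f := io false f) (lo := -hi)
      (fun a ha => by rw [coeff_io]; exact h2 _ (by simp only [sg]; omega))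
      (by simpa [sg] using h4)).imp fun _ h => h.1
  · exact (CmA_unit' (f := io true f) (lo := lo)
      (fun a ha => by rw [coeff_io]; exact h1 _ (by simp only [sg]; omega))
      (by simpa [sg] using h3)).imp fun _ h => h.1

theorem Re.unit {b : Bool} {l : B[T;T⁻¹]} {Cm : Matrix ι ι B[T;T⁻¹]} (h : Re s b l Cm) :
    ∃ g, cS s ∣ io b l * g - 1 ∧ ∀ a < 0, g.coeff a = 0 := by
  have := CmA_unit' (c := s) (f := io b l) (lo := 0)
    (fun a ha => by rw [coeff_io]; exact h.pl _ (by rwa [← mul_assoc, sg_sq, one_mul]))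
    ⟨1, by simpa using h.one⟩
  rwa [neg_zero] at this

theorem inv_reg {U : Matrix ι ι (Ls B)} {P : Matrix ι ι B} (hP : IsUnit P) (h : Od s 0 U)
    (h0 : Dd s (c0 U - P)) : ∃ U', Od 0 0 U' ∧ Dd (cS s) (U * U' - 1) ∧ Dd (cS s) (U' * U - 1) := by
  set π := Ideal.Quotient.mk (Ideal.span {s})
  let V : Matrix ι ι (PowerSeries (B ⧸ Ideal.span {s})) :=
    fun i j => PowerSeries.mk fun n => (mL π (U i j)).coeff n
  have hV : (HahnSeries.ofPowerSeries ℤ _).mapMatrix V = U.map (mL π) :=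
    Matrix.ext fun i j => CmA_ps fun a ha => (CmA_ker s _).2 (h i j a (by simpa using ha))
  have hc : (PowerSeries.constantCoeff).mapMatrix V = π.mapMatrix P := by
    refine Matrix.ext fun i j => ?_
    have := (CmA_ker s _).2 (h0 i j)
    rw [Matrix.sub_apply, map_sub, sub_eq_zero] at this
    exact this
  have hu : IsUnit V := by
    rw [Matrix.isUnit_iff_isUnit_det, PowerSeries.isUnit_iff_constantCoeff, RingHom.map_det, hc,
      ← RingHom.map_det]
    exact ((Matrix.isUnit_iff_isUnit_det _).1 hP).map _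
  obtain ⟨v, hv⟩ := hu
  rw [← hv] at hV
  choose U' e1 e2 using fun i j => CmA_lift (π := π) Ideal.Quotient.mk_surjective
    (HahnSeries.ofPowerSeries ℤ _ (v⁻¹.1 i j))
  have hV' : (HahnSeries.ofPowerSeries ℤ _).mapMatrix v⁻¹.1 = Matrix.map U' (mL π) :=
    Matrix.ext fun i j => (e1 i j).symm
  refine ⟨U', fun i j a ha => by rw [e2 i j a (CmA_ps_neg _ (by simpa using ha))], ?_, ?_⟩ <;>
    rw [CmA_DdL (CmA_ker s), Matrix.map_sub _ (map_sub _), Matrix.map_mul, ← hV, ← hV', ← map_mul]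
  · rw [Units.mul_inv, map_one, Matrix.map_one _ (map_zero _) (map_one _), sub_self]
  · rw [Units.inv_mul, map_one, Matrix.map_one _ (map_zero _) (map_one _), sub_self]

theorem CmA_dm {Λ : Type*} [CommRing Λ] {d : Λ → Λ} (hd : Dv d) {q l n : Λ} {A C W : Matrix ι ι Λ}
    (H : Rel d q A l C n W) (hn : IsUnit n) (hW : IsUnit W) (hl : IsUnit l) {p : ℕ} (hp : p.Prime)
    (h0 : (p : Λ) = 0) (hG : ∀ f, pf d p f = 0) (hC : Am d l C p = 0) : Am d q A p = 0 := by
  obtain ⟨ν, hν⟩ := hn.exists_right_inv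
  have e : W = n • ν • W := by rw [smul_smul, hν, one_smul]
  have hu : IsUnit (ν • W) := by
    rw [Algebra.smul_def]
    exact ((IsUnit.of_mul_eq_one n (by rw [mul_comm, hν])).map _).mul hW
  generalize ν • W = G at e hu
  have e1 : W.map d = d n • G + n • G.map d := by
    rw [e]
    exact Matrix.ext fun i j => hd.mul _ _
  have g : gf d (q * l) (q • C) (l • A) G = 0 := by
    refine CmA_cancel (hn.mul hn) ?_
    rw [Rel, e1, e] at H
    simp only [gf, Matrix.mul_smul, Matrix.smul_mul] at H ⊢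
    linear_combination (norm := module) H
  have := Am_gauge_p hd g hp h0 hG
  rw [Am_scale hd, hC, smul_zero, zero_mul, mul_comm q, Am_scale hd, eq_comm,
    hu.mul_right_eq_zero] at this
  exact CmA_cancel (hl.pow p) this

theorem CmA_gf {Λ : Type*} [CommRing Λ] (d : Λ → Λ) (q f : Λ) (A K G : Matrix ι ι Λ) :
    gf d (q * f) (f • A) ((q * f) • K) G = f • gf d q A (q • K) G := by
  simp only [gf, Matrix.mul_smul, Matrix.smul_mul]
  module

theorem Pre.dm (h : Pre s X) : ∃ p₀ : ℕ, ∀ p : ℕ, p.Prime → p₀ ≤ p → ∀ (m : ℕ) i j,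
    ∃ y z, Am th ((1 - T 1) * X.δ) X.A p i j = p * y + C s ^ m * z := by
  obtain ⟨p₀, hp⟩ := h.mb true
  refine ⟨p₀, fun p pp l m i j => ?_⟩
  set π := Ideal.Quotient.mk (Ideal.span {(p : B), s ^ m})
  have h0 : π (s ^ m) = 0 := Ideal.Quotient.eq_zero_iff_mem.2 (Ideal.subset_span (by simp))
  have h1 : ((p : ℕ) : B ⧸ Ideal.span {(p : B), s ^ m}) = 0 := by
    rw [← map_natCast π]
    exact Ideal.Quotient.eq_zero_iff_mem.2 (Ideal.subset_span (by simp))
  have h2 : ((p : ℕ) : Ls (B ⧸ Ideal.span {(p : B), s ^ m})) = 0 := by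
    rw [← map_natCast cS, h1, map_zero]
  obtain ⟨_, un⟩ := h.un true
  obtain ⟨_, uW⟩ := h.uW true
  obtain ⟨_, ul, -⟩ := (h.re true).unit
  have e := CmA_dm (dv_dS true) ((h.rel true).map (CmA_f π true) (CmA_f_th true))
    (CmA_isUnit h0 un) (by
      rw [Matrix.isUnit_iff_isUnit_det, ← RingHom.mapMatrix_apply, ← RingHom.map_det]
      exact CmA_isUnit h0 uW) (CmA_isUnit h0 ul) pp h2 (pf_dS_p pp h1) (by
      rw [← Am_map _ (CmA_f_th true)]
      refine Matrix.ext fun i j => ?_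
      obtain ⟨y, e⟩ := hp p pp l i j
      rw [Matrix.map_apply, e, map_mul, map_natCast, h2, zero_mul]
      rfl)
  rw [← Am_map _ (CmA_f_th true)] at e
  have e' : mp π (Am th ((1 - T 1) * X.δ) X.A p i j) = 0 :=
    io_inj true (by rw [map_zero, ← CmA_f_eq]; exact congrFun (congrFun e i) j)
  have := CmA_span (c := (p : B)) (c' := s ^ m) (f := Am th ((1 - T 1) * X.δ) X.A p i j) fun a =>
    Ideal.Quotient.eq_zero_iff_mem.1 (by rw [← coeff_mp, e']; rfl)
  rwa [map_natCast, map_pow] at this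

theorem Pre.md (H : Loc s ρ) (h : Pre s X) : MD (1 - T 1) (X.A.map (mp ρ)) := by
  obtain ⟨p₀, hp⟩ := h.dm
  obtain ⟨F, hF⟩ := H.fg
  refine ⟨F, p₀, fun p pp l i j a => ?_⟩
  obtain ⟨y, z, e⟩ := hp p pp l 1 i j
  have h1 : mp ρ X.δ = 1 := by
    have := (CmA_dvdP H.ker).1 h.one
    rwa [map_sub, map_one, sub_eq_zero] at this
  have h2 := congrFun (congrFun (Am_map (q := (1 - T 1) * X.δ) (A := X.A) (mp ρ) (mp_th ρ) p) i) j
  rw [map_mul, h1, mul_one, map_sub, map_one, mp_T, Matrix.map_apply, e, map_add, map_mul, map_mul,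
    pow_one, mp_C, (H.ker s).2 dvd_rfl, map_zero, zero_mul, add_zero, map_natCast,
    ← map_natCast C] at h2
  exact ⟨ρ (y.coeff a), hF _, by rw [← h2, coeff_C_mul, coeff_mp]⟩

theorem Cmp.base (H : Loc s ρ) (h : Cmp s ρ X K P Y) : ∃ U, St s X K Y 1 U := by
  choose γ hγ using h.un
  refine ⟨fun b => γ b • ((X.W * Y.g).map (io b) * Y.Ψ b), Y.g, Y.Ψ, fun i j => ?_,
    fun i j => by simp, fun b => ⟨h.fund b, fun i j => by simp, fun i j => ?_⟩⟩
  · have e : gf th ((1 - T 1) * X.δ) X.A (X.δ • Y.A0) Y.g = gf th (1 - T 1) X.A Y.A0 Y.g +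
        (X.δ - 1) • ((1 - T 1 : B[T;T⁻¹]) • Y.g.map th + Y.g * Y.A0) := by
      simp only [gf, Matrix.mul_smul]
      module
    rw [pow_one, e]
    exact (h.hg i j).add (h.one.mul_right _)
  · rw [pow_one, smul_smul, Matrix.sub_apply, Matrix.smul_apply, smul_eq_mul, ← sub_one_mul]
    exact (hγ b).mul_right _

theorem Cmp.red (H : Loc s ρ) (h : Cmp s ρ X K P Y) {m : ℕ} {U : Bool → Matrix ι ι (Ls B)}
    (S : St s X K Y (m + 1) U) (b : Bool) : Od s 0 (U b) ∧ Dd s (c0 (U b) - P b) := by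
  obtain ⟨G, Ψ, -, hG, hΨ⟩ := S
  obtain ⟨-, h1, h2⟩ := hΨ b
  obtain ⟨V, v1, v2, v3⟩ := h.reg b
  obtain ⟨_, un⟩ := h.un b
  have hn := CmA_isUnit (π := ρ) (m := 1) (by rw [pow_one, H.ker]) un
  replace h2 := (CmA_DdL H.ker).1 fun i j => (dvd_pow_self _ m.succ_ne_zero).trans (h2 i j)
  rw [CmA_DdL H.ker, Matrix.map_sub _ (map_sub _), sub_eq_zero] at h1
  rw [CmA_DdP H.ker, Matrix.map_sub _ (map_sub _), sub_eq_zero] at hG
  have e : ((X.W * G).map (io b)).map (mL ρ) = ((X.W * Y.g).map (mp ρ)).map (io b) := by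
    rw [Matrix.map_mul (L := X.W) (M := Y.g), ← hG, ← Matrix.map_mul]
    exact Matrix.ext fun i j => mL_io _ _ _
  rw [Matrix.map_sub _ (map_sub _), Matrix.map_mul, e, h1, ← v3, ← mL_io,
    Matrix.map_smul' _ _ _ (map_mul _), ← smul_sub] at h2
  have e2 := sub_eq_zero.1 (CmA_cancel hn h2)
  subst e2
  refine ⟨fun i j a ha => (H.ker _).1 (zero_dvd_iff.1 (v1 i j a ha)), fun i j => (H.ker _).1 ?_⟩
  rw [Matrix.sub_apply, map_sub, sub_eq_zero]
  exact congrFun (congrFun v2 i) j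

theorem Pre.sol (h : Pre s X) {m : ℕ} {U : Bool → Matrix ι ι (Ls B)} (S : St s X K Y m U)
    (b : Bool) : Dd (cS s ^ m) (df b (X.l b) (X.Cm b) (K b) (U b)) := by
  obtain ⟨G, Ψ, hG, -, hΨ⟩ := S
  obtain ⟨h1, -, h2⟩ := hΨ b
  set π := Ideal.Quotient.mk (Ideal.span {s ^ m})
  have hπ := CmA_ker (s ^ m)
  have h0 : π (s ^ m) = 0 := (hπ _).2 dvd_rfl
  obtain ⟨_, un⟩ := h.un b
  have uδ : IsUnit (CmA_f π b X.δ) := CmA_isUnit (g := 1) h0 (by
    rw [mul_one, ← io_C b, ← map_one (io b), ← map_sub]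
    exact map_dvd _ h.one)
  obtain ⟨u, hu, -⟩ := exists_inv_one_sub (R := B) b
  have uq : IsUnit (CmA_f π b ((1 - T 1) * X.δ)) := by
    rw [map_mul]
    exact ((IsUnit.of_mul_eq_one u (by rw [mul_comm, hu])).map (mL π)).mul uδ
  rw [← map_pow, CmA_DdL hπ] at h2 ⊢
  rw [← map_pow, CmA_DdP hπ] at hG
  rw [Matrix.map_sub _ (map_sub _), sub_eq_zero, Matrix.map_smul' _ _ _ (map_mul _),
    Matrix.map_mul, show ((X.W * G).map (io b)).map (mL π) = (X.W * G).map (CmA_f π b) from rfl,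
    Matrix.map_mul, Matrix.mul_assoc] at h2
  have e := Rel.gf (dv_dS b) ((h.rel b).map (CmA_f π b) (CmA_f_th b))
    (K := diagonal fun i => cS (π (K b i))) h2
  have e1 : gf (dS b) (CmA_f π b ((1 - T 1) * X.δ)) (X.A.map (CmA_f π b))
      ((X.δ • Y.A0).map (CmA_f π b)) (G.map (CmA_f π b)) = 0 := by
    rw [← gf_map _ (CmA_f_th b)]
    refine Matrix.ext fun i j => ?_
    rw [Matrix.map_apply, CmA_f_eq, show mp π _ = 0 from congrFun (congrFun hG i) j, map_zero]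
    rfl
  have e2 := df_map (b := b) (q := 1 - T 1) (A := Y.A0) (K := K b) π (Ψ b)
  have e3 (M : Matrix ι ι B[T;T⁻¹]) : (M.map (mp π)).map (io b) = M.map (CmA_f π b) :=
    Matrix.ext fun i j => (CmA_f_eq _ _).symm
  rw [h1, Matrix.map_zero _ (map_zero _), df, e3, ← CmA_f_eq] at e2
  have e4 : gf (dS b) (CmA_f π b ((1 - T 1) * X.δ)) ((X.δ • Y.A0).map (CmA_f π b))
      (CmA_f π b ((1 - T 1) * X.δ) • diagonal fun i => cS (π (K b i))) ((Ψ b).map (mL π)) = 0 := by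
    rw [Matrix.map_smul' _ _ _ (map_mul _), map_mul, CmA_gf, ← e2, smul_zero]
  rw [gf_mul (dv_dS b) (A' := (X.δ • Y.A0).map (CmA_f π b)), e1, e4, Matrix.zero_mul,
    Matrix.mul_zero, add_zero, Matrix.mul_zero, smul_zero] at e
  rw [df_map, df, e3, ← CmA_f_eq]
  exact CmA_cancel (uq.mul ((CmA_isUnit h0 un).pow 2)) e

theorem St.scale {m : ℕ} {U : Bool → Matrix ι ι (Ls B)} (S : St s X K Y m U) (c : Bool → ι → B) :
    St s X K Y m fun b => U b * diagonal fun i => cS (1 + s * c b i) := by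
  obtain ⟨G, Ψ, h1, h2, hΨ⟩ := S
  refine ⟨G, fun b => Ψ b * diagonal fun i => cS (1 + s * c b i), h1, h2, fun b => ?_⟩
  obtain ⟨h3, h4, h5⟩ := hΨ b
  beta_reduce
  refine ⟨?_, fun i j => ?_, fun i j => ?_⟩
  · rw [df, gf_mul (dv_dS b) (A' := io b (1 - T 1 : B[T;T⁻¹]) • diagonal fun i => cS (K b i)),
      ← df, h3, Matrix.zero_mul, zero_add]
    have e : (diagonal fun i => cS (1 + s * c b i)).map (dS b) = 0 := Matrix.ext fun i j => by
      rw [Matrix.map_apply, diagonal_apply]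
      split_ifs
      · exact dS_cS _ _
      · exact (congrArg _ (map_zero (cS (R := B))).symm).trans (dS_cS _ _)
    rw [gf, e, smul_zero, Matrix.smul_mul, Matrix.mul_smul, diagonal_mul_diagonal,
      diagonal_mul_diagonal]
    simp only [mul_comm, zero_sub, neg_add_cancel, Matrix.mul_zero]
  · rw [Matrix.sub_apply, mul_diagonal, map_add, map_one, map_mul, mul_add, mul_one,
      add_sub_right_comm]
    exact (h4 i j).add (((dvd_mul_right _ _)).mul_left _)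
  · rw [← Matrix.mul_assoc, ← Matrix.smul_mul, ← Matrix.sub_mul, mul_diagonal]
    exact (h5 i j).mul_right _

end Pool.Agent.Lib.MP_815ef6_nt.Ch
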