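import Pool.Agent.Lib.MP_815ef6_nt.CS.AsD
import Pool.Agent.Lib.MP_815ef6_nt.CS.CmA

/-! Descent of a component to finitely generated rings. -/

namespace Pool.Agent.Lib.MP_815ef6_nt.Ch
open Finset LaurentPolynomial Matrix Filter

variable {ι : Type*} [Fintype ι] [DecidableEq ι] {O : Subring ℂ} {t : ℂ}

theorem mp_mp {R R' R'' : Type*} [CommRing R] [CommRing R'] [CommRing R''] (φ : R →+* R')
    (ψ : R' →+* R'') (f : R[T;T⁻¹]) : mp ψ (mp φ f) = mp (ψ.comp φ) f := by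
  ext a
  simp only [coeff_mp, RingHom.comp_apply]

theorem rho_rat {B : Subring ℂ} (ρ : B →+* ℂ) {x : B} {q : ℚ} (h : (x : ℂ) = q) : ρ x = q := by
  have hd : (q.den : ℂ) ≠ 0 := Nat.cast_ne_zero.2 q.den_nz
  have e : x * (q.den : B) = (q.num : B) := Subtype.ext (by
    push_cast
    rw [h, Rat.cast_def, div_mul_cancel₀ _ hd])
  have e' := congrArg ρ e
  rw [map_mul, map_natCast, map_intCast] at e'
  rw [Rat.cast_def, eq_div_iff hd, e']

theorem ev_lift (f : O[T;T⁻¹]) : ∀ᶠ T in fG O t, ∀ hle : cl T ≤ O,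
    ∃ f' : LaurentPolynomial (cl T), mp (Subring.inclusion hle) f' = f := by
  filter_upwards [(eventually_all_finset f.coeff.support).2 fun e _ => ev_in (f.coeff e).2]
    with T hT hle
  refine exists_mp fun a => ?_
  by_cases h : f.coeff a = 0
  · rw [h]
    exact zero_mem _
  · exact ⟨⟨_, hT a (Finsupp.mem_support_iff.2 h)⟩, rfl⟩

theorem ev_liftM (A : Matrix ι ι O[T;T⁻¹]) : ∀ᶠ T in fG O t, ∀ hle : cl T ≤ O,
    ∃ A' : Matrix ι ι (LaurentPolynomial (cl T)), A'.map (mp (Subring.inclusion hle)) = A := by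
  filter_upwards [eventually_all.2 fun i => eventually_all.2 fun j => ev_lift (t := t) (A i j)]
    with T hT hle
  choose A' hA using fun i j => hT i j hle
  exact ⟨A', Matrix.ext hA⟩

theorem As1_inj {S : Subring ℂ} (hle : S ≤ O) : Function.Injective (mp (Subring.inclusion hle)) :=
  fun f g h => mp_inj S ((mp_mp _ O.subtype f).symm.trans
    ((congrArg (mp O.subtype) h).trans (mp_mp _ O.subtype g)))

theorem As1_un (H : Frame O t) {s : O} (hp : Prime s) {f : O[T;T⁻¹]} (h : ¬ C s ∣ f) :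
    ∀ᶠ T in fG O t, ∀ (hle : cl T ≤ O) (s' : cl T),
      (∀ x, s ∣ Subring.inclusion hle x → s' ∣ x) → ∀ f' : LaurentPolynomial (cl T),
        mp (Subring.inclusion hle) f' = f → Un s' f' := by
  classical
  have := H.pid
  let S := f.coeff.support.filter fun a => ¬ s ∣ f.coeff a
  have mS : ∀ a, ¬ s ∣ f.coeff a → a ∈ S := fun a k =>
    mem_filter.2 ⟨Finsupp.mem_support_iff.2 fun l => k (l ▸ dvd_zero s), k⟩
  have hS : S.Nonempty := by
    obtain ⟨a, k⟩ := not_forall.1 (mt dvd_iff.2 h)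
    exact ⟨a, mS a k⟩
  have u : ∀ a ∈ S, ∃ y : O, s ∣ f.coeff a * y - 1 := fun a k => by
    obtain ⟨c, d, e⟩ := hp.irreducible.coprime_iff_not_dvd.2 (mem_filter.1 k).2
    exact ⟨d, -c, by linear_combination e⟩
  obtain ⟨y, hy⟩ := u _ (S.min'_mem hS)
  obtain ⟨z, hz⟩ := u _ (S.max'_mem hS)
  filter_upwards [ev_in y.2, ev_in z.2] with T h1 h2 hle s' k f' e
  have c : ∀ a, Subring.inclusion hle (f'.coeff a) = f.coeff a := fun a => by rw [← e, coeff_mp]
  refine un_of (lo := S.min' hS) (hi := S.max' hS) (fun a l => k _ ?_) (fun a l => k _ ?_)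
    ⟨⟨y, h1⟩, k _ ?_⟩ ⟨⟨z, h2⟩, k _ ?_⟩
  · rw [c]
    exact by_contra fun m => (S.min'_le a (mS a m)).not_gt l
  · rw [c]
    exact by_contra fun m => (S.le_max' a (mS a m)).not_gt l
  · rw [map_sub, map_mul, map_one, c]
    exact hy
  · rw [map_sub, map_mul, map_one, c]
    exact hz

theorem As1_rel {Λ Λ' : Type*} [CommRing Λ] [CommRing Λ'] {d : Λ → Λ} {d' : Λ' → Λ'} {q l n : Λ}
    {A C W : Matrix ι ι Λ} {φ : Λ →+* Λ'} (hφ : Function.Injective φ)
    (h : ∀ x, φ (d x) = d' (φ x))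
    (H : Rel d' (φ q) (A.map φ) (φ l) (C.map φ) (φ n) (W.map φ)) : Rel d q A l C n W := by
  refine Matrix.map_injective hφ ?_
  simp only [Am1_sb, Am1_smul, Matrix.map_mul, Am1_comm φ h, map_mul, h]
  exact H

theorem ev_pre (H : Frame O t) {s : O} (hp : Prime s) {ρ : O →+* ℂ} (hρ : ∀ x, ρ x = 0 ↔ s ∣ x)
    {F : Finset ℂ} (hF : ∀ x ∈ F, ∃ e : ℕ, t ^ e * x ∈ O) {p₀ : ℕ} {X : PD O ι}
    (h : PrO s X F p₀) : ∀ᶠ T in fG O t, ∀ (hle : cl T ≤ O) (hs : s.1 ∈ cl T),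
      Loc (⟨s, hs⟩ : cl T) (ρ.comp (Subring.inclusion hle)) →
        ∃ X' : PD (cl T) ι, X'.map (Subring.inclusion hle) = X ∧ Pre ⟨s, hs⟩ X' := by
  obtain ⟨u, v, γ, e, -⟩ := h.rk
  filter_upwards [ev_lift (t := t) X.δ, ev_lift (t := t) X.n, ev_liftM (t := t) X.A,
    ev_liftM (t := t) X.W, eventually_all.2 fun b => ev_lift (t := t) (X.l b),
    eventually_all.2 fun b => ev_liftM (t := t) (X.Cm b), As1_un H hp h.n0, As1_un H hp h.W0,
    H.ev_desc hF, eventually_all.2 fun i => ev_in (u i).2, eventually_all.2 fun i => ev_in (v i).2]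
    with T h1 h2 h3 h4 h5 h6 u1 u2 ds hu hv hle hs L
  obtain ⟨δ, e1⟩ := h1 hle
  obtain ⟨n, e2⟩ := h2 hle
  obtain ⟨A, e3⟩ := h3 hle
  obtain ⟨W, e4⟩ := h4 hle
  choose l e5 using fun b => h5 b hle
  choose Cm e6 using fun b => h6 b hle
  have k : ∀ x, s ∣ Subring.inclusion hle x → (⟨s, hs⟩ : cl T) ∣ x := fun x m =>
    (L.ker x).1 ((hρ _).2 m)
  refine ⟨⟨δ, n, A, W, l, Cm⟩, ?_, dvd_iff.2 fun a => k _ ?_,
    fun b => As1_rel (As1_inj hle) (mp_th _) ?_,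
    fun b => ⟨fun a m => k _ ?_, k _ ?_, fun i j a m => k _ ?_⟩, u1 hle _ k _ e2,
    u2 hle _ k _ ?_, fun b => ⟨p₀, fun p hp' hp0 i j => ?_⟩,
    fun i => ⟨u i, hu i⟩, fun i => ⟨v i, hv i⟩, Matrix.ext fun i j => ?_⟩
  · simp only [PD.map, e1, e2, e3, e4, e5, e6]
  · rw [← coeff_mp, map_sub, map_one, e1]
    exact dvd_iff.1 h.one a
  · rw [map_mul, map_sub, map_one, mp_T, e1, e2, e3, e4, e5, e6]
    exact h.rel b
  · rw [← coeff_mp, e5]
    exact (h.re b).pl a m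
  · rw [map_sub, map_one, ← coeff_mp, e5]
    exact (h.re b).one
  · rw [← coeff_mp, ← Matrix.map_apply (f := mp _), e6]
    exact (h.re b).pc i j a m
  · rw [RingHom.map_det, RingHom.mapMatrix_apply, e4]
  · obtain ⟨g, hg, e7⟩ := h.mb b p hp' hp0 i j
    refine ds p hp'.ne_zero g hg 1 (one_mem _) _ ?_
    rw [map_one, one_mul, ← e7, ← e5, ← e6, ← Am_map _ (mp_th _), Matrix.map_apply, mp_mp]
    rfl
  · refine Subring.inclusion_injective hle ?_
    rw [Matrix.map_apply, ← ev1_mp, ← Matrix.map_apply (f := mp _), e3,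
      ← Matrix.map_apply (f := ev1), e]
    rfl

theorem Frame.crt (H : Frame O t) {α : Type*} (c : ℕ → α → ℂ)
    (h0 : ∀ᶠ T in fG O t, ∀ m a, c m a ∈ cl T)
    (h : ∀ s : O, Prime s → s ∣ ⟨t, H.mem⟩ → ∀ᶠ T in fG O t, ∀ (E m : ℕ) a,
      ∃ y ∈ cl T, ∃ z ∈ cl T, c m a = m.factorial * y + s ^ E * z) :
    ∃ T : Finset ℂ, ∀ m a, ∃ y ∈ cl T, c m a = m.factorial * y := by
  classical
  have := H.neBot
  have := H.pid
  obtain ⟨f, f1, u, f2⟩ := UniqueFactorizationMonoid.exists_prime_factors (⟨t, H.mem⟩ : O)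
    fun k => H.ne (congrArg Subtype.val k)
  let A : Finset (Associates O) := (f.map Associates.mk).toFinset
  have a1 : ∀ x ∈ A, ∃ s ∈ f, Associated s (Quotient.out x) := fun x hx => by
    obtain ⟨s, hs, rfl⟩ := Multiset.mem_map.1 (Multiset.mem_toFinset.1 hx)
    exact ⟨s, hs, Associates.mk_eq_mk_iff_associated.1 (Quotient.out_eq _).symm⟩
  have a2 : ∀ x ∈ A, Prime (Quotient.out x : O) := fun x hx => by
    obtain ⟨s, hs, e⟩ := a1 x hx
    exact e.prime (f1 s hs)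
  have a3 : ∀ x ∈ A, (Quotient.out x : O) ∣ ⟨t, H.mem⟩ := fun x hx => by
    obtain ⟨s, hs, e⟩ := a1 x hx
    exact e.symm.dvd.trans ((Multiset.dvd_prod hs).trans ⟨u, f2.symm⟩)
  obtain ⟨w, hw⟩ : (⟨t, H.mem⟩ : O) ∣ (∏ x ∈ A, Quotient.out x) ^ f.card := by
    rw [← f2, Units.mul_right_dvd, ← Multiset.prod_replicate, ← Multiset.map_const',
      ← Multiset.map_id' f, Multiset.map_map]
    refine Multiset.prod_dvd_prod_of_dvd _ _ fun s hs => Dvd.dvd.trans ?_ (dvd_prod_of_mem _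
      (Multiset.mem_toFinset.2 (Multiset.mem_map_of_mem Associates.mk hs)))
    exact (Associates.mk_eq_mk_iff_associated.1 (Quotient.out_eq _).symm).dvd
  have a4 : ∀ x ∈ A, ∀ y ∈ A, x ≠ y → ∃ c d : O, c * Quotient.out x + d * Quotient.out y = 1 :=
    fun x hx y hy e => (a2 x hx).irreducible.coprime_iff_not_dvd.2 fun k => e (by
      rw [← Quotient.out_eq x, ← Quotient.out_eq y]
      exact Quotient.sound (((a2 x hx).dvd_prime_iff_associated (a2 y hy)).1 k))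
  choose! c' d hcd using a4
  obtain ⟨T, G, h1, h2, h3, h5⟩ := (ev_gd.and ((ev_in w.2).and
    (((eventually_all_finset A).2 fun x hx => (ev_in (Quotient.out x : O).2).and
      (h _ (a2 x hx) (a3 x hx))).and
    (((eventually_all_finset A).2 fun x _ => (eventually_all_finset A).2 fun y _ =>
      (ev_in (c' x y).2).and (ev_in (d x y).2)).and h0)))).exists
  refine ⟨T, fun m a => G.krull _ _ (h5 m a) fun N => ?_⟩
  let π := Ideal.Quotient.mk (Ideal.span {(m.factorial : cl T)})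
  let σ : A → cl T := fun x => ⟨_, (h2 x x.2).1⟩
  have k : ∏ x : A, π (σ x) ^ (f.card * N) ∣ π ⟨_, h5 m a⟩ := by
    refine prod_dvd_of_coprime (fun x _ y _ e => IsCoprime.pow (IsCoprime.map ?_ π)) fun x _ => ?_
    · exact ⟨⟨_, (h3 x x.2 y y.2).1⟩, ⟨_, (h3 x x.2 y y.2).2⟩, Subtype.ext
        (congrArg (Subtype.val : O → ℂ) (hcd x x.2 y y.2 fun k => e (Subtype.ext k)) :)⟩
    · obtain ⟨x', k1, y', k2, k3⟩ := (h2 x x.2).2 (f.card * N) m a
      refine ⟨π ⟨y', k2⟩, ?_⟩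
      rw [← map_pow, ← map_mul, Ideal.Quotient.eq, Ideal.mem_span_singleton]
      exact ⟨⟨x', k1⟩, Subtype.ext (sub_eq_of_eq_add k3)⟩
  obtain ⟨y, hy⟩ := k
  obtain ⟨y, rfl⟩ := Ideal.Quotient.mk_surjective y
  rw [prod_pow, ← map_prod, ← map_pow, ← map_mul, Ideal.Quotient.eq,
    Ideal.mem_span_singleton] at hy
  obtain ⟨x, hx'⟩ := hy
  refine ⟨x, x.2, w ^ N * y, mul_mem (pow_mem h1 N) y.2, ?_⟩
  have e1 := congrArg Subtype.val hx'
  have e2 := congrArg Subtype.val hw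
  rw [← prod_coe_sort] at e2
  push_cast [σ] at e1 e2
  rw [pow_mul, e2] at e1
  linear_combination e1

end Pool.Agent.Lib.MP_815ef6_nt.Ch
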