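import Pool.Agent.Lib.MP_815ef6_nt.CS.Mod

/-! Reduction of a deformation of a model to a constant one. -/

namespace Pool.Agent.Lib.MP_815ef6_nt.Ch
open Finset LaurentPolynomial Matrix

section
variable {R : Type*} [CommRing R] {ι : Type*} [Fintype ι] [DecidableEq ι]

/-- No coefficients below `a`. -/
def RdcL (a : ℤ) (f : Ls R) : Prop := ∀ e < a, f.coeff e = 0

theorem RdcL.mul {a b : ℤ} {f g : Ls R} (hf : RdcL a f) (hg : RdcL b g) :
    RdcL (a + b) (f * g) ∧ (f * g).coeff (a + b) = f.coeff a * g.coeff b := by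
  have k : ∀ e, ∀ x ∈ antidiagonal f.isPWO_support g.isPWO_support e,
      a ≤ x.1 ∧ b ≤ x.2 ∧ x.1 + x.2 = e := fun e x hx => by
    obtain ⟨h1, h2, h3⟩ := mem_antidiagonal.1 hx
    exact ⟨not_lt.1 fun l => h1 (hf _ l), not_lt.1 fun l => h2 (hg _ l), h3⟩
  refine ⟨fun e he => ?_, ?_⟩
  · rw [HahnSeries.coeff_mul]
    refine sum_eq_zero fun x hx => ?_
    have := k e x hx
    omega
  · rw [HahnSeries.coeff_mul, sum_eq_single (a, b)]
    · intro x hx hne
      have := k _ x hx
      exact absurd (Prod.ext (by omega) (by omega)) hne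
    · intro h
      by_contra h0
      exact h (mem_antidiagonal.2 ⟨left_ne_zero_of_mul h0, right_ne_zero_of_mul h0, rfl⟩)

theorem rdc_cS (c : R) : RdcL 0 (cS c) ∧ (cS c).coeff 0 = c :=
  ⟨fun _ he => HahnSeries.coeff_single_of_ne he.ne, HahnSeries.coeff_single_same _ _⟩

theorem rdc_coeff_sum (f : ι → Ls R) (a : ℤ) : (∑ i, f i).coeff a = ∑ i, (f i).coeff a :=
  HahnSeries.coeff_sum a

theorem rdc_D {b : Bool} {q : R[T;T⁻¹]} {w : Ls R} (hw : w * io b q = 1)
    (A E : Matrix ι ι R[T;T⁻¹]) (c : R) (Y : Matrix (ι ⊕ ι) Unit (Ls R)) (i : ι) :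
    (w • df b q (fromBlocks A E 0 A) (fun _ => c) Y) (Sum.inl i) () =
      dS b (Y (Sum.inl i) ()) - (∑ j, w * io b (A i j) * Y (Sum.inl j) () +
        ∑ j, w * io b (E i j) * Y (Sum.inr j) ()) + cS c * Y (Sum.inl i) () ∧
    (w • df b q (fromBlocks A E 0 A) (fun _ => c) Y) (Sum.inr i) () =
      dS b (Y (Sum.inr i) ()) - ∑ j, w * io b (A i j) * Y (Sum.inr j) () +
        cS c * Y (Sum.inr i) () := by
  simp only [df, gf, Matrix.smul_apply, Matrix.add_apply, Matrix.sub_apply, map_apply,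
    Matrix.mul_apply, Fintype.sum_sum_type, fromBlocks_apply₁₁, fromBlocks_apply₁₂,
    fromBlocks_apply₂₁, fromBlocks_apply₂₂, Matrix.zero_apply, map_zero, zero_mul, sum_const_zero,
    zero_add, Fintype.sum_unique, smul_eq_mul, diagonal_apply_eq, mul_assoc, ← mul_sum]
  constructor
  · linear_combination (dS b (Y (Sum.inl i) ()) + cS c * Y (Sum.inl i) ()) * hw
  · linear_combination (dS b (Y (Sum.inr i) ()) + cS c * Y (Sum.inr i) ()) * hw

theorem rdc_core {p : ℕ} (hp : p.Prime) (h0 : (p : R) = 0) {A E : Matrix ι ι R[T;T⁻¹]}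
    {q : R[T;T⁻¹]} (hA : Am th q (fromBlocks A E 0 A) p = 0) {b : Bool} {w : Ls R}
    (hw : w * io b q = 1) {c c' : R} (hc : c ^ p = c) {m : ℤ} {A0 E0 : Matrix ι ι R}
    (hA0 : ∀ i j, RdcL 0 (w * io b (A i j)) ∧ (w * io b (A i j)).coeff 0 = A0 i j)
    (hE0 : ∀ i j, RdcL m (w * io b (E i j)) ∧ (w * io b (E i j)).coeff m = E0 i j)
    {y z : ι → R} (hy : A0 *ᵥ y = c • y) (hz : A0ᵀ *ᵥ z = c' • z)
    (hr : (sg b * m : ℤ) - c' + c = 0) : ∑ i, z i * ∑ j, E0 i j * y j = 0 := by
  let W0 : Matrix (ι ⊕ ι) Unit (Ls R) → Prop := fun Y =>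
    ∀ i, RdcL m (Y (Sum.inl i) ()) ∧ RdcL 1 (Y (Sum.inr i) ())
  have key : ∀ Y, W0 Y → W0 (w • df b q (fromBlocks A E 0 A) (fun _ => c) Y) ∧
      ∑ i, z i * ((w • df b q (fromBlocks A E 0 A) (fun _ => c) Y) (Sum.inl i) ()).coeff m = 0 := by
    intro Y hY
    have a1 := fun i j => (hA0 i j).1.mul (hY j).1
    have a2 := fun i j => ((hA0 i j).1.mul (hY j).2).1
    have a3 := fun i j => ((hE0 i j).1.mul (hY j).2).1
    simp only [zero_add] at a1 a2
    refine ⟨fun i => ⟨fun e he => ?_, fun e he => ?_⟩, ?_⟩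
    · rw [(rdc_D hw A E c Y i).1]
      simp [(hY i).1 e he, fun j => (a1 i j).1 e he, fun j => a3 i j e (by omega)]
    · rw [(rdc_D hw A E c Y i).2]
      simp [(hY i).2 e he, fun j => a2 i j e he]
    · have h1 : ∀ i, ((w • df b q (fromBlocks A E 0 A) (fun _ => c) Y) (Sum.inl i) ()).coeff m =
          c' * (Y (Sum.inl i) ()).coeff m - ∑ j, A0 i j * (Y (Sum.inl j) ()).coeff m := by
        intro i
        rw [(rdc_D hw A E c Y i).1]
        simp only [HahnSeries.coeff_add, HahnSeries.coeff_sub, rdc_coeff_sum, coeff_cS_mul,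
          coeff_dS, fun j => (a1 i j).2, fun j => (hA0 i j).2, fun j => a3 i j m (by omega),
          sum_const_zero, add_zero]
        linear_combination (Y (Sum.inl i) ()).coeff m * hr
      have h2 : ∀ j, ∑ i, A0 i j * z i = c' * z j := fun j => congrFun hz j
      simp only [h1, mul_sub, sum_sub_distrib, mul_sum]
      rw [sum_comm, sub_eq_zero]
      refine sum_congr rfl fun j _ => ?_
      rw [← mul_assoc, mul_comm (z j), ← h2, sum_mul]
      exact sum_congr rfl fun i _ => by ring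
  let Y : Matrix (ι ⊕ ι) Unit (Ls R) := fun i _ => Sum.elim (fun _ => 0) (fun j => cS (y j)) i
  have a2 := fun i j => (hA0 i j).1.mul (rdc_cS (y j)).1
  have a3 := fun i j => (hE0 i j).1.mul (rdc_cS (y j)).1
  simp only [add_zero] at a2 a3
  have hd0 : dS b (0 : Ls R) = 0 := by ext; simp
  have hY : W0 (w • df b q (fromBlocks A E 0 A) (fun _ => c) Y) := by
    refine fun i => ⟨fun e he => ?_, fun e he => ?_⟩
    · rw [(rdc_D hw A E c Y i).1]
      simp [Y, hd0, fun j => (hE0 i j).1 e he]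
    · rw [(rdc_D hw A E c Y i).2]
      simp only [Y, Sum.elim_inr, dS_cS, HahnSeries.coeff_add, HahnSeries.coeff_sub, rdc_coeff_sum,
        coeff_cS_mul, HahnSeries.coeff_zero]
      rcases (show e < 0 ∨ e = 0 by omega) with h | rfl
      · simp [fun j => (hA0 i j).1 e h, HahnSeries.coeff_single_of_ne h.ne]
      · have h2 : ∑ j, A0 i j * y j = c * y i := congrFun hy i
        simp only [fun j => (a2 i j).2, fun j => (hA0 i j).2, fun j => (rdc_cS (y j)).2, h2]
        ring
  have := (proj_mem hp h0 hA hw (fun _ => hc)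
    (W := {Y | W0 Y ∧ ∑ i, z i * (Y (Sum.inl i) ()).coeff m = 0}) (fun Z hZ => key Z hZ.1)
    (key _ hY)).2
  simp only [fun i => (rdc_D hw A E c Y i).1] at this
  simpa [Y, hd0, rdc_coeff_sum, fun i j => (a3 i j).2, fun i j => (hE0 i j).2,
    fun j => (rdc_cS (y j)).2] using this

theorem rdc_free {p : ℕ} (hp : p.Prime) (h0 : (p : R) = 0) {A E : Matrix ι ι R[T;T⁻¹]}
    {q : R[T;T⁻¹]} (hA : Am th q (fromBlocks A E 0 A) p = 0) {b : Bool} {w : Ls R}
    (hw : w * io b q = 1) {c c' : R} (hc : c ^ p = c) {m : ℤ} {l l' : ι}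
    (hl : ∀ j, w * io b (A l j) = if j = l then cS c' else 0)
    (hl' : ∀ i, w * io b (A i l') = if i = l' then cS c else 0)
    (hr : (sg b * m : ℤ) - c' + c = 0) : (w * io b (E l l')).coeff m = 0 := by
  have hd0 : dS b (0 : Ls R) = 0 := by ext; simp
  have key : ∀ Y : Matrix (ι ⊕ ι) Unit (Ls R), (∀ i, Y (Sum.inr i) () = 0) →
      (∀ i, (w • df b q (fromBlocks A E 0 A) (fun _ => c) Y) (Sum.inr i) () = 0) ∧
      ((w • df b q (fromBlocks A E 0 A) (fun _ => c) Y) (Sum.inl l) ()).coeff m = 0 := by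
    intro Y hY
    refine ⟨fun i => by simp [(rdc_D hw A E c Y i).2, hY, hd0, -Matrix.smul_apply], ?_⟩
    rw [(rdc_D hw A E c Y l).1]
    simp only [hY, hl, mul_zero, sum_const_zero, add_zero, ite_mul, zero_mul, sum_ite_eq',
      mem_univ, if_true, HahnSeries.coeff_add, HahnSeries.coeff_sub, coeff_cS_mul, coeff_dS]
    linear_combination (Y (Sum.inl l) ()).coeff m * hr
  let Y : Matrix (ι ⊕ ι) Unit (Ls R) :=
    fun i _ => Sum.elim (fun _ => 0) (fun j => if j = l' then 1 else 0) i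
  have hd1 : dS b (1 : Ls R) = 0 := by simpa using dS_cS b (1 : R)
  have hY : ∀ i, (w • df b q (fromBlocks A E 0 A) (fun _ => c) Y) (Sum.inr i) () = 0 := by
    intro i
    rw [(rdc_D hw A E c Y i).2]
    by_cases h : i = l' <;> simp [Y, h, hl', hd0, hd1]
  have := (proj_mem hp h0 hA hw (fun _ => hc)
    (W := {Y | (∀ i, Y (Sum.inr i) () = 0) ∧ (Y (Sum.inl l) ()).coeff m = 0})
    (fun Z hZ => key Z hZ.1) (key _ hY)).2
  rw [(rdc_D hw A E c Y l).1] at this
  simpa [Y, hd0] using this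

theorem rdc_mA {b : Bool} {w : Ls R} (hw : w * io b (1 - T 1) = 1) (μ u v : ι → R) (i j : ι) :
    w * io b (mA μ u v i j) = cS (diagonal μ i j) + cS (u i * v j) * w := by
  simp only [mA, Matrix.add_apply, Matrix.smul_apply, map_apply, smul_eq_mul, map_add, map_mul,
    io_C, vecMulVec_apply]
  linear_combination cS (diagonal μ i j) * hw

theorem rdc_map {R' : Type*} [CommRing R'] (φ : R →+* R') (μ u v : ι → R) :
    (mA μ u v).map (mp φ) = mA (fun i => φ (μ i)) (fun i => φ (u i)) fun i => φ (v i) := by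
  ext1 i j
  by_cases h : i = j <;> simp [mA, vecMulVec_apply, h]

theorem rdc_nat {p : ℕ} (hp : p.Prime) (h0 : (p : R) = 0) (k : ℕ) : (k : R) ^ p = k := by
  have : Fact p.Prime := ⟨hp⟩
  obtain ⟨z, hz⟩ := (ZMod.intCast_zmod_eq_zero_iff_dvd ((k : ℤ) ^ p - k) p).1 (by simp)
  have := congrArg (Int.cast : ℤ → R) hz
  push_cast at this
  rw [h0, zero_mul] at this
  exact sub_eq_zero.1 this

end

variable {ι : Type*} [Fintype ι] [DecidableEq ι] {μ u v κ : ι → ℚ}

theorem rdc_desc {E : Matrix ι ι ℂ[T;T⁻¹]}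
    (md : MD (1 - T 1) (fromBlocks (mC μ u v) E 0 (mC μ u v))) (Q : Finset ℚ)
    (hQ : ∀ i, μ i ∈ Q ∧ u i ∈ Q ∧ v i ∈ Q) :
    ∃ (S : Finset ℂ) (ψ : ℚ → cl S) (E' : Matrix ι ι (LaurentPolynomial (cl S))) (p₀ : ℕ),
      (∀ c ∈ Q, (ψ c : ℂ) = c) ∧ (∀ i j a, ((E' i j).coeff a : ℂ) = (E i j).coeff a) ∧
      ∀ p : ℕ, p.Prime → p₀ ≤ p → ∀ (R' : Type) [CommRing R'] (π : cl S →+* R'), (p : R') = 0 →
        Am th (1 - T 1) (fromBlocks
          (mA (fun i => π (ψ (μ i))) (fun i => π (ψ (u i))) fun i => π (ψ (v i))) (E'.map (mp π)) 0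
          (mA (fun i => π (ψ (μ i))) (fun i => π (ψ (u i))) fun i => π (ψ (v i)))) p = 0 ∧
        ∀ c ∈ Q, ∃ k : ℕ, π (ψ c) = k := by
  classical
  obtain ⟨S, hS, q', B, hq, hB, p₀, hp₀⟩ :=
    md.mb (Q.image (fun c : ℚ => (c : ℂ)) ∪ Q.image fun c : ℚ => ((c.den : ℂ))⁻¹)
  have m1 : ∀ c ∈ Q, (c : ℂ) ∈ cl S := fun c hc =>
    kr_mem (hS (mem_union_left _ (mem_image_of_mem _ hc)))
  have m2 : ∀ c ∈ Q, ((c.den : ℂ))⁻¹ ∈ cl S := fun c hc =>
    kr_mem (hS (mem_union_right _ (mem_image_of_mem _ hc)))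
  let ψ : ℚ → cl S := fun c => if h : (c : ℂ) ∈ cl S then ⟨c, h⟩ else 0
  have hψ : ∀ c ∈ Q, (ψ c : ℂ) = c := fun c hc => by simp only [ψ, dif_pos (m1 c hc)]
  have hq' : q' = 1 - T 1 := mp_inj _ (by rw [hq]; simp)
  have hA : (mA (fun i => ψ (μ i)) (fun i => ψ (u i)) fun i => ψ (v i)).map (mp (cl S).subtype) =
      mC μ u v := by
    rw [rdc_map]
    simp only [Subring.subtype_apply, fun i => hψ _ (hQ i).1, fun i => hψ _ (hQ i).2.1,
      fun i => hψ _ (hQ i).2.2]
  have hE : B.toBlocks₁₂.map (mp (cl S).subtype) = E := by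
    ext1 i j
    exact congrFun (congrFun hB (Sum.inl i)) (Sum.inr j)
  have hB' : B = fromBlocks (mA (fun i => ψ (μ i)) (fun i => ψ (u i)) fun i => ψ (v i))
      B.toBlocks₁₂ 0 (mA (fun i => ψ (μ i)) (fun i => ψ (u i)) fun i => ψ (v i)) := by
    refine Matrix.map_injective (mp_inj (cl S)) ?_
    simp only [hB, fromBlocks_map, hA, hE, Matrix.map_zero _ (map_zero _)]
  refine ⟨S, ψ, B.toBlocks₁₂, p₀ + Q.sup Rat.den + 1, hψ, fun i j a => by rw [← hE]; simp,
    fun p hp hle R' _ π h0 => ⟨?_, fun c hc => ?_⟩⟩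
  · have h1 := Am_map (q := q') (A := B) (mp π) (mp_th π) p
    rw [hB', fromBlocks_map, rdc_map, Matrix.map_zero _ (map_zero _), hq'] at h1
    simp only [map_sub, map_one, mp_T] at h1
    rw [← h1, ← hB', ← hq']
    ext1 i j
    obtain ⟨y, hy⟩ := hp₀ p hp (by omega) i j
    rw [map_apply, hy, map_mul, map_natCast, ← map_natCast C, h0, map_zero, zero_mul,
      Matrix.zero_apply]
  · have : Fact p.Prime := ⟨hp⟩
    have hd : (c.den : ZMod p) ≠ 0 := fun h => by
      have h1 := Nat.le_of_dvd c.pos ((ZMod.natCast_eq_zero_iff _ _).1 h)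
      have h2 : c.den ≤ Q.sup Rat.den := le_sup hc
      omega
    refine ⟨((c.num : ZMod p) / c.den).val, ?_⟩
    obtain ⟨z, hz⟩ := (ZMod.intCast_zmod_eq_zero_iff_dvd
      (c.num - ((c.num : ZMod p) / c.den).val * c.den) p).1 (by simp [hd])
    have h1 : ψ c - (((c.num : ZMod p) / c.den).val : ℕ) = p * (z * ⟨_, m2 c hc⟩) := by
      refine Subtype.ext ?_
      have h2 := congrArg (Int.cast : ℤ → ℂ) hz
      have h3 : (c.den : ℂ) ≠ 0 := Nat.cast_ne_zero.2 c.den_nz
      push_cast at h2 ⊢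
      rw [hψ c hc, Rat.cast_def]
      field_simp
      linear_combination h2
    have h2 := congrArg π h1
    rw [map_sub, map_mul, map_natCast, map_natCast, h0, zero_mul] at h2
    exact sub_eq_zero.1 h2

theorem rdc_zero {S : Finset ℂ} {x : cl S} (p₀ : ℕ) (h : ∀ p : ℕ, p.Prime → p₀ ≤ p →
    ∀ (R' : Type) [CommRing R'] (π : cl S →+* R'), (p : R') = 0 → π x = 0) : (x : ℂ) = 0 := by
  refine fg_zero S p₀ fun p hp hle => ?_
  have := h p hp hle _ (Ideal.Quotient.mk (Ideal.span {(p : cl S)})) (by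
    rw [← map_natCast (Ideal.Quotient.mk (Ideal.span {(p : cl S)})), Ideal.Quotient.eq_zero_iff_mem]
    exact Ideal.mem_span_singleton_self _)
  obtain ⟨y, hy⟩ := Ideal.mem_span_singleton.1 (Ideal.Quotient.eq_zero_iff_mem.1 this)
  exact ⟨1, y, y.2, by rw [pow_one, hy]; simp⟩

theorem rdc_eig {S : Finset ℂ} {R' : Type} [CommRing R'] (π : cl S →+* R') {A : Matrix ι ι ℚ}
    {A' : Matrix ι ι (cl S)} (hA : ∀ i j, (A' i j : ℂ) = A i j) {ψ : ℚ → cl S} {y : ι → ℚ} {c : ℚ}
    (hy : ∀ i, (ψ (y i) : ℂ) = y i) (hc : (ψ c : ℂ) = c) (h : A *ᵥ y = c • y) :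
    A'.map π *ᵥ (fun i => π (ψ (y i))) = π (ψ c) • fun i => π (ψ (y i)) := by
  funext i
  have h1 : ∑ j, A i j * y j = c * y i := congrFun h i
  have h2 : ∑ j, A' i j * ψ (y j) = ψ c * ψ (y i) := Subtype.ext (by
    push_cast
    simp only [hA, hy, hc]
    exact_mod_cast h1)
  have h3 := congrArg π h2
  simpa [mulVec, dotProduct] using h3

theorem rdc_obs {E : Matrix ι ι ℂ[T;T⁻¹]}
    (md : MD (1 - T 1) (fromBlocks (mC μ u v) E 0 (mC μ u v))) (b : Bool) (k : ℤ)
    (hE : ∀ i j a, sg b * a < sg b * k → (E i j).coeff a = 0) {y z : ι → ℚ} {c c' : ℚ}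
    (hy : (diagonal μ + if b then vecMulVec u v else 0) *ᵥ y = c • y)
    (hz : (diagonal μ + if b then vecMulVec u v else 0)ᵀ *ᵥ z = c' • z)
    (hr : (if b then k else k - 1 : ℤ) - c' + c = 0) :
    ∑ i, (z i : ℂ) * ∑ j, (E i j).coeff k * y j = 0 := by
  obtain ⟨S, ψ, E', p₀, hψ, hE', H⟩ := rdc_desc md
    (univ.image μ ∪ univ.image u ∪ univ.image v ∪ univ.image y ∪ univ.image z ∪ {c, c'})
    (fun i => by simp)
  have e1 : ∀ i, (ψ (μ i) : ℂ) = μ i := fun i => hψ _ (by simp)
  have e2 : ∀ i, (ψ (u i) : ℂ) = u i := fun i => hψ _ (by simp)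
  have e3 : ∀ i, (ψ (v i) : ℂ) = v i := fun i => hψ _ (by simp)
  have e4 : ∀ i, (ψ (y i) : ℂ) = y i := fun i => hψ _ (by simp)
  have e5 : ∀ i, (ψ (z i) : ℂ) = z i := fun i => hψ _ (by simp)
  have e6 : (ψ c : ℂ) = c := hψ _ (by simp)
  have e7 : (ψ c' : ℂ) = c' := hψ _ (by simp)
  have := rdc_zero (x := ∑ i, ψ (z i) * ∑ j, (E' i j).coeff k * ψ (y j)) p₀ fun p hp hle R' _ π h0 => by
    obtain ⟨hA, hN⟩ := H p hp hle R' π h0
    obtain ⟨w, hw, cw⟩ := exists_inv_one_sub (R := R') b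
    obtain ⟨n, hn⟩ := hN c (by simp)
    let A' : Matrix ι ι (cl S) := diagonal (fun i => ψ (μ i)) +
      if b then vecMulVec (fun i => ψ (u i)) (fun i => ψ (v i)) else 0
    have hA' : ∀ i j, (A' i j : ℂ) =
        ((diagonal μ + if b then vecMulVec u v else 0 : Matrix ι ι ℚ) i j : ℚ) := fun i j => by
      by_cases h : i = j <;> cases b <;> simp [A', vecMulVec_apply, h, e1, e2, e3]
    have lw : RdcL (if b then 0 else 1) w := fun e he => by
      rw [cw]; cases b <;> simp at he ⊢ <;> omega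
    have lE : ∀ i j, RdcL (sg b * k) (io b (E'.map (mp π) i j)) := fun i j e he => by
      have : (E' i j).coeff (sg b * e) = 0 := Subtype.ext (by
        rw [hE', hE _ _ _ (by rwa [← mul_assoc, sg_sq, one_mul])]; rfl)
      simp [this]
    have h1 := rdc_core hp h0 hA hw (c := π (ψ c)) (c' := π (ψ c')) (by rw [hn, rdc_nat hp h0])
      (m := (if b then 0 else 1) + sg b * k) (A0 := A'.map π)
      (E0 := fun i j => (sg b : ℤ) * π ((E' i j).coeff k))
      (fun i j => by
        rw [rdc_mA hw]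
        refine ⟨fun e he => ?_, ?_⟩
        · rw [HahnSeries.coeff_add, (rdc_cS _).1 e he, coeff_cS_mul, lw e (by split_ifs <;> omega),
            mul_zero, add_zero]
        · rw [HahnSeries.coeff_add, (rdc_cS _).2, coeff_cS_mul, cw]
          by_cases h : i = j <;> cases b <;> simp [A', vecMulVec_apply, h])
      (fun i j => ⟨(lw.mul (lE i j)).1, by
        rw [(lw.mul (lE i j)).2, cw, coeff_io, ← mul_assoc, sg_sq, one_mul]
        cases b <;> simp [sg]⟩)
      (rdc_eig π hA' e4 e6 hy) (rdc_eig π (A' := A'ᵀ) (fun i j => hA' j i) e5 e7 hz)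
      (by
        have : ((if b then k else k - 1 : ℤ) : cl S) - ψ c' + ψ c = 0 := Subtype.ext (by
          generalize (if b then k else k - 1 : ℤ) = k' at hr
          push_cast
          rw [e6, e7]
          exact_mod_cast hr)
        have h2 := congrArg π this
        rw [map_add, map_sub, map_intCast, map_zero] at h2
        rw [← h2]
        cases b <;> simp [sg]
        ring)
    cases b <;> simpa [sg] using h1
  simpa [hE', e4, e5] using this

theorem rdc_solve {A P P' F : Matrix ι ι ℂ} {c : ι → ℂ} (h1 : P * P' = 1)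
    (h2 : A * P = P * diagonal c) (k : ℂ)
    (h : ∀ i j, k - c i + c j = 0 → (P' * F * P) i j = 0) : ∃ X, k • X - A * X + X * A = F := by
  have h3 : P' * A = diagonal c * P' := by
    rw [← Matrix.mul_one (P' * A), ← h1, ← Matrix.mul_assoc, Matrix.mul_assoc P', h2,
      ← Matrix.mul_assoc, mul_eq_one_comm.1 h1, Matrix.one_mul]
  let Y : Matrix ι ι ℂ := of fun i j => (P' * F * P) i j / (k - c i + c j)
  have h4 : k • Y - diagonal c * Y + Y * diagonal c = P' * F * P := by
    ext i j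
    simp only [Y, Matrix.add_apply, Matrix.sub_apply, Matrix.smul_apply, diagonal_mul, mul_diagonal,
      of_apply, smul_eq_mul]
    by_cases h0 : k - c i + c j = 0
    · simp [h i j h0]
    · field_simp
  refine ⟨P * Y * P', ?_⟩
  calc _ = P * (k • Y - diagonal c * Y + Y * diagonal c) * P' := by
        rw [Matrix.mul_assoc (P * Y) P', h3, ← Matrix.mul_assoc A, ← Matrix.mul_assoc A, h2]
        simp only [Matrix.mul_add, Matrix.add_mul, Matrix.mul_sub, Matrix.sub_mul, Matrix.mul_smul,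
          Matrix.smul_mul, Matrix.mul_assoc]
    _ = F := by
        rw [h4, ← Matrix.mul_assoc, ← Matrix.mul_assoc, h1, Matrix.one_mul, Matrix.mul_assoc, h1,
          Matrix.mul_one]

theorem rdc_gf (μ u v : ι → ℂ) (X : Matrix ι ι ℂ) (k : ℤ) (i j : ι) (a : ℤ) :
    (gf th (1 - T 1) (mA μ u v) (mA μ u v) ((T k : ℂ[T;T⁻¹]) • X.map C) i j).coeff a =
      (if k = a then ((k : ℂ) • X - (diagonal μ + vecMulVec u v) * X +
        X * (diagonal μ + vecMulVec u v)) i j else 0) -
      if k + 1 = a then ((k : ℂ) • X - diagonal μ * X + X * diagonal μ) i j else 0 := by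
  have h1 : ((T k : ℂ[T;T⁻¹]) • X.map C).map th = (T k : ℂ[T;T⁻¹]) • ((k : ℂ) • X).map C := by
    ext1 i j
    simp only [map_apply, Matrix.smul_apply, smul_eq_mul, mul_comm (T k : ℂ[T;T⁻¹]), th_CT]
  have h2 : gf th (1 - T 1) (mA μ u v) (mA μ u v) ((T k : ℂ[T;T⁻¹]) • X.map C) =
      (T k : ℂ[T;T⁻¹]) • ((k : ℂ) • X - (diagonal μ + vecMulVec u v) * X +
        X * (diagonal μ + vecMulVec u v)).map C -
      (T (k + 1) : ℂ[T;T⁻¹]) • ((k : ℂ) • X - diagonal μ * X + X * diagonal μ).map C := by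
    rw [gf, h1, mA, T_add]
    simp only [Matrix.map_add _ (map_add C), Matrix.map_sub _ (map_sub C), Matrix.map_mul,
      Matrix.mul_add, Matrix.add_mul, Matrix.mul_smul, Matrix.smul_mul]
    module
  rw [h2]
  simp only [Matrix.sub_apply (_ • _), Matrix.smul_apply (T _), map_apply, smul_eq_mul,
    mul_comm (T _ : ℂ[T;T⁻¹]), AddMonoidAlgebra.coeff_sub, Finsupp.sub_apply, coeff_CT]

theorem rdc_gf_add {A δ δ' : Matrix ι ι ℂ[T;T⁻¹]} {q : ℂ[T;T⁻¹]} :
    gf th q A A (δ + δ') = gf th q A A δ + gf th q A A δ' := by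
  simp only [gf, Matrix.map_add _ th_add, Matrix.mul_add, Matrix.add_mul, smul_add]
  abel

theorem md_shift {A E δ : Matrix ι ι ℂ[T;T⁻¹]} {q : ℂ[T;T⁻¹]} (md : MD q (fromBlocks A E 0 A)) :
    MD q (fromBlocks A (E - gf th q A A δ) 0 A) := by
  have h0 : th (0 : ℂ[T;T⁻¹]) = 0 := by ext; simp
  have h1 : (1 : Matrix ι ι ℂ[T;T⁻¹]).map th = 0 := by
    ext1 i j
    by_cases h : i = j
    · simpa [h] using th_CT (1 : ℂ) 0
    · simp [h, h0]
  refine (MD.gauge (G := fromBlocks 1 δ 0 1) ?_ (by simp)).1 md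
  simp only [gf, fromBlocks_map, h1, Matrix.map_zero _ h0, fromBlocks_smul, fromBlocks_multiply,
    sub_eq_add_neg, fromBlocks_neg, fromBlocks_add]
  rw [← fromBlocks_zero, fromBlocks_inj]
  refine ⟨by simp, ?_, by simp, by simp⟩
  simp only [Matrix.one_mul, Matrix.mul_one]
  abel

theorem red_const (h : Mdl μ u v) (e : Exq μ u v κ) {E : Matrix ι ι ℂ[T;T⁻¹]}
    (md : MD (1 - T 1) (fromBlocks (mC μ u v) E 0 (mC μ u v))) :
    ∃ (δ : Matrix ι ι ℂ[T;T⁻¹]) (R : Matrix ι ι ℂ),
      E - gf th (1 - T 1) (mC μ u v) (mC μ u v) δ = R.map C := by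
  obtain ⟨P, P', h1, h2, -⟩ := e.eig h
  have h3 : P' * (diagonal μ + vecMulVec u v) = diagonal κ * P' := by
    rw [← Matrix.mul_one (P' * _), ← h1, ← Matrix.mul_assoc, Matrix.mul_assoc P', h2,
      ← Matrix.mul_assoc, mul_eq_one_comm.1 h1, Matrix.one_mul]
  suffices H : ∀ (n m : ℕ) (E : Matrix ι ι ℂ[T;T⁻¹]),
      MD (1 - T 1) (fromBlocks (mC μ u v) E 0 (mC μ u v)) →
      (∀ i j (a : ℤ), a < -n ∨ m < a → (E i j).coeff a = 0) →
      ∃ (δ : Matrix ι ι ℂ[T;T⁻¹]) (R : Matrix ι ι ℂ),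
        E - gf th (1 - T 1) (mC μ u v) (mC μ u v) δ = R.map C by
    let N := univ.sup fun x : ι × ι => (E x.1 x.2).coeff.support.sup Int.natAbs
    refine H N N E md fun i j a ha => by_contra fun h0 => ?_
    have : a.natAbs ≤ N := le_trans (le_sup (f := Int.natAbs) (Finsupp.mem_support_iff.2 h0))
      (le_sup (f := fun x : ι × ι => (E x.1 x.2).coeff.support.sup Int.natAbs) (mem_univ (i, j)))
    omega
  intro n
  induction n with
  | zero =>
    intro m
    induction m with
    | zero =>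
      refine fun E _ hE => ⟨0, fun i j => (E i j).coeff 0, ?_⟩
      have h0 : th (0 : ℂ[T;T⁻¹]) = 0 := by ext; simp
      ext i j a
      by_cases ha : a = 0
      · simp [gf, h0, ha]
      · simp [gf, h0, ha, hE i j a (by omega)]
    | succ m ih =>
      intro E md hE
      obtain ⟨X, hX⟩ := rdc_solve (A := diagonal fun i => (μ i : ℂ)) (P := 1) (P' := 1)
        (F := of fun i j => -(E i j).coeff (m + 1)) (c := fun i => (μ i : ℂ)) (by simp) (by simp)
        ((m : ℤ) : ℂ) fun i j hr => by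
          have := rdc_obs md false (m + 1) (fun i j a ha => hE i j a (by simp only [sg] at ha; omega))
            (y := Pi.single j 1) (z := Pi.single i 1) (c := μ j) (c' := μ i)
            (by ext l; by_cases h : l = j <;> simp [h, mulVec_diagonal])
            (by ext l; by_cases h : l = i <;> simp [h, mulVec_diagonal])
            (by simp only [Bool.false_eq_true, if_false, add_sub_cancel_right]; exact_mod_cast hr)
          simpa [Pi.single_apply, apply_ite (Rat.cast : ℚ → ℂ)] using this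
      obtain ⟨δ, R, hR⟩ := ih _ (md_shift (δ := (T m : ℂ[T;T⁻¹]) • X.map C) md) fun i j a ha => by
        rw [Matrix.sub_apply, AddMonoidAlgebra.coeff_sub, Finsupp.sub_apply, rdc_gf, hX,
          if_neg (by omega)]
        split_ifs with l
        · simp [l]
        · rw [hE i j a (by omega)]; simp
      exact ⟨_ + δ, R, by rw [rdc_gf_add, ← sub_sub, hR]⟩
  | succ n ih =>
    intro m E md hE
    obtain ⟨X, hX⟩ := rdc_solve (A := diagonal (fun i => (μ i : ℂ)) +
        vecMulVec (fun i => (u i : ℂ)) fun i => (v i : ℂ)) (P := P.map (Rat.castHom ℂ))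
      (P' := P'.map (Rat.castHom ℂ)) (F := of fun i j => (E i j).coeff (-(n + 1)))
      (c := fun i => (κ i : ℂ)) (by rw [← Matrix.map_mul, h1]; simp)
      (by
        have := congrArg (fun M => M.map (Rat.castHom ℂ)) h2
        simp only [Matrix.map_mul, Matrix.map_add _ (map_add _), diagonal_map (map_zero _)] at this
        rw [show (vecMulVec (fun i => (u i : ℂ)) fun i => (v i : ℂ)) =
          (vecMulVec u v).map (Rat.castHom ℂ) by ext; simp [vecMulVec_apply]]
        exact this)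
      ((-(n + 1) : ℤ) : ℂ) fun i j hr => by
        have := rdc_obs md true (-(n + 1))
          (fun i j a ha => hE i j a (by simp only [sg] at ha; omega))
          (y := fun l => P l j) (z := fun l => P' i l) (c := κ j) (c' := κ i)
          (by
            ext l
            have := congrFun (congrFun h2 l) j
            rw [mul_diagonal, mul_comm] at this
            exact this)
          (by
            ext l
            have := congrFun (congrFun h3 i) l
            rw [diagonal_mul, Matrix.mul_apply] at this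
            simpa [mulVec, dotProduct, mul_comm] using this)
          (by simp only [if_true]; exact_mod_cast hr)
        rw [Matrix.mul_assoc]
        simpa [Matrix.mul_apply] using this
    obtain ⟨δ, R, hR⟩ := ih m _ (md_shift (δ := (T (-(n + 1)) : ℂ[T;T⁻¹]) • X.map C) md)
      fun i j a ha => by
        rw [Matrix.sub_apply, AddMonoidAlgebra.coeff_sub, Finsupp.sub_apply, rdc_gf, hX,
          if_neg (c := _ + 1 = a) (by omega)]
        split_ifs with l
        · simp [← l]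
        · rw [hE i j a (by omega)]; simp
    exact ⟨_ + δ, R, by rw [rdc_gf_add, ← sub_sub, hR]⟩

theorem const_res (h : Mdl μ u v) (e : Exq μ u v κ) {R : Matrix ι ι ℂ}
    (md : MD (1 - T 1) (fromBlocks (mC μ u v) (R.map C) 0 (mC μ u v))) :
    (∀ i, u i ≠ 0 → ∑ l, ∑ l', (v l / (κ i - μ l) : ℚ) * R l l' * (u l' / (κ i - μ l') : ℚ) = 0) ∧
      ∀ l l', u l = 0 → u l' = 0 → R l l' = 0 := by
  refine ⟨fun i hi => ?_, fun l l' hl hl' => ?_⟩
  · have k1 : ∀ l, u l * (v l / (κ i - μ l)) = u l * v l / (κ i - μ l) := fun l => by ring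
    have k2 : ∀ l, v l * (u l / (κ i - μ l)) = u l * v l / (κ i - μ l) := fun l => by ring
    have := rdc_obs md true 0 (fun i j a ha => by
        have : a ≠ 0 := by simp only [sg] at ha; omega
        simp [this])
      (y := fun l => u l / (κ i - μ l)) (z := fun l => v l / (κ i - μ l)) (c := κ i) (c' := κ i)
      (by
        ext l
        simp only [if_true, add_mulVec, Pi.add_apply, mulVec_diagonal, vecMulVec_mulVec,
          dotProduct, k2, e.eq i hi, Pi.smul_apply, smul_eq_mul, op_smul_eq_mul]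
        by_cases h0 : u l = 0
        · simp [h0]
        · have := sub_ne_zero.2 (e.ne i l hi h0)
          field_simp
          ring)
      (by
        ext l
        simp only [if_true, transpose_add, diagonal_transpose, transpose_vecMulVec, add_mulVec,
          Pi.add_apply, mulVec_diagonal, vecMulVec_mulVec, dotProduct, k1, e.eq i hi, Pi.smul_apply,
          smul_eq_mul, op_smul_eq_mul]
        by_cases h0 : u l = 0
        · simp [(h.uv l).1 h0]
        · have := sub_ne_zero.2 (e.ne i l hi h0)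
          field_simp
          ring)
      (by simp)
    simpa [mul_sum, mul_assoc] using this
  · obtain ⟨S, ψ, E', p₀, hψ, hE', H⟩ := rdc_desc md
      (univ.image μ ∪ univ.image u ∪ univ.image v ∪ {μ l - μ l'}) (fun i => by simp)
    have e1 : ψ (u l) = 0 := Subtype.ext (by rw [hψ _ (by simp), hl]; simp)
    have e2 : ψ (v l') = 0 := Subtype.ext (by rw [hψ _ (by simp), (h.uv l').1 hl']; simp)
    have e3 : ψ (μ l - μ l') = ψ (μ l) - ψ (μ l') := Subtype.ext (by
      push_cast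
      rw [hψ _ (by simp), hψ _ (by simp), hψ _ (by simp), Rat.cast_sub])
    have := rdc_zero (x := (E' l l').coeff 0) p₀ fun p hp hle R' _ π h0 => by
      obtain ⟨hA, hN⟩ := H p hp hle R' π h0
      obtain ⟨w, hw, cw⟩ := exists_inv_one_sub (R := R') true
      obtain ⟨n, hn⟩ := hN (μ l') (by simp)
      obtain ⟨k, hk⟩ := hN (μ l - μ l') (by simp)
      have h1 := rdc_free hp h0 hA hw (c := π (ψ (μ l'))) (c' := π (ψ (μ l)))
        (by rw [hn, rdc_nat hp h0]) (m := k) (l := l) (l' := l')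
        (fun j => by rw [rdc_mA hw]; by_cases h : j = l <;> simp [h, e1, Ne.symm])
        (fun j => by rw [rdc_mA hw]; by_cases h : j = l' <;> simp [h, e2])
        (by rw [e3, map_sub] at hk; simp only [sg]; push_cast; linear_combination -hk)
      have h2 : E' l l' = C ((E' l l').coeff 0) := mp_inj _ (by
        ext a
        by_cases ha : a = 0 <;> simp [ha, hE'])
      rw [map_apply, h2, mp_C, io_C, mul_comm, coeff_cS_mul, cw] at h1
      simpa using h1
    simpa [hE'] using this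

end Pool.Agent.Lib.MP_815ef6_nt.Ch
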