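import Pool.Agent.Lib.MP_815ef6_nt.CS.LcB
import Pool.Agent.Lib.MP_815ef6_nt.CS.Rdc

/-! Deformations of a model with vanishing `p`-curvature are trivial. -/

namespace Pool.Agent.Lib.MP_815ef6_nt.Ch
open Finset LaurentPolynomial Matrix

variable {ι : Type*} [Fintype ι] [DecidableEq ι] {μ u v : ι → ℚ}

theorem lemA_entry (l i : ι) : mC μ u v l i =
    (if l = i then (1 - T 1) * C (μ l : ℂ) else 0) + C ((u l : ℂ) * v i) := by
  by_cases h : l = i <;> simp [mA, h, vecMulVec_apply]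

theorem lemA_ev (l i : ι) : ev1 (mC μ u v l i) = (u l : ℂ) * v i := by
  rw [lemA_entry, map_add, ev1_C]
  split_ifs <;> simp [ev1_T]

theorem lemA_th0 : th (0 : ℂ[T;T⁻¹]) = 0 := by
  ext a
  simp

theorem lemA_thC (c : ℂ) : th (C c : ℂ[T;T⁻¹]) = 0 := by
  simpa using th_CT c 0

theorem lemA_apply {q : ℂ[T;T⁻¹]} (A δ : Matrix ι ι ℂ[T;T⁻¹]) (l i : ι) :
    gf th q A A δ l i = q * th (δ l i) - ∑ j, A l j * δ j i + ∑ j, δ l j * A j i := by
  simp [gf, Matrix.mul_apply]

theorem lemA_add {q : ℂ[T;T⁻¹]} (A δ δ' : Matrix ι ι ℂ[T;T⁻¹]) :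
    gf th q A A (δ + δ') = gf th q A A δ + gf th q A A δ' := by
  ext1 l i
  simp only [lemA_apply, Matrix.add_apply, th_add, mul_add, add_mul, sum_add_distrib]
  ring

theorem lemA_dual : mC (-μ) v (-u) = -(mC μ u v)ᵀ := by
  ext1 l i
  rw [Matrix.neg_apply, transpose_apply, lemA_entry, lemA_entry]
  by_cases h : l = i
  · subst h
    simp [mul_comm, add_comm]
  · simp [h, Ne.symm h, mul_comm]

theorem lemA_col (h : Mdl μ u v) {R : Matrix ι ι ℂ}
    (md : MD (1 - T 1) (fromBlocks (mC μ u v) (R.map C) 0 (mC μ u v)))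
    (hR : ∀ i, u i = 0 → ∃ ε : ℂ, ∀ l, R l i = ε * u l) : ∃ δ, ∀ l i,
      gf th (1 - T 1) (mC μ u v) (mC μ u v) δ l i = if u i = 0 then C (R l i) else 0 := by
  choose y hy using fun i (hi : u i = 0) => (hR i hi).elim fun ε hε => h.col md hi hε
  refine ⟨of fun l i => if hi : u i = 0 then y i hi l else 0, fun l i => ?_⟩
  rw [lemA_apply, sum_eq_single i (f := fun j => of _ l j * mC μ u v j i) (fun j _ hj => ?_)
    (by simp)]
  · by_cases hi : u i = 0
    · rw [if_pos hi, ← hy i hi l, lemA_entry]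
      simp only [of_apply, dif_pos hi, mulVec, dotProduct, hi]
      simp
      ring
    · simp [hi, lemA_th0]
  · by_cases hj' : u j = 0 <;> simp [lemA_entry, hj, hj']

theorem lemA_row (h : Mdl μ u v) {R : Matrix ι ι ℂ}
    (md : MD (1 - T 1) (fromBlocks (mC μ u v) (R.map C) 0 (mC μ u v)))
    (hR : ∀ l, u l = 0 → ∃ ε : ℂ, ∀ i, R l i = ε * v i) : ∃ δ, ∀ l i,
      gf th (1 - T 1) (mC μ u v) (mC μ u v) δ l i = if u l = 0 then C (R l i) else 0 := by
  obtain ⟨δ, hδ⟩ := lemA_col h.dual (R := -Rᵀ) (by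
    convert md.dual.reindex (Equiv.sumComm ι ι) using 1
    rw [lemA_dual]
    ext1 a b
    rcases a with a | a <;> rcases b with b | b <;> simp) fun i hi =>
      (hR i ((h.uv i).2 hi)).elim fun ε hε => ⟨-ε, fun l => by simp [hε]⟩
  refine ⟨-δᵀ, fun l i => ?_⟩
  have := hδ i l
  have e : ∀ f : ℂ[T;T⁻¹], th (-f) = -th f := fun f => by
    ext a
    simp
  rw [lemA_apply, lemA_dual] at this
  rw [lemA_apply]
  simp only [Matrix.neg_apply, transpose_apply, e, mul_neg, neg_mul, sum_neg_distrib, map_neg,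
    ← h.uv l, mul_comm (δ _ _)] at this ⊢
  split_ifs at this ⊢ <;> linear_combination -this

theorem lemA_diag (d : ι → ℂ) (l i : ι) : gf th (1 - T 1) (mC μ u v) (mC μ u v)
    (diagonal fun j => C (d j)) l i = C ((d l - d i) * ((u l : ℂ) * v i)) := by
  rw [lemA_apply, ← Matrix.mul_apply, ← Matrix.mul_apply, mul_diagonal, diagonal_mul, lemA_entry]
  by_cases h : l = i
  · subst h
    simp [lemA_thC, mul_comm]
  · simp [h, lemA_th0]
    ring

theorem Mdl.split' (h : Mdl μ u v) {E : Matrix ι ι ℂ[T;T⁻¹]}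
    (md : MD (1 - T 1) (fromBlocks (mC μ u v) E 0 (mC μ u v))) {u' v' : ι → ℂ}
    (ht : ∀ l i, u l ≠ 0 ∨ u i ≠ 0 → ev1 (E l i) = u' l * v i + u l * v' i) :
    ∃ δ, gf th (1 - T 1) (mC μ u v) (mC μ u v) δ = E := by
  obtain ⟨κ, e⟩ := h.exq
  obtain ⟨δ, R, hR⟩ := red_const h e md
  have md' := md_shift (δ := δ) md
  rw [hR] at md'
  obtain ⟨c1, c2⟩ := const_res h e md'
  obtain ⟨a, b, hab⟩ : ∃ a b : ι → ℂ, ∀ l i, u l ≠ 0 ∨ u i ≠ 0 →
      R l i = a l * v i + u l * b i := by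
    refine ⟨fun l => u' l - ∑ j, ev1 (δ l j) * u j, fun i => v' i + ∑ j, v j * ev1 (δ j i),
      fun l i hli => ?_⟩
    have := congrArg ev1 (congrFun (congrFun hR l) i)
    rw [Matrix.sub_apply, map_apply, ev1_C, lemA_apply] at this
    simp only [map_sub, map_add, map_mul, map_sum, lemA_ev, ht l i hli, map_one, ev1_T] at this
    rw [← this]
    simp only [sub_mul, mul_add, sum_mul, mul_sum, mul_assoc]
    ring
  obtain ⟨δ₁, h1⟩ := lemA_col h md' fun i hi => ⟨b i, fun l => by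
    by_cases hl : u l = 0
    · simp [c2 l i hl hi, hl]
    · simp [hab l i (.inl hl), (h.uv i).1 hi, mul_comm]⟩
  obtain ⟨δ₂, h2⟩ := lemA_row h md' fun l hl => ⟨a l, fun i => by
    by_cases hi : u i = 0
    · simp [c2 l i hl hi, (h.uv i).1 hi]
    · simp [hab l i (.inr hi), hl]⟩
  have h3 := e.cauchy h (x := fun l => v l * a l + u l * b l)
    (fun l hl => by simp [hl, (h.uv l).1 hl]) fun i hi => by
      have k : ∑ l, (u l : ℂ) * v l / (κ i - μ l : ℚ) = 1 := by exact_mod_cast e.eq i hi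
      have k' : ∀ l l', ((v l / (κ i - μ l) : ℚ) : ℂ) * R l l' * (u l' / (κ i - μ l') : ℚ) =
          v l * a l / (κ i - μ l : ℚ) * (u l' * v l' / (κ i - μ l' : ℚ)) +
            u l * v l / (κ i - μ l : ℚ) * (u l' * b l' / (κ i - μ l' : ℚ)) := fun l l' => by
        by_cases hl : u l' = 0
        · simp [hl]
        · rw [hab l l' (.inr hl), Rat.cast_div, Rat.cast_div]
          ring
      have := c1 i hi
      simp only [k', sum_add_distrib, ← mul_sum, ← sum_mul, k, mul_one, one_mul] at this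
      simpa only [add_div, sum_add_distrib] using this
  refine ⟨δ + (δ₁ + δ₂ + diagonal fun j => C (a j / u j)), ?_⟩
  rw [lemA_add, ← eq_sub_iff_add_eq', hR, lemA_add, lemA_add]
  ext1 l i
  rw [Matrix.add_apply, Matrix.add_apply, h1, h2, lemA_diag, map_apply]
  by_cases hl : u l = 0 <;> by_cases hi : u i = 0
  · simp [hl, hi, c2 l i hl hi]
  · simp [hl, hi]
  · simp [hl, hi, (h.uv i).1 hi]
  · rw [if_neg hl, if_neg hi, add_zero, zero_add, hab l i (.inl hl)]
    have := h3 i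
    have hl' : (u l : ℂ) ≠ 0 := by exact_mod_cast hl
    have hi' : (u i : ℂ) ≠ 0 := by exact_mod_cast hi
    congr 1
    field_simp
    linear_combination (-u l : ℂ) * this

theorem Mdl.split (h : Mdl μ u v) {E : Matrix ι ι ℂ[T;T⁻¹]}
    (md : MD (1 - T 1) (fromBlocks (mC μ u v) E 0 (mC μ u v)))
    (ht : Tan ((mC μ u v).map ev1) (E.map ev1)) :
    ∃ δ, gf th (1 - T 1) (mC μ u v) (mC μ u v) δ = E := by
  by_cases h0 : ∀ s, u s = 0
  · exact h.split' md (u' := 0) (v' := 0) fun l i hli => by simp [h0] at hli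
  obtain ⟨s, hs⟩ := not_forall.1 h0
  have hu : (u s : ℂ) ≠ 0 := by exact_mod_cast hs
  have hv : (v s : ℂ) ≠ 0 := by exact_mod_cast fun e => hs ((h.uv s).2 e)
  refine h.split' md (u' := fun k => ev1 (E k s) / v s)
    (v' := fun l => ev1 (E s l) / u s - ev1 (E s s) * v l / (u s * v s)) fun k l _ => ?_
  have := ht s s k l
  simp only [map_apply, lemA_ev] at this
  field_simp
  linear_combination this

end Pool.Agent.Lib.MP_815ef6_nt.Ch
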