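import Pool.Agent.Lib.MP_815ef6_nt.CS.Gp
import Pool.Agent.Lib.MP_815ef6_nt.CS.CmA

/-! Integral fundamental matrices of the models. -/

namespace Pool.Agent.Lib.MP_815ef6_nt.Ch
open Finset LaurentPolynomial Matrix

variable {ι : Type*} [Fintype ι] [DecidableEq ι]

/-- Fundamental matrices at both ends. -/
structure Sl {R : Type*} [CommRing R] (μ u v : ι → R) (κ : Bool → ι → R)
    (Φ Φ' : Bool → Matrix ι ι (Ls R)) : Prop where
  fund : ∀ b, df b (1 - T 1) (mA μ u v) (κ b) (Φ b) = 0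
  inv : ∀ b, Φ b * Φ' b = 1
  od : ∀ b, Od 0 0 (Φ b) ∧ Od 0 0 (Φ' b)
  mb : MB (1 - T 1) (mA μ u v)

theorem sol2_zm {M M' e : ℕ} (h : M ∣ M') (h0 : 0 < M') {x : ℚ} {z : ℤ} (hx : (M : ℚ) ^ e * x = z) :
    x ∈ ZM M' := by
  obtain ⟨t, rfl⟩ := h
  have a : ((M * t : ℕ) : ℚ) ≠ 0 := Nat.cast_ne_zero.2 h0.ne'
  have e1 : x = z * (t * ((M * t : ℕ) : ℚ)⁻¹) ^ e := by
    rw [← hx, mul_right_comm, ← mul_pow, ← mul_assoc, ← Nat.cast_mul, mul_inv_cancel₀ a, one_pow,
      one_mul]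
  have b : ((M * t : ℕ) : ℚ)⁻¹ ∈ ZM (M * t) := Subring.subset_closure (Set.mem_singleton _)
  rw [e1]
  exact mul_mem (intCast_mem _ z) (pow_mem (mul_mem (natCast_mem _ t) b) e)

theorem sol2_dvd {M : ℕ} (h : 0 < M) : ∀ᶠ n : ℕ in Filter.atTop, M ∣ n.factorial :=
  (Filter.eventually_ge_atTop M).mono fun _ => Nat.dvd_factorial h

theorem sol2_q (x : ℚ) : ∀ᶠ n : ℕ in Filter.atTop, x ∈ ZM n.factorial :=
  (sol2_dvd x.pos).mono fun n h => sol2_zm (e := 1) h n.factorial_pos (z := x.num) (by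
    rw [pow_one, Rat.den_mul_eq_num])

theorem sol2_num {p N : ℕ} (hp : p.Prime) (hN : 0 < N) (h : N < p) {r : ℚ} {z : ℤ}
    (e : (z : ℚ) = N * r) : (p : ℤ) ∣ z ↔ (p : ℤ) ∣ r.num := by
  have a : z * r.den = N * r.num := by
    exact_mod_cast (by rw [e, mul_assoc, Rat.mul_den_eq_num] : (z * r.den : ℚ) = N * r.num)
  have q := Nat.prime_iff_prime_int.1 hp
  refine ⟨fun k => (q.dvd_or_dvd (a ▸ k.mul_right _)).resolve_left fun c => ?_,
    fun k => (q.dvd_or_dvd (a ▸ k.mul_left _)).resolve_right fun c => ?_⟩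
  · exact (Nat.le_of_dvd hN (Int.natCast_dvd_natCast.1 c)).not_gt h
  · exact hp.one_lt.ne' (Nat.eq_one_of_dvd_coprimes r.reduced (Int.natCast_dvd.1 k)
      (Int.natCast_dvd_natCast.1 c))

/-- The hypergeometric sequences have bounded denominators. -/
theorem sol2_hyp {u c d : ι → ℚ} (h : Gap u c d)
    (hc : ∀ i j, u i ≠ 0 → u j ≠ 0 → c i = c j → i = j) : ∃ U : ι → ℕ → ℚ,
    (∀ i, U i 0 = 1) ∧ (∀ i, u i ≠ 0 → ∀ k : ℕ, (∏ j with u j ≠ 0, (c i + (k + 1) - c j)) *
      U i (k + 1) = (∏ j with u j ≠ 0, (c i + k - d j)) * U i k) ∧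
      ∀ᶠ n : ℕ in Filter.atTop, ∀ i k, U i k ∈ ZM n.factorial := by
  obtain ⟨p₀, h⟩ := h
  let e := (Fintype.equivFin {i // u i ≠ 0}).symm
  obtain ⟨N, hN, c', d', h1, h2⟩ : ∃ N : ℕ, 0 < N ∧ ∃ c' d' : ι → ℤ,
      (∀ i, (c' i : ℚ) = N * c i) ∧ ∀ i, (d' i : ℚ) = N * d i := by
    have k : ∀ (x : ℚ) (N : ℕ), x.den ∣ N → ∃ z : ℤ, (z : ℚ) = N * x := fun x N ⟨t, a⟩ =>
      ⟨t * x.num, by rw [a]; push_cast; rw [← Rat.den_mul_eq_num]; ring⟩
    choose c' h1 using fun i => k (c i) (∏ i, (c i).den * (d i).den)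
      ((dvd_mul_right _ _).trans (dvd_prod_of_mem _ (mem_univ i)))
    choose d' h2 using fun i => k (d i) (∏ i, (c i).den * (d i).den)
      ((dvd_mul_left _ _).trans (dvd_prod_of_mem _ (mem_univ i)))
    exact ⟨_, prod_pos fun i _ => mul_pos (c i).pos (d i).pos, c', d', h1, h2⟩
  have N0 : (N : ℚ) ≠ 0 := Nat.cast_ne_zero.2 hN.ne'
  obtain ⟨M, hM, H⟩ := hyp_int hN (c := fun j => c' (e j)) (d := fun j => d' (e j))
    (fun i j a => e.injective (Subtype.ext (hc _ _ (e i).2 (e j).2 (mul_left_cancel₀ N0 (by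
      rw [← h1, ← h1]
      exact congrArg _ a))))) (max p₀ (N + 1)) fun p hp hle i j l hl a => by
      obtain ⟨l', b, j', c1, c2⟩ := h p hp (le_of_max_le_left hle) _ _ (e i).2 (e j).2 l hl
        ((sol2_num hp hN (le_of_max_le_right hle) (by push_cast; rw [h1, h1]; ring)).1 a)
      refine ⟨l', b, e.symm ⟨j', c1⟩, (sol2_num hp hN (le_of_max_le_right hle) ?_).2 c2⟩
      push_cast
      rw [h1, h2, e.apply_symm_apply]
      ring
  choose U u0 u1 u2 using H
  have pr : ∀ f : ι → ℚ, ∏ j, N * f (e j) =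
      N ^ Fintype.card {i // u i ≠ 0} * ∏ j with u j ≠ 0, f j := fun f => by
    rw [prod_mul_distrib, prod_const, card_univ, Fintype.card_fin, e.prod_comp fun j => f j.1,
      prod_subtype (p := fun j => u j ≠ 0) _ (by simp)]
  refine ⟨fun i => if a : u i ≠ 0 then U (e.symm ⟨i, a⟩) else 1, fun i => ?_, fun i a k => ?_,
    (sol2_dvd hM).mono fun n hn i k => ?_⟩ <;> beta_reduce
  · split_ifs
    exacts [u0 _, rfl]
  · have b := u1 (e.symm ⟨i, a⟩) k
    simp only [h1, h2, e.apply_symm_apply, ← mul_add, ← mul_sub] at b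
    rw [pr fun j => c i + (k + 1) - c j, pr fun j => c i + k - d j, mul_assoc, mul_assoc] at b
    rw [dif_pos a]
    exact mul_left_cancel₀ (pow_ne_zero _ N0) b
  · split_ifs
    · obtain ⟨_, _, a⟩ := u2 _ k
      exact sol2_zm hn n.factorial_pos a
    · exact one_mem _

theorem sol2_df {R : Type*} [CommRing R] (b : Bool) (μ u v K : ι → R) (Ψ : Matrix ι ι (Ls R))
    (h : ∀ l i a, (K i + (sg b * a : ℤ) - μ l) * (Ψ l i).coeff a -
      (K i + (sg b * a : ℤ) - 1 - μ l) * (Ψ l i).coeff (a - sg b) =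
        u l * ∑ j, v j * (Ψ j i).coeff a) : df b (1 - T 1) (mA μ u v) K Ψ = 0 := by
  ext l i a
  have e : (df b (1 - T 1) (mA μ u v) K Ψ) l i = io b (1 - T 1) *
      (dS b (Ψ l i) + cS (K i) * Ψ l i - cS (μ l) * Ψ l i) - cS (u l) * ∑ j, cS (v j) * Ψ j i := by
    simp only [df, gf, mA, Matrix.add_apply, Matrix.sub_apply, Matrix.smul_apply, map_apply,
      Matrix.mul_smul, mul_diagonal, smul_eq_mul, mul_apply, map_add, map_mul, io_C, vecMulVec_apply,
      add_mul, sum_add_distrib, diagonal_apply, apply_ite C, apply_ite (io b), map_zero, mul_ite,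
      ite_mul, mul_zero, zero_mul, sum_ite_eq, sum_ite_eq', mem_univ, if_true, mul_sum, mul_assoc]
    ring
  have s : (sg b * (a - sg b) : ℤ) = sg b * a - 1 := by rw [mul_sub, sg_sq]
  rw [e, map_sub, map_one, io_T, mul_one, sub_mul, one_mul]
  simp only [HahnSeries.coeff_sub, HahnSeries.coeff_add, HahnSeries.coeff_single_mul, coeff_cS_mul,
    coeff_dS, HahnSeries.coeff_sum, s, Matrix.zero_apply, HahnSeries.coeff_zero]
  rw [← h]
  push_cast
  ring

theorem sol2_mb {μ u v : ι → ℚ} (h : MD (1 - T 1) (mC μ u v)) : ∀ᶠ n : ℕ in Filter.atTop,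
    ∀ μ' u' v' : ι → ZM n.factorial, (∀ i, (μ' i : ℚ) = μ i) → (∀ i, (u' i : ℚ) = u i) →
      (∀ i, (v' i : ℚ) = v i) → MB (1 - T 1) (mA μ' u' v') := by
  obtain ⟨F, p₀, h⟩ := h
  obtain ⟨D, D0, hD⟩ := kr_den' F
  refine (sol2_dvd (Int.natAbs_pos.2 D0)).mono fun n hn μ' u' v' a b c =>
    ⟨p₀, fun p hp hle i j => ?_⟩
  let ρ := (algebraMap ℚ ℂ).comp (ZM n.factorial).subtype
  have e := Am_map (q := 1 - T 1) (A := mA μ' u' v') (mp ρ) (mp_th ρ) p
  have e1 : (mA μ' u' v').map (mp ρ) = mC μ u v := by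
    ext i j : 2
    by_cases k : i = j <;> simp [mA, k, vecMulVec_apply, ρ, a, b, c]
  rw [e1, show mp ρ (1 - T 1) = 1 - T 1 by simp] at e
  rw [← map_natCast C, dvd_iff]
  intro k
  obtain ⟨y, hy, e2⟩ := h p hp hle i j k
  rw [← e, map_apply, coeff_mp] at e2
  generalize (Am th (1 - T 1) (mA μ' u' v') p i j).coeff k = x at e2
  have p0 : (p : ℚ) ≠ 0 := Nat.cast_ne_zero.2 hp.ne_zero
  have e3 : y = algebraMap ℚ ℂ (x / p) := by
    rw [map_div₀, map_natCast, eq_div_iff (Nat.cast_ne_zero.2 hp.ne_zero), mul_comm, ← e2]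
    rfl
  obtain ⟨m, hm⟩ := hD y hy (e3 ▸ isIntegral_algebraMap)
  rw [e3, ← map_intCast (algebraMap ℚ ℂ), ← map_pow, ← map_mul,
    kr_int _ (algebraMap ℚ ℂ).injective, IsIntegrallyClosed.isIntegral_iff] at hm
  obtain ⟨z, hz⟩ := hm
  refine ⟨⟨x / p, sol2_zm (e := m) hn n.factorial_pos (z := D.sign ^ m * z) ?_⟩, Subtype.ext ?_⟩
  · rw [Int.cast_mul, show (z : ℚ) = _ from hz, Int.cast_pow, ← mul_assoc, ← mul_pow,
      ← Int.cast_mul, Int.sign_mul_self, Int.cast_natCast]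
  · push_cast
    rw [mul_div_cancel₀ _ p0]

theorem Mdl.sol {μ u v : ι → ℚ} (h : Mdl μ u v) : ∃ M : ℕ, 0 < M ∧ ∃ (μ' u' v' : ι → ZM M)
    (κ : Bool → ι → ZM M) (Φ Φ' : Bool → Matrix ι ι (Ls (ZM M))), (∀ i, (μ' i : ℚ) = μ i) ∧
      (∀ i, (u' i : ℚ) = u i) ∧ (∀ i, (v' i : ℚ) = v i) ∧ Sl μ' u' v' κ Φ Φ' := by
  obtain ⟨κ, e⟩ := h.exq
  obtain ⟨U, u0, u1, u2⟩ := sol2_hyp (h.gap e) e.inj
  obtain ⟨V, v0, v1, v2⟩ := sol2_hyp (h.gap' e) fun i j a b c => h.inj i j a b (neg_injective c)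
  let K : Bool → ι → ℚ := fun b => if b then κ else μ
  let W : Bool → ι → ℤ → ℚ := fun b i a => if 0 ≤ a then (if b then U else V) i a.toNat else 0
  have W0 : ∀ b i a, a < 0 → W b i a = 0 := fun b i a k => if_neg k.not_ge
  have z : ∀ (c : ι → ℚ) i, u i ≠ 0 → ∏ j with u j ≠ 0, (c i - c j) = 0 := fun c i k =>
    prod_eq_zero (mem_filter.2 ⟨mem_univ i, k⟩) (sub_self _)
  have rc : ∀ b i, u i ≠ 0 → ∀ a : ℤ, (∏ j with u j ≠ 0, (K b i + (sg b * a : ℤ) - κ j)) * W b i a =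
      (∏ j with u j ≠ 0, (K b i + (sg b * a : ℤ) - 1 - μ j)) * W b i (a - sg b) := by
    rintro (_ | _) i k a
    · rcases lt_trichotomy a (-1) with l | rfl | l
      · rw [W0 _ _ _ (by omega), W0 _ _ _ (by simp only [sg]; omega), mul_zero, mul_zero]
      · rw [W0 _ _ _ (by omega), mul_zero]
        simp [K, sg, z μ i k]
      · obtain ⟨n, rfl⟩ := Int.eq_ofNat_of_zero_le (show 0 ≤ a by omega)
        have b := congrArg ((-1 : ℚ) ^ #{j | u j ≠ 0} * ·) (v1 i k n)
        simp only [← mul_assoc, ← prod_neg] at b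
        have c : W false i (n - sg false) = V i (n + 1) := if_pos (by simp only [sg]; omega)
        rw [c]
        refine (congrArg₂ _ (prod_congr rfl fun j _ => ?_) rfl).trans
          (b.symm.trans (congrArg₂ _ (prod_congr rfl fun j _ => ?_) rfl)) <;> simp [K, sg] <;> ring
    · rcases lt_trichotomy a 0 with l | rfl | l
      · rw [W0 _ _ _ l, W0 _ _ _ (by simp only [sg]; omega), mul_zero, mul_zero]
      · rw [W0 _ _ (0 - _) (by simp [sg]), mul_zero]
        simp [K, z κ i k]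
      · obtain ⟨n, rfl⟩ : ∃ n : ℕ, a = n + 1 := ⟨(a - 1).toNat, by omega⟩
        have c : W true i (n + 1 - sg true) = U i n := by simp [W, sg]
        rw [c]
        refine (congrArg₂ _ (prod_congr rfl fun j _ => ?_) rfl).trans
          ((u1 i k n).trans (congrArg₂ _ (prod_congr rfl fun j _ => ?_) rfl)) <;> simp [K, sg]
        ring
  let y : Bool → ι → ι → ℤ → ℚ := fun b l i a => if u i = 0 then (if l = i ∧ a = 0 then 1 else 0)
    else u l * (∏ j ∈ (univ.filter fun j => u j ≠ 0).erase l, (K b i + (sg b * a : ℤ) - μ j)) *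
      W b i a
  have y0 : ∀ b l i a, a < 0 → y b l i a = 0 := fun b l i a k => by
    simp only [y, W0 b i a k, k.ne, and_false, if_false, mul_zero, ite_self]
  have pe : ∀ (c : ℚ) l, u l * (∏ j ∈ (univ.filter fun j => u j ≠ 0).erase l, (c - μ j)) *
      (c - μ l) = u l * ∏ j with u j ≠ 0, (c - μ j) := fun c l => by
    by_cases k : u l = 0
    · simp only [k, zero_mul]
    · rw [mul_assoc, prod_erase_mul _ _ (mem_filter.2 ⟨mem_univ l, k⟩)]
  have eq : ∀ b l i a, (K b i + (sg b * a : ℤ) - μ l) * y b l i a -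
      (K b i + (sg b * a : ℤ) - 1 - μ l) * y b l i (a - sg b) = u l * ∑ j, v j * y b j i a := by
    intro b l i a
    have s : (sg b * (a - sg b) : ℤ) = sg b * a - 1 := by rw [mul_sub, sg_sq]
    by_cases k : u i = 0
    · have k1 : K b i = μ i := by cases b; exacts [rfl, e.fr i k]
      simp only [y, k, if_true, k1]
      rw [sum_eq_zero fun j _ => by
        split_ifs with c
        exacts [by rw [c.1, (h.uv i).1 k, zero_mul], mul_zero _], mul_zero, sub_eq_zero]
      split_ifs with c1 c2 c2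
      · exact absurd (c1.2 ▸ c2.2) (by cases b <;> simp [sg])
      · simp [c1.1, c1.2]
      · rw [c2.1, sub_eq_zero.1 c2.2, sg_sq]
        simp
      · simp
    · simp only [y, k, if_false, s, Int.cast_sub, Int.cast_one, ← add_sub_assoc]
      have p := e.poly h (K b i + (sg b * a : ℤ))
      rw [sum_filter_of_ne fun j _ c => left_ne_zero_of_mul (left_ne_zero_of_mul c)] at p
      simp only [← mul_assoc]
      simp only [← sum_mul, mul_comm (v _)]
      linear_combination W b i a * pe (K b i + (sg b * a : ℤ)) l - W b i (a - sg b) *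
        pe (K b i + (sg b * a : ℤ) - 1) l + u l * rc b i k a - u l * W b i a * p
  have dt : ∀ b, (of fun l i => y b l i 0).det ≠ 0 := by
    rintro (_ | _)
    · rw [show (of fun l i => y false l i 0) = diagonal fun i => y false i i 0 from
        Matrix.ext fun l i => ?_, det_diagonal]
      · refine prod_ne_zero_iff.2 fun i _ => ?_
        by_cases k : u i = 0
        · simp [y, k]
        · simp only [y, k, if_false, K, W, mul_zero, Int.cast_zero, add_zero, le_refl, if_true]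
          refine mul_ne_zero (mul_ne_zero k (prod_ne_zero_iff.2 fun j c => sub_ne_zero.2 fun d =>
            (mem_erase.1 c).1 (h.inj _ _ (mem_filter.1 (mem_erase.1 c).2).2 k d.symm))) ?_
          exact (v0 i).trans_ne one_ne_zero
      · rcases eq_or_ne l i with rfl | c
        · rw [diagonal_apply_eq, of_apply]
        · rw [diagonal_apply_ne _ c, of_apply]
          by_cases k : u i = 0
          · simp [y, k, c]
          · simp only [y, k, if_false]
            rw [prod_eq_zero (mem_erase.2 ⟨c.symm, mem_filter.2 ⟨mem_univ i, k⟩⟩) (by simp [K]),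
              mul_zero, zero_mul]
    · obtain ⟨P, P', a, -, c⟩ := e.eig h
      rw [show (of fun l i => y true l i 0) = P * diagonal fun i => if u i = 0 then 1 else
        ∏ j with u j ≠ 0, (κ i - μ j) from Matrix.ext fun l i => ?_, det_mul, det_diagonal]
      · refine mul_ne_zero (det_ne_zero_of_right_inverse a) (prod_ne_zero_iff.2 fun i _ => ?_)
        split_ifs with k
        · exact one_ne_zero
        · exact prod_ne_zero_iff.2 fun j d => sub_ne_zero.2 (e.ne _ _ k (mem_filter.1 d).2)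
      · rw [mul_diagonal, c, of_apply]
        by_cases k : u i = 0
        · simp [y, k]
        · simp only [y, k, if_false, K, W, mul_zero, Int.cast_zero, add_zero, le_refl, if_true,
            Int.toNat_zero, u0, mul_one]
          by_cases l0 : u l = 0
          · simp only [l0, zero_mul, zero_div]
          · rw [div_mul_eq_mul_div, ← pe, mul_div_cancel_right₀ _ (sub_ne_zero.2 (e.ne _ _ k l0))]
  have all : ∀ c : ι → ℚ, ∀ᶠ n : ℕ in Filter.atTop, ∀ i, c i ∈ ZM n.factorial := fun c =>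
    Filter.eventually_all.2 fun i => sol2_q _
  obtain ⟨n, m1, m2, m3, m4, m5, m6, m7, m8⟩ := ((all μ).and ((all u).and ((all v).and ((all κ).and
    (u2.and (v2.and ((sol2_mb h.md).and (Filter.eventually_all.2 fun b =>
      sol2_q (of fun l i => y b l i 0).det⁻¹)))))))).exists
  have mK : ∀ b i, K b i ∈ ZM n.factorial := by rintro (_ | _); exacts [m1, m4]
  have my : ∀ b l i a, y b l i a ∈ ZM n.factorial := fun b l i a => by
    refine ite_mem.2 ⟨fun _ => ite_mem.2 ⟨fun _ => one_mem _, fun _ => zero_mem _⟩, fun _ =>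
      mul_mem (mul_mem (m2 l) (prod_mem fun j _ => sub_mem (add_mem (mK b i) (intCast_mem _ _))
        (m1 j))) (ite_mem.2 ⟨fun _ => ?_, fun _ => zero_mem _⟩)⟩
    cases b
    exacts [m6 _ _, m5 _ _]
  let Φ : Bool → Matrix ι ι (Ls (ZM n.factorial)) := fun b l i => HahnSeries.ofSuppBddBelow
    (fun a => ⟨y b l i a, my b l i a⟩) ⟨0, fun a c => not_lt.1 fun k => c (Subtype.ext (y0 b l i a k))⟩
  have od : ∀ b, Od 0 0 (Φ b) := fun b l i a k =>
    zero_dvd_iff.2 (Subtype.ext (y0 b l i a (by simpa using k)))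
  choose Φ' f1 f2 _ using fun b => inv_reg (s := 0) (U := Φ b) (P := c0 (Φ b))
    ((isUnit_iff_isUnit_det _).2 (.of_mul_eq_one ⟨_, m8 b⟩ (Subtype.ext (by
      exact (congrArg (· * _) ((ZM n.factorial).subtype.map_det _)).trans
        (mul_inv_cancel₀ (dt b)))))) (od b) fun i j => by simp
  refine ⟨_, n.factorial_pos, fun i => ⟨μ i, m1 i⟩, fun i => ⟨u i, m2 i⟩, fun i => ⟨v i, m3 i⟩,
    fun b i => ⟨K b i, mK b i⟩, Φ, Φ', fun _ => rfl, fun _ => rfl, fun _ => rfl,
    fun b => sol2_df _ _ _ _ _ _ fun l i a => Subtype.ext ?_, fun b => sub_eq_zero.1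
      (Matrix.ext fun i j => by simpa using f2 b i j), fun b => ⟨od b, f1 b⟩,
    m7 _ _ _ (fun _ => rfl) (fun _ => rfl) fun _ => rfl⟩
  have := eq b l i a
  push_cast at this ⊢
  exact this

end Pool.Agent.Lib.MP_815ef6_nt.Ch
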