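import Pool.Agent.Lib.MP_815ef6_nt.CS.As1
import Pool.Agent.Lib.MP_815ef6_nt.CS.Sol2
import Pool.Agent.Lib.MP_815ef6_nt.CS.LemA

/-! Construction of the data of a component. -/

namespace Pool.Agent.Lib.MP_815ef6_nt.Ch
open Finset LaurentPolynomial Matrix

variable {ι : Type*} [Fintype ι] [DecidableEq ι]

section
variable {R R' : Type*} [CommRing R] [CommRing R']

theorem as2_q (φ : R →+* R') : mp φ (1 - T 1) = 1 - T 1 := by rw [map_sub, map_one, mp_T]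

theorem as2_ord {f g : Ls R} {a b : ℤ} (hf : ∀ n < a, f.coeff n = 0)
    (hg : ∀ n < b, g.coeff n = 0) {n : ℤ} (hn : n < a + b) : (f * g).coeff n = 0 := by
  rw [HahnSeries.coeff_mul]
  refine sum_eq_zero fun x hx => ?_
  have e := (mem_antidiagonal.1 hx).2.2
  by_cases h : x.1 < a
  · rw [hf _ h, zero_mul]
  · rw [hg _ (by omega), mul_zero]

omit [DecidableEq ι] in
theorem as2_od {M N : Matrix ι ι (Ls R)} {a b : ℤ} (hM : ∀ i j, ∀ n < a, (M i j).coeff n = 0)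
    (hN : ∀ i j, ∀ n < b, (N i j).coeff n = 0) (s : R) {D : ℕ} (h : a + b = -D) :
    Od s D (M * N) := fun i j n hn => by
  rw [Matrix.mul_apply, HahnSeries.coeff_sum,
    sum_eq_zero fun k _ => as2_ord (hM i k) (hN k j) (h ▸ hn)]
  exact dvd_zero s

omit [DecidableEq ι] in
theorem as2_dd {c : R} {M : Matrix ι ι R} (h : Dd c M) (A B : Matrix ι ι R) :
    Dd c (A * M * B) := fun _ _ =>
  dvd_sum fun _ _ => Dvd.dvd.mul_right (dvd_sum fun _ _ => (h _ _).mul_left _) _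

omit [Fintype ι] [DecidableEq ι] in
theorem as2_ker {s : R} {ρ : R →+* ℂ} (H : Loc s ρ) {M : Matrix ι ι R[T;T⁻¹]}
    (h : M.map (mp ρ) = 0) : Dd (C s) M := fun i j => dvd_iff.2 fun a => (H.ker _).1 (by
  have := congrArg (fun N : Matrix ι ι ℂ[T;T⁻¹] => (N i j).coeff a) h
  simpa using this)

theorem as2_gf (b : Bool) (q : Ls R) {κ K : ι → R} {S : Matrix ι ι R[T;T⁻¹]}
    (h : ∀ i j a, (S i j).coeff a ≠ 0 → a + K j - κ i = 0) :
    gf (dS b) q (q • diagonal fun i => cS (κ i)) (q • diagonal fun i => cS (K i))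
      (S.map (io b)) = 0 := by
  rw [gf, Matrix.smul_mul, Matrix.mul_smul, ← smul_sub, ← smul_add]
  refine smul_eq_zero_of_right _ (Matrix.ext fun i j => HahnSeries.ext (funext fun a => ?_))
  rw [Matrix.add_apply, Matrix.sub_apply, diagonal_mul, mul_diagonal, mul_comm _ (cS (K j)),
    HahnSeries.coeff_add, HahnSeries.coeff_sub, coeff_cS_mul, coeff_cS_mul]
  simp only [map_apply, coeff_dS, coeff_io, Matrix.zero_apply, HahnSeries.coeff_zero]
  by_cases k : (S i j).coeff (sg b * a) = 0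
  · simp [k]
  · linear_combination (S i j).coeff (sg b * a) * h i j _ k

end

theorem Sl.map {R R' : Type*} [CommRing R] [CommRing R'] {μ u v : ι → R} {κ : Bool → ι → R}
    {Φ Φ' : Bool → Matrix ι ι (Ls R)} (h : Sl μ u v κ Φ Φ') (φ : R →+* R') :
    Sl (fun i => φ (μ i)) (fun i => φ (u i)) (fun i => φ (v i)) (fun b i => φ (κ b i))
      (fun b => (Φ b).map (mL φ)) fun b => (Φ' b).map (mL φ) := by
  have od : ∀ M : Matrix ι ι (Ls R), Od 0 0 M → Od 0 0 (M.map (mL φ)) := fun M k i j a ha =>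
    map_zero φ ▸ map_dvd φ (k i j a ha)
  refine ⟨fun b => ?_, fun b => ?_, fun b => ⟨od _ (h.od b).1, od _ (h.od b).2⟩, ?_⟩
  · rw [← gp_map, ← as2_q φ, ← df_map, h.fund, Matrix.map_zero _ (map_zero _)]
  · rw [← Matrix.map_mul, h.inv, Matrix.map_one _ (map_zero _) (map_one _)]
  · rw [← gp_map, ← as2_q φ]
    exact h.mb.map φ

theorem mk_cmp {B : Subring ℂ} {s : B} {ρ : B →+* ℂ} (H : Loc s ρ) {X : PD B ι} (pre : Pre s X)
    {μ u v : ι → ℚ} (mdl : Mdl μ u v) {μ' u' v' : ι → B} {κ₀ : Bool → ι → B}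
    {Φ Φ' : Bool → Matrix ι ι (Ls B)} (hμ : ∀ i, (μ' i : ℂ) = μ i) (hu : ∀ i, (u' i : ℂ) = u i)
    (hv : ∀ i, (v' i : ℂ) = v i) (sl : Sl μ' u' v' κ₀ Φ Φ') {κ : Bool → ι → ℚ} {K : Bool → ι → B}
    (hK : ∀ b i, (K b i : ℂ) = κ b i) {P : Bool → Matrix ι ι B} (pp : ∀ b, IsUnit (P b))
    {g g' : Matrix ι ι B[T;T⁻¹]} (gg : g.map (mp ρ) * g'.map (mp ρ) = 1)
    (hg : gf th (1 - T 1) (X.A.map (mp ρ)) (mC μ u v) (g.map (mp ρ)) = 0)
    {S S' : Bool → Matrix ι ι B[T;T⁻¹]} (SS : ∀ b, (S b).map (mp ρ) * (S' b).map (mp ρ) = 1)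
    (sup : ∀ b i j a, (S b i j).coeff a ≠ 0 → a + K b j - κ₀ b i = 0) {D : ℕ}
    (hD : ∀ b i j (a : ℤ), D < |a| →
      (S b i j).coeff a = 0 ∧ (S' b i j).coeff a = 0 ∧ a + κ b j - κ b i ≠ 0)
    (reg : ∀ b, ∃ U : Matrix ι ι (Ls ℂ), Od 0 0 U ∧ c0 U = (P b).map ρ ∧ io b (mp ρ X.n) • U =
      ((X.W * g).map (mp ρ)).map (io b) * ((Φ b).map (mL ρ) * ((S b).map (mp ρ)).map (io b)))
    (desc : ∀ δ : Matrix ι ι ℂ[T;T⁻¹], (∀ i j (a : ℤ), (3 * D : ℕ) < |a| → (δ i j).coeff a = 0) →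
      (∀ i j, gf th (1 - T 1) (mC μ u v) (mC μ u v) δ i j ∈ LS ρ.range) →
        ∃ δ' : Matrix ι ι ℂ[T;T⁻¹], (∀ i j, δ' i j ∈ LS ρ.range) ∧
          gf th (1 - T 1) (mC μ u v) (mC μ u v) δ' = gf th (1 - T 1) (mC μ u v) (mC μ u v) δ) :
    ∃ Y, Cmp s ρ X K P Y := by
  have hA : (mA μ' u' v').map (mp ρ) = mC μ u v := by
    simp only [gp_map, rho_rat ρ (hμ _), rho_rat ρ (hu _), rho_rat ρ (hv _)]
  have one : ∀ {M N : Matrix ι ι B[T;T⁻¹]}, M.map (mp ρ) * N.map (mp ρ) = 1 →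
      Dd (C s) (M * N - 1) := fun e => as2_ker H (by
    rw [Am1_sb, Matrix.map_mul, e, Matrix.map_one _ (map_zero _) (map_one _), sub_self])
  have ab : ∀ b, ∀ n < -(D : ℤ), (D : ℤ) < |sg b * n| := fun b n hn => by
    cases b <;> simp only [sg, one_mul, neg_mul, abs_neg] <;> exact lt_abs.2 (.inr (by omega))
  have o0 : ∀ {M : Matrix ι ι (Ls B)}, Od 0 0 M → ∀ i j, ∀ n < 0, (M i j).coeff n = 0 :=
    fun k i j n hn => zero_dvd_iff.1 (k i j n hn)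
  refine ⟨⟨mA μ' u' v', g, g', fun b => Φ b * (S b).map (io b),
    fun b => (S' b).map (io b) * Φ' b, D⟩, pre, sl.mb, ⟨u', v', ?_⟩, one gg, as2_ker H ?_,
    fun b => ?_, fun b => ?_, fun b => ⟨?_, ?_⟩, fun b i j a e => ?_, pp, fun b => ?_,
    fun E => hA ▸ mdl.split, fun δ E h1 h2 => ?_⟩
  · ext i j
    simp [mA, ev1_C, ev1_T]
  · rw [gf_map _ (mp_th ρ), as2_q, hA, hg]
  · have := sl.fund b
    rw [df] at this ⊢
    rw [gf_mul (dv_dS b) (A' := io b (1 - T 1 : B[T;T⁻¹]) • diagonal fun i => cS (κ₀ b i)),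
      this, as2_gf b _ (sup b), Matrix.zero_mul, Matrix.mul_zero, add_zero]
  · have k : Dd (cS s) ((S b * S' b - 1).map (io b)) := fun i j =>
      io_C b s ▸ map_dvd (io b) (one (SS b) i j)
    have := as2_dd k (Φ b) (Φ' b)
    rwa [Am1_sb, Matrix.map_mul, Matrix.map_one _ (map_zero _) (map_one _), Matrix.mul_sub,
      Matrix.sub_mul, Matrix.mul_one, sl.inv, ← Matrix.mul_assoc, Matrix.mul_assoc _ _ (Φ' b)]
      at this
  · exact as2_od (o0 (sl.od b).1)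
      (fun i j n hn => (coeff_io b _ n).trans (hD b i j _ (ab b n hn)).1) s (zero_add _)
  · exact as2_od (fun i j n hn => (coeff_io b _ n).trans (hD b i j _ (ab b n hn)).2.1)
      (o0 (sl.od b).2) s (add_zero _)
  · have e1 : ((a + K b j - K b i : B) : ℂ) = (a + κ b j - κ b i : ℚ) := by
      push_cast
      rw [hK, hK]
    have e2 : (a + κ b j - κ b i : ℚ) = 0 := by exact_mod_cast (rho_rat ρ e1).symm.trans e
    exact ⟨Subtype.ext (by rw [e1, e2]; simp), not_lt.1 fun l => (hD b i j a l).2.2 e2⟩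
  · obtain ⟨U, h1, h2, h3⟩ := reg b
    refine ⟨U, h1, h2, h3.trans (congrArg _ ?_)⟩
    rw [Matrix.map_mul]
    exact congrArg _ (Matrix.ext fun i j => (mL_io ρ b _).symm)
  · rw [hA] at h2
    obtain ⟨δ', k1, k2⟩ := desc δ (fun i j a l => h1 i j a (by exact_mod_cast l)) fun i j =>
      h2 ▸ mem_LS.2 fun e => ⟨(E i j).coeff e, (coeff_mp ρ _ e).symm⟩
    choose δ₀ k0 using fun i j => exists_mp (φ := ρ) (mem_LS.1 (k1 i j))
    refine ⟨Matrix.of δ₀, as2_ker H ?_⟩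
    rw [Am1_sb, gf_map _ (mp_th ρ), as2_q, hA,
      show (Matrix.of δ₀).map (mp ρ) = δ' from Matrix.ext k0, k2, h2, sub_self]

end Pool.Agent.Lib.MP_815ef6_nt.Ch
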