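import Pool.Agent.Lib.MP_815ef6_nt.CS.Amx

/-! Descent of solutions of linear systems. -/

namespace Pool.Agent.Lib.MP_815ef6_nt.Ch
open Finset LaurentPolynomial Matrix

variable {ι : Type*} [Fintype ι] [DecidableEq ι]

theorem lin_ginv {J K : Type*} [Fintype J] [Fintype K] [DecidableEq J] [DecidableEq K]
    (L : Matrix K J ℚ) : ∃ R : Matrix J K ℚ, L * R * L = L := by
  obtain ⟨g, hg⟩ := (toLin' L).rangeRestrict.exists_rightInverse_of_surjective
    (LinearMap.range_rangeRestrict _)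
  obtain ⟨g', hg'⟩ := g.exists_extend
  refine ⟨LinearMap.toMatrix' g', toLin'.injective (LinearMap.ext fun x => ?_)⟩
  rw [toLin'_mul, toLin'_mul, toLin'_toMatrix', LinearMap.comp_apply, LinearMap.comp_apply]
  have h1 : g' (toLin' L x) = g ⟨toLin' L x, x, rfl⟩ := DFunLike.congr_fun hg' ⟨_, x, rfl⟩
  rw [h1]
  exact congrArg Subtype.val (DFunLike.congr_fun hg ⟨toLin' L x, x, rfl⟩)

theorem lin_abs {J K : Type*} [Fintype J] [Fintype K] (L : Matrix K J ℚ) :
    ∃ M : ℕ, 0 < M ∧ ∀ S : Subring ℂ, (M : ℂ)⁻¹ ∈ S → ∀ x : J → ℂ,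
      (∀ k, (L.map (Rat.castHom ℂ) *ᵥ x) k ∈ S) → ∃ x' : J → ℂ, (∀ j, x' j ∈ S) ∧
        L.map (Rat.castHom ℂ) *ᵥ x' = L.map (Rat.castHom ℂ) *ᵥ x := by
  classical
  obtain ⟨R, hR⟩ := lin_ginv L
  have hM : 0 < ∏ p : J × K, (R p.1 p.2).den := prod_pos fun p _ => (R p.1 p.2).den_pos
  refine ⟨_, hM, fun S hS x hx => ⟨R.map (Rat.castHom ℂ) *ᵥ (L.map (Rat.castHom ℂ) *ᵥ x),
    fun j => sum_mem fun k _ => mul_mem ?_ (hx k), ?_⟩⟩
  · obtain ⟨c, hc⟩ := dvd_prod_of_mem (fun p : J × K => (R p.1 p.2).den) (mem_univ (j, k))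
    rw [hc] at hM hS
    have h0 : ((R j k).den : ℂ) ≠ 0 := Nat.cast_ne_zero.2 (R j k).den_nz
    have h1 : (c : ℂ) ≠ 0 := Nat.cast_ne_zero.2 (Nat.pos_of_mul_pos_left hM).ne'
    have : (R j k : ℂ) = (R j k).num * c * (((R j k).den * c : ℕ) : ℂ)⁻¹ := by
      rw [Rat.cast_def]
      push_cast
      field_simp
    change (R j k : ℂ) ∈ S
    rw [this]
    exact mul_mem (mul_mem (intCast_mem S _) (natCast_mem S _)) hS
  · rw [mulVec_mulVec, mulVec_mulVec, ← Matrix.map_mul, ← Matrix.map_mul, hR]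

omit [DecidableEq ι] in
theorem lin_gf_sum {R J : Type*} [CommRing R] (s : Finset J) (q : R[T;T⁻¹])
    (A A' : Matrix ι ι R[T;T⁻¹]) (x : J → R) (G : J → Matrix ι ι R[T;T⁻¹]) :
    gf th q A A' (∑ j ∈ s, (C (x j) : R[T;T⁻¹]) • G j) =
      ∑ j ∈ s, (C (x j) : R[T;T⁻¹]) • gf th q A A' (G j) := by
  have hm : (∑ j ∈ s, (C (x j) : R[T;T⁻¹]) • G j).map th =
      ∑ j ∈ s, (C (x j) : R[T;T⁻¹]) • (G j).map th := by
    ext i i' a
    simp only [Matrix.map_apply, Matrix.sum_apply, Matrix.smul_apply, smul_eq_mul, coeff_th,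
      AddMonoidAlgebra.coeff_sum, Finsupp.coe_finsetSum, Finset.sum_apply, coeff_C_mul, mul_sum,
      mul_left_comm]
  simp only [gf, hm, smul_sum, Matrix.mul_sum, Matrix.sum_mul, Matrix.mul_smul, Matrix.smul_mul,
    smul_add, smul_sub, sum_add_distrib, sum_sub_distrib, smul_comm q]

theorem desc_lin (μ u v : ι → ℚ) (D : ℕ) : ∃ M : ℕ, 0 < M ∧ ∀ S : Subring ℂ, (M : ℂ)⁻¹ ∈ S →
    ∀ δ : Matrix ι ι ℂ[T;T⁻¹], (∀ i j (a : ℤ), D < |a| → (δ i j).coeff a = 0) →
      (∀ i j, gf th (1 - T 1) (mC μ u v) (mC μ u v) δ i j ∈ LS S) →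
        ∃ δ' : Matrix ι ι ℂ[T;T⁻¹], (∀ i j, δ' i j ∈ LS S) ∧
          gf th (1 - T 1) (mC μ u v) (mC μ u v) δ' = gf th (1 - T 1) (mC μ u v) (mC μ u v) δ := by
  classical
  let c := Rat.castHom ℂ
  let E : ι × ι × Icc (-(D : ℤ)) D → Matrix ι ι ℚ[T;T⁻¹] := fun j => single j.1 j.2.1 (T j.2.2)
  let w := fun j => gf th (1 - T 1) (mA μ u v) (mA μ u v) (E j)
  let Z : Finset ℤ := univ.biUnion fun p : (ι × ι × Icc (-(D : ℤ)) D) × ι × ι =>
    (w p.1 p.2.1 p.2.2).coeff.support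
  have hA : (mA μ u v).map (mp c) = mC μ u v := by
    ext i j : 1
    simp [mA, diagonal_apply, vecMulVec_apply, apply_ite, c]
  have key : ∀ (x : ι × ι × Icc (-(D : ℤ)) D → ℂ) i i' a, (gf th (1 - T 1) (mC μ u v) (mC μ u v)
      (∑ j, (C (x j) : ℂ[T;T⁻¹]) • (E j).map (mp c)) i i').coeff a =
        ∑ j, c ((w j i i').coeff a) * x j := fun x i i' a => by
    have : ∀ j, gf th (1 - T 1) (mC μ u v) (mC μ u v) ((E j).map (mp c)) = (w j).map (mp c) :=
      fun j => by rw [gf_map (mp c) (mp_th c), hA, map_sub, map_one, mp_T]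
    simp only [lin_gf_sum, this, Matrix.map_apply, Matrix.sum_apply, Matrix.smul_apply, smul_eq_mul,
      AddMonoidAlgebra.coeff_sum, Finsupp.coe_finsetSum, Finset.sum_apply, coeff_C_mul, coeff_mp,
      mul_comm]
  obtain ⟨M, hM, H⟩ := lin_abs (of fun (k : ι × ι × Z) j => (w j k.1 k.2.1).coeff k.2.2)
  refine ⟨M, hM, fun S hS δ h0 h1 => ?_⟩
  have hδ : δ = ∑ j, (C ((δ j.1 j.2.1).coeff j.2.2) : ℂ[T;T⁻¹]) • (E j).map (mp c) := by
    ext i i' a
    simp only [E, Matrix.map_apply, Matrix.sum_apply, Matrix.smul_apply, smul_eq_mul,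
      AddMonoidAlgebra.coeff_sum, Finsupp.coe_finsetSum, Finset.sum_apply, single_apply,
      apply_ite (mp c), mp_T, map_zero, mul_ite, mul_zero,
      apply_ite fun f : ℂ[T;T⁻¹] => f.coeff a, coeff_CT]
    by_cases ha : a ∈ Icc (-(D : ℤ)) D
    · rw [sum_eq_single (i, i', ⟨a, ha⟩) _ fun h => (h (mem_univ _)).elim]
      · simp
      · rintro ⟨j, j', b, hb⟩ - hj
        split_ifs with h h'
        · obtain ⟨rfl, rfl⟩ := h
          obtain rfl : b = a := h'
          exact (hj rfl).elim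
        · rfl
        · rfl
    · rw [h0 i i' a (by rw [mem_Icc, ← abs_le] at ha; omega)]
      refine (sum_eq_zero fun j _ => ?_).symm
      split_ifs with h h'
      · exact (ha (h' ▸ j.2.2.2)).elim
      · rfl
      · rfl
  obtain ⟨x, hx, e⟩ := H S hS (fun j => (δ j.1 j.2.1).coeff j.2.2) fun k => by
    have := mem_LS.1 (h1 k.1 k.2.1) k.2.2
    rwa [hδ, key] at this
  refine ⟨∑ j, (C (x j) : ℂ[T;T⁻¹]) • (E j).map (mp c), fun i i' => ?_, ?_⟩
  · rw [Matrix.sum_apply]
    refine sum_mem fun j _ => mul_mem (C_mem (hx j)) ?_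
    simp only [E, Matrix.map_apply, single_apply, apply_ite (mp c), mp_T, map_zero]
    split_ifs
    · exact T_mem _ _
    · exact zero_mem _
  · ext i i' a
    rw [hδ, key, key]
    by_cases ha : a ∈ Z
    · exact congrFun e (i, i', ⟨a, ha⟩)
    · have : ∀ j, (w j i i').coeff a = 0 := fun j => by_contra fun h =>
        ha (mem_biUnion.2 ⟨(j, i, i'), mem_univ _, Finsupp.mem_support_iff.2 h⟩)
      simp only [this, map_zero, zero_mul]

/-- An additive map applied to the coefficients. -/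
noncomputable def lin_ml {R R' : Type*} [CommRing R] [CommRing R'] (l : R →+ R') :
    R[T;T⁻¹] →+ R'[T;T⁻¹] where
  toFun f := .ofCoeff (f.coeff.mapRange l l.map_zero)
  map_zero' := by
    ext a
    simp
  map_add' f g := by
    ext a
    simp

theorem lin_coeff {R R' : Type*} [CommRing R] [CommRing R'] (l : R →+ R') (f : R[T;T⁻¹]) (a : ℤ) :
    (lin_ml l f).coeff a = l (f.coeff a) := rfl

theorem lin_mul {R R' : Type*} [CommRing R] [CommRing R'] {l : R →+ R'} {φ : R' →+* R}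
    (h : ∀ c x, l (φ c * x) = c * l x) (f : R'[T;T⁻¹]) (g : R[T;T⁻¹]) :
    lin_ml l (mp φ f * g) = f * lin_ml l g := by
  induction f using LaurentPolynomial.induction_on' with
  | add f f' h h' => rw [map_add, add_mul, map_add, h, h', add_mul]
  | C_mul_T a c =>
    ext k
    rw [map_mul (mp φ), mp_C, mp_T, lin_coeff, coeff_CT_mul, coeff_CT_mul, lin_coeff, h]

omit [DecidableEq ι] in
theorem lin_gf {R R' : Type*} [CommRing R] [CommRing R'] {l : R →+ R'} {φ : R' →+* R}
    (h : ∀ c x, l (φ c * x) = c * l x) (q : R'[T;T⁻¹]) (A A' : Matrix ι ι R'[T;T⁻¹])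
    (g : Matrix ι ι R[T;T⁻¹]) : gf th q A A' (g.map (lin_ml l)) =
      (gf th (mp φ q) (A.map (mp φ)) (A'.map (mp φ)) g).map (lin_ml l) := by
  have ht : ∀ f, lin_ml l (th f) = th (lin_ml l f) := fun f => by
    ext a
    rw [lin_coeff, coeff_th, coeff_th, lin_coeff, ← h, map_intCast]
  ext i j : 1
  simp only [gf, Matrix.map_apply, Matrix.add_apply, Matrix.sub_apply, Matrix.smul_apply,
    smul_eq_mul, Matrix.mul_apply, map_add, map_sub, map_sum, lin_mul h, ht, mul_comm (g _ _),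
    mul_comm (lin_ml l (g _ _))]

theorem lin_det {Λ : Type*} [CommRing Λ] {d : Λ → Λ} (hd : Dv d) {q : Λ} {A h : Matrix ι ι Λ}
    (H : gf d q A A h = 0) : q * d h.det = 0 := by
  have h1 : d 1 = 0 := by simpa using hd.mul 1 1
  have h0 : d 0 = 0 := by simpa using hd.add 0 0
  let ψ : Λ →+* DualNumber Λ :=
    { toFun f := TrivSqZeroExt.inl f + TrivSqZeroExt.inr (q * d f)
      map_one' := by simp [h1]
      map_zero' := by simp [h0]
      map_add' f g := by
        ext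
        · simp
        · simp [hd.add, mul_add]
      map_mul' f g := by
        ext
        · simp
        · simp [hd.mul]
          ring }
  let N := A.map (algebraMap Λ (DualNumber Λ))
  let G := h.map (algebraMap Λ (DualNumber Λ))
  have e1 : h.map ψ = G + (DualNumber.eps : DualNumber Λ) • (N * G - G * N) := by
    rw [← Matrix.map_mul, ← Matrix.map_mul, ← Matrix.map_sub _ (map_sub _),
      show A * h - h * A = q • h.map d by rw [← sub_eq_zero, ← neg_eq_zero, ← H, gf]; abel]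
    ext i j
    · simp [ψ, G, TrivSqZeroExt.algebraMap_eq_inl]
    · simp [ψ, G, TrivSqZeroExt.algebraMap_eq_inl]
  have e2 : ∀ G : Matrix ι ι (DualNumber Λ), (1 + (DualNumber.eps : DualNumber Λ) • N) * G *
      (1 - (DualNumber.eps : DualNumber Λ) • N) =
        G + (DualNumber.eps : DualNumber Λ) • (N * G - G * N) := fun G => by
    simp only [add_mul, mul_sub, one_mul, mul_one, Matrix.smul_mul, Matrix.mul_smul,
      smul_sub, smul_smul, DualNumber.eps_mul_eps, zero_smul]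
    abel
  have e3 := congrArg det (e2 1)
  have e4 := congrArg det (e1.trans (e2 G).symm)
  rw [mul_one, mul_one, one_mul, sub_self, smul_zero, add_zero, det_one, det_mul] at e3
  rw [det_mul, det_mul, mul_right_comm, e3, one_mul, ← RingHom.mapMatrix_apply, ← ψ.map_det,
    show G = (algebraMap Λ (DualNumber Λ)).mapMatrix h from rfl, ← RingHom.map_det] at e4
  simpa [ψ, TrivSqZeroExt.algebraMap_eq_inl] using congrArg TrivSqZeroExt.snd e4

theorem descend {k : Type} [Field k] (φ : k →+* ℂ) {q : k[T;T⁻¹]} (hq : q ≠ 0)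
    {A A' : Matrix ι ι k[T;T⁻¹]} {g : Matrix ι ι ℂ[T;T⁻¹]} (hg : IsUnit g)
    (h : gf th (mp φ q) (A.map (mp φ)) (A'.map (mp φ)) g = 0) :
    ∃ g' : Matrix ι ι k[T;T⁻¹], IsUnit g' ∧ gf th q A A' g' = 0 := by
  classical
  let := φ.toAlgebra
  have : CharZero k := φ.charZero
  have inj : Function.Injective (mp φ) := fun f f' e => LaurentPolynomial.ext fun a =>
    φ.injective (by rw [← coeff_mp, ← coeff_mp, e])
  have hl : ∀ (l : ℂ →ₗ[k] k) c x, l.toAddMonoidHom (φ c * x) = c * l.toAddMonoidHom x :=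
    fun l c x => l.map_smul c x
  let b := Module.Basis.ofVectorSpace k ℂ
  let F := univ.biUnion fun p : ι × ι => (g p.1 p.2).coeff.support.biUnion fun a =>
    (b.repr ((g p.1 p.2).coeff a)).support
  let G := fun α => g.map (lin_ml (b.coord α).toAddMonoidHom)
  have hG : ∀ α, gf th q A A' (G α) = 0 := fun α => by
    rw [lin_gf (hl _), h, Matrix.map_zero _ (map_zero _)]
  have hg' : g = ∑ α ∈ F, (C (b α) : ℂ[T;T⁻¹]) • (G α).map (mp φ) := by
    ext i j a
    simp only [G, Matrix.map_apply, Matrix.sum_apply, Matrix.smul_apply, smul_eq_mul,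
      AddMonoidAlgebra.coeff_sum, Finsupp.coe_finsetSum, Finset.sum_apply, coeff_C_mul, coeff_mp,
      lin_coeff]
    refine (b.linearCombination_repr _).symm.trans ((Finsupp.linearCombination_apply _ _).trans
      ((Finsupp.sum_of_support_subset _ (fun α hα => ?_) (fun α c => c • b α) fun _ _ =>
        zero_smul _ _).trans (sum_congr rfl fun α _ => mul_comm _ _)))
    refine mem_biUnion.2 ⟨(i, j), mem_univ _, mem_biUnion.2 ⟨a, Finsupp.mem_support_iff.2
      fun e => ?_, hα⟩⟩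
    simp [show (g i j).coeff a = 0 from e] at hα
  let P := ∑ α ∈ F, (MvPolynomial.X α : MvPolynomial _ k[T;T⁻¹]) • (G α).map
    (MvPolynomial.C (σ := Module.Basis.ofVectorSpaceIndex k ℂ))
  have ev : ∀ {Λ : Type} [CommRing Λ] (ρ : k[T;T⁻¹] →+* Λ) (x : _ → Λ),
      MvPolynomial.eval₂Hom ρ x P.det = (∑ α ∈ F, x α • (G α).map ρ).det := fun ρ x => by
    rw [RingHom.map_det]
    congr 1
    ext i j : 1
    simp [P, Matrix.sum_apply]
  obtain ⟨x, hx, e⟩ : ∃ x ∈ Set.pi .univ fun _ => Set.range (C : k → k[T;T⁻¹]),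
      MvPolynomial.eval x P.det ≠ 0 := by
    by_contra! H
    have h0 : P.det = 0 := MvPolynomial.funext_set _
      (fun _ => Set.infinite_range_of_injective (C : k →+* k[T;T⁻¹]).injective) fun x hx => by
        rw [H x hx, map_zero]
    have := ev (mp φ) fun α => C (b α)
    rw [h0, map_zero, ← hg'] at this
    exact ((isUnit_iff_isUnit_det g).1 hg).ne_zero this.symm
  choose y hy using fun α => hx α (Set.mem_univ _)
  let g' := ∑ α ∈ F, (C (y α) : k[T;T⁻¹]) • G α
  have h1 : gf th q A A' g' = 0 := by simp only [g', lin_gf_sum, hG, smul_zero, sum_const_zero]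
  have h2 : g'.det ≠ 0 := fun l => e ((ev (RingHom.id _) x).trans (by simpa [g', hy] using l))
  refine ⟨g', (isUnit_iff_isUnit_det g').2 ?_, h1⟩
  obtain ⟨g, rfl⟩ := hg
  have h3 : gf th (mp φ q) (A'.map (mp φ)) (A'.map (mp φ)) (g⁻¹.1 * g'.map (mp φ)) = 0 := by
    have := gf_mul (q := mp φ q) (A := A.map (mp φ)) (A' := A'.map (mp φ)) (G := g.1) dv_th
      (A'.map (mp φ)) (g⁻¹.1 * g'.map (mp φ))
    rw [← Matrix.mul_assoc, g.mul_inv, Matrix.one_mul, ← gf_map (mp φ) (mp_th φ), h1, h,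
      Matrix.map_zero _ (map_zero _), Matrix.zero_mul, zero_add] at this
    exact (Units.mul_right_eq_zero g).1 this.symm
  have h4 := (mul_eq_zero.1 (lin_det dv_th h3)).resolve_left fun l =>
    hq (inj (l.trans (map_zero _).symm))
  have h5 : g.1.det * (g⁻¹.1 * g'.map (mp φ)).det = mp φ g'.det := by
    rw [← det_mul, ← Matrix.mul_assoc, g.mul_inv, Matrix.one_mul, RingHom.map_det]
    rfl
  generalize (g⁻¹.1 * g'.map (mp φ)).det = f at h4 h5
  have h6 : f = C (f.coeff 0) := LaurentPolynomial.ext fun a => by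
    have := congrArg (fun x : ℂ[T;T⁻¹] => x.coeff a) h4
    by_cases ha : a = 0
    · simp [ha]
    · simpa [ha] using this
  have h7 : IsUnit (mp φ g'.det) := by
    rw [← h5, h6]
    refine ((isUnit_iff_isUnit_det _).1 g.isUnit).mul (IsUnit.map C (Ne.isUnit fun l => h2 (inj ?_)))
    rw [← h5, h6, l, map_zero, map_zero, mul_zero]
  obtain ⟨z, hz⟩ := h7.exists_right_inv
  obtain ⟨l, e⟩ := Module.Projective.exists_dual_eq_one k (one_ne_zero (α := ℂ))
  refine .of_mul_eq_one (lin_ml l.toAddMonoidHom z) ?_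
  rw [← lin_mul (hl l), hz]
  ext a
  rw [lin_coeff, ← map_one C, ← map_one (C : k →+* _), C_apply, C_apply]
  split_ifs
  · exact e
  · exact map_zero _

end Pool.Agent.Lib.MP_815ef6_nt.Ch
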