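import Pool.Agent.Lib.MP_815ef6_nt.CS.Def

/-! The Birkhoff factorization. -/

namespace Pool.Agent.Lib.MP_815ef6_nt.Ch
open Finset LaurentPolynomial Matrix

variable {k : Type*} [Field k] {ι : Type*} [Fintype ι] [DecidableEq ι]

theorem birk_X (n : ℕ) : io true (T n : k[T;T⁻¹]) =
    algebraMap (PowerSeries k) (Ls k) (PowerSeries.X ^ n) := by
  rw [io_T, sg, one_mul]
  exact (HahnSeries.ofPowerSeries_X_pow n).symm

theorem birk_ind (d : ℕ) (P : Matrix ι ι (PowerSeries k)) (h : ¬ PowerSeries.X ^ d ∣ P.det) :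
    ∃ (g : Matrix ι ι k[T;T⁻¹]) (U : Matrix ι ι (PowerSeries k)), IsUnit g ∧ IsUnit U ∧
      g.map (io true) * P.map (algebraMap _ (Ls k)) = U.map (algebraMap _ (Ls k)) := by
  induction d generalizing P with
  | zero => simp at h
  | succ d ih =>
    by_cases h0 : (P.map PowerSeries.constantCoeff).det = 0
    swap
    · refine ⟨1, P, isUnit_one, (isUnit_iff_isUnit_det P).2 (PowerSeries.isUnit_iff_constantCoeff.2
        (Ne.isUnit ?_)), by simp⟩
      rwa [RingHom.map_det]
    obtain ⟨c, hc, e⟩ := exists_vecMul_eq_zero_iff.2 h0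
    obtain ⟨i, hi⟩ := Function.ne_iff.1 hc
    have : ∀ j, PowerSeries.X ∣ ((PowerSeries.C ∘ c) ᵥ* P) j := fun j =>
      PowerSeries.X_dvd_iff.2 (by simpa [vecMul, dotProduct] using congrFun e j)
    choose r hr using this
    have e1 : PowerSeries.C (c i) * P.det = PowerSeries.X * (P.updateRow i r).det := by
      rw [← det_updateRow_smul, show PowerSeries.X • r = _ from (funext hr).symm,
        vecMul_eq_sum, det_updateRow_sum]
      rfl
    obtain ⟨g, U, hg, hU, e2⟩ := ih (P.updateRow i r) fun l => h (by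
      rw [← ((Ne.isUnit hi).map PowerSeries.C).dvd_mul_left, e1, pow_succ']
      exact mul_dvd_mul_left _ l)
    refine ⟨g * updateRow 1 i fun j => T (-1) * C (c j), U, hg.mul ((isUnit_iff_isUnit_det _).2 ?_),
      hU, ?_⟩
    · rw [← cramer_transpose_apply]
      simpa using (isUnit_T (-1)).mul ((Ne.isUnit hi).map C)
    rw [Matrix.map_mul, mul_assoc, ← e2, map_updateRow, map_updateRow, updateRow_mul,
      Matrix.map_one _ (map_zero _) (map_one _), one_mul]
    congr 2
    funext j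
    have := congrArg (io true (T (-1) : k[T;T⁻¹]) * algebraMap _ (Ls k) ·) (hr j)
    simp only [map_mul] at this
    rw [← pow_one PowerSeries.X, ← birk_X, ← mul_assoc, ← map_mul, ← T_add] at this
    simpa [vecMul, dotProduct, mul_sum, mul_assoc, io_C, ← HahnSeries.C_mul_eq_smul,
      -HahnSeries.C_apply, mul_left_comm (io true _)] using this

omit [Fintype ι] [DecidableEq ι] in
theorem birk_od (U : Matrix ι ι (PowerSeries k)) : Od 0 0 (U.map (algebraMap _ (Ls k))) :=
  fun i j a ha => by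
    rw [zero_dvd_iff]
    exact (PowerSeries.coeff_coe _ _).trans (if_pos (by simpa using ha))

theorem hermite {Ψ : Matrix ι ι (Ls k)} (h : IsUnit Ψ) : ∃ (g : Matrix ι ι k[T;T⁻¹])
    (V V' : Matrix ι ι (Ls k)), IsUnit g ∧ Od 0 0 V ∧ Od 0 0 V' ∧ V * V' = 1 ∧
      g.map (io true) = Ψ * V := by
  obtain ⟨⟨_, N, rfl⟩, hN⟩ := IsLocalization.exist_integer_multiples_of_finite
    (Submonoid.powers (PowerSeries.X : PowerSeries k)) fun p : ι × ι => Ψ p.1 p.2
  choose f hf using hN
  have e : (of fun i j => f (i, j)).map (algebraMap _ (Ls k)) = io true (T N : k[T;T⁻¹]) • Ψ := by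
    rw [birk_X]
    exact Matrix.ext fun i j => (hf (i, j)).trans (Algebra.smul_def _ _)
  have h0 : (of fun i j => f (i, j)).det ≠ 0 := fun l => by
    have := (algebraMap _ (Ls k)).map_det (of fun i j => f (i, j))
    rw [l, map_zero, RingHom.mapMatrix_apply, e, det_smul] at this
    exact (((isUnit_T _).map _).pow _ |>.mul ((isUnit_iff_isUnit_det _).1 h)).ne_zero this.symm
  obtain ⟨d, hd⟩ := PowerSeries.exists_coeff_ne_zero_iff_ne_zero.2 h0
  obtain ⟨g, U, hg, hU, e2⟩ := birk_ind (d + 1) _ fun l =>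
    hd (PowerSeries.X_pow_dvd_iff.1 l d d.lt_succ_self)
  obtain ⟨g, rfl⟩ := hg
  obtain ⟨U, rfl⟩ := hU
  refine ⟨(T (-N) : k[T;T⁻¹]) • g⁻¹.1, _, _, ?_, birk_od U⁻¹.1, birk_od U.1, ?_, ?_⟩
  · rw [Algebra.smul_def]
    exact ((isUnit_T _).map _).mul g⁻¹.isUnit
  · rw [← Matrix.map_mul, Units.inv_mul, Matrix.map_one _ (map_zero _) (map_one _)]
  · have := congrArg (fun M => io true (T (-N) : k[T;T⁻¹]) •
      (g⁻¹.1.map (io true) * M * U⁻¹.1.map (algebraMap _ (Ls k)))) e2
    simp only [e, ← mul_assoc, ← Matrix.map_mul, Units.inv_mul, Matrix.mul_smul, Matrix.smul_mul,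
      smul_smul, ← map_mul, ← T_add, neg_add_cancel, T_zero, map_one, one_smul] at this
    rw [mul_assoc _ (U.1.map _), ← Matrix.map_mul, Units.mul_inv] at this
    simp only [Matrix.map_one _ (map_zero _) (map_one _), one_mul, mul_one] at this
    rw [this]
    exact Matrix.ext fun i j => map_mul (io true) _ _

end Pool.Agent.Lib.MP_815ef6_nt.Ch
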