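import Pool.Agent.Lib.MP_815ef6_nt.CS.Def

/-! The Popov form. -/

namespace Pool.Agent.Lib.MP_815ef6_nt.Ch
open Finset LaurentPolynomial Matrix

variable {k : Type*} [Field k] {ι : Type*} [Fintype ι] [DecidableEq ι]

/-- Polynomials in `1 / w`. -/
noncomputable def popF : Polynomial k →+* Ls k := (io false).comp Polynomial.toLaurent

theorem pop_tl (f : Polynomial k) {a : ℤ} (h : a < 0) : (Polynomial.toLaurent f).coeff a = 0 := by
  induction f using Polynomial.induction_on' with
  | add f g h h' => rw [map_add, AddMonoidAlgebra.coeff_add, Finsupp.add_apply, h, h', add_zero]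
  | monomial m c => rw [Polynomial.toLaurent_C_mul_T, coeff_CT, if_neg (by omega)]

theorem pop_inj {f : Polynomial k} (h : ∀ b ≤ 0, (popF f).coeff b = 0) : f = 0 :=
  Polynomial.toLaurent_eq_zero.1 (LaurentPolynomial.ext fun a => by
    rcases lt_or_ge a 0 with l | l
    · exact pop_tl f l
    · simpa [popF, sg] using h (-a) (by omega))

theorem pop_mono (d : ℕ) (c : k) :
    popF (Polynomial.monomial d c) = HahnSeries.single (-d : ℤ) c := by
  rw [popF, RingHom.comp_apply, Polynomial.toLaurent_C_mul_T, map_mul, io_C, io_T,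
    HahnSeries.C_apply, HahnSeries.single_mul_single]
  simp [sg]

theorem pop_lb {α : Type*} [Finite α] (x : α → Ls k) :
    ∃ N : ℤ, ∀ j, ∀ b < N, (x j).coeff b = 0 := by
  obtain ⟨N, hN⟩ := (Set.finite_range fun j => (x j).order).bddBelow
  exact ⟨N, fun j b h => HahnSeries.coeff_eq_zero_of_lt_order (h.trans_le (hN ⟨j, rfl⟩))⟩

omit [DecidableEq ι] in
theorem pop_mv {G : Matrix ι ι (Ls k)} {x : ι → Ls k} {N N' : ℤ}
    (h : ∀ i j, ∀ b < N, (G i j).coeff b = 0) (h' : ∀ j, ∀ b < N', (x j).coeff b = 0) (i : ι) :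
    ∀ b < N + N', ((G *ᵥ x) i).coeff b = 0 := fun b hb => by
  rw [mulVec, dotProduct, HahnSeries.coeff_sum]
  refine sum_eq_zero fun j _ => ?_
  rw [HahnSeries.coeff_mul]
  refine sum_eq_zero fun y hy => ?_
  have := (mem_antidiagonal.1 hy).2.2
  rcases lt_or_ge y.1 N with l | l
  · rw [h i j _ l, zero_mul]
  · rw [h' j y.2 (by omega), mul_zero]

/-- The position of a monomial. -/
noncomputable def popC (b : ℤ) (i : ι) : ℤ := b * Fintype.card ι + (Fintype.equivFin ι i : ℕ)

omit [DecidableEq ι]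

theorem pop_lt {b b' : ℤ} (h : b < b') (i i' : ι) : popC b i < popC b' i' := by
  have h1 : ((Fintype.equivFin ι i : ℕ) : ℤ) < Fintype.card ι := by
    exact_mod_cast (Fintype.equivFin ι i).2
  have h2 : (0 : ℤ) ≤ (Fintype.equivFin ι i' : ℕ) := Int.natCast_nonneg _
  have h3 := mul_le_mul_of_nonneg_right (Int.add_one_le_of_lt h)
    (Int.natCast_nonneg (Fintype.card ι))
  simp only [popC]
  linarith

theorem pop_le {b b' : ℤ} {i i' : ι} (h : popC b i ≤ popC b' i') : b ≤ b' :=
  not_lt.1 fun l => (pop_lt l i' i).not_ge h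

theorem pop_eq {b b' : ℤ} {i i' : ι} (h : popC b i = popC b' i') : b = b' ∧ i = i' := by
  obtain rfl := (pop_le h.le).antisymm (pop_le h.ge)
  exact ⟨rfl, (Fintype.equivFin ι).injective (Fin.ext (by simpa [popC] using h))⟩

/-- The least monomial of `x` is `w ^ a e j`. -/
def PopL (x : ι → Ls k) (a : ℤ) (j : ι) : Prop :=
  (x j).coeff a = 1 ∧ ∀ b i, popC b i < popC a j → (x i).coeff b = 0

theorem pop_smul (G : Matrix ι ι (Ls k)) (p : Polynomial k) (h : ι → Polynomial k) :
    G *ᵥ (popF ∘ (p • h)) = popF p • G *ᵥ (popF ∘ h) := by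
  rw [← mulVec_smul]
  exact congrArg _ (funext fun i => map_mul popF p (h i))

theorem pop_add (G : Matrix ι ι (Ls k)) (h h' : ι → Polynomial k) :
    G *ᵥ (popF ∘ (h + h')) = G *ᵥ (popF ∘ h) + G *ᵥ (popF ∘ h') := by
  rw [← mulVec_add]
  exact congrArg _ (funext fun i => map_add popF (h i) (h' i))

/-- Division with remainder. -/
theorem pop_red (G : Matrix ι ι (Ls k)) (a : ι → ℤ)
    (ha : ∀ j, ∃ h, PopL (G *ᵥ (popF ∘ h)) (a j) j) (x : ι → Ls k) :
    ∃ h, ∀ j, ∀ b ≤ a j, ((x - G *ᵥ (popF ∘ h)) j).coeff b = 0 := by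
  obtain ⟨T, hT⟩ := (Set.finite_range fun j => popC (a j) j).bddAbove
  have key : ∀ t ≤ T + 1, ∀ x : ι → Ls k, (∀ j, ∀ b ≤ a j, popC b j < t → (x j).coeff b = 0) →
      ∃ h, ∀ j, ∀ b ≤ a j, ((x - G *ᵥ (popF ∘ h)) j).coeff b = 0 := fun t ht => by
    induction t, ht using Int.leInductionDown with
    | base =>
      refine fun x hx => ⟨0, fun j b hb => ?_⟩
      rw [show popF ∘ (0 : ι → Polynomial k) = 0 from funext fun _ => map_zero _, mulVec_zero,
        sub_zero]
      refine hx j b hb (Int.lt_add_one_of_le (le_trans ?_ (hT ⟨j, rfl⟩)))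
      exact hb.eq_or_lt.elim (fun e => e ▸ le_rfl) fun l => (pop_lt l j j).le
    | pred t _ ih =>
      intro x hx
      by_cases e : ∃ j, ∃ b ≤ a j, popC b j = t - 1
      · obtain ⟨j, b, hb, e⟩ := e
        obtain ⟨h, h1, h2⟩ := ha j
        obtain ⟨d, hd⟩ := Int.eq_ofNat_of_zero_le (sub_nonneg.2 hb)
        obtain ⟨h', k⟩ := ih (x - G *ᵥ (popF ∘ (Polynomial.monomial d ((x j).coeff b) • h)))
          fun i c hc l => by
            rw [pop_smul, pop_mono, Pi.sub_apply, Pi.smul_apply, smul_eq_mul,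
              HahnSeries.coeff_sub, HahnSeries.coeff_single_mul, sub_neg_eq_add]
            rcases (Int.le_sub_one_of_lt l).eq_or_lt with l | l
            · obtain ⟨rfl, rfl⟩ := pop_eq (l.trans e.symm)
              rw [← hd, add_sub_cancel, h1, mul_one, sub_self]
            · rw [hx i c hc l, h2 _ _ (by
                rw [← e] at l
                simp only [popC, ← hd] at l ⊢
                linarith), mul_zero, sub_zero]
        exact ⟨_ + h', by simpa only [pop_add, ← sub_sub] using k⟩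
      · exact ih x fun j b hb l => hx j b hb
          ((Int.le_sub_one_of_lt l).lt_of_ne fun e' => e ⟨j, b, hb, e'⟩)
  obtain ⟨N, hN⟩ := pop_lb x
  refine key (min (T + 1) (N * Fintype.card ι)) (min_le_left _ _) x fun j b _ l => hN j b ?_
  by_contra! q
  have := mul_le_mul_of_nonneg_right q (Int.natCast_nonneg (Fintype.card ι))
  have := l.trans_le (min_le_right _ _)
  simp only [popC] at this
  omega

theorem pop_lead (G : Matrix ι ι (Ls k)) {h : ι → Polynomial k} (h0 : G *ᵥ (popF ∘ h) ≠ 0) :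
    ∃ b j h', PopL (G *ᵥ (popF ∘ h')) b j ∧ ((G *ᵥ (popF ∘ h)) j).coeff b ≠ 0 := by
  obtain ⟨N, hN⟩ := pop_lb (G *ᵥ (popF ∘ h))
  obtain ⟨_, ⟨b, j, rfl, h1⟩, h2⟩ := Int.exists_least_of_bdd
    (P := fun t => ∃ b j, popC b j = t ∧ ((G *ᵥ (popF ∘ h)) j).coeff b ≠ 0)
    ⟨N * Fintype.card ι, by
      rintro _ ⟨b, j, rfl, k⟩
      have := mul_le_mul_of_nonneg_right (not_lt.1 fun l => k (hN j b l))
        (Int.natCast_nonneg (Fintype.card ι))
      simp only [popC]
      omega⟩ (by
      by_contra! k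
      exact h0 (funext fun j => HahnSeries.ext (funext fun b => k _ b j rfl)))
  refine ⟨b, j, Polynomial.monomial 0 (((G *ᵥ (popF ∘ h)) j).coeff b)⁻¹ • h, ⟨?_, fun c i l => ?_⟩,
    h1⟩ <;> rw [pop_smul, pop_mono, Pi.smul_apply, smul_eq_mul, HahnSeries.coeff_single_mul,
      Nat.cast_zero, neg_zero, sub_zero]
  · exact inv_mul_cancel₀ h1
  · rw [by_contra fun k => (h2 _ ⟨c, i, rfl, k⟩).not_gt l, mul_zero]

variable [DecidableEq ι]

theorem pop_one {V : Matrix ι ι (Ls k)}
    (hV : ∀ j i, ∀ b ≤ 0, (V j i).coeff b = if j = i ∧ b = 0 then 1 else 0) (x : ι → Ls k) :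
    ∃ h, ∀ j, ∀ b ≤ 0, ((x - V *ᵥ (popF ∘ h)) j).coeff b = 0 := by
  refine pop_red V 0 (fun j => ⟨Pi.single j 1, ?_⟩) x
  rw [show popF ∘ (Pi.single j 1 : ι → Polynomial k) = Pi.single j 1 from funext fun i => by
    simp [Pi.single_apply, apply_ite popF], mulVec_single_one]
  refine ⟨by simpa using hV j j 0 le_rfl, fun b i l => (hV i j b (pop_le l.le)).trans (if_neg ?_)⟩
  rintro ⟨rfl, rfl⟩
  exact l.ne rfl

theorem popov {Γ : Matrix ι ι (Ls k)} (h : IsUnit Γ) : ∃ (g g' : Matrix ι ι k[T;T⁻¹]) (m : ι → ℤ)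
    (V : Matrix ι ι (Ls k)), g * g' = 1 ∧ Od 0 0 (g.map (io true)) ∧ Od 0 0 (g'.map (io true)) ∧
      Od 0 0 V ∧ c0 V = 1 ∧ Γ * g.map (io false) = (diagonal fun i => io false (T (m i))) * V := by
  obtain ⟨⟨Γ, G, h1, h2⟩, rfl⟩ := h
  dsimp only
  obtain ⟨N, hN⟩ := pop_lb fun x : ι × ι => Γ x.1 x.2
  obtain ⟨N', hN'⟩ := pop_lb fun x : ι × ι => G x.1 x.2
  have e : ∀ x, G *ᵥ Γ *ᵥ x = x := fun x => by rw [mulVec_mulVec, h2, one_mulVec]
  have sgl : ∀ (a : ℤ) (i j : ι) (b : ℤ), ((Pi.single i (HahnSeries.single a 1) : ι → Ls k) j).coeff b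
      = if j = i ∧ b = a then 1 else 0 := fun a i j b => by
    by_cases l : j = i <;> simp [l, HahnSeries.coeff_single]
  choose a a1 a2 using fun j => Int.exists_greatest_of_bdd
    (P := fun a => ∃ h, PopL (Γ *ᵥ (popF ∘ h)) a j) ⟨-N', by
      rintro a ⟨h, k1, k2⟩
      by_contra! l
      obtain rfl : h = 0 := funext fun i => pop_inj fun b hb => by
        have := pop_mv (G := G) (fun i j => hN' (i, j)) (fun i b l => k2 b i (pop_lt l i j)) i b
          (by omega)
        rwa [e] at this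
      rw [show popF ∘ (0 : ι → Polynomial k) = 0 from funext fun _ => map_zero _,
        mulVec_zero] at k1
      exact zero_ne_one k1⟩ (by
      obtain ⟨h, k⟩ := pop_one (V := 1) (fun j i b _ => by
        by_cases l : j = i <;> simp [l, one_apply, HahnSeries.coeff_one])
        (G *ᵥ Pi.single j (HahnSeries.single N 1))
      have k' := fun i =>
        pop_mv (G := Γ) (fun i j => hN (i, j)) (N' := 1) (fun j b l => k j b (by omega)) i
      simp only [mulVec_sub, mulVec_mulVec, h1, one_mulVec, Pi.sub_apply,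
        HahnSeries.coeff_sub, sub_eq_zero, sgl] at k'
      refine ⟨N, h, by simpa using (k' j N (by omega)).symm, fun b i l =>
        (k' i b (Int.lt_add_one_of_le (pop_le l.le))).symm.trans (if_neg ?_)⟩
      rintro ⟨rfl, rfl⟩
      exact l.ne rfl)
  have hM : ∀ h, (∀ j, ∀ b ≤ a j, ((Γ *ᵥ (popF ∘ h)) j).coeff b = 0) → h = 0 := fun h k => by
    by_contra h0
    obtain ⟨b, j, h', k1, k2⟩ := pop_lead Γ (h := h) fun l => h0 (funext fun i => pop_inj
      fun b _ => by
        have := congrFun (e (popF ∘ h)) i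
        rw [l, mulVec_zero] at this
        exact congrArg (·.coeff b) this.symm)
    exact k2 (k j b (a2 j b ⟨h', k1⟩))
  choose H hH using fun i => pop_red Γ a a1 (Pi.single i (HahnSeries.single (a i) 1))
  let V : Matrix ι ι (Ls k) := fun j i =>
    HahnSeries.single (-a j) 1 * (Γ *ᵥ (popF ∘ H i)) j
  have hV : ∀ j i, ∀ b ≤ 0, (V j i).coeff b = if j = i ∧ b = 0 then 1 else 0 := fun j i b hb => by
    have := hH i j (b + a j) (by omega)
    rw [Pi.sub_apply, HahnSeries.coeff_sub, sub_eq_zero, sgl] at this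
    rw [HahnSeries.coeff_single_mul, one_mul, sub_neg_eq_add, ← this]
    exact if_congr (and_congr_right fun l => by rw [l, add_eq_right]) rfl rfl
  have eV : Γ * (of H)ᵀ.map popF = (diagonal fun i => HahnSeries.single (a i) 1) * V :=
    Matrix.ext fun j i => by
      rw [diagonal_mul, ← mul_assoc, HahnSeries.single_mul_single, add_neg_cancel, mul_one]
      exact (one_mul _).symm
  choose H' hH' using fun i => pop_one hV fun j => HahnSeries.single (-a j) 1 * Γ j i
  have eH : (of H)ᵀ * (of H')ᵀ = 1 := Matrix.ext fun j i => by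
    refine (sub_eq_zero.1 (congrFun (hM (Pi.single i 1 - (of H)ᵀ *ᵥ H' i) fun j b hb => ?_)
      j)).symm.trans (Pi.single_apply _ _ _)
    have := hH' i j (b - a j) (by omega)
    rw [show popF ∘ (Pi.single i 1 - (of H)ᵀ *ᵥ H' i) =
        Pi.single i 1 - (of H)ᵀ.map popF *ᵥ (popF ∘ H' i) from funext fun l => by
          simp [Pi.single_apply, apply_ite popF, RingHom.map_mulVec], mulVec_sub, mulVec_mulVec, eV,
      ← mulVec_mulVec, mulVec_single_one, Pi.sub_apply, mulVec_diagonal, HahnSeries.coeff_sub,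
      HahnSeries.coeff_single_mul]
    simpa [HahnSeries.coeff_single_mul] using this
  refine ⟨(of H)ᵀ.map Polynomial.toLaurent, (of H')ᵀ.map Polynomial.toLaurent, fun i => -a i, V,
    by rw [← Matrix.map_mul, eH, Matrix.map_one _ (map_zero _) (map_one _)],
    fun i j b l => ?_, fun i j b l => ?_, fun i j b l => ?_, Matrix.ext fun i j => ?_, ?_⟩
  · exact zero_dvd_iff.2 ((coeff_io _ _ _).trans (pop_tl _ (by simpa [sg] using l)))
  · exact zero_dvd_iff.2 ((coeff_io _ _ _).trans (pop_tl _ (by simpa [sg] using l)))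
  · exact zero_dvd_iff.2 ((hV i j b (by omega)).trans (if_neg (by omega)))
  · simpa [one_apply, c0] using hV i j 0 le_rfl
  · refine eV.trans ?_
    simp [io_T, sg]

end Pool.Agent.Lib.MP_815ef6_nt.Ch
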