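import Pool.Agent.Lib.MP_815ef6_nt.CS.Amx
import Pool.Agent.Lib.MP_815ef6_nt.CS.Birk
import Pool.Agent.Lib.MP_815ef6_nt.CS.Pop

/-! The normal form of a system with three singular points. -/

namespace Pool.Agent.Lib.MP_815ef6_nt.Ch
open Finset LaurentPolynomial Matrix

variable {ι : Type*} [Fintype ι] [DecidableEq ι]

section
variable {R : Type*} [CommRing R]

theorem nrm_od {ι ι' : Type*} {M : Matrix ι ι' (Ls R)} :
    Od 0 0 M ↔ ∀ i j (a : ℤ), a < 0 → (M i j).coeff a = 0 := by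
  simp [Od]

theorem nrm_map {ι ι' : Type*} (M : Matrix ι ι' (PowerSeries R)) :
    Od 0 0 (M.map (HahnSeries.ofPowerSeries ℤ R)) ∧
      c0 (M.map (HahnSeries.ofPowerSeries ℤ R)) = M.map PowerSeries.constantCoeff := by
  refine ⟨nrm_od.2 fun i j a ha => ?_, Matrix.ext fun i j => ?_⟩
  · rw [map_apply, PowerSeries.coeff_coe, if_pos ha]
  · rw [c0, map_apply, PowerSeries.coeff_coe, if_neg (lt_irrefl _), map_apply]
    simp

theorem nrm_lift {ι ι' : Type*} {M : Matrix ι ι' (Ls R)} (h : Od 0 0 M) :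
    ∃ N : Matrix ι ι' (PowerSeries R), N.map (HahnSeries.ofPowerSeries ℤ R) = M := by
  refine ⟨fun i j => PowerSeries.mk fun n => (M i j).coeff n, Matrix.ext fun i j => ?_⟩
  ext a
  rw [map_apply, PowerSeries.coeff_coe]
  split_ifs with ha
  · exact (nrm_od.1 h i j a ha).symm
  · rw [PowerSeries.coeff_mk, Int.natAbs_of_nonneg (not_lt.1 ha)]

omit [DecidableEq ι] in
theorem nrm_mul {M N : Matrix ι ι (Ls R)} (hM : Od 0 0 M) (hN : Od 0 0 N) :
    Od 0 0 (M * N) ∧ c0 (M * N) = c0 M * c0 N := by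
  obtain ⟨M, rfl⟩ := nrm_lift hM
  obtain ⟨N, rfl⟩ := nrm_lift hN
  rw [← Matrix.map_mul, (nrm_map _).2, (nrm_map _).2, (nrm_map _).2]
  exact ⟨(nrm_map _).1, Matrix.map_mul⟩

omit [Fintype ι] in
theorem nrm_diag (K : ι → R) :
    Od 0 0 (diagonal fun i => cS (K i)) ∧ c0 (diagonal fun i => cS (K i)) = diagonal K := by
  refine ⟨nrm_od.2 fun i j a ha => ?_, Matrix.ext fun i j => ?_⟩
  · by_cases e : i = j <;> simp [e, HahnSeries.C_apply, ha.ne]
  · by_cases e : i = j <;> simp [c0, e, HahnSeries.C_apply]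

omit [Fintype ι] in
theorem nrm_one : c0 (1 : Matrix ι ι (Ls R)) = 1 := by
  simpa using (nrm_diag fun _ : ι => (1 : R)).2

theorem nrm_inv {V : Matrix ι ι (Ls R)} (h : Od 0 0 V) (e : c0 V = 1) :
    ∃ V', Od 0 0 V' ∧ c0 V' = 1 ∧ V' * V = 1 := by
  obtain ⟨N, rfl⟩ := nrm_lift h
  rw [(nrm_map _).2] at e
  have hu : IsUnit N := by
    rw [isUnit_iff_isUnit_det, PowerSeries.isUnit_iff_constantCoeff, RingHom.map_det,
      RingHom.mapMatrix_apply, e, det_one]
    exact isUnit_one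
  obtain ⟨N', e'⟩ := hu.exists_left_inv
  have e'' : N'.map (HahnSeries.ofPowerSeries ℤ R) * N.map (HahnSeries.ofPowerSeries ℤ R) = 1 := by
    rw [← Matrix.map_mul, e', Matrix.map_one _ (map_zero _) (map_one _)]
  refine ⟨_, (nrm_map N').1, ?_, e''⟩
  have := (nrm_mul (nrm_map N').1 h).2
  rw [e'', nrm_one, (nrm_map N).2, e, Matrix.mul_one] at this
  exact this.symm

theorem nrm_two {f : R[T;T⁻¹]} (h0 : ∀ a < 0, f.coeff a = 0) (h1 : ∀ a > 1, f.coeff a = 0) :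
    f = C (f.coeff 0) * T 0 + C (f.coeff 1) * T 1 := by
  refine LaurentPolynomial.ext fun a => ?_
  rw [AddMonoidAlgebra.coeff_add, Finsupp.add_apply, coeff_CT, coeff_CT]
  split_ifs with h h' h'
  · omega
  · rw [h, add_zero]
  · rw [h', zero_add]
  · rw [add_zero]
    rcases lt_or_gt_of_ne h with l | l
    · exact h1 a (by omega)
    · exact h0 a l

theorem nrm_side (b : Bool) {A A' g g' : Matrix ι ι R[T;T⁻¹]} (hg : g' * g = 1)
    (hA : gf th (1 - T 1) A A' g = 0) {K : ι → R} {Y Y' : Matrix ι ι (Ls R)} (hY : Od 0 0 Y)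
    (hY' : Od 0 0 Y') (e : Y * Y' = 1) (h : df b (1 - T 1) A K (g.map (io b) * Y) = 0) :
    ∃ Z : Matrix ι ι (Ls R), Od 0 0 Z ∧ c0 Z * c0 Y = c0 Y * diagonal K ∧ ∀ i j a,
      (A' i j).coeff a = (Z i j).coeff (sg b * a) - (Z i j).coeff (sg b * (a - 1)) := by
  have h1 := gf_map (q := 1 - T 1) (A := A) (A' := A') (G := g) (io b) (io_th b)
  rw [hA, Matrix.map_zero _ (map_zero _)] at h1
  rw [df, gf_mul (A' := A'.map (io b)) (dv_dS b), ← h1, Matrix.zero_mul, zero_add] at h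
  have h2 := congrArg (g'.map (io b) * ·) h
  simp only [← Matrix.mul_assoc, ← Matrix.map_mul, hg, Matrix.mul_zero,
    Matrix.map_one _ (map_zero _) (map_one _), Matrix.one_mul] at h2
  have hd : Od 0 0 (Y.map (dS b)) ∧ c0 (Y.map (dS b)) = 0 :=
    ⟨nrm_od.2 fun i j a ha => by rw [map_apply, coeff_dS, nrm_od.1 hY i j a ha, mul_zero],
      Matrix.ext fun i j => by simp [c0]⟩
  obtain ⟨k1, k2⟩ := nrm_mul hY (nrm_diag K).1
  have hs : Od 0 0 (Y.map (dS b) + Y * diagonal fun i => cS (K i)) ∧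
      c0 (Y.map (dS b) + Y * diagonal fun i => cS (K i)) = c0 Y * diagonal K := by
    refine ⟨nrm_od.2 fun i j a ha => ?_, ?_⟩
    · rw [Matrix.add_apply, HahnSeries.coeff_add, nrm_od.1 hd.1 i j a ha, nrm_od.1 k1 i j a ha,
        add_zero]
    · rw [← (nrm_diag K).2, ← k2, ← zero_add (c0 (Y * _)), ← hd.2]
      rfl
  obtain ⟨z1, z2⟩ := nrm_mul hs.1 hY'
  have e' : c0 Y' * c0 Y = 1 := by rw [← (nrm_mul hY' hY).2, mul_eq_one_comm.1 e, nrm_one]
  refine ⟨_, z1, by rw [z2, hs.2, Matrix.mul_assoc, e', Matrix.mul_one], fun i j a => ?_⟩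
  have h3 : A'.map (io b) =
      io b (1 - T 1 : R[T;T⁻¹]) • ((Y.map (dS b) + Y * diagonal fun i => cS (K i)) * Y') := by
    rw [← Matrix.smul_mul, smul_add, ← Matrix.mul_smul, ← Matrix.mul_one (A'.map _), ← e,
      ← Matrix.mul_assoc]
    congr 1
    rw [gf] at h2
    exact (sub_eq_zero.1 ((sub_add_eq_add_sub _ _ _).symm.trans h2)).symm
  have h4 := congrArg (fun M : Matrix ι ι (Ls R) => (M i j).coeff (sg b * a)) h3
  simp only [map_apply, coeff_io, ← mul_assoc, sg_sq, one_mul, Matrix.smul_apply, smul_eq_mul,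
    map_sub, map_one, io_T, sub_mul, HahnSeries.coeff_sub, HahnSeries.coeff_single_mul] at h4
  rw [h4, mul_sub]

theorem nrm_shift (b : Bool) {q : R[T;T⁻¹]} {A : Matrix ι ι R[T;T⁻¹]} {K : ι → R}
    {Ψ : Matrix ι ι (Ls R)} (h : df b q A K Ψ = 0) (m : ι → ℤ) :
    df b q A (fun i => K i - m i) (Ψ * diagonal fun i => io b (T (m i))) = 0 := by
  rw [df] at h
  rw [df, gf_mul (A' := io b q • diagonal fun i => cS (K i)) (dv_dS b), h, Matrix.zero_mul,
    zero_add]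
  refine (congrArg _ (Matrix.ext fun i j => ?_)).trans (Matrix.mul_zero _)
  have h0 : dS b (0 : Ls R) = 0 := by simpa using dS_cS b (0 : R)
  have h1 (a : ℤ) : dS b (io b (T a : R[T;T⁻¹])) = cS (a : R) * io b (T a) := by
    have := th_CT (1 : R) a
    rw [map_one, one_mul, mul_one] at this
    rw [← io_th, this, map_mul, io_C]
  rw [gf, Matrix.smul_mul, Matrix.mul_smul, diagonal_mul_diagonal, diagonal_mul_diagonal]
  by_cases e : i = j
  · subst e
    simp only [Matrix.add_apply, Matrix.sub_apply, Matrix.smul_apply, map_apply, diagonal_apply_eq,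
      smul_eq_mul, h1, map_sub, Matrix.zero_apply]
    ring
  · simp [diagonal_apply_ne _ e, h0]

end

theorem normal {A : Matrix ι ι ℂ[T;T⁻¹]} {u₁ v₁ : ι → ℂ} (rk : A.map ev1 = vecMulVec u₁ v₁)
    {κ : Bool → ι → ℚ} {Ψ : Bool → Matrix ι ι (Ls ℂ)}
    (h : ∀ b, df b (1 - T 1) A (fun i => (κ b i : ℂ)) (Ψ b) = 0) (hΨ : ∀ b, IsUnit (Ψ b)) :
    ∃ (μ : ι → ℚ) (u v : ι → ℂ) (g : Matrix ι ι ℂ[T;T⁻¹]) (P : Matrix ι ι ℂ), IsUnit g ∧
      gf th (1 - T 1) A (mA (fun i => (μ i : ℂ)) u v) g = 0 ∧ IsUnit P ∧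
      ((diagonal fun i => (μ i : ℂ)) + vecMulVec u v) * P = P * diagonal (fun i => (κ true i : ℂ)) ∧
      ∑ i, u i * v i = ∑ i, u₁ i * v₁ i ∧ (vecMulVec u₁ v₁ = 0 → vecMulVec u v = 0) := by
  obtain ⟨g0, V, V', u0, hV, hV', eV, e0⟩ := hermite (hΨ true)
  obtain ⟨Φ, eΦ⟩ := (hΨ false).exists_right_inv
  have uΓ : IsUnit (Φ * g0.map (io false)) :=
    (IsUnit.of_mul_eq_one_right _ eΦ).mul (u0.map (io false).mapMatrix)
  obtain ⟨g1, g1', m, W, e1, o1, o1', hW, cW, eW⟩ := popov uΓ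
  have ug : IsUnit (g0 * g1) := u0.mul (IsUnit.of_mul_eq_one _ e1)
  obtain ⟨g', eg⟩ := ug.exists_left_inv
  generalize hg : g0 * g1 = g at ug eg
  have eg' : g * g' = 1 := mul_eq_one_comm.1 eg
  obtain ⟨A', hA⟩ : ∃ A', gf th (1 - T 1) A A' g = 0 :=
    ⟨g' * (A * g - (1 - T 1 : ℂ[T;T⁻¹]) • g.map th), by
      rw [gf, ← Matrix.mul_assoc, eg', Matrix.one_mul]; abel⟩
  have m1 (b : Bool) : g1.map (io b) * g1'.map (io b) = 1 := by
    rw [← Matrix.map_mul, e1, Matrix.map_one _ (map_zero _) (map_one _)]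
  obtain ⟨y1, -⟩ := nrm_mul o1' hV'
  obtain ⟨y2, -⟩ := nrm_mul hV o1
  have ey : g1'.map (io true) * V' * (V * g1.map (io true)) = 1 := by
    rw [Matrix.mul_assoc, ← Matrix.mul_assoc V', mul_eq_one_comm.1 eV, Matrix.one_mul,
      mul_eq_one_comm.1 (m1 true)]
  obtain ⟨Z, z1, z2, z3⟩ := nrm_side true eg hA y1 y2 ey (K := fun i => (κ true i : ℂ)) (by
    rw [← hg, Matrix.map_mul, e0, Matrix.mul_assoc, ← Matrix.mul_assoc (g1.map _), m1,
      Matrix.one_mul, Matrix.mul_assoc, eV, Matrix.mul_one]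
    exact h true)
  obtain ⟨W', hW', cW', eW'⟩ := nrm_inv hW cW
  obtain ⟨Z', z1', z2', z3'⟩ := nrm_side false eg hA hW' hW eW'
    (K := fun i => (κ false i : ℂ) - m i) (by
    have : g.map (io false) = Ψ false * ((diagonal fun i => io false (T (m i))) * W) := by
      rw [← eW, ← Matrix.mul_assoc, ← Matrix.mul_assoc, eΦ, Matrix.one_mul, ← hg, Matrix.map_mul]
    rw [this, Matrix.mul_assoc, Matrix.mul_assoc, mul_eq_one_comm.1 eW', Matrix.mul_one]
    exact nrm_shift false (h false) m)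
  rw [cW', Matrix.mul_one, Matrix.one_mul] at z2'
  have hμ : (fun i => ((κ false i - m i : ℚ) : ℂ)) = fun i => (κ false i : ℂ) - m i :=
    funext fun i => by push_cast; rfl
  have two (i j : ι) : A' i j =
      C (c0 Z i j) * T 0 + C (-diagonal (fun i => (κ false i : ℂ) - m i) i j) * T 1 := by
    have a0 : (A' i j).coeff 0 = c0 Z i j := by
      rw [z3, nrm_od.1 z1 i j (sg true * (0 - 1)) (by simp [sg]), sub_zero]
      rfl
    have a1 : (A' i j).coeff 1 = -diagonal (fun i => (κ false i : ℂ) - m i) i j := by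
      rw [z3', nrm_od.1 z1' i j (sg false * 1) (by simp [sg]), zero_sub, ← z2']
      rfl
    rw [← a0, ← a1]
    refine nrm_two (fun a ha => ?_) fun a ha => ?_
    · rw [z3, nrm_od.1 z1 i j _ (by simp only [sg]; omega),
        nrm_od.1 z1 i j _ (by simp only [sg]; omega), sub_zero]
    · rw [z3', nrm_od.1 z1' i j _ (by simp only [sg]; omega),
        nrm_od.1 z1' i j _ (by simp only [sg]; omega), sub_zero]
  have v1 : g'.map ev1 * g.map ev1 = 1 := by
    rw [← Matrix.map_mul, eg, Matrix.map_one _ (map_zero _) (map_one _)]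
  have v2 : vecMulVec (g'.map ev1 *ᵥ u₁) (v₁ ᵥ* g.map ev1) =
      g'.map ev1 * (vecMulVec u₁ v₁ * g.map ev1) := by rw [vecMulVec_mul, mul_vecMulVec]
  have v3 : A'.map ev1 = vecMulVec (g'.map ev1 *ᵥ u₁) (v₁ ᵥ* g.map ev1) := by
    have := congrArg (·.map ev1) hA
    simp only [gf, Matrix.map_add _ (map_add _), Matrix.map_sub _ (map_sub _),
      Matrix.map_smul' _ _ _ (map_mul _), Matrix.map_mul, map_sub, map_one, ev1_T, sub_self,
      zero_smul, zero_sub, Matrix.map_zero _ (map_zero _), rk] at this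
    rw [v2, neg_add_eq_zero.1 this, ← Matrix.mul_assoc, v1, Matrix.one_mul]
  have v4 (i j : ι) : vecMulVec (g'.map ev1 *ᵥ u₁) (v₁ ᵥ* g.map ev1) i j =
      c0 Z i j - diagonal (fun i => (κ false i : ℂ) - m i) i j := by
    rw [← v3, map_apply, two]
    simp only [map_add, map_mul, ev1_C, ev1_T, mul_one, sub_eq_add_neg]
  refine ⟨fun i => κ false i - m i, g'.map ev1 *ᵥ u₁, v₁ ᵥ* g.map ev1, g,
    c0 (g1'.map (io true) * V'), ug, ?_, ?_, ?_, ?_, fun e => ?_⟩
  · rw [hμ]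
    convert hA
    refine Matrix.ext fun i j => ?_
    rw [two, mA, Matrix.add_apply, Matrix.smul_apply, map_apply, map_apply, v4, map_sub, map_neg,
      T_zero, smul_eq_mul]
    ring
  · exact IsUnit.of_mul_eq_one _ (by rw [← (nrm_mul y1 y2).2, ey, nrm_one])
  · rw [hμ, ← z2]
    congr 1
    exact Matrix.ext fun i j => by rw [Matrix.add_apply, v4, add_sub_cancel]
  · change (g'.map ev1 *ᵥ u₁) ⬝ᵥ (v₁ ᵥ* g.map ev1) = u₁ ⬝ᵥ v₁
    rw [dotProduct_comm, ← dotProduct_mulVec, mulVec_mulVec, mul_eq_one_comm.1 v1, one_mulVec,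
      dotProduct_comm]
  · rw [v2, e, Matrix.zero_mul, Matrix.mul_zero]

end Pool.Agent.Lib.MP_815ef6_nt.Ch
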