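import Pool.Agent.Lib.MP_815ef6_nt.CS.LemA

/-! Splitting of the reducible normal forms. -/

namespace Pool.Agent.Lib.MP_815ef6_nt.Ch
open Finset LaurentPolynomial Matrix

variable {ι : Type*} [Fintype ι] [DecidableEq ι] {μ u v : ι → ℚ}

section
variable {Λ : Type*} [CommRing Λ] {wt : ι → ℕ} {k k' : ℕ} {M N : Matrix ι ι Λ}

/-- Homogeneous of weight `k`. -/
def SpmH (wt : ι → ℕ) (k : ℕ) (M : Matrix ι ι Λ) : Prop := ∀ i j, wt j ≠ wt i + k → M i j = 0

omit [Fintype ι] [DecidableEq ι] in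
theorem spm_wp (wt : ι → ℕ) (k : ℕ) (M : Matrix ι ι Λ) : SpmH wt k (wp wt k M) :=
  fun _ _ h => if_neg h

omit [Fintype ι] [DecidableEq ι] in
theorem SpmH.add (h : SpmH wt k M) (h' : SpmH wt k N) : SpmH wt k (M + N) := fun i j e => by
  rw [Matrix.add_apply, h i j e, h' i j e, add_zero]

omit [DecidableEq ι] in
theorem SpmH.mul (h : SpmH wt k M) (h' : SpmH wt k' N) : SpmH wt (k + k') (M * N) := fun i j e => by
  rw [Matrix.mul_apply]
  refine sum_eq_zero fun l _ => ?_
  by_cases e' : wt l = wt i + k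
  · rw [h' l j (by omega), mul_zero]
  · rw [h i l e', zero_mul]

omit [Fintype ι] [DecidableEq ι] in
theorem SpmH.zero (h : SpmH wt k M) (h2 : ∀ i, wt i ≤ 2) (hk : 2 < k) : M = 0 :=
  Matrix.ext fun i j => h i j (by have := h2 j; omega)

omit [Fintype ι] [DecidableEq ι] in
theorem SpmH.wp_add (h : SpmH wt k M) (h' : SpmH wt k' N) (l : ℕ) :
    wp wt l (M + N) = (if l = k then M else 0) + if l = k' then N else 0 := by
  ext1 i j
  have e := h i j
  have e' := h' i j
  rw [wp, Matrix.add_apply, Matrix.add_apply]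
  split_ifs <;> simp (disch := omega) only [e, e', add_zero, zero_add, Matrix.zero_apply]

omit [DecidableEq ι] in
theorem spm_gf {d : Λ → Λ} (hd : Dv d) (q : Λ) {A δ E : Matrix ι ι Λ} (hA : SpmH wt 0 A)
    (hE : SpmH wt k E) (h : gf d q A A δ = E) : gf d q A A (wp wt k δ) = E := by
  have d0 : d 0 = 0 := by simpa using hd.add 0 0
  ext i j
  by_cases e : wt j = wt i + k
  · rw [← h]
    simp only [gf, Matrix.add_apply, Matrix.sub_apply, Matrix.smul_apply, Matrix.map_apply,
      Matrix.mul_apply, wp, if_pos e]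
    congr 1
    · congr 1
      refine sum_congr rfl fun l _ => ?_
      split_ifs with e'
      · rfl
      · rw [hA i l (by omega), zero_mul, zero_mul]
    · refine sum_congr rfl fun l _ => ?_
      split_ifs with e'
      · rfl
      · rw [hA l j (by omega), mul_zero, mul_zero]
  · rw [hE i j e, gf, Matrix.add_apply, Matrix.sub_apply,
      hA.mul (spm_wp wt k δ) i j (by omega), (spm_wp wt k δ).mul hA i j (by omega)]
    simp [wp, e, d0]

theorem spm_one_add {d : Λ → Λ} (hd : Dv d) (q : Λ) (A A' δ : Matrix ι ι Λ) :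
    gf d q A A' (1 + δ) = A' - A + gf d q A A' δ := by
  have d0 : d 0 = 0 := by simpa using hd.add 0 0
  have d1 : d 1 = 0 := by simpa using hd.mul 1 1
  have e : (1 + δ).map d = δ.map d := by
    ext i j
    rw [Matrix.map_apply, Matrix.add_apply, hd.add, Matrix.one_apply]
    split_ifs <;> simp [d0, d1]
  rw [gf, gf, e, Matrix.mul_add, Matrix.add_mul, Matrix.mul_one, Matrix.one_mul]
  abel

theorem SpmH.unit (h : SpmH wt k M) (h2 : ∀ i, wt i ≤ 2) (hk : 0 < k) : IsUnit (1 + M) :=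
  IsNilpotent.isUnit_one_add ⟨3, by
    rw [pow_succ, pow_two]
    exact ((h.mul h).mul h).zero h2 (by omega)⟩

end

omit [Fintype ι] in
theorem spm_apply (μ u v : ι → ℚ) (i j : ι) : mC μ u v i j =
    (if i = j then (1 - T 1) * C (μ i : ℂ) else 0) + C ((u i * v j : ℚ) : ℂ) := by
  by_cases h : i = j <;> simp [mA, h, vecMulVec_apply]

theorem split_model (iu : ∀ l l', u l ≠ 0 → u l' ≠ 0 → μ l = μ l' → l = l')
    (md : MD (1 - T 1) (mC μ u v)) (tr : (∀ z : ℤ, ∑ l, u l * v l ≠ z) ∨ vecMulVec u v = 0) :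
    ∃ (u' v' : ι → ℚ) (g : Matrix ι ι ℂ[T;T⁻¹]), Mdl μ u' v' ∧ IsUnit g ∧
      gf th (1 - T 1) (mC μ u v) (mC μ u' v') g = 0 := by
  obtain ⟨wt, hwt⟩ : ∃ wt : ι → ℕ, ∀ l, wt l =
    if u l = 0 then (if v l = 0 then 1 else 2) else if v l = 0 then 0 else 1 := ⟨_, fun _ => rfl⟩
  obtain ⟨u', hu⟩ : ∃ u' : ι → ℚ, ∀ l, u' l = if v l = 0 then 0 else u l := ⟨_, fun _ => rfl⟩
  obtain ⟨v', hv⟩ : ∃ v' : ι → ℚ, ∀ l, v' l = if u l = 0 then 0 else v l := ⟨_, fun _ => rfl⟩
  have h2 : ∀ i, wt i ≤ 2 := fun i => by rw [hwt]; split_ifs <;> omega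
  have h1 : ∀ i, u' i ≠ 0 → wt i = 1 := fun i => by
    rw [hwt, hu]; split_ifs <;> simp_all
  have hw : ∀ i j, wt j < wt i → mC μ u v i j = 0 := fun i j h => by
    have e : u i * v j = 0 := by
      by_cases a : u i = 0 <;> by_cases b : v i = 0 <;> by_cases c : u j = 0 <;>
          by_cases d : v j = 0 <;> simp [hwt, a, b, c, d] at h ⊢
    rw [spm_apply, e, if_neg (by rintro rfl; omega)]
    simp
  have e0 : wp wt 0 (mC μ u v) = mC μ u' v' := by
    ext1 i j
    rw [wp, spm_apply, spm_apply]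
    by_cases h : wt j = wt i + 0
    · have e : u i * v j = u' i * v' j := by
        by_cases a : u i = 0 <;> by_cases b : v i = 0 <;> by_cases c : u j = 0 <;>
          by_cases d : v j = 0 <;> simp [hwt, hu, hv, a, b, c, d] at h ⊢
      rw [if_pos h, e]
    · have e : u' i * v' j = 0 := by
        by_cases a : u i = 0 <;> by_cases b : v i = 0 <;> by_cases c : u j = 0 <;>
          by_cases d : v j = 0 <;> simp [hwt, hu, hv, a, b, c, d] at h ⊢
      rw [if_neg h, e, if_neg (by rintro rfl; omega)]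
      simp
  obtain ⟨m0, m1⟩ := md.weight wt hw one_pos fun l _ _ => by omega
  rw [e0] at m0 m1
  have H : Mdl μ u' v' := by
    refine ⟨fun l => by rw [hu, hv]; split_ifs <;> simp_all, fun l l' k k' => iu l l' ?_ ?_, ?_, m0⟩
    · rw [hu] at k; split_ifs at k <;> simp_all
    · rw [hu] at k'; split_ifs at k' <;> simp_all
    · refine tr.imp (fun h z => ?_) fun h l => ?_
      · rw [sum_congr rfl (g := fun l => u l * v l) fun l _ => by
          rw [hu, hv]; split_ifs <;> simp_all]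
        exact h z
      · have := congrFun (congrFun h l) l
        rw [vecMulVec_apply] at this
        rw [hu]; split_ifs <;> simp_all
  have k0 : SpmH wt 0 (mC μ u' v') := e0 ▸ spm_wp wt 0 _
  obtain ⟨δ, hδ⟩ := H.split' m1 (u' := fun l => if wt l = 0 then u l else 0)
    (v' := fun l => if wt l = 2 then v l else 0) fun i j _ => by
      rw [wp, spm_apply]
      by_cases h : wt j = wt i + 1
      · rw [if_pos h, if_neg (by rintro rfl; omega), zero_add, ev1_C]
        by_cases a : u i = 0 <;> by_cases b : v i = 0 <;> by_cases c : u j = 0 <;>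
          by_cases d : v j = 0 <;> simp [hwt, hu, hv, a, b, c, d] at h ⊢
      · rw [if_neg h, map_zero]
        by_cases a : u i = 0 <;> by_cases b : v i = 0 <;> by_cases c : u j = 0 <;>
          by_cases d : v j = 0 <;> simp [hwt, hu, hv, a, b, c, d] at h ⊢
  have k1 := spm_wp wt 1 (mC μ u v)
  have k2 := spm_wp wt 2 (mC μ u v)
  have eA : mC μ u v = mC μ u' v' + wp wt 1 (mC μ u v) + wp wt 2 (mC μ u v) := by
    rw [← e0]
    ext1 i j
    have := h2 j
    have := hw i j
    simp only [wp, Matrix.add_apply]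
    split_ifs <;> first | omega | simp (disch := omega) only [this, add_zero, zero_add]
  replace hδ := spm_gf dv_th _ k0 k1 hδ
  have k3 := spm_wp wt 1 δ
  generalize wp wt 1 δ = d at hδ k3
  generalize wp wt 1 (mC μ u v) = E1 at hδ k1 eA
  generalize wp wt 2 (mC μ u v) = E2 at k2 eA
  have k4 : SpmH wt 2 (E2 + E1 * d) := k2.add (k1.mul k3)
  have g1 : gf th (1 - T 1) (mC μ u v) (mC μ u' v' + (E2 + E1 * d)) (1 + d) = 0 := by
    have a1 := (k2.mul k3).zero h2 (by omega)
    have a2 := (k3.mul k4).zero h2 (by omega)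
    rw [spm_one_add dv_th, eA, gf, Matrix.mul_add d, a2, Matrix.add_mul, Matrix.add_mul, a1]
    rw [gf] at hδ
    linear_combination (norm := abel1) hδ
  have u1 := k3.unit h2 one_pos
  obtain ⟨-, m2⟩ := ((MD.gauge g1 ((Matrix.isUnit_iff_isUnit_det _).1 u1).ne_zero).1 md).weight wt
    (fun i j h => by
      rw [Matrix.add_apply, k0 i j (by omega), k4 i j (by omega), add_zero]) two_pos
    fun l _ _ => by rw [k0.wp_add k4, if_neg (by omega), if_neg (by omega), add_zero]
  rw [k0.wp_add k4, k0.wp_add k4] at m2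
  simp only [if_true, OfNat.ofNat_ne_zero, if_false, OfNat.zero_ne_ofNat, add_zero,
    zero_add] at m2
  obtain ⟨δ', hδ'⟩ := H.split' m2 (u' := 0) (v' := 0) fun l i h => by
    have := h2 i
    rw [k4 l i (by rcases h with h | h <;> have := h1 _ h <;> omega)]
    simp
  replace hδ' := spm_gf dv_th _ k0 k4 hδ'
  have k5 := spm_wp wt 2 δ'
  generalize wp wt 2 δ' = d' at hδ' k5
  generalize E2 + E1 * d = E at hδ' k4 g1
  have g2 : gf th (1 - T 1) (mC μ u' v' + E) (mC μ u' v') (1 + d') = 0 := by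
    have a1 := (k4.mul k5).zero h2 (by omega)
    rw [spm_one_add dv_th, gf, Matrix.add_mul, a1]
    rw [gf] at hδ'
    linear_combination (norm := abel1) hδ'
  refine ⟨u', v', (1 + d) * (1 + d'), H, u1.mul (k5.unit h2 two_pos), ?_⟩
  rw [gf_mul (A' := mC μ u' v' + E) dv_th, g1, g2, Matrix.zero_mul, Matrix.mul_zero, add_zero]

end Pool.Agent.Lib.MP_815ef6_nt.Ch
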