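import Pool.Agent.Lib.MP_815ef6_nt.CS.Frob
import Pool.Agent.Lib.MP_815ef6_nt.CS.Nrm
import Pool.Agent.Lib.MP_815ef6_nt.CS.Adp
import Pool.Agent.Lib.MP_815ef6_nt.CS.Spm
import Pool.Agent.Lib.MP_815ef6_nt.CS.Lin

/-! The classification of the limit systems. -/

namespace Pool.Agent.Lib.MP_815ef6_nt.Ch
open Finset LaurentPolynomial Matrix

variable {ι : Type*} [Fintype ι] [DecidableEq ι]

theorem kpk_zero {Λ : Type*} [CommRing Λ] {d : Λ → Λ} (hd : Dv d) : d 0 = 0 := by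
  simpa using hd.add 0 0

theorem kpk_one {Λ : Type*} [CommRing Λ] {d : Λ → Λ} (hd : Dv d) : d 1 = 0 := by
  simpa using hd.mul 1 1

theorem kpk_cancel {Λ : Type*} [CommRing Λ] {G X : Matrix ι ι Λ} (hG : IsUnit G) (h : G * X = 0) :
    X = 0 := hG.mul_left_cancel (h.trans (Matrix.mul_zero G).symm)

theorem kpk_inv {Λ : Type*} [CommRing Λ] {d : Λ → Λ} (hd : Dv d) {q : Λ} {A A' G G' : Matrix ι ι Λ}
    (h : gf d q A A' G = 0) (e : G * G' = 1) : gf d q A' A G' = 0 := by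
  have h1 := gf_mul (q := q) (A := A) (A' := A') (G := G) hd A G'
  have e1 : (1 : Matrix ι ι Λ).map d = 0 := by
    ext i j
    rw [Matrix.map_apply, one_apply]
    split_ifs
    exacts [kpk_one hd, kpk_zero hd]
  rw [e, h, Matrix.zero_mul, zero_add, gf, e1, smul_zero, Matrix.mul_one, Matrix.one_mul, zero_sub,
    neg_add_cancel] at h1
  exact kpk_cancel (IsUnit.of_mul_eq_one _ e) h1.symm

theorem kpk_q {R : Type*} [CommRing R] [Nontrivial R] : (1 - T 1 : R[T;T⁻¹]) ≠ 0 := fun h => by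
  have h1 := congrArg (fun f : R[T;T⁻¹] => f.coeff 0) (sub_eq_zero.1 h)
  have h2 := coeff_CT (1 : R) 1 0
  have h3 := coeff_CT (1 : R) 0 0
  simp only [map_one, one_mul, T_zero] at h2 h3
  simp [h2, h3] at h1

omit [Fintype ι] in
theorem kpk_mA {R R' : Type*} [CommRing R] [CommRing R'] (φ : R →+* R') (μ u v : ι → R) :
    (mA μ u v).map (mp φ) = mA (fun i => φ (μ i)) (fun i => φ (u i)) fun i => φ (v i) := by
  ext i j : 2
  by_cases h : i = j <;> simp [mA, vecMulVec_apply, h]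

theorem kpk_const {μ u v u' v' : ι → ℂ} {g : Matrix ι ι ℂ} (h : g * diagonal μ = diagonal μ * g)
    (h' : vecMulVec u v * g = g * vecMulVec u' v') :
    gf th (1 - T 1) (mA μ u v) (mA μ u' v') (g.map C) = 0 := by
  have e : (g.map (C : ℂ →+* ℂ[T;T⁻¹])).map th = 0 := by
    refine Matrix.ext fun i j => ?_
    simpa using th_CT (g i j) 0
  rw [gf, e, mA, mA, Matrix.add_mul, Matrix.mul_add, Matrix.smul_mul, Matrix.mul_smul,
    ← Matrix.map_mul, ← Matrix.map_mul, ← Matrix.map_mul, ← Matrix.map_mul, h, h', smul_zero]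
  abel

theorem kpk_mon {k : Type*} [Field k] [CharZero k] (b : Bool) {f : Ls k} {c : ℚ}
    (h : ∀ a, (((sg b * a : ℤ) + c : ℚ) : k) * f.coeff a = 0) :
    ∃ s : k[T;T⁻¹], io b s = f ∧ ∀ a, s.coeff a ≠ 0 → a + c = 0 := by
  have h1 : ∀ a, f.coeff a ≠ 0 → (sg b * a : ℤ) + c = 0 := fun a l =>
    Rat.cast_eq_zero.1 ((mul_eq_zero.1 (h a)).resolve_right l)
  suffices H : ∃ s : k[T;T⁻¹], io b s = f by
    obtain ⟨s, e⟩ := H
    refine ⟨s, e, fun a l => ?_⟩
    have := h1 (sg b * a) (by rwa [← e, coeff_io, ← mul_assoc, sg_sq, one_mul])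
    rwa [← mul_assoc, sg_sq, one_mul] at this
  by_cases l : ∃ a, f.coeff a ≠ 0
  · obtain ⟨a, l⟩ := l
    refine ⟨C (f.coeff a) * T (sg b * a), HahnSeries.ext (funext fun a' => ?_)⟩
    rw [coeff_io, coeff_CT]
    split_ifs with e
    · cases b <;> simp only [sg] at e <;> congr 1 <;> omega
    · by_contra l'
      have h2 := (h1 a l).trans (h1 a' (Ne.symm l')).symm
      have h3 : sg b * a = sg b * a' := by exact_mod_cast add_right_cancel h2
      exact e h3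
  · push Not at l
    exact ⟨0, by rw [map_zero]; exact HahnSeries.ext (funext fun a => (l a).symm)⟩

theorem kpk_mono {k : Type*} [Field k] [CharZero k] (b : Bool) {q : Ls k} (hq : q ≠ 0)
    {κ₀ κ : ι → ℚ} {S₀ : Matrix ι ι (Ls k)}
    (h : gf (dS b) q (q • diagonal fun i => cS (κ₀ i : k)) (q • diagonal fun i => cS (κ i : k))
      S₀ = 0) : ∃ S : Matrix ι ι k[T;T⁻¹], S.map (io b) = S₀ ∧
        ∀ i j a, (S i j).coeff a ≠ 0 → a + κ j - κ₀ i = 0 := by
  have H : ∀ i j, ∃ s : k[T;T⁻¹], io b s = S₀ i j ∧ ∀ a, s.coeff a ≠ 0 → a + (κ j - κ₀ i) = 0 := by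
    refine fun i j => kpk_mon b fun a => ?_
    have h1 := congrFun (congrFun h i) j
    rw [gf, Matrix.smul_mul, Matrix.mul_smul, ← smul_sub, ← smul_add, Matrix.smul_apply,
      smul_eq_mul, Matrix.zero_apply, mul_eq_zero, or_iff_right hq, Matrix.add_apply,
      Matrix.sub_apply, diagonal_mul, mul_diagonal, mul_comm (S₀ i j), Matrix.map_apply] at h1
    have h2 := congrArg (fun f : Ls k => f.coeff a) h1
    simp only [HahnSeries.coeff_add, HahnSeries.coeff_sub, coeff_cS_mul, coeff_dS,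
      HahnSeries.coeff_zero] at h2
    push_cast at h2 ⊢
    linear_combination h2
  choose S e hS using H
  exact ⟨S, Matrix.ext e, fun i j a l => by rw [add_sub_assoc]; exact hS i j a l⟩

theorem kpk_unit {k : Type*} [Field k] {U : Matrix ι ι (Ls k)} (h : Od 0 0 U)
    (h0 : IsUnit (c0 U)) : IsUnit U := by
  let V : Matrix ι ι (PowerSeries k) := fun i j => PowerSeries.mk fun n => (U i j).coeff n
  have e : (HahnSeries.ofPowerSeries ℤ k).mapMatrix V = U := by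
    ext i j a
    rw [RingHom.mapMatrix_apply, Matrix.map_apply, PowerSeries.coeff_coe]
    split_ifs with l
    · exact (zero_dvd_iff.1 (h i j a (by simpa using l))).symm
    · rw [PowerSeries.coeff_mk, Int.natAbs_of_nonneg (not_lt.1 l)]
  have e' : (PowerSeries.constantCoeff (R := k)).mapMatrix V = c0 U := by
    ext i j
    simp [V, c0]
  rw [Matrix.isUnit_iff_isUnit_det, isUnit_iff_ne_zero] at h0 ⊢
  rw [← e, ← RingHom.map_det, map_ne_zero_iff _ HahnSeries.ofPowerSeries_injective]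
  intro l
  rw [← e', ← RingHom.map_det, l, map_zero] at h0
  exact h0 rfl

theorem classify {A : Matrix ι ι ℂ[T;T⁻¹]} (md : MD (1 - T 1) A) {u₁ v₁ : ι → ℂ}
    (rk : A.map ev1 = vecMulVec u₁ v₁)
    (tr : (∀ z : ℤ, ∑ l, u₁ l * v₁ l ≠ z) ∨ vecMulVec u₁ v₁ = 0) {κ : Bool → ι → ℚ}
    {Ψ : Bool → Matrix ι ι (Ls ℂ)} (h : ∀ b, df b (1 - T 1) A (fun i => (κ b i : ℂ)) (Ψ b) = 0)
    (hΨ : ∀ b, IsUnit (Ψ b)) : ∃ (μ u v : ι → ℚ) (g : Matrix ι ι ℂ[T;T⁻¹]), Mdl μ u v ∧ IsUnit g ∧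
      gf th (1 - T 1) A (mC μ u v) g = 0 := by
  obtain ⟨μ, u, v, g₁, P, hg₁, e₁, hP, eig, ht, hz⟩ := normal rk h hΨ
  obtain ⟨u', v', g₂, hg₂, c₁, c₂, iu⟩ := adapt hP eig
  have hG : IsUnit (g₁ * g₂.map C) := hg₁.mul (hg₂.map (C : ℂ →+* ℂ[T;T⁻¹]).mapMatrix)
  have e₂ : gf th (1 - T 1) A (mC μ u' v') (g₁ * g₂.map C) = 0 := by
    rw [gf_mul dv_th, e₁, kpk_const c₁ c₂, Matrix.zero_mul, Matrix.mul_zero, add_zero]
  have md' := (MD.gauge e₂ ((Matrix.isUnit_iff_isUnit_det _).1 hG).ne_zero).1 md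
  obtain ⟨g', i₂⟩ := hg₂.exists_right_inv
  have ht' : ∑ i, u i * v i = ((∑ l, u' l * v' l : ℚ) : ℂ) := by
    have h1 := congrArg (fun X => trace (X * g')) c₂
    simp only [Matrix.mul_assoc, i₂, Matrix.mul_one] at h1
    rw [trace_mul_comm g₂, Matrix.mul_assoc, mul_eq_one_comm.1 i₂, Matrix.mul_one, trace_vecMulVec,
      trace_vecMulVec] at h1
    push_cast
    exact h1
  obtain ⟨u'', v'', g₃, hM, hg₃, e₃⟩ := split_model iu md' (tr.imp (fun l z e => l z (by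
    rw [← ht, ht', e, Rat.cast_intCast])) fun l => by
      rw [hz l, Matrix.zero_mul] at c₂
      ext i j
      have := congrFun (congrFun (kpk_cancel hg₂ c₂.symm) i) j
      rw [vecMulVec_apply, Matrix.zero_apply] at this ⊢
      exact_mod_cast this)
  exact ⟨μ, u'', v'', _, hM, hG.mul hg₃, by
    rw [gf_mul dv_th, e₂, e₃, Matrix.zero_mul, Matrix.mul_zero, add_zero]⟩

theorem kpack {k : Type} [Field k] (φ : k →+* ℂ) {A W : Matrix ι ι k[T;T⁻¹]} {n : k[T;T⁻¹]}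
    {l : Bool → k[T;T⁻¹]} {Cm : Bool → Matrix ι ι k[T;T⁻¹]}
    (rel : ∀ b, Rel th (1 - T 1) A (l b) (Cm b) n W) (re : ∀ b, Re 0 b (l b) (Cm b)) (hn : n ≠ 0)
    (hW : W.det ≠ 0) {κ : Bool → ι → ℚ} {P P' : Bool → Matrix ι ι k} (hP : ∀ b, P b * P' b = 1)
    (eig : ∀ b, (Cm b).map (fun f => f.coeff 0) * P b = P b * diagonal fun i => (κ b i : k))
    (md : MD (1 - T 1) (A.map (mp φ))) (mdb : ∀ b, MD (mp φ (l b)) ((Cm b).map (mp φ)))
    {u₁ v₁ : ι → k} (rk : A.map ev1 = vecMulVec u₁ v₁)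
    (tr : (∀ z : ℤ, ∑ l, u₁ l * v₁ l ≠ z) ∨ vecMulVec u₁ v₁ = 0) :
    ∃ (μ u v : ι → ℚ) (g g' : Matrix ι ι k[T;T⁻¹]), Mdl μ u v ∧ g * g' = 1 ∧
      gf th (1 - T 1) A (mA (fun i => (μ i : k)) (fun i => (u i : k)) fun i => (v i : k)) g = 0 ∧
      ∀ b (κ₀ : ι → ℚ) (Φ Φ' : Matrix ι ι (Ls k)), df b (1 - T 1)
        (mA (fun i => (μ i : k)) (fun i => (u i : k)) fun i => (v i : k))
          (fun i => (κ₀ i : k)) Φ = 0 → Φ * Φ' = 1 →
        ∃ (S S' : Matrix ι ι k[T;T⁻¹]) (U : Matrix ι ι (Ls k)), S * S' = 1 ∧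
          (∀ i j a, (S i j).coeff a ≠ 0 → a + κ b j - κ₀ i = 0) ∧ Od 0 0 U ∧ c0 U = P b ∧
          io b n • U = (W * g).map (io b) * (Φ * S.map (io b)) := by
  have : CharZero k := φ.charZero
  have nz : ∀ b {f : k[T;T⁻¹]}, f ≠ 0 → io b f ≠ 0 := fun b f => (map_ne_zero_iff _ (io_inj b)).2
  choose U hU oU cU using fun b => frob φ (re b) (hP b) (eig b) (mdb b)
  have H : ∀ b, ∃ Ψ : Matrix ι ι (Ls k), IsUnit Ψ ∧ io b n • U b = W.map (io b) * Ψ ∧
      df b (1 - T 1) A (fun i => (κ b i : k)) Ψ = 0 := fun b => by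
    have uW : IsUnit (W.map (io b)) := by
      rw [Matrix.isUnit_iff_isUnit_det, isUnit_iff_ne_zero, ← RingHom.mapMatrix_apply,
        ← RingHom.map_det]
      exact nz b hW
    obtain ⟨W', iW⟩ := uW.exists_right_inv
    have uU : IsUnit (U b) := kpk_unit (oU b) (cU b ▸ IsUnit.of_mul_eq_one _ (hP b))
    have e : io b n • U b = W.map (io b) * (W' * io b n • U b) := by
      rw [← Matrix.mul_assoc, iW, Matrix.one_mul]
    have hl : l b ≠ 0 := fun e => by simpa [e] using (re b).one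
    refine ⟨_, (IsUnit.of_mul_eq_one_right _ iW).mul ?_, e, ?_⟩
    · rw [Matrix.isUnit_iff_isUnit_det, isUnit_iff_ne_zero] at uU ⊢
      rw [det_smul]
      exact mul_ne_zero (pow_ne_zero _ (nz b hn)) uU
    · have h1 := ((rel b).map (io b) (io_th b)).gf (dv_dS b)
        (K := diagonal fun i => cS (κ b i : k)) e
      have h2 := hU b
      rw [df] at h2
      rw [h2, smul_zero, eq_comm, smul_eq_zero,
        or_iff_right (mul_ne_zero (nz b hl) (nz b hn))] at h1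
      exact kpk_cancel uW h1
  choose Ψ uΨ eΨ hΨ using H
  have eq : mp φ (1 - T 1) = 1 - T 1 := by rw [map_sub, map_one, mp_T]
  obtain ⟨μ, u, v, g₀, hM, ug₀, hg₀⟩ := classify (u₁ := fun i => φ (u₁ i)) (v₁ := fun i => φ (v₁ i))
    (κ := κ) (Ψ := fun b => (Ψ b).map (mL φ)) md (by
      ext i j
      have := congrFun (congrFun rk i) j
      simp only [Matrix.map_apply, vecMulVec_apply] at this ⊢
      rw [ev1_mp, this, map_mul])
    (tr.imp (fun l z e => l z (φ.injective (by simpa using e))) fun l => by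
      ext i j
      have := congrFun (congrFun l i) j
      simp only [vecMulVec_apply, Matrix.zero_apply] at this ⊢
      rw [← map_mul, this, map_zero])
    (fun b => by
      have := df_map (b := b) (q := 1 - T 1) (A := A) (K := fun i => (κ b i : k)) φ (Ψ b)
      rw [hΨ, Matrix.map_zero _ (map_zero _), eq] at this
      simpa only [map_ratCast] using this.symm)
    fun b => (uΨ b).map (mL φ).mapMatrix
  obtain ⟨g, ug, hg⟩ := descend φ kpk_q (A := A)
    (A' := mA (fun i => (μ i : k)) (fun i => (u i : k)) fun i => (v i : k)) ug₀ (by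
      rw [eq, kpk_mA]
      simpa only [map_ratCast] using hg₀)
  obtain ⟨g', ig⟩ := ug.exists_right_inv
  refine ⟨μ, u, v, g, g', hM, ig, hg, fun b κ₀ Φ Φ' hΦ iΦ => ?_⟩
  have ib : g.map (io b) * g'.map (io b) = 1 := by
    rw [← Matrix.map_mul, ig, Matrix.map_one _ (map_zero _) (map_one _)]
  have eY : g.map (io b) * (Φ * (Φ' * (g'.map (io b) * Ψ b))) = Ψ b := by
    rw [← Matrix.mul_assoc Φ, iΦ, Matrix.one_mul, ← Matrix.mul_assoc, ib, Matrix.one_mul]
  have uS : IsUnit (Φ' * (g'.map (io b) * Ψ b)) :=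
    (IsUnit.of_mul_eq_one_right _ iΦ).mul ((IsUnit.of_mul_eq_one_right _ ib).mul (uΨ b))
  generalize Φ' * (g'.map (io b) * Ψ b) = S₀ at eY uS
  obtain ⟨S₀', iS⟩ := uS.exists_right_inv
  have h1 := hΨ b
  rw [df] at h1 hΦ
  rw [← eY, gf_mul (dv_dS b), ← gf_map (io b) (io_th b), hg, Matrix.map_zero _ (map_zero _),
    Matrix.zero_mul, zero_add, gf_mul (dv_dS b), hΦ, Matrix.zero_mul, zero_add] at h1
  have h2 := kpk_cancel (IsUnit.of_mul_eq_one _ iΦ) (kpk_cancel (IsUnit.of_mul_eq_one _ ib) h1)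
  obtain ⟨S, eS, hS⟩ := kpk_mono b (nz b kpk_q) h2
  obtain ⟨S', eS', -⟩ := kpk_mono b (nz b kpk_q) (kpk_inv (dv_dS b) h2 iS)
  refine ⟨S, S', U b, Matrix.map_injective (io_inj b) ?_, hS, oU b, cU b, ?_⟩
  · change (S * S').map (io b) = (1 : Matrix ι ι k[T;T⁻¹]).map (io b)
    rw [Matrix.map_mul, eS, eS', iS, Matrix.map_one _ (map_zero _) (map_one _)]
  · rw [eS, Matrix.map_mul, Matrix.mul_assoc, eY, eΨ]

end Pool.Agent.Lib.MP_815ef6_nt.Ch
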