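import Pool.Agent.Lib.MP_815ef6_nt.CS.AsD
import Pool.Agent.Lib.MP_815ef6_nt.CS.Kpk

/-! The classification of the reduction of a component, lifted to the semilocal ring. -/

namespace Pool.Agent.Lib.MP_815ef6_nt.Ch
open Finset LaurentPolynomial Matrix

variable {ι : Type*} [Fintype ι] [DecidableEq ι] {O : Subring ℂ} {t : ℂ}

theorem as3_field (H : Frame O t) {s : O} (hp : Prime s) {ρ : O →+* ℂ}
    (hρ : ∀ x, ρ x = 0 ↔ s ∣ x) : ∃ (k : Type) (_ : Field k) (π : O →+* k) (φ : k →+* ℂ),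
      Function.Surjective π ∧ ∀ x, φ (π x) = ρ x := by
  have := H.pid
  have : (Ideal.span {s}).IsMaximal := PrincipalIdealRing.isMaximal_of_irreducible hp.irreducible
  exact ⟨O ⧸ Ideal.span {s}, Ideal.Quotient.field _, Ideal.Quotient.mk _,
    Ideal.Quotient.lift _ ρ fun a ha => (hρ a).2 (Ideal.mem_span_singleton.1 ha),
    Ideal.Quotient.mk_surjective, fun _ => rfl⟩

section
variable {R R' : Type*} [CommRing R] [CommRing R']

theorem as3_lift {π : R →+* R'} (h : Function.Surjective π) (f : R'[T;T⁻¹]) :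
    ∃ g, mp π g = f ∧ ∀ a, g.coeff a ≠ 0 → f.coeff a ≠ 0 := by
  choose c hc using h
  refine ⟨∑ a ∈ f.coeff.support, C (c (f.coeff a)) * T a, LaurentPolynomial.ext fun k => ?_,
    fun k => ?_⟩
  · simp only [map_sum, map_mul, mp_C, mp_T, hc, AddMonoidAlgebra.coeff_sum,
      Finsupp.coe_finsetSum, Finset.sum_apply, coeff_CT, sum_ite_eq']
    split_ifs with h
    · rfl
    · exact (Finsupp.notMem_support_iff.1 h).symm
  · simp only [AddMonoidAlgebra.coeff_sum, Finsupp.coe_finsetSum, Finset.sum_apply, coeff_CT,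
      sum_ite_eq']
    split_ifs with h
    · exact fun _ => Finsupp.mem_support_iff.1 h
    · exact fun h => (h rfl).elim

omit [Fintype ι] [DecidableEq ι] in
theorem as3_liftM {π : R →+* R'} (h : Function.Surjective π) (A : Matrix ι ι R'[T;T⁻¹]) :
    ∃ B : Matrix ι ι R[T;T⁻¹], B.map (mp π) = A ∧
      ∀ i j a, (B i j).coeff a ≠ 0 → (A i j).coeff a ≠ 0 := by
  choose B h1 h2 using fun i j => as3_lift h (A i j)
  exact ⟨of B, Matrix.ext h1, h2⟩

omit [Fintype ι] in
theorem as3_mA (φ : R →+* R') (μ u v : ι → R) : (mA μ u v).map (mp φ) =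
    mA (fun i => φ (μ i)) (fun i => φ (u i)) fun i => φ (v i) := by
  ext1 i j
  by_cases h : i = j <;> simp [mA, h, vecMulVec_apply]

end

theorem pack (H : Frame O t) {s : O} (hp : Prime s) {ρ : O →+* ℂ} (hρ : ∀ x, ρ x = 0 ↔ s ∣ x)
    {F : Finset ℂ} {p₀ : ℕ} {X : PD O ι} (h : PrO s X F p₀) {κ : Bool → ι → ℚ}
    {P P' : Bool → Matrix ι ι ℚ} (e : Eg ρ X.Cm κ P P') (md : MD (1 - T 1) (X.A.map (mp ρ)))
    (mdb : ∀ b, MD (mp ρ (X.l b)) ((X.Cm b).map (mp ρ))) :
    ∃ μ u v : ι → ℚ, Mdl μ u v ∧ ∃ g g' : Matrix ι ι O[T;T⁻¹],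
      g.map (mp ρ) * g'.map (mp ρ) = 1 ∧
      gf th (1 - T 1) (X.A.map (mp ρ)) (mC μ u v) (g.map (mp ρ)) = 0 ∧
      ∀ b (κ₀ : ι → ℚ) (Φ Φ' : Matrix ι ι (Ls ℚ)), df b (1 - T 1) (mA μ u v) κ₀ Φ = 0 →
        Φ * Φ' = 1 → ∃ S S' : Matrix ι ι O[T;T⁻¹], S.map (mp ρ) * S'.map (mp ρ) = 1 ∧
          (∀ i j a, (S i j).coeff a ≠ 0 → a + κ b j - κ₀ i = 0) ∧
          ∃ U : Matrix ι ι (Ls ℂ), Od 0 0 U ∧ c0 U = (P b).map (fun x => (x : ℂ)) ∧
            io b (mp ρ X.n) • U = ((X.W * g).map (mp ρ)).map (io b) *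
              (Φ.map (mL (Rat.castHom ℂ)) * (S.map (mp ρ)).map (io b)) := by
  obtain ⟨k, _, π, φ, hs, hφ⟩ := as3_field H hp hρ
  have := φ.charZero
  have hπ : ∀ x, π x = 0 ↔ s ∣ x := fun x => by rw [← hρ, ← hφ, map_eq_zero φ]
  have h0 : ∀ f : O[T;T⁻¹], mp π f = 0 ↔ C s ∣ f := fun f => by
    rw [dvd_iff]
    exact ⟨fun e a => (hπ _).1 (by rw [← coeff_mp, e]; rfl),
      fun e => LaurentPolynomial.ext fun a => (hπ _).2 (e a)⟩
  have m1 : ∀ f : O[T;T⁻¹], mp φ (mp π f) = mp ρ f := fun f => by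
    ext a
    simp [hφ]
  have m2 : ∀ A : Matrix ι ι O[T;T⁻¹], (A.map (mp π)).map (mp φ) = A.map (mp ρ) := fun A =>
    Matrix.ext fun i j => m1 _
  have hδ : mp π X.δ = 1 := by
    have := (h0 _).2 h.one
    rwa [map_sub, map_one, sub_eq_zero] at this
  obtain ⟨u₁, v₁, γ, r1, r2, r3⟩ := h.rk
  obtain ⟨μ, u, v, g, g', hm, k1, k2, k3⟩ := kpack φ (A := X.A.map (mp π)) (W := X.W.map (mp π))
    (n := mp π X.n) (l := fun b => mp π (X.l b)) (Cm := fun b => (X.Cm b).map (mp π))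
    (fun b => by simpa [hδ] using (h.rel b).map (mp π) (mp_th π))
    (fun b => ⟨fun a ha => zero_dvd_iff.2 ((hπ _).2 ((h.re b).pl a ha)),
      zero_dvd_iff.2 (by simpa using (hπ _).2 (h.re b).one),
      fun i j a ha => zero_dvd_iff.2 ((hπ _).2 ((h.re b).pc i j a ha))⟩)
    (fun e => h.n0 ((h0 _).1 e)) (fun e => h.W0 ((h0 _).1 ((RingHom.map_det _ _).trans e)))
    (κ := κ) (P := fun b => (P b).map (Rat.castHom k)) (P' := fun b => (P' b).map (Rat.castHom k))
    (fun b => by rw [← Matrix.map_mul, e.inv, Matrix.map_one _ (map_zero _) (map_one _)])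
    (fun b => by
      refine Matrix.ext fun i j => φ.injective ?_
      have := congrFun (congrFun (e.eig b) i) j
      rw [mul_diagonal] at this ⊢
      simpa [Matrix.mul_apply, hφ] using this)
    (by rwa [m2]) (fun b => by rw [m1, m2]; exact mdb b) (u₁ := fun i => π (u₁ i))
    (v₁ := fun i => π (v₁ i))
    (Matrix.ext fun i j => by
      have := congrArg π (congrFun (congrFun r1 i) j)
      simpa [ev1_mp, vecMulVec_apply] using this)
    (r3.imp (fun r z hz => r z (by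
      have a1 : ∑ k, u₁ k * v₁ k = ((Rat.castHom ℂ).codRestrict O H.rat) γ * ev1 X.δ :=
        Subtype.ext r2
      have a2 : π (ev1 X.δ) = 1 := by rw [← ev1_mp, hδ, map_one]
      have a3 := eq_ratCast (π.comp ((Rat.castHom ℂ).codRestrict O H.rat)) γ
      have a4 := congrArg π a1
      rw [map_mul, a2, mul_one, map_sum, ← RingHom.comp_apply, a3] at a4
      simp only [map_mul] at a4
      exact_mod_cast a4.symm.trans hz)) fun r => Matrix.ext fun i j => by
        simpa [vecMulVec_apply] using congrArg π (congrFun (congrFun r i) j))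
  obtain ⟨G, rfl, -⟩ := as3_liftM hs g
  obtain ⟨G', rfl, -⟩ := as3_liftM hs g'
  refine ⟨μ, u, v, hm, G, G', ?_, ?_, fun b κ₀ Φ Φ' f1 f2 => ?_⟩
  · rw [← m2, ← m2, ← Matrix.map_mul, k1, Matrix.map_one _ (map_zero _) (map_one _)]
  · have := gf_map (d := th) (d' := th) (q := 1 - T 1) (A := X.A.map (mp π))
      (A' := mA (fun i => (μ i : k)) (fun i => (u i : k)) fun i => (v i : k))
      (G := G.map (mp π)) (mp φ) (mp_th φ)
    rw [k2, m2, m2, as3_mA, Matrix.map_zero _ (map_zero _)] at this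
    simpa using this.symm
  · obtain ⟨S, S', U, s1, s2, s3, s4, s5⟩ := k3 b κ₀ (Φ.map (mL (Rat.castHom k)))
      (Φ'.map (mL (Rat.castHom k))) (by
        have := df_map (b := b) (q := 1 - T 1) (A := mA μ u v) (K := κ₀) (Rat.castHom k) Φ
        rw [f1, as3_mA, Matrix.map_zero _ (map_zero _)] at this
        simpa using this.symm)
      (by rw [← Matrix.map_mul, f2, Matrix.map_one _ (map_zero _) (map_one _)])
    obtain ⟨Z, rfl, z1⟩ := as3_liftM hs S
    obtain ⟨Z', rfl, -⟩ := as3_liftM hs S'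
    refine ⟨Z, Z', ?_, fun i j a ha => s2 i j a (z1 i j a ha), U.map (mL φ),
      fun i j a ha => ?_, Matrix.ext fun i j => ?_, ?_⟩
    · rw [← m2, ← m2, ← Matrix.map_mul, s1, Matrix.map_one _ (map_zero _) (map_one _)]
    · simpa using map_dvd φ (s3 i j a ha)
    · simpa [c0] using congrArg φ (congrFun (congrFun s4 i) j)
    · have a1 : ∀ A : Matrix ι ι O[T;T⁻¹],
          ((A.map (mp π)).map (io b)).map (mL φ) = (A.map (mp ρ)).map (io b) := fun A =>
        Matrix.ext fun i j => (mL_io φ b _).trans (congrArg _ (m1 _))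
      have a2 : (Φ.map (mL (Rat.castHom k))).map (mL φ) = Φ.map (mL (Rat.castHom ℂ)) := by
        ext i j a
        simp
      rw [← Matrix.map_mul (f := mp π)] at s5
      have := congrArg (fun M => Matrix.map M (mL φ)) s5
      beta_reduce at this
      rw [Matrix.map_mul (f := mL φ), Matrix.map_mul (f := mL φ), a1, a1, a2] at this
      rw [← this, ← m1, ← mL_io]
      exact Matrix.ext fun i j => (map_mul _ _ _).symm

end Pool.Agent.Lib.MP_815ef6_nt.Ch
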