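import Pool.Agent.Lib.MP_815ef6_nt.CS.CmC1

/-! Components: the inductive step. -/

namespace Pool.Agent.Lib.MP_815ef6_nt.Ch
open Finset LaurentPolynomial Matrix

variable {B : Type*} [CommRing B] {ι : Type*} [Fintype ι] [DecidableEq ι] {s : B} {ρ : B →+* ℂ}
  {X : PD B ι} {K : Bool → ι → B} {P : Bool → Matrix ι ι B} {Y : CD B ι}

omit [Fintype ι] [DecidableEq ι] in
theorem cmc_eq (H : Loc s ρ) {M N : Matrix ι ι B[T;T⁻¹]} (h : Dd (C s) (M - N)) :
    M.map (mp ρ) = N.map (mp ρ) := sub_eq_zero.1 (by rw [← Am1_sb, (cmc_ddP H).1 h])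

omit [Fintype ι] [DecidableEq ι] in
theorem cmc_eqL (H : Loc s ρ) {M N : Matrix ι ι (Ls B)} (h : Dd (cS s) (M - N)) :
    M.map (mL ρ) = N.map (mL ρ) := sub_eq_zero.1 (by rw [← Am1_sb, (cmc_ddL H).1 h])

theorem cmc_gg (H : Loc s ρ) (h : Cmp s ρ X K P Y) : Y.g.map (mp ρ) * Y.g'.map (mp ρ) = 1 := by
  rw [← Matrix.map_mul, cmc_eq H h.gg, Matrix.map_one _ (map_zero _) (map_one _)]

theorem cmc_inv (H : Loc s ρ) (h : Cmp s ρ X K P Y) (b : Bool) :
    (Y.Ψ b).map (mL ρ) * (Y.Ψ' b).map (mL ρ) = 1 := by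
  rw [← Matrix.map_mul, cmc_eqL H (h.inv b), Matrix.map_one _ (map_zero _) (map_one _)]

theorem cmc_side (H : Loc s ρ) (h : Cmp s ρ X K P Y) {m : ℕ} {G E : Matrix ι ι B[T;T⁻¹]} (b : Bool)
    {Ψ V M F : Matrix ι ι (Ls B)}
    (hE : gf th ((1 - T 1) * X.δ) X.A (X.δ • Y.A0) G = C s ^ (m + 1) • E)
    (h0 : df b (1 - T 1) Y.A0 (K b) Ψ = 0) (h1 : Dd (cS s) (Ψ - Y.Ψ b))
    (hM : io b X.n • V - (X.W * G).map (io b) * Ψ = cS s ^ (m + 1) • M)
    (hF : df b (X.l b) (X.Cm b) (K b) V = cS s ^ (m + 1) • F)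
    (h2 : Od (s ^ (m + 2)) 0 (df b (X.l b) (X.Cm b) (K b) V)) : ∃ ζ : Matrix ι ι (Ls B),
      M.map (mL ρ) = ((X.W * Y.g).map (mp ρ)).map (io b) * (Y.Ψ b).map (mL ρ) * ζ.map (mL ρ) ∧
      ∀ Z, gf th (1 - T 1) (Y.A0.map (mp ρ)) (Y.A0.map (mp ρ)) Z = (Y.g' * E).map (mp ρ) →
        ∀ i j a, a < 0 → (((Y.Ψ' b).map (mL ρ) * Z.map (io b) * (Y.Ψ b).map (mL ρ) +
          ζ.map (mL ρ)) i j).coeff a ≠ 0 → (sg b * a : ℤ) + K b j - K b i = 0 ∧ |a| ≤ Y.D := by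
  obtain ⟨w, hw⟩ := h.uW b
  obtain ⟨ν, hν⟩ := h.un b
  obtain ⟨l, hl, hl0⟩ := (h.re b).unit
  obtain ⟨U, U0, U1, U2⟩ := h.reg b
  obtain ⟨U', V0, -, V1⟩ := inv_reg (s := 0) (U := U) (P := (P b).map ρ)
    ((h.pp b).map ρ.mapMatrix) U0 (by rw [U1, sub_self]; exact fun _ _ => dvd_zero _)
  have V1 : U' * U = 1 := sub_eq_zero.1 (Matrix.ext fun i j => by
    have := V1 i j
    rwa [map_zero, zero_dvd_iff] at this)
  have gg : (Y.g.map (mp ρ)).map (io b) * (Y.g'.map (mp ρ)).map (io b) = 1 := by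
    rw [← Matrix.map_mul, cmc_gg H h, Matrix.map_one _ (map_zero _) (map_one _)]
  have ww : (X.W.map (mp ρ)).map (io b) * (w • (X.W.map (io b)).adjugate).map (mL ρ) = 1 := by
    rw [← cmc_io, ← Matrix.map_mul, Matrix.mul_smul, mul_adjugate, smul_smul, Am1_smul, map_mul,
      mul_comm, show (X.W.map (io b)).det = io b X.W.det from ((io b).map_det _).symm,
      cmc_un H hw, one_smul, Matrix.map_one _ (map_zero _) (map_one _)]
  obtain ⟨ζ, hζ⟩ : ∃ ζ : Matrix ι ι (Ls B), M.map (mL ρ) = (X.W.map (mp ρ)).map (io b) *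
      (Y.g.map (mp ρ)).map (io b) * (Y.Ψ b).map (mL ρ) * ζ.map (mL ρ) := by
    refine ⟨Y.Ψ' b * Y.g'.map (io b) * (w • (X.W.map (io b)).adjugate) * M, ?_⟩
    rw [Matrix.map_mul, Matrix.map_mul, Matrix.map_mul, cmc_io, ← Matrix.mul_assoc,
      ← Matrix.mul_assoc, ← Matrix.mul_assoc, Matrix.mul_assoc _ ((Y.Ψ b).map _), cmc_inv H h,
      Matrix.mul_one, Matrix.mul_assoc _ ((Y.g.map _).map _), gg, Matrix.mul_one, ww,
      Matrix.one_mul]
  refine ⟨ζ, by rw [Matrix.map_mul, Matrix.map_mul]; exact hζ, fun Z hZ i j a ha hne => ?_⟩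
  have r := (h.rel b).map (io b) (io_th b)
  have e1 := congrArg (fun M => M.map (io b)) hE
  simp only [gf_map (io b) (io_th b), Am1_smul, map_pow, io_C, map_mul] at e1 r
  rw [Matrix.map_mul] at hM
  have e2 := congrArg (fun M => M.map (mL ρ)) (cmc_reg H (m + 1) (cmc_pre (dv_dS b) r
    (by rw [← map_pow, dS_cS]) e1 h0 hM hF))
  have dg : (diagonal fun i => cS (K b i)).map (mL ρ) = diagonal fun i => cS (ρ (K b i)) := by
    rw [diagonal_map (map_zero _)]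
    simp only [mL_cS]
  have r' := r.map (mL ρ) (mL_dS ρ b)
  simp only [Am1_smul, Am1_add, Am1_sb, Matrix.map_mul, gf_map (mL ρ) (mL_dS ρ b), map_mul, map_pow,
    mL_dS, mL_io, cmb_del H h.toPre, map_one, mul_one, cmc_io, cmc_eqL H h1, dg, cmb_q] at e2 r'
  have g0 := congrArg (fun M => M.map (io b)) ((cmc_ddP H).1 h.hg)
  have f0 := congrArg (fun M => M.map (mL ρ)) (h.fund b)
  have z0 := congrArg (fun M => M.map (io b)) hZ
  simp only [gf_map (io b) (io_th b), gf_map (mp ρ) (mp_th ρ), cmb_q, df_map, Matrix.map_mul,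
    Matrix.map_zero _ (map_zero (io b)), Matrix.map_zero _ (map_zero (mL ρ))] at g0 f0 z0 U2
  obtain ⟨u, hu, -⟩ := exists_inv_one_sub (R := ℂ) b
  have hn := cmc_un H hν
  rw [mL_io] at hn
  have e3 := cmc_core (dv_dS b) r' g0 gg f0 (cmc_inv H h b) U2 hζ e2 z0
    (right_ne_zero_of_mul_eq_one hu) (left_ne_zero_of_mul_eq_one hn)
  have e4 := congrArg (fun M => mL ρ l • (U' * M)) e3
  have hl := cmc_un H hl
  rw [mL_io] at hl
  simp only [Matrix.mul_smul, smul_smul, ← Matrix.mul_assoc U', V1, Matrix.one_mul] at e4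
  rw [mul_comm, hl, one_smul] at e4
  have F0 : Oz 0 (F.map (mL ρ)) := fun i j a ha => (H.ker _).2 (by
    obtain ⟨y, e⟩ := h2 i j a (by simpa using ha)
    rw [hF, Matrix.smul_apply, smul_eq_mul, ← map_pow, coeff_cS_mul] at e
    exact cmb_canc H (m + 1) e)
  have e5 := cmc_cmul (f := mL ρ l) (x := 0) (fun a ha => by rw [coeff_mL, hl0 a ha, map_zero])
    (Oz.mul (x := 0) (fun i j a ha => zero_dvd_iff.1 (V0 i j a (by simpa using ha))) F0 i j) a
    (by simpa using ha)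
  rw [← smul_eq_mul, ← Matrix.smul_apply, e4, cmc_nab] at e5
  have e6 := h.res b i j (sg b * a) (by
    rw [map_sub, map_add, map_intCast]
    exact (mul_eq_zero.1 e5).resolve_right hne)
  refine ⟨e6.1, le_of_eq_of_le ?_ e6.2⟩
  cases b <;> simp [sg]

theorem cmc_desc (H : Loc s ρ) (h : Cmp s ρ X K P Y) {E : Matrix ι ι B[T;T⁻¹]}
    {Z : Matrix ι ι ℂ[T;T⁻¹]} {ζ : Bool → Matrix ι ι (Ls B)}
    (hZ : gf th (1 - T 1) (Y.A0.map (mp ρ)) (Y.A0.map (mp ρ)) Z = E.map (mp ρ))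
    (hζ : ∀ b, Oz (-Y.D) ((Y.Ψ' b).map (mL ρ) * Z.map (io b) * (Y.Ψ b).map (mL ρ) +
      (ζ b).map (mL ρ))) : ∃ Z', Dd (C s) (gf th (1 - T 1) Y.A0 Y.A0 Z' - E) := by
  choose η hη using fun b i j => cmc_pol b ((Y.Ψ b * ζ b * Y.Ψ' b) i j)
  have k : ∀ b i j a, a < -(3 * Y.D : ℤ) →
      (Z i j).coeff (sg b * a) + ρ (((Y.Ψ b * ζ b * Y.Ψ' b) i j).coeff a) = 0 := fun b i j a ha => by
    have e := ((cmc_oz H (h.od b).1).mul (hζ b)).mul (cmc_oz H (h.od b).2) i j a (by omega)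
    rw [Matrix.mul_add, Matrix.add_mul, ← Matrix.mul_assoc, ← Matrix.mul_assoc, cmc_inv H h,
      Matrix.one_mul, Matrix.mul_assoc, cmc_inv H h, Matrix.mul_one, ← Matrix.map_mul,
      ← Matrix.map_mul, Matrix.add_apply, HahnSeries.coeff_add, map_apply, map_apply, coeff_io,
      coeff_mL] at e
    exact e
  obtain ⟨Z', e⟩ := h.desc (Z + (of (η true) + of (η false)).map (mp ρ))
    (E + gf th (1 - T 1) Y.A0 Y.A0 (of (η true) + of (η false))) (fun i j a ha => by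
      simp only [Matrix.add_apply, map_apply, of_apply, AddMonoidAlgebra.coeff_add,
        Finsupp.add_apply, coeff_mp, hη, sg, one_mul, neg_mul]
      rcases lt_abs.1 ha with l | l
      · have := k false i j (-a) (by omega)
        rw [if_neg (by omega), if_pos (by omega), zero_add]
        simpa only [sg, neg_mul, one_mul, neg_neg] using this
      · have := k true i j a (by omega)
        rw [if_pos (by omega), if_neg (by omega), add_zero]
        simpa only [sg, one_mul] using this) (by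
      rw [cmc_add dv_th, hZ, Am1_add _ E, gf_map (mp ρ) (mp_th ρ), cmb_q])
  refine ⟨Z' + -(of (η true) + of (η false)), ?_⟩
  rw [cmc_add dv_th, cmc_neg dv_th]
  convert e using 1
  abel

theorem Cmp.step (H : Loc s ρ) (h : Cmp s ρ X K P Y) {m : ℕ} {U V : Bool → Matrix ι ι (Ls B)}
    (S : St s X K Y (m + 1) U) (h1 : ∀ b, Dd (cS s ^ (m + 1)) (V b - U b))
    (h2 : ∀ b, Od (s ^ (m + 2)) 0 (df b (X.l b) (X.Cm b) (K b) (V b))) :
    ∃ U', St s X K Y (m + 2) U' ∧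
      ∀ b, Dd (cS s ^ (m + 1)) (U' b - V b) ∧ Od (s ^ (m + 2)) 0 (U' b - V b) := by
  classical
  have hs := h.toPre.sol S
  obtain ⟨G, Ψ, g1, g2, g3⟩ := S
  obtain ⟨E, hE⟩ := cmb_dd.1 g1
  have hc : ∀ b, dS b (cS s ^ (m + 1) : Ls B) = 0 := fun b => by rw [← map_pow, dS_cS]
  choose M hM using fun b => cmb_dd.1 (show Dd (cS s ^ (m + 1))
      (io b X.n • V b - (X.W * G).map (io b) * Ψ b) by
    obtain ⟨N, e⟩ := cmb_dd.1 (h1 b)
    obtain ⟨N', e'⟩ := cmb_dd.1 (g3 b).2.2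
    refine cmb_dd.2 ⟨io b X.n • N + N', ?_⟩
    rw [sub_eq_iff_eq_add.1 e, smul_add, add_sub_assoc, e', smul_add, smul_comm])
  choose F hF using fun b => cmb_dd.1 (show Dd (cS s ^ (m + 1))
      (df b (X.l b) (X.Cm b) (K b) (V b)) by
    obtain ⟨N, e⟩ := cmb_dd.1 (h1 b)
    obtain ⟨N', e'⟩ := cmb_dd.1 (hs b)
    refine cmb_dd.2 ⟨df b (X.l b) (X.Cm b) (K b) N + N', ?_⟩
    rw [df] at e'
    rw [sub_eq_iff_eq_add.1 e, df, cmc_add (dv_dS b), cmc_smul (dv_dS b), hc, e', mul_zero,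
      zero_smul, zero_add, smul_add, df])
  choose ζ hζ hz using fun b => cmc_side H h b hE (g3 b).1 (g3 b).2.1 (hM b) (hF b) (h2 b)
  obtain ⟨Z, hZ⟩ := h.obs H g2 hE
  obtain ⟨Z, hZ⟩ := cmc_desc H h hZ (ζ := ζ) fun b i j a ha => by
    by_contra k
    have := (hz b Z hZ i j a (by omega) k).2
    rw [abs_of_neg (by omega)] at this
    omega
  have hZ := cmc_eq H hZ
  rw [gf_map (mp ρ) (mp_th ρ), cmb_q] at hZ
  obtain ⟨S, hS⟩ : ∃ S : Bool → Matrix ι ι (Ls B), ∀ b i j a, (S b i j).coeff a =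
      if a < 0 ∧ (sg b * a : ℤ) + K b j - K b i = 0 then
        ((Y.Ψ' b * Z.map (io b) * Y.Ψ b + ζ b) i j).coeff a else 0 :=
    ⟨fun b i j => ⟨fun a => if a < 0 ∧ (sg b * a : ℤ) + K b j - K b i = 0 then
      ((Y.Ψ' b * Z.map (io b) * Y.Ψ b + ζ b) i j).coeff a else 0,
      ((Y.Ψ' b * Z.map (io b) * Y.Ψ b + ζ b) i j).isPWO_support.mono
        fun a k l => k (by simp only [l, ite_self])⟩, fun _ _ _ _ => rfl⟩
  choose ν hν using h.un
  refine ⟨fun b => V b + cS s ^ (m + 1) • ν b • ((X.W * Y.g).map (io b) *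
    (Y.Ψ b * S b - Z.map (io b) * Y.Ψ b) - M b), ⟨G * (1 + C s ^ (m + 1) • -Z),
    fun b => Ψ b * (1 + cS s ^ (m + 1) • S b), ?_, ?_, fun b => ⟨?_, ?_, ?_⟩⟩, fun b => ?_⟩
  · rw [gf_mul dv_th (A' := X.δ • Y.A0), hE, cmc_one dv_th (by rw [← map_pow, cmb_thC]), cmc_scale,
      cmc_neg dv_th, Matrix.smul_mul, Matrix.mul_smul, ← smul_add]
    refine cmc_pow ((cmc_ddP H).2 ?_) _
    simp only [Am1_add, Am1_smul, Matrix.map_mul, map_pow, cmb_s H, cmb_del H h.toPre, cmc_eq H g2,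
      Matrix.map_neg _ (map_neg (mp ρ)), gf_map (mp ρ) (mp_th ρ), cmb_q, hZ,
      Matrix.map_one _ (map_zero (mp ρ)) (map_one (mp ρ))]
    rw [zero_pow m.succ_ne_zero, zero_smul, add_zero, Matrix.mul_one, one_smul, Matrix.mul_neg,
      ← Matrix.mul_assoc, cmc_gg H h, Matrix.one_mul, add_neg_cancel]
  · refine (cmc_ddP H).2 ?_
    simp only [Am1_add, Am1_sb, Am1_smul, Matrix.map_mul, map_pow, cmb_s H, cmc_eq H g2,
      Matrix.map_one _ (map_zero (mp ρ)) (map_one (mp ρ))]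
    rw [zero_pow m.succ_ne_zero, zero_smul, add_zero, Matrix.mul_one, sub_self]
  · have e := (g3 b).1
    rw [df] at e ⊢
    rw [gf_mul (dv_dS b) (A' := io b (1 - T 1 : B[T;T⁻¹]) • diagonal fun i => cS (K b i)), e,
      cmc_one (dv_dS b) (hc b), cmc_scale', show gf (dS b) 1 (diagonal fun i => cS (K b i))
        (diagonal fun i => cS (K b i)) (S b) = 0 from Matrix.ext fun i j => HahnSeries.ext
          (funext fun a => by
            rw [cmc_nab, hS]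
            split_ifs with k
            · rw [k.2, zero_mul]; rfl
            · rw [mul_zero]; rfl)]
    simp
  · refine (cmc_ddL H).2 ?_
    simp only [Am1_add, Am1_sb, Am1_smul, Matrix.map_mul, cmc_sL H, cmc_eqL H (g3 b).2.1,
      Matrix.map_one _ (map_zero (mL ρ)) (map_one (mL ρ))]
    rw [zero_smul, add_zero, Matrix.mul_one, sub_self]
  · rw [← Matrix.mul_assoc X.W, Matrix.map_mul (L := X.W * G), Am1_add, Am1_smul, map_pow, io_C,
      Matrix.map_neg _ (map_neg (io b)), Matrix.map_one _ (map_zero (io b)) (map_one (io b)),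
      cmc_new (hM b)]
    refine cmc_pow ((cmc_ddL H).2 ?_) _
    simp only [Am1_add, Am1_sb, Am1_smul, Matrix.map_mul, cmc_sL H, cmc_eqL H (g3 b).2.1, map_mul,
      cmc_un H (hν b), cmc_io, cmc_eq H g2]
    rw [one_smul, zero_smul, sub_zero, add_sub_cancel, sub_self]
  · rw [add_sub_cancel_left]
    refine ⟨cmb_dd.2 ⟨_, rfl⟩, fun i j a ha => ?_⟩
    rw [Matrix.smul_apply, smul_eq_mul, ← map_pow, coeff_cS_mul, pow_succ s (m + 1)]
    refine mul_dvd_mul_left _ ((H.ker _).1 ?_)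
    obtain ⟨U, U0, -, U2⟩ := h.reg b
    have hn := cmc_un H (hν b)
    rw [mL_io] at hn
    have e : (ν b • ((X.W * Y.g).map (io b) * (Y.Ψ b * S b - Z.map (io b) * Y.Ψ b) - M b)).map
        (mL ρ) = U * (S b - (Y.Ψ' b * Z.map (io b) * Y.Ψ b + ζ b)).map (mL ρ) := by
      rw [← one_smul (Ls ℂ) U, ← hn, mul_comm, mul_smul, U2, Am1_smul, Matrix.smul_mul, Am1_sb, hζ]
      congr 1
      simp only [Am1_add, Am1_sb, Matrix.map_mul (f := mL ρ), cmc_io, Matrix.mul_sub, Matrix.mul_add,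
        Matrix.mul_assoc]
      rw [← Matrix.mul_assoc ((Y.Ψ b).map _) ((Y.Ψ' b).map _), cmc_inv H h, Matrix.one_mul, sub_sub]
    have o := Oz.mul (x := 0) (y := 0) (fun i j a ha => zero_dvd_iff.1 (U0 i j a (by simpa using ha)))
      (N := (S b - (Y.Ψ' b * Z.map (io b) * Y.Ψ b + ζ b)).map (mL ρ)) fun i j a ha => by
        rw [map_apply, coeff_mL, Matrix.sub_apply, HahnSeries.coeff_sub, hS]
        split_ifs with k
        · rw [sub_self, map_zero]
        · rw [zero_sub, map_neg, neg_eq_zero]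
          by_contra l
          refine k ⟨ha, (hz b _ hZ i j a ha ?_).1⟩
          rwa [← cmc_io, ← Matrix.map_mul, ← Matrix.map_mul, ← Am1_add]
    rw [← e] at o
    exact o i j a (by simpa using ha)

theorem Cmp.abs (H : Loc s ρ) (h : Cmp s ρ X K P Y) : Abs s X.l X.Cm K P (St s X K Y) :=
  ⟨h.base H, fun _ _ S => h.red H S, fun _ _ S => h.toPre.sol S,
    fun _ _ _ S h1 h2 => h.step H S h1 h2, fun _ _ c S => S.scale c⟩

end Pool.Agent.Lib.MP_815ef6_nt.Ch
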