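import Pool.Agent.Lib.MP_815ef6_nt.CS.CmA

/-! Gluing along the chain. -/

namespace Pool.Agent.Lib.MP_815ef6_nt.Ch
open Finset LaurentPolynomial Matrix
set_option linter.unusedSectionVars false

variable {B : Type*} [CommRing B] {ι : Type*} [Fintype ι] [DecidableEq ι] {s : B} {r : ℕ}

section
variable {c t : B} {f g f' g' p q : Ls B} {b b' : Bool} {n : ℕ}

/-- The relation at a node for one entry. -/
def gluN (c t : B) (f g : Ls B) : Prop := ∀ k : ℕ,
  c ∣ f.coeff (-k) - t ^ k * g.coeff k ∧ c ∣ g.coeff (-k) - t ^ k * f.coeff k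

theorem gluN.symm (h : gluN c t f g) : gluN c t g f := fun k => (h k).symm

theorem gluN.add (h : gluN c t f g) (h' : gluN c t f' g') : gluN c t (f + f') (g + g') := fun k => by
  simp only [HahnSeries.coeff_add]
  exact ⟨by convert (h k).1.add (h' k).1 using 1; ring, by convert (h k).2.add (h' k).2 using 1; ring⟩

theorem gluN.sub (h : gluN c t f g) (h' : gluN c t f' g') : gluN c t (f - f') (g - g') := fun k => by
  simp only [HahnSeries.coeff_sub]
  exact ⟨by convert (h k).1.sub (h' k).1 using 1; ring, by convert (h k).2.sub (h' k).2 using 1; ring⟩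

theorem gluN.cmul (h : gluN c t f g) (x : B) : gluN c t (cS x * f) (cS x * g) := fun k => by
  simp only [coeff_cS_mul]
  exact ⟨by convert (h k).1.mul_left x using 1; ring, by convert (h k).2.mul_left x using 1; ring⟩

theorem gluN_sum {f g : ι → Ls B} (h : ∀ i, gluN c t (f i) (g i)) :
    gluN c t (∑ i, f i) (∑ i, g i) := fun k => by
  simp only [HahnSeries.coeff_sum, mul_sum, ← sum_sub_distrib]
  exact ⟨dvd_sum fun i _ => (h i k).1, dvd_sum fun i _ => (h i k).2⟩

theorem gluN.dS (h : gluN c t f g) : gluN c t (dS false f) (dS true g) := fun k => by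
  simp only [coeff_dS, sg]
  push_cast
  exact ⟨by convert (h k).1.mul_left (k : B) using 1; ring,
    by convert (h k).2.mul_left (-k : B) using 1; ring⟩

theorem glu_coeff (F : Finset ℤ) (hF : ∀ a ∉ F, p.coeff a = 0) (f : Ls B) (e : ℤ) :
    (p * f).coeff e = ∑ a ∈ F, p.coeff a * f.coeff (e - a) := by
  have : p = ∑ a ∈ F, HahnSeries.single a (p.coeff a) := by
    ext e
    rw [HahnSeries.coeff_sum, sum_eq_single e (fun _ _ h => HahnSeries.coeff_single_of_ne h.symm)
      fun h => by rw [hF e h, map_zero, HahnSeries.coeff_zero], HahnSeries.coeff_single_same]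
  conv_lhs => rw [this, sum_mul, HahnSeries.coeff_sum]
  simp only [HahnSeries.coeff_single_mul]

theorem glu_mul1 {F : Finset ℤ} (hp : ∀ a ∉ F, p.coeff a = 0 ∧ q.coeff (-a) = 0)
    (H : gluN 0 t p q) (h : gluN c t f g) (k : ℕ) :
    c ∣ (p * f).coeff (-k) - t ^ k * (q * g).coeff k := by
  rw [glu_coeff F (fun a ha => (hp a ha).1), glu_coeff (F.image Neg.neg) (fun a ha => by
    rw [← neg_neg a]
    exact (hp _ fun l => ha (mem_image.2 ⟨_, l, neg_neg a⟩)).2),
    sum_image (fun _ _ _ _ => neg_inj.1), mul_sum, ← sum_sub_distrib]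
  refine dvd_sum fun a _ => ?_
  obtain ⟨e, rfl | rfl⟩ := a.eq_nat_or_neg
  · have e1 := sub_eq_zero.1 (zero_dvd_iff.1 (H e).2)
    have e2 := (h (k + e)).1.mul_left (p.coeff e)
    rw [e1, show (-k - e : ℤ) = -(k + e : ℕ) by omega, show (k - -e : ℤ) = (k + e : ℕ) by omega]
    convert e2 using 1
    ring
  · have e1 := sub_eq_zero.1 (zero_dvd_iff.1 (H e).1)
    rw [e1, neg_neg]
    rcases le_total e k with l | l
    · obtain ⟨d, rfl⟩ := Nat.exists_eq_add_of_le l
      rw [show (-(e + d : ℕ) - -e : ℤ) = -d by omega, show ((e + d : ℕ) - e : ℤ) = d by omega]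
      convert (h d).1.mul_left (t ^ e * q.coeff e) using 1
      ring
    · obtain ⟨d, rfl⟩ := Nat.exists_eq_add_of_le l
      rw [show (-k - -(k + d : ℕ) : ℤ) = d by omega, show (k - (k + d : ℕ) : ℤ) = -d by omega]
      convert (h d).2.mul_left (-(t ^ k * q.coeff (k + d : ℕ))) using 1
      ring

theorem gluN.mul {l l2 : B[T;T⁻¹]} (H : gluN 0 t (io b l) (io b' l2)) (h : gluN c t f g) :
    gluN c t (io b l * f) (io b' l2 * g) := fun k => by
  have key : ∀ (b b' : Bool) (l l2 : B[T;T⁻¹]), ∃ F : Finset ℤ, ∀ a ∉ F,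
      (io b l).coeff a = 0 ∧ (io b' l2).coeff (-a) = 0 := fun b b' l l2 => by
    refine ⟨l.coeff.support.image (sg b * ·) ∪ l2.coeff.support.image (-sg b' * ·), fun a ha => ?_⟩
    rw [mem_union, not_or] at ha
    rw [coeff_io, coeff_io]
    constructor <;> by_contra h0
    · exact ha.1 (mem_image.2 ⟨_, Finsupp.mem_support_iff.2 h0, by rw [← mul_assoc, sg_sq, one_mul]⟩)
    · exact ha.2 (mem_image.2 ⟨_, Finsupp.mem_support_iff.2 h0, by
        rw [← mul_assoc, neg_mul, sg_sq]; ring⟩)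
  obtain ⟨F, hF⟩ := key b b' l l2
  obtain ⟨F', hF'⟩ := key b' b l2 l
  exact ⟨glu_mul1 hF H h k, glu_mul1 hF' H.symm h.symm k⟩

theorem glu_nd {l l2 : B[T;T⁻¹]} (H : Nd ⊥ t (cf l) (cf l2)) :
    gluN 0 t (io false l) (io true l2) := fun k => by
  simpa [sg, cf] using H k

theorem glu_self (h : ∀ a < 0, c ∣ f.coeff a) : gluN c 0 f f := fun k => by
  rcases k.eq_zero_or_pos with rfl | l
  · simp
  · simpa [l.ne'] using h (-k) (by omega)

theorem glu_pol (ht : s ∣ t) (h : gluN (s ^ (n + 1)) t f g) (hg : ∀ a, s ^ n ∣ g.coeff a) :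
    ∀ a < 0, s ^ (n + 1) ∣ f.coeff a := fun a ha => by
  obtain ⟨k, rfl⟩ : ∃ k : ℕ, a = -k := ⟨a.natAbs, by omega⟩
  have : s ^ (n + 1) ∣ t ^ k * g.coeff k := by
    rw [pow_succ']
    exact mul_dvd_mul (dvd_pow ht (by omega)) (hg k)
  simpa using (h k).1.add this

theorem glu_cut (ht : s ∣ t) (x : B) (n : ℕ) (f g : Ls B) : ∃ f' : Ls B, f'.coeff 0 = x ∧
    (∀ a, 0 < a → f'.coeff a = f.coeff a) ∧
      ∀ k : ℕ, 0 < k → s ^ n ∣ f'.coeff (-k) - t ^ k * g.coeff k := by
  refine ⟨HahnSeries.ofSuppBddBelow (fun a => if 0 < a then f.coeff a else if a = 0 then x else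
    if -n ≤ a then t ^ a.natAbs * g.coeff (-a) else 0) ⟨-n, fun a ha => ?_⟩, by simp,
    fun a ha => if_pos ha, fun k hk => ?_⟩
  · by_contra l
    exact ha ((if_neg (by omega)).trans ((if_neg (by omega)).trans (if_neg l)))
  · rw [HahnSeries.coeff_ofSuppBddBelow, if_neg (by omega), if_neg (by omega)]
    split_ifs with l
    · simp
    · rw [zero_sub, dvd_neg]
      exact ((pow_dvd_pow s (by omega)).trans (pow_dvd_pow_of_dvd ht k)).mul_right _

theorem glu_lift (ht : s ∣ t) (h : gluN (s ^ n) t f g) : ∃ f' g' : Ls B,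
    (∀ a, s ^ n ∣ (f' - f).coeff a) ∧ (∀ a, s ^ n ∣ (g' - g).coeff a) ∧
      gluN (s ^ (n + 1)) t f' g' := by
  have key : ∀ {f g f' : Ls B}, gluN (s ^ n) t f g → s ^ n ∣ f'.coeff 0 - f.coeff 0 →
      (∀ a, 0 < a → f'.coeff a = f.coeff a) →
      (∀ k : ℕ, 0 < k → s ^ (n + 1) ∣ f'.coeff (-k) - t ^ k * g.coeff k) →
      ∀ a, s ^ n ∣ (f' - f).coeff a := fun {f g f'} h h0 h1 h2 a => by
    rw [HahnSeries.coeff_sub]
    rcases lt_trichotomy a 0 with l | rfl | l
    · obtain ⟨k, rfl⟩ : ∃ k : ℕ, a = -k := ⟨a.natAbs, by omega⟩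
      simpa using ((pow_dvd_pow s n.le_succ).trans (h2 k (by omega))).sub (h k).1
    · exact h0
    · simp [h1 a l]
  obtain ⟨f', a0, a1, a2⟩ := glu_cut ht (f.coeff 0) (n + 1) f g
  obtain ⟨g', b0, b1, b2⟩ := glu_cut ht (f.coeff 0) (n + 1) g f
  refine ⟨f', g', key h (by simp [a0]) a1 a2, key h.symm (by simpa [b0] using (h 0).1) b1 b2,
    fun k => ?_⟩
  rcases k.eq_zero_or_pos with rfl | l
  · simp [a0, b0]
  · rw [a1 k (by omega), b1 k (by omega)]
    exact ⟨a2 k l, b2 k l⟩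

variable {l l2 : B[T;T⁻¹]} {A A2 : Matrix ι ι B[T;T⁻¹]} {K : ι → B} {U V U2 V2 : Matrix ι ι (Ls B)}

theorem glu_dd : Dd (cS s ^ n) U ↔ ∀ i j a, s ^ n ∣ (U i j).coeff a := by
  simp only [Dd, ← map_pow, cS_dvd]

theorem glu_ent (i j : ι) : df b l A K U i j = io b l * dS b (U i j) -
    ∑ k, io b (A i k) * U k j + io b l * (cS (K j) * U i j) := by
  simp only [df, gf, Matrix.mul_smul, Matrix.add_apply, Matrix.sub_apply, Matrix.smul_apply,
    map_apply, mul_diagonal, smul_eq_mul, mul_comm (U i j)]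
  rfl

theorem glu_add : df b l A K (U + V) = df b l A K U + df b l A K V := by
  ext1 i j
  simp only [glu_ent, Matrix.add_apply, (dv_dS b).add, mul_add, sum_add_distrib]
  ring

theorem glu_cong (h : Dd (cS s ^ n) (V - U)) (h' : Dd (cS s ^ n) (df b l A K U)) :
    Dd (cS s ^ n) (df b l A K V) := fun i j => by
  rw [← sub_add_cancel V U, glu_add, Matrix.add_apply, glu_ent]
  refine (((Dvd.dvd.mul_left ?_ _).sub (dvd_sum fun k _ => (h k j).mul_left _)).add
    (((h i j).mul_left _).mul_left _)).add (h' i j)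
  rw [← map_pow, cS_dvd]
  exact fun a => (glu_dd.1 h i j a).mul_left _

theorem glu_df (hd : ∀ f g, gluN c t f g → gluN c t (dS b f) (dS b' g))
    (hl : gluN 0 t (io b l) (io b' l2)) (hA : ∀ i j, gluN 0 t (io b (A i j)) (io b' (A2 i j)))
    (h : Nm c t U V) : Nm c t (df b l A K U) (df b' l2 A2 K V) := fun i j => by
  rw [glu_ent, glu_ent]
  exact ((hl.mul (hd _ _ (h i j))).sub (gluN_sum fun k => (hA i k).mul (h k j))).add
    (hl.mul (gluN.cmul (h i j) _))

theorem glu_neg (h : gluN c 0 f g) : ∀ a < 0, c ∣ f.coeff a := fun a ha => by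
  obtain ⟨k, rfl⟩ : ∃ k : ℕ, a = -k := ⟨a.natAbs, by omega⟩
  simpa [show k ≠ 0 by omega] using (h k).1

theorem glu_od {D : Matrix ι ι (Ls B)} : Od c 0 D ↔ ∀ i j, ∀ a < 0, c ∣ (D i j).coeff a := by
  simp [Od]

theorem glu_end (H : Re 0 b l A) (h : Od c 0 U) : Od c 0 (df b l A K U) := by
  have e : ∀ a < 0, sg b * (sg b * a) < 0 := fun a ha => by rwa [← mul_assoc, sg_sq, one_mul]
  refine glu_od.2 fun i j => glu_neg (glu_df (l2 := l) (A2 := A) (b' := b) (fun f g h k => ?_)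
    (glu_self fun a ha => ?_) (fun i j => glu_self fun a ha => ?_)
    (fun i j => glu_self (glu_od.1 h i j)) i j)
  · rcases k.eq_zero_or_pos with rfl | l
    · simp
    · simpa [l.ne'] using And.intro ((glu_neg h (-k) (by omega)).mul_left (sg b * k : B))
        ((glu_neg h.symm (-k) (by omega)).mul_left (sg b * k : B))
  · rw [coeff_io]
    exact H.pl _ (e a ha)
  · rw [coeff_io]
    exact H.pc _ _ _ (e a ha)

theorem glu_ml {M : Matrix ι ι B} (h : Dd c M) (N : Matrix ι ι B) : Dd c (N * M) := fun i j => by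
  rw [mul_apply]
  exact dvd_sum fun k _ => (h k j).mul_left _

theorem glu_mr {M : Matrix ι ι B} (h : Dd c M) (N : Matrix ι ι B) : Dd c (M * N) := fun i j => by
  rw [mul_apply]
  exact dvd_sum fun k _ => (h i k).mul_right _

theorem glu_diag {P C0 e : Matrix ι ι B} (hP : IsUnit P) (sep : ∀ i i', i ≠ i' → IsUnit (K i - K i'))
    (eig : Dd s (C0 * P - P * diagonal K)) (he : Dd s (e * diagonal K - C0 * e)) :
    ∃ d : ι → B, ∀ i j, s ∣ e i j - P i j * d j := by
  obtain ⟨Q, rfl⟩ := hP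
  obtain ⟨f, rfl⟩ : ∃ f, e = Q.val * f := ⟨Q⁻¹.val * e, by rw [Units.mul_inv_cancel_left]⟩
  have h1 : Dd s (f - diagonal fun i => f i i) := fun i j => by
    by_cases hij : i = j
    · simp [hij]
    have := (glu_ml he Q⁻¹.val i j).add (glu_mr (glu_ml eig Q⁻¹.val) f i j)
    rw [← Matrix.add_apply, show Q⁻¹.val * (Q.val * f * diagonal K - C0 * (Q.val * f)) +
      Q⁻¹.val * (C0 * Q.val - Q.val * diagonal K) * f = f * diagonal K - diagonal K * f by
        simp only [mul_sub, sub_mul, mul_assoc, Units.inv_mul_cancel_left]; abel,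
      Matrix.sub_apply, mul_diagonal, diagonal_mul, mul_comm (K i), ← mul_sub,
      (sep j i (Ne.symm hij)).dvd_mul_right] at this
    simpa [hij] using this
  refine ⟨fun i => f i i, fun i j => ?_⟩
  have := glu_ml h1 Q.val i j
  rwa [mul_sub, Matrix.sub_apply, mul_diagonal] at this

theorem glu_const (M : Matrix ι ι B) (i j : ι) : (df b l A K (M.map cS) i j).coeff 0 =
    l.coeff 0 * (K j * M i j) - ∑ k, (A i k).coeff 0 * M k j := by
  rw [glu_ent, map_apply, dS_cS, mul_zero, zero_sub, ← map_mul, neg_add_eq_sub,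
    HahnSeries.coeff_sub, HahnSeries.coeff_sum]
  simp only [map_apply, mul_comm (io b _), coeff_cS_mul, coeff_io, mul_zero, mul_comm (M _ j),
    mul_comm (l.coeff 0)]

theorem glu_node {m : ℕ} {P : Matrix ι ι B} (reg : ∀ x, s * x = 0 → x = 0) (ht : s ∣ t)
    (hdf : ∀ U V, Nm (s ^ (m + 2)) t U V →
      Nm (s ^ (m + 2)) t (df false l A K U) (df true l2 A2 K V))
    (hV : Nm (s ^ (m + 2)) t V V2) (a1 : Dd (cS s ^ (m + 1)) (U - V))
    (a2 : Od (s ^ (m + 2)) 0 (U - V)) (b1 : Dd (cS s ^ (m + 1)) (U2 - V2))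
    (b2 : Od (s ^ (m + 2)) 0 (U2 - V2)) (s1 : Dd (cS s ^ (m + 2)) (df false l A K U))
    (s2 : Dd (cS s ^ (m + 2)) (df true l2 A2 K U2)) (r1 : Od s 0 U2) (r2 : Dd s (c0 U2 - P))
    (one : s ∣ l2.coeff 0 - 1) (hP : IsUnit P) (sep : ∀ i i', i ≠ i' → IsUnit (K i - K i'))
    (eig : Dd s (A2.map (fun f => f.coeff 0) * P - P * diagonal K)) :
    ∃ c : ι → B, Nm (s ^ (m + 2)) t U (U2 * diagonal fun i => cS (1 + s * c i)) := by
  have tk : ∀ {k : ℕ} {x : B}, 0 < k → s ^ (m + 1) ∣ x → s ^ (m + 2) ∣ t ^ k * x := fun hk hx => by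
    rw [pow_succ' s (m + 1)]
    exact mul_dvd_mul (dvd_pow ht hk.ne') hx
  have h1 : ∀ i j (k : ℕ), 0 < k → s ^ (m + 2) ∣ (U i j).coeff (-k) - t ^ k * (U2 i j).coeff k ∧
      s ^ (m + 2) ∣ (U2 i j).coeff (-k) - t ^ k * (U i j).coeff k := fun i j k hk => by
    have x1 := ((glu_od.1 a2 i j (-k) (by omega)).add (hV i j k).1).sub (tk hk (glu_dd.1 b1 i j k))
    have x2 := ((glu_od.1 b2 i j (-k) (by omega)).add (hV i j k).2).sub (tk hk (glu_dd.1 a1 i j k))
    simp only [Matrix.sub_apply, HahnSeries.coeff_sub] at x1 x2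
    exact ⟨by convert x1 using 1; ring, by convert x2 using 1; ring⟩
  have h2 : ∀ i j, ∃ e, (U i j).coeff 0 - (U2 i j).coeff 0 = s ^ (m + 1) * e := fun i j => by
    have x := ((glu_dd.1 a1 i j 0).add ((pow_dvd_pow s (m + 1).le_succ).trans (hV i j 0).1)).sub
      (glu_dd.1 b1 i j 0)
    simp only [Matrix.sub_apply, HahnSeries.coeff_sub, pow_zero, one_mul, Nat.cast_zero,
      neg_zero] at x
    change s ^ (m + 1) ∣ _
    convert x using 1
    ring
  choose e he using h2
  have h3 : Nm (s ^ (m + 2)) t U (U2 + (of fun i j => s ^ (m + 1) * e i j).map cS) :=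
    fun i j k => by
    rcases k.eq_zero_or_pos with rfl | l
    · simp [← he]
    · simpa [l.ne'] using h1 i j k l
  obtain ⟨d, hd⟩ := glu_diag (e := of e) hP sep eig fun i j => by
    have x := (hdf _ _ h3 i j 0).1
    rw [Nat.cast_zero, neg_zero, pow_zero, one_mul, glu_add, Matrix.add_apply, HahnSeries.coeff_add,
      glu_const] at x
    replace x := ((glu_dd.1 s1 i j 0).sub x).sub (glu_dd.1 s2 i j 0)
    rw [sub_sub_cancel, add_sub_cancel_left] at x
    obtain ⟨y, hy⟩ := x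
    obtain ⟨z, hz⟩ := one
    have : ∀ (n : ℕ) x, s ^ n * x = 0 → x = 0 := fun n => by
      induction n with
      | zero => simp
      | succ n ih => exact fun x hx => reg x (ih _ (by rw [← hx]; ring))
    refine ⟨y - K j * e i j * z, sub_eq_zero.1 (this (m + 1) _ ?_)⟩
    rw [Matrix.sub_apply, mul_diagonal, mul_apply]
    simp only [map_apply, of_apply, mul_left_comm _ (s ^ (m + 1)), ← mul_sum,
      sub_eq_iff_eq_add.1 hz] at hy ⊢
    linear_combination hy
  refine ⟨fun i => s ^ m * d i, fun i j k => ?_⟩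
  rw [mul_diagonal, mul_comm (U2 i j), coeff_cS_mul, coeff_cS_mul, ← mul_assoc s, ← pow_succ']
  rcases k.eq_zero_or_pos with rfl | l
  · have x := mul_dvd_mul_left (s ^ (m + 1)) ((hd i j).sub ((r2 i j).mul_right (d j)))
    rw [← pow_succ] at x
    simp only [Matrix.sub_apply, c0, of_apply] at x
    simp only [Nat.cast_zero, neg_zero, pow_zero, one_mul]
    have y : s ^ (m + 2) ∣ (U i j).coeff 0 - (1 + s ^ (m + 1) * d j) * (U2 i j).coeff 0 := by
      convert x using 1
      linear_combination he i j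
    exact ⟨y, dvd_sub_comm.1 y⟩
  · have x1 := (h1 i j k l).1.sub (tk l (dvd_mul_right _ (d j * (U2 i j).coeff k)))
    have x2 := (h1 i j k l).2.add (show s ^ (m + 2) ∣ _ from pow_succ s (m + 1) ▸
      mul_dvd_mul_left (s ^ (m + 1)) ((glu_od.1 r1 i j (-k) (by omega)).mul_left (d j)))
    exact ⟨by convert x1 using 1; ring, by convert x2 using 1; ring⟩

end

theorem glu_ex {α : Type*} (x y : α) (f g : Fin r → α) : ∃ V : Fin (r + 1) → Bool → α,
    V 0 true = x ∧ V (Fin.last r) false = y ∧ (∀ j, V j.castSucc false = f j) ∧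
      ∀ j, V j.succ true = g j :=
  ⟨fun j b => cond b (Fin.cases x g j) (Fin.lastCases y f j), rfl, by simp, by simp, fun _ => rfl⟩

theorem Ch2.glue {l : Fin (r + 1) → Bool → B[T;T⁻¹]}
    {Cm : Fin (r + 1) → Bool → Matrix ι ι B[T;T⁻¹]} {K : Fin (r + 1) → Bool → ι → B}
    {P : Fin (r + 1) → Bool → Matrix ι ι B} {τ : Fin r → B} (h : Ch2 s r l Cm K P τ)
    {S : Fin (r + 1) → ℕ → (Bool → Matrix ι ι (Ls B)) → Prop}
    (hS : ∀ j, Abs s (l j) (Cm j) (K j) (P j) (S j)) (m : ℕ) : ∃ U, S 0 (m + 1) U := by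
  suffices H : ∃ U : Fin (r + 1) → Bool → Matrix ι ι (Ls B), (∀ j, S j (m + 1) (U j)) ∧
      (∀ j : Fin r, Nm (s ^ (m + 1)) (τ j) (U j.castSucc false) (U j.succ true)) ∧
      Od (s ^ (m + 1)) 0 (U 0 true) ∧ Od (s ^ (m + 1)) 0 (U (Fin.last r) false) from
    let ⟨U, hU, _⟩ := H; ⟨U 0, hU 0⟩
  have hdf : ∀ c (j : Fin r) U V, Nm c (τ j) U V → Nm c (τ j)
      (df false (l j.castSucc false) (Cm j.castSucc false) (K j.succ true) U)
      (df true (l j.succ true) (Cm j.succ true) (K j.succ true) V) := fun c j U V =>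
    glu_df (fun _ _ => gluN.dS) (glu_nd (h.nl j)) fun i i' => glu_nd (h.nC j i i')
  induction m with
  | zero =>
    choose U hU using fun j => (hS j).base
    have R := fun j => (hS j).red 0 _ (hU j)
    simp only [zero_add, pow_one]
    refine ⟨U, hU, fun j i i' k => ?_, (R _ _).1, (R _ _).1⟩
    rcases k.eq_zero_or_pos with rfl | l
    · have x := ((R j.castSucc false).2 i i').sub ((R j.succ true).2 i i')
      rw [h.hP j] at x
      simp only [Matrix.sub_apply, c0, sub_sub_sub_cancel_right] at x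
      simpa using And.intro x (dvd_sub_comm.1 x)
    · exact ⟨(glu_od.1 (R _ _).1 i i' _ (by omega)).sub ((dvd_pow (h.tau j) l.ne').mul_right _),
        (glu_od.1 (R _ _).1 i i' _ (by omega)).sub ((dvd_pow (h.tau j) l.ne').mul_right _)⟩
  | succ m ih =>
    obtain ⟨U, hU, hN, o0, o1⟩ := ih
    obtain ⟨V, v1, v2, v3, v4⟩ : ∃ V : Fin (r + 1) → Bool → Matrix ι ι (Ls B),
        (∀ j b, Dd (cS s ^ (m + 1)) (V j b - U j b)) ∧
        (∀ j : Fin r, Nm (s ^ (m + 2)) (τ j) (V j.castSucc false) (V j.succ true)) ∧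
        Od (s ^ (m + 2)) 0 (V 0 true) ∧ Od (s ^ (m + 2)) 0 (V (Fin.last r) false) := by
      choose Vf Vt x1 x2 x3 using fun j i i' => glu_lift (h.tau j) (hN j i i')
      choose V0 _ y1 _ y3 using fun i i' => glu_lift (dvd_zero s) (glu_self (glu_od.1 o0 i i'))
      choose V1 _ z1 _ z3 using fun i i' => glu_lift (dvd_zero s) (glu_self (glu_od.1 o1 i i'))
      obtain ⟨V, q1, q2, q3, q4⟩ := glu_ex (of V0) (of V1) (fun j => of (Vf j)) fun j => of (Vt j)
      refine ⟨V, fun j b => ?_, fun j => by rw [q3, q4]; exact x3 j,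
        q1 ▸ glu_od.2 fun i i' => glu_neg (y3 i i'), q2 ▸ glu_od.2 fun i i' => glu_neg (z3 i i')⟩
      cases b
      · induction j using Fin.lastCases with
        | last => exact q2 ▸ glu_dd.2 z1
        | cast j => exact q3 j ▸ glu_dd.2 (x1 j)
      · induction j using Fin.cases with
        | zero => exact q1 ▸ glu_dd.2 y1
        | succ j => exact q4 j ▸ glu_dd.2 (x2 j)
    have w1 := fun j b => glu_dd.1 (glu_cong (v1 j b) ((hS j).sol _ _ (hU j) b))
    have w2 : ∀ j b, Od (s ^ (m + 2)) 0 (df b (l j b) (Cm j b) (K j b) (V j b)) := fun j b => by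
      cases b
      · induction j using Fin.lastCases with
        | last => exact glu_end h.e1 v4
        | cast j =>
          rw [h.hK j]
          exact glu_od.2 fun i i' => glu_pol (h.tau j) (hdf _ j _ _ (v2 j) i i') (w1 _ _ i i')
      · induction j using Fin.cases with
        | zero => exact glu_end h.e0 v3
        | succ j =>
          exact glu_od.2 fun i i' => glu_pol (h.tau j) (gluN.symm (hdf _ j _ _ (v2 j) i i'))
            (h.hK j ▸ w1 j.castSucc false i i')
    choose U' u1 u2 using fun j => (hS j).step m _ (V j) (hU j) (v1 j) (w2 j)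
    have R := fun j => (hS j).red _ _ (u1 j)
    choose c hc using fun j : Fin r => glu_node h.reg (h.tau j) (hdf _ j) (v2 j)
      (u2 j.castSucc false).1 (u2 j.castSucc false).2 (u2 j.succ true).1 (u2 j.succ true).2
      (h.hK j ▸ (hS j.castSucc).sol _ _ (u1 _) false) ((hS j.succ).sol _ _ (u1 _) true)
      (R j.succ true).1 (R j.succ true).2 (h.re j.succ true).one (h.pp j.succ true)
      (h.sep j.succ true) (h.eig j.succ true)
    have o : ∀ j b, Od (s ^ (m + 2)) 0 (V j b) → Od (s ^ (m + 2)) 0 (U' j b) :=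
      fun j b hv i i' a ha => by simpa using ((u2 j b).2 i i' a ha).add (hv i i' a ha)
    obtain ⟨d, q1, q2, q3, q4⟩ := glu_ex 0 0 (fun _ => 0) c
    have e : (diagonal fun i => cS (1 + s * (0 : ι → B) i)) = 1 := by simp
    refine ⟨fun j b => U' j b * diagonal fun i => cS (1 + s * d j b i),
      fun j => (hS j).scale (m + 1) (U' j) (d j) (u1 j), fun j => ?_, ?_, ?_⟩ <;> beta_reduce
    · rw [q3, q4, e, mul_one]
      exact hc j
    · rw [q1, e, mul_one]
      exact o _ _ v3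
    · rw [q2, e, mul_one]
      exact o _ _ v4

theorem glu_fac (m : ℕ) (a : ℤ) : (m.factorial : B) ∣ ∏ j ∈ range m, ((a : B) - j) := by
  have := (Int.castRingHom B).map_dvd
    ((Nat.factorial_coe_dvd_prod m (-a)).mul_left (∏ _j ∈ range m, -1))
  rw [← prod_mul_distrib] at this
  simpa [sub_eq_add_neg, add_comm] using this

theorem fin_am {b : Bool} {l : B[T;T⁻¹]} {Cm : Matrix ι ι B[T;T⁻¹]} {K : ι → B} {P : Matrix ι ι B}
    (hP : IsUnit P) {U : Matrix ι ι (Ls B)} (h1 : Od s 0 U) (h2 : Dd s (c0 U - P)) {E : ℕ}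
    (h3 : Dd (cS s ^ E) (df b l Cm K U))
    (hm : ∀ (m : ℕ) i, (m.factorial : B) ∣ ∏ j ∈ range m, (K i - j)) (m : ℕ) (i j : ι) (a : ℤ) :
    ∃ y z, (Am th l Cm m i j).coeff a = m.factorial * y + s ^ E * z := by
  set I : Ideal B := Ideal.span {(m.factorial : B), s ^ E}
  set φ := Ideal.Quotient.mk I
  suffices H : φ ((Am th l Cm m i j).coeff a) = 0 by
    obtain ⟨y, z, e⟩ := Ideal.mem_span_pair.1 (Ideal.Quotient.eq_zero_iff_mem.1 H)
    exact ⟨y, z, by rw [← e, mul_comm y, mul_comm z]⟩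
  have e1 : (m.factorial : B ⧸ I) = 0 := by
    rw [← map_natCast φ]
    exact Ideal.Quotient.eq_zero_iff_mem.2 (Ideal.subset_span (by simp))
  have e2 : φ s ^ E = 0 := by
    rw [← map_pow]
    exact Ideal.Quotient.eq_zero_iff_mem.2 (Ideal.subset_span (by simp))
  obtain ⟨U', -, hU, -⟩ := inv_reg hP h1 h2
  choose N hN using hU
  have hu : IsUnit (U.map (mL φ) * U'.map (mL φ)) := by
    have : U * U' = 1 + cS s • of N := by
      ext1 i j
      exact sub_eq_iff_eq_add'.1 (hN i j)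
    rw [← Matrix.map_mul, this, ← RingHom.mapMatrix_apply, map_add, map_one]
    refine IsNilpotent.isUnit_one_add ⟨E, ?_⟩
    rw [← map_pow, smul_pow]
    ext1 i j
    rw [RingHom.mapMatrix_apply, map_apply, Matrix.smul_apply, smul_eq_mul, map_mul, map_pow, mL_cS,
      ← map_pow, e2, map_zero, zero_mul, Matrix.zero_apply]
  have hg : df b (mp φ l) (Cm.map (mp φ)) (fun i => φ (K i)) (U.map (mL φ)) = 0 := by
    rw [← df_map]
    ext i j a
    obtain ⟨y, hy⟩ := glu_dd.1 h3 i j a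
    rw [map_apply, coeff_mL, hy, map_mul, map_pow, e2, zero_mul]
    rfl
  have H := Am_gauge (dv_dS b) hg m
  rw [sum_eq_zero fun x hx => ?_] at H
  · have H2 := congrArg (· * U'.map (mL φ)) H
    simp only [zero_mul, mul_assoc] at H2
    rw [hu.mul_left_eq_zero, ← Am_map (io b) (io_th b), ← Am_map (mp φ) (mp_th φ)] at H2
    have H3 := io_inj b ((congrFun (congrFun H2 i) j).trans (map_zero (io b)).symm)
    simpa using congrArg (fun f => f.coeff a) H3
  ext1 i j
  obtain ⟨y, hy⟩ : cS (x.1.factorial : B ⧸ I) ∣ pf (dS b) x.1 (mL φ (U i j)) :=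
    cS_dvd.2 fun a => by
      rw [coeff_pf_dS]
      exact (glu_fac _ _).mul_right _
  obtain ⟨z, hz⟩ := _root_.map_dvd ((cS : B ⧸ I →+* _).comp φ) (hm x.2 j)
  have e3 := congrArg (fun n : ℕ => (n : Ls (B ⧸ I)))
    (Nat.add_choose_mul_factorial_mul_factorial x.2 x.1)
  rw [add_comm, mem_antidiagonal.1 hx, ← map_natCast cS m.factorial, e1, map_zero] at e3
  simp only [map_prod, map_sub, map_natCast, RingHom.comp_apply, Nat.cast_mul] at hy hz e3
  rw [Am_diag (dv_dS b) fun i => dS_cS b _, Matrix.smul_apply, Matrix.mul_smul, Matrix.smul_apply,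
    mul_diagonal, map_apply, map_apply, hy, hz, smul_eq_mul, smul_eq_mul, Matrix.zero_apply]
  linear_combination (io b (mp φ l) ^ x.1 * io b (mp φ l) ^ x.2 * y * z) * e3

end Pool.Agent.Lib.MP_815ef6_nt.Ch
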