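import Pool.Agent.Lib.MP_815ef6_nt.CS.As4
import Pool.Agent.Lib.MP_815ef6_nt.CS.CmC
import Pool.Agent.Lib.MP_815ef6_nt.CS.Glu

/-! The chain over large finitely generated rings. -/

namespace Pool.Agent.Lib.MP_815ef6_nt.Ch
open Finset LaurentPolynomial Matrix Filter

variable {ι : Type*} [Fintype ι] [DecidableEq ι] {O : Subring ℂ} {t : ℂ}

section
variable {R R' : Type*} [CommRing R] [CommRing R'] {φ : R →+* R'}

theorem as5_nd (hφ : Function.Injective φ) {τ : R} {f g : R[T;T⁻¹]}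
    (h : Nd ⊥ (φ τ) (cf (mp φ f)) (cf (mp φ g))) : Nd ⊥ τ (cf f) (cf g) := fun k => by
  have := h k
  simp only [cf, Ideal.mem_bot, coeff_mp, ← map_pow, ← map_mul, ← map_sub] at this ⊢
  exact ⟨hφ (this.1.trans φ.map_zero.symm), hφ (this.2.trans φ.map_zero.symm)⟩

omit [Fintype ι] [DecidableEq ι] in
theorem as5_re (hφ : Function.Injective φ) {b : Bool} {q : R[T;T⁻¹]} {A : Matrix ι ι R[T;T⁻¹]}
    (re : Re 0 b (mp φ q) (A.map (mp φ))) : Re 0 b q A := by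
  refine ⟨fun a h => zero_dvd_iff.2 (hφ ?_), zero_dvd_iff.2 (hφ ?_),
    fun i j a h => zero_dvd_iff.2 (hφ ?_)⟩
  · rw [map_zero, ← coeff_mp, zero_dvd_iff.1 (re.pl a h)]
  · rw [φ.map_zero, map_sub, map_one, ← coeff_mp, zero_dvd_iff.1 re.one]
  · rw [map_zero, ← coeff_mp]
    exact zero_dvd_iff.1 (re.pc i j a h)

end

theorem as5_ev (H : Frame O t) {α : Type*} [Finite α] (c : α → ℚ) :
    ∀ᶠ T in fG O t, ∀ x, (c x : ℂ) ∈ cl T := eventually_all.2 fun x => ev_in (H.rat (c x))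

theorem as5_unit {B : Subring ℂ} {P P' : Matrix ι ι ℚ} (h : P * P' = 1) {Q Q' : Matrix ι ι B}
    (e : ∀ i j, (Q i j : ℂ) = P i j) (e' : ∀ i j, (Q' i j : ℂ) = P' i j) : IsUnit Q := by
  have k : Q * Q' = 1 := by
    ext i j
    have := congrArg (fun M : Matrix ι ι ℚ => (M i j : ℂ)) h
    simp only [Matrix.mul_apply, Matrix.one_apply] at this ⊢
    push_cast at this ⊢
    simp only [e, e', this]
    split_ifs <;> simp
  exact ⟨⟨Q, Q', k, mul_eq_one_comm.1 k⟩, rfl⟩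

theorem as5_fact {B : Subring ℂ} {x : B} {q : ℚ} (h : (x : ℂ) = q)
    (hd : (((q.den : ℚ)⁻¹ : ℚ) : ℂ) ∈ B) (m : ℕ) : (m.factorial : B) ∣ ∏ j ∈ range m, (x - j) := by
  have n0 : (q.den : ℂ) ≠ 0 := Nat.cast_ne_zero.2 q.den_nz
  have := fact_dvd (B := B) (ν := ⟨_, hd⟩) q.den_pos (Subtype.ext (by simp [n0])) q.num 0 m
  convert this using 3
  refine Subtype.ext ?_
  rw [h, Rat.cast_def]
  simp [div_eq_mul_inv]

theorem ev_chain (H : Frame O t) {s : O} (hp : Prime s) (hs : s ∣ ⟨t, H.mem⟩) {ρ : O →+* ℂ}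
    (hρ : ∀ x, ρ x = 0 ↔ s ∣ x) {F : Finset ℂ} (hF : ∀ x ∈ F, ∃ e : ℕ, t ^ e * x ∈ O) {p₀ r : ℕ}
    {X : Fin (r + 1) → PD O ι} (h : ∀ j, PrO s (X j) F p₀) {κ : Fin (r + 1) → Bool → ι → ℚ}
    {P P' : Fin (r + 1) → Bool → Matrix ι ι ℚ} (e : ∀ j, Eg ρ (X j).Cm (κ j) (P j) (P' j))
    (inj : ∀ j b, Function.Injective (κ j b)) {τ : Fin r → O} (tau : ∀ j, s ∣ τ j)
    (nl : ∀ j : Fin r, Nd ⊥ (τ j) (cf ((X j.castSucc).l false)) (cf ((X j.succ).l true)))
    (nC : ∀ (j : Fin r) i i',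
      Nd ⊥ (τ j) (cf ((X j.castSucc).Cm false i i')) (cf ((X j.succ).Cm true i i')))
    (hK : ∀ j : Fin r, κ j.castSucc false = κ j.succ true)
    (hP : ∀ j : Fin r, P j.castSucc false = P j.succ true)
    (e0 : Re 0 true ((X 0).l true) ((X 0).Cm true))
    (e1 : Re 0 false ((X (Fin.last r)).l false) ((X (Fin.last r)).Cm false)) :
    ∀ᶠ T in fG O t, ∀ (E m : ℕ) i i' a, ∃ y ∈ cl T, ∃ z ∈ cl T,
      ((Am th ((X 0).l true) ((X 0).Cm true) m i i').coeff a : ℂ) = m.factorial * y + s ^ E * z := by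
  filter_upwards [H.ev_loc hs hρ, eventually_all.2 fun j => ev_cmp H hp hs hρ hF (h j) (e j),
    as5_ev H fun x : _ × _ × _ => κ x.1 x.2.1 x.2.2,
    as5_ev H fun x : _ × _ × _ × _ => P x.1 x.2.1 x.2.2.1 x.2.2.2,
    as5_ev H fun x : _ × _ × _ × _ => P' x.1 x.2.1 x.2.2.1 x.2.2.2,
    as5_ev H fun x : _ × _ × _ × _ => (κ x.1 x.2.1 x.2.2.1 - κ x.1 x.2.1 x.2.2.2)⁻¹,
    as5_ev H fun i => ((κ 0 true i).den : ℚ)⁻¹, eventually_all.2 fun j => ev_in (τ j).2]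
    with T ⟨hle, hT, L⟩ hc h1 h2 h3 h4 h5 h6 E m i i' a
  let K : Fin (r + 1) → Bool → ι → cl T := fun j b i => ⟨κ j b i, h1 (j, b, i)⟩
  let Q : Fin (r + 1) → Bool → Matrix ι ι (cl T) := fun j b =>
    Matrix.of fun i i' => ⟨P j b i i', h2 (j, b, i, i')⟩
  have pp : ∀ j b, IsUnit (Q j b) := fun j b => as5_unit ((e j).inv b) (fun _ _ => rfl)
    (Q' := Matrix.of fun i i' => ⟨P' j b i i', h3 (j, b, i, i')⟩) fun _ _ => rfl
  choose X' Y hX hY using fun j => hc j hle hT L (K j) (fun _ _ => rfl) (Q j) (fun _ _ _ => rfl)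
    (pp j)
  have hi : Function.Injective (Subring.inclusion hle) := Subring.inclusion_injective hle
  have hl : ∀ j b, mp (Subring.inclusion hle) ((X' j).l b) = (X j).l b := fun j b => by
    rw [← hX j]; rfl
  have hC : ∀ j b, ((X' j).Cm b).map (mp (Subring.inclusion hle)) = (X j).Cm b := fun j b => by
    rw [← hX j]; rfl
  have hC' : ∀ j b i i', mp (Subring.inclusion hle) ((X' j).Cm b i i') = (X j).Cm b i i' :=
    fun j b i i' => by rw [← hC j b]; rfl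
  have ch : Ch2 (⟨s, hT⟩ : cl T) r (fun j => (X' j).l) (fun j => (X' j).Cm) K Q
      fun j => ⟨τ j, h6 j⟩ := by
    refine ⟨L.reg, fun j => (L.ker _).1 ((hρ _).2 (tau j)), fun j => as5_nd hi ?_,
      fun j i i' => as5_nd hi ?_, fun j => funext fun i => Subtype.ext ?_,
      fun j => Matrix.ext fun i i' => Subtype.ext ?_, as5_re hi ?_, as5_re hi ?_,
      fun j => (hY j).re, fun j b i i' n => ?_, pp, fun j b i i' => (L.ker _).1 ?_⟩
    · rw [hl, hl]
      exact nl j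
    · rw [hC', hC']
      exact nC j i i'
    · exact congrArg (fun x : ι → ℚ => (x i : ℂ)) (hK j)
    · exact congrArg (fun x : Matrix ι ι ℚ => (x i i' : ℂ)) (hP j)
    · rwa [hl, hC]
    · rwa [hl, hC]
    · have n0 : (κ j b i : ℂ) - κ j b i' ≠ 0 := sub_ne_zero.2 fun k => n (inj j b (Rat.cast_injective k))
      exact IsUnit.of_mul_eq_one ⟨_, h4 (j, b, i, i')⟩ (Subtype.ext (by simp [K, n0]))
    · have k := congrFun (congrFun ((e j).eig b) i) i'
      have k1 : ∀ l l', ρ.comp (Subring.inclusion hle) (Q j b l l') = P j b l l' :=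
        fun l l' => rho_rat _ rfl
      have k2 : ρ.comp (Subring.inclusion hle) (K j b i') = κ j b i' := rho_rat _ rfl
      have k3 : ∀ l, ρ.comp (Subring.inclusion hle) (((X' j).Cm b i l).coeff 0) =
          ρ (((X j).Cm b i l).coeff 0) := fun l => by rw [← hC', coeff_mp]; rfl
      rw [mul_diagonal, Matrix.mul_apply] at k
      rw [Matrix.sub_apply, mul_diagonal, Matrix.mul_apply, map_sub, map_sum, map_mul, k1, k2,
        sub_eq_zero]
      simp only [map_mul, Matrix.map_apply, k1, k3] at k ⊢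
      exact k
  obtain ⟨U, hU⟩ := ch.glue (fun j => (hY j).abs L) E
  obtain ⟨r1, r2⟩ := ((hY 0).abs L).red E U hU true
  obtain ⟨y, z, hy⟩ := fin_am (pp 0 true) r1 r2 (((hY 0).abs L).sol _ U hU true)
    (fun m i => as5_fact rfl (h5 i) m) m i i' a
  refine ⟨y, y.2, s * z, mul_mem hT z.2, ?_⟩
  rw [← hl, ← hC, ← Am_map _ (mp_th _), Matrix.map_apply, coeff_mp, hy]
  simp [pow_succ, mul_assoc]

end Pool.Agent.Lib.MP_815ef6_nt.Ch
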