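import Pool.Agent.Lib.MP_815ef6_nt.CS.CmD

/-! Components over the semilocal ring: definitions. -/

namespace Pool.Agent.Lib.MP_815ef6_nt.Ch
open Finset LaurentPolynomial Matrix

variable {B B' : Type*} [CommRing B] [CommRing B'] {ι : Type*} [Fintype ι] [DecidableEq ι]

/-- Change of the coefficients. -/
noncomputable def PD.map (φ : B →+* B') (X : PD B ι) : PD B' ι :=
  ⟨mp φ X.δ, mp φ X.n, X.A.map (mp φ), X.W.map (mp φ), fun b => mp φ (X.l b),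
    fun b => (X.Cm b).map (mp φ)⟩

/-- A component over the semilocal ring. -/
structure PrO {O : Subring ℂ} (s : O) (X : PD O ι) (F : Finset ℂ) (p₀ : ℕ) : Prop where
  one : C s ∣ X.δ - 1
  rel : ∀ b, Rel th ((1 - T 1) * X.δ) X.A (X.l b) (X.Cm b) X.n X.W
  re : ∀ b, Re s b (X.l b) (X.Cm b)
  n0 : ¬ C s ∣ X.n
  W0 : ¬ C s ∣ X.W.det
  rk : ∃ (u v : ι → O) (γ : ℚ), X.A.map ev1 = vecMulVec u v ∧
    ((∑ k, u k * v k : O) : ℂ) = γ * (ev1 X.δ : O) ∧ ((∀ z : ℤ, γ ≠ z) ∨ vecMulVec u v = 0)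
  mb : ∀ b (p : ℕ), p.Prime → p₀ ≤ p → ∀ i j,
    ∃ g ∈ LS (cl F), mp O.subtype (Am th (X.l b) (X.Cm b) p i j) = p * g

/-- The exponents modulo the kernel of `ρ`. -/
structure Eg (ρ : B →+* ℂ) (Cm : Bool → Matrix ι ι B[T;T⁻¹]) (κ : Bool → ι → ℚ)
    (P P' : Bool → Matrix ι ι ℚ) : Prop where
  inv : ∀ b, P b * P' b = 1
  eig : ∀ b, (Cm b).map (fun f => ρ (f.coeff 0)) * (P b).map (fun x => (x : ℂ)) =
    (P b).map (fun x => (x : ℂ)) * diagonal fun i => (κ b i : ℂ)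

end Pool.Agent.Lib.MP_815ef6_nt.Ch
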