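import Pool.Agent.Lib.MP_815ef6_nt.CS.CmA

/-! Components: the obstruction vanishes. -/

namespace Pool.Agent.Lib.MP_815ef6_nt.Ch
open Finset LaurentPolynomial Matrix

section
variable {Λ Λ' : Type*} [CommRing Λ] [CommRing Λ'] {ι : Type*} [Fintype ι] [DecidableEq ι]

omit [Fintype ι] [DecidableEq ι] in
theorem cmb_dd {c : Λ} {M : Matrix ι ι Λ} : Dd c M ↔ ∃ N, M = c • N :=
  ⟨fun h => by
    choose N hN using h
    exact ⟨N, Matrix.ext hN⟩, fun ⟨N, e⟩ i j => ⟨N i j, by rw [e]; rfl⟩⟩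

omit [Fintype ι] [DecidableEq ι] in
theorem cmb_map {c : Λ} {M : Matrix ι ι Λ} (h : Dd c M) {φ : Λ →+* Λ'} (hc : φ c = 0) :
    M.map φ = 0 := by
  obtain ⟨N, rfl⟩ := cmb_dd.1 h
  rw [Am1_smul, hc, zero_smul]

theorem cmb_gg {c : Λ} {G g g' : Matrix ι ι Λ} (h : Dd c (G - g)) (h' : Dd c (g * g' - 1)) :
    Dd c (G * g' - 1) := by
  obtain ⟨N, e⟩ := cmb_dd.1 h
  obtain ⟨N', e'⟩ := cmb_dd.1 h'
  refine cmb_dd.2 ⟨N * g' + N', ?_⟩
  rw [smul_add, ← smul_mul_assoc, ← e, ← e', Matrix.sub_mul, sub_add_sub_cancel]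

theorem cmb_unit {c : Λ} {G g' : Matrix ι ι Λ} (h : Dd c (G * g' - 1)) {φ : Λ →+* Λ'} {N : ℕ}
    (hc : φ c ^ N = 0) : IsUnit (G.map φ) := by
  obtain ⟨M, e⟩ := cmb_dd.1 h
  have e' : G.map φ * g'.map φ = 1 + φ c • M.map φ := by
    rw [← Matrix.map_mul, sub_eq_iff_eq_add'.1 e, Am1_add, Am1_smul,
      Matrix.map_one _ (map_zero φ) (map_one φ)]
  have u : IsUnit (G.map φ * g'.map φ) :=
    e' ▸ IsNilpotent.isUnit_one_add ⟨N, by rw [smul_pow, hc, zero_smul]⟩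
  rw [isUnit_iff_isUnit_det, det_mul] at u
  exact (isUnit_iff_isUnit_det _).2 (isUnit_of_mul_isUnit_left u)

end

variable {B : Type*} [CommRing B] {ι : Type*} [Fintype ι] [DecidableEq ι] {s : B} {ρ : B →+* ℂ}
  {X : PD B ι} {K : Bool → ι → B} {P : Bool → Matrix ι ι B} {Y : CD B ι}

theorem cmb_thC (c : B) : th (C c : B[T;T⁻¹]) = 0 := by simpa using th_CT c 0

theorem cmb_canc (H : Loc s ρ) {x y : B} (m : ℕ) (e : s ^ m * x = s ^ (m + 1) * y) : s ∣ x := by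
  induction m with
  | zero => exact ⟨y, by simpa using e⟩
  | succ m ih => exact ih (sub_eq_zero.1 (H.reg _ (by linear_combination e)))

theorem cmb_cancel (H : Loc s ρ) {p : ℕ} (hp : p.Prime) {x y z : B} {m : ℕ}
    (e : s ^ m * x = p * y + s ^ (m + 1) * z) : ∃ y, ρ x = p * ρ y := by
  have s0 := (H.ker s).2 dvd_rfl
  induction m generalizing y with
  | zero => exact ⟨y, by simpa [s0] using congrArg ρ e⟩
  | succ m ih =>
    obtain ⟨y, rfl⟩ := (H.ker y).1 (by simpa [s0, hp.ne_zero] using congrArg ρ e)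
    exact ih (y := y) (sub_eq_zero.1 (H.reg _ (by linear_combination e)))

theorem cmb_s (H : Loc s ρ) : mp ρ (C s) = 0 := by rw [mp_C, (H.ker s).2 dvd_rfl, map_zero]

theorem cmb_del (H : Loc s ρ) (h : Pre s X) : mp ρ X.δ = 1 := by
  obtain ⟨y, e⟩ := h.one
  rw [sub_eq_iff_eq_add.1 e, map_add, map_mul, cmb_s H, zero_mul, zero_add, map_one]

theorem cmb_q {B' : Type*} [CommRing B'] (φ : B →+* B') : mp φ (1 - T 1) = 1 - T 1 := by
  rw [map_sub, map_one, mp_T]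

theorem Cmp.obs (H : Loc s ρ) (h : Cmp s ρ X K P Y) {m : ℕ} {G E : Matrix ι ι B[T;T⁻¹]}
    (hG : Dd (C s) (G - Y.g))
    (hE : gf th ((1 - T 1) * X.δ) X.A (X.δ • Y.A0) G = C s ^ (m + 1) • E) :
    ∃ δ, gf th (1 - T 1) (Y.A0.map (mp ρ)) (Y.A0.map (mp ρ)) δ = (Y.g' * E).map (mp ρ) := by
  have gg := cmb_gg hG h.gg
  have e1 : Dd (C s ^ (m + 2)) (gf th ((1 - T 1) * X.δ) X.A
      (X.δ • Y.A0 + (C (-s ^ (m + 1)) : B[T;T⁻¹]) • (Y.g' * E)) G) := by
    obtain ⟨N, e⟩ := cmb_dd.1 gg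
    refine cmb_dd.2 ⟨-(N * E), ?_⟩
    rw [gf] at hE ⊢
    rw [Matrix.mul_add, ← add_assoc, hE, Matrix.mul_smul, ← Matrix.mul_assoc,
      sub_eq_iff_eq_add.1 e, Matrix.add_mul, Matrix.one_mul, smul_mul_assoc, map_neg, map_pow]
    module
  refine h.split _ ?_ ?_
  · obtain ⟨F, hF⟩ := H.fg
    obtain ⟨p₀, h0⟩ := h.toPre.dm
    obtain ⟨p₁, h1⟩ := h.mb0
    refine ⟨F, max p₀ p₁, fun p hp k => ?_⟩
    have a : ∀ i j a, ∃ y ∈ cl F,
        (Am th (1 - T 1) (Y.A0.map (mp ρ)) p i j).coeff a = p * y := fun i j a => by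
      obtain ⟨y, e⟩ := h1 p hp (le_of_max_le_right k) i j
      refine ⟨ρ (y.coeff a), hF _, ?_⟩
      rw [← cmb_q ρ, ← Am_map (mp ρ) (mp_th ρ), map_apply, e, coeff_mp, ← map_natCast C,
        coeff_C_mul, map_mul, map_natCast]
    have b : ∀ i j a, ∃ y ∈ cl F, (Zm th (1 - T 1) (Y.A0.map (mp ρ)) ((Y.g' * E).map (mp ρ))
        (Y.A0.map (mp ρ)) p i j).coeff a = p * y := fun i j a => by
      let φ := Ideal.Quotient.mk (Ideal.span {(p : B), s ^ (m + 2)})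
      have φp : φ p = 0 := Ideal.Quotient.eq_zero_iff_mem.2 (Ideal.subset_span (by simp))
      have φs : φ (s ^ (m + 2)) = 0 := Ideal.Quotient.eq_zero_iff_mem.2 (Ideal.subset_span (by simp))
      have c1 : mp φ p = 0 := by rw [← map_natCast C, mp_C, φp, map_zero]
      have c2 : mp φ (C s ^ (m + 2)) = 0 := by rw [← map_pow, mp_C, φs, map_zero]
      have u : IsUnit (G.map (mp φ)) := cmb_unit gg (N := m + 2) (by rw [← map_pow, c2])
      have z := cmb_map e1 c2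
      rw [gf_map (mp φ) (mp_th φ)] at z
      have z := Am_gauge_p dv_th z hp (by rw [← map_natCast (mp φ), c1])
        (pf_th_p hp (by rw [← map_natCast φ, φp]))
      rw [← Am_map (mp φ) (mp_th φ), ← Am_map (mp φ) (mp_th φ),
        show (Am th ((1 - T 1) * X.δ) X.A p).map (mp φ) = 0 from Matrix.ext fun i j => by
          obtain ⟨y, z, e⟩ := h0 p hp (le_of_max_le_left k) (m + 2) i j
          rw [map_apply, e, map_add, map_mul, map_mul, c1, c2, zero_mul, zero_mul, add_zero,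
            Matrix.zero_apply], Matrix.zero_mul, eq_comm, u.mul_right_eq_zero] at z
      have l := cmb_map (Am_lin (q := (1 - T 1) * X.δ) (A := X.δ • Y.A0) (E := Y.g' * E) dv_th
        (cmb_thC (-s ^ (m + 1))) p) (φ := mp φ) (by
          rw [← map_pow, mp_C, show (-s ^ (m + 1)) ^ 2 = s ^ (m + 2) * s ^ m by ring, map_mul, φs,
            zero_mul, map_zero])
      rw [Am1_sb, Am1_sb, z, mul_comm (1 - T 1), Am_scale dv_th, Am1_smul,
        cmb_map (h1 p hp (le_of_max_le_right k)) c1, smul_zero, sub_zero, zero_sub,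
        neg_eq_zero] at l
      have l := congrArg (fun f => f.coeff a) (congrFun (congrFun l i) j)
      simp only [map_apply, Matrix.smul_apply, smul_eq_mul, coeff_mp, coeff_C_mul,
        Matrix.zero_apply, AddMonoidAlgebra.coeff_zero, Finsupp.zero_apply] at l
      obtain ⟨y, z, e⟩ := Ideal.mem_span_pair.1 (Ideal.Quotient.eq_zero_iff_mem.1 l)
      obtain ⟨y, e⟩ := cmb_cancel H hp (m := m + 1) (y := -y) (z := -z) (x := (Zm th
        (X.δ * (1 - T 1)) (X.δ • Y.A0) (Y.g' * E) (X.δ • Y.A0) p i j).coeff a)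
        (by linear_combination e)
      refine ⟨ρ y, hF _, Eq.trans ?_ e⟩
      rw [← coeff_mp, ← map_apply (f := mp ρ), Zm_map (mp ρ) (mp_th ρ), map_mul, Am1_smul, cmb_q,
        cmb_del H h.toPre, one_mul, one_smul]
    rw [Am_blocks dv_th]
    rintro (i | i) (j | j)
    exacts [a i j, b i j, fun _ => ⟨0, zero_mem _, by simp⟩, a i j]
  · obtain ⟨u, v, e⟩ := h.rk
    obtain ⟨u0, v0, e0⟩ := h.rk0
    let φ := Ideal.Quotient.mk (Ideal.span {s ^ (m + 2)})
    let ψ : B[T;T⁻¹] →+* _ := φ.comp ev1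
    have c2 : ψ (C s ^ (m + 2)) = 0 := by
      rw [← map_pow, RingHom.comp_apply, ev1_C]
      exact Ideal.Quotient.eq_zero_iff_mem.2 (Ideal.mem_span_singleton_self _)
    obtain ⟨G', w⟩ := (cmb_unit gg (φ := ψ) (N := m + 2) (by rw [← map_pow, c2])).exists_left_inv
    have z := cmb_map e1 c2
    rw [gf, Am1_add, Am1_sb, Am1_smul, Matrix.map_mul, Matrix.map_mul,
      show ψ ((1 - T 1) * X.δ) = 0 by simp [ψ, ev1_T], zero_smul, zero_sub, neg_add_eq_zero,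
      show X.A.map ψ = vecMulVec (φ ∘ u) (φ ∘ v) from Matrix.ext fun i j =>
        (congrArg φ (congrFun (congrFun e i) j)).trans (map_mul φ _ _)] at z
    have z := congrArg (G' * ·) z
    simp only [← Matrix.mul_assoc, w, Matrix.one_mul] at z
    rw [mul_vecMulVec, vecMulVec_mul] at z
    have A0 : ∀ i j, ev1 (Y.A0 i j) = u0 i * v0 j := fun i j => congrFun (congrFun e0 i) j
    have d1 : ρ (ev1 X.δ) = 1 := by rw [← ev1_mp, cmb_del H h.toPre, map_one]
    intro i j k l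
    have n : ∀ i j, φ (ev1 X.δ * (u0 i * v0 j) - s ^ (m + 1) * ev1 ((Y.g' * E) i j)) = _ :=
      fun i j => Eq.trans (by simp [ψ, A0, ev1_C, sub_eq_add_neg]) (congrFun (congrFun z i) j).symm
    obtain ⟨y, hy⟩ := Ideal.mem_span_singleton.1 (Ideal.Quotient.eq_zero_iff_mem.1 (show φ (
      (ev1 X.δ * (u0 i * v0 j) - s ^ (m + 1) * ev1 ((Y.g' * E) i j)) *
      (ev1 X.δ * (u0 k * v0 l) - s ^ (m + 1) * ev1 ((Y.g' * E) k l)) -
      (ev1 X.δ * (u0 i * v0 l) - s ^ (m + 1) * ev1 ((Y.g' * E) i l)) *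
      (ev1 X.δ * (u0 k * v0 j) - s ^ (m + 1) * ev1 ((Y.g' * E) k j))) = 0 by
        rw [map_sub, map_mul, map_mul, n, n, n, n]
        simp only [vecMulVec_apply]
        ring))
    have t := (H.ker _).2 (cmb_canc H (m + 1) (x := ev1 X.δ * (u0 i * v0 j * ev1 ((Y.g' * E) k l) +
      ev1 ((Y.g' * E) i j) * (u0 k * v0 l) - (u0 i * v0 l * ev1 ((Y.g' * E) k j) +
      ev1 ((Y.g' * E) i l) * (u0 k * v0 j))))
      (y := s ^ m * (ev1 ((Y.g' * E) i j) * ev1 ((Y.g' * E) k l) -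
        ev1 ((Y.g' * E) i l) * ev1 ((Y.g' * E) k j)) - y) (by linear_combination -hy))
    rw [map_mul, d1, one_mul, map_sub, sub_eq_zero] at t
    simpa only [map_apply, ev1_mp, A0, map_add, map_mul] using t

end Pool.Agent.Lib.MP_815ef6_nt.Ch
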