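import Pool.Agent.Lib.MP_815ef6_nt.CS.CmB

/-! Components: identities for the inductive step. -/

namespace Pool.Agent.Lib.MP_815ef6_nt.Ch
open Finset LaurentPolynomial Matrix

section
variable {Λ : Type*} [CommRing Λ] {ι : Type*} [Fintype ι] [DecidableEq ι] {d : Λ → Λ}
  {q l n c δ : Λ} {A A' A0 Cm W G E g g' Ψ Ψ' U V Kd F M ζ Z : Matrix ι ι Λ}

omit [DecidableEq ι] in
theorem cmc_add (hd : Dv d) (Z Z' : Matrix ι ι Λ) :
    gf d q A A' (Z + Z') = gf d q A A' Z + gf d q A A' Z' := by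
  simp only [gf, Am1_madd hd, Matrix.mul_add, Matrix.add_mul]
  module

omit [DecidableEq ι] in
theorem cmc_smul (hd : Dv d) (c : Λ) (Z : Matrix ι ι Λ) :
    gf d q A A' (c • Z) = (q * d c) • Z + c • gf d q A A' Z := by
  simp only [gf, Am1_msmul hd, Matrix.mul_smul, Matrix.smul_mul]
  module

omit [DecidableEq ι] in
theorem cmc_neg (hd : Dv d) (Z : Matrix ι ι Λ) : gf d q A A' (-Z) = -gf d q A A' Z := by
  have e : d (-1) = 0 := by simpa [Am1_zero hd, Am1_one hd] using Am1_sub hd 0 1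
  rw [← neg_one_smul Λ Z, cmc_smul hd, e, mul_zero, zero_smul, zero_add, neg_one_smul]

theorem cmc_one (hd : Dv d) (hc : d c = 0) (Z : Matrix ι ι Λ) :
    gf d q A A (1 + c • Z) = c • gf d q A A Z := by
  rw [cmc_add hd, cmc_smul hd, hc, gf, Am1_mone hd]
  simp

omit [DecidableEq ι] in
theorem cmc_scale (δ : Λ) (Z : Matrix ι ι Λ) :
    gf d (q * δ) (δ • A) (δ • A') Z = δ • gf d q A A' Z := by
  simp only [gf, Matrix.mul_smul, Matrix.smul_mul]
  module

omit [DecidableEq ι] in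
theorem cmc_scale' (Z : Matrix ι ι Λ) : gf d q (q • A) (q • A') Z = q • gf d 1 A A' Z := by
  rw [← cmc_scale, one_mul]

theorem cmc_rel (hd : Dv d) (H : Rel d q A l Cm n W) (Z : Matrix ι ι Λ) :
    (q * n) • gf d l Cm (l • Kd) (W * Z) - (q * l * d n) • (W * Z) =
      (l * n) • (W * gf d q A (q • Kd) Z) := by
  have e := congrArg (· * Z) H
  simp only [Matrix.smul_mul, Matrix.sub_mul, Matrix.mul_assoc] at e
  simp only [gf, hd.map_mul, Matrix.mul_add, Matrix.mul_sub, Matrix.mul_smul, Matrix.mul_assoc]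
  linear_combination (norm := module) e

theorem cmc_pre (hd : Dv d) (H : Rel d (q * δ) A l Cm n W) (hc : d c = 0)
    (hE : gf d (q * δ) A (δ • A0) G = c • E) (h0 : gf d q A0 (q • Kd) Ψ = 0)
    (hM : n • V - W * G * Ψ = c • M) (hF : gf d l Cm (l • Kd) V = c • F) :
    c • (q * δ * n ^ 2) • F = c • ((l * n) • (W * (E * Ψ)) +
      ((q * δ * n) • gf d l Cm (l • Kd) M - (q * δ * l * d n) • M)) := by
  have e1 := cmc_rel (Kd := Kd) hd H (G * Ψ)
  rw [gf_mul hd (A := A) (A' := δ • A0), hE, show (q * δ) • Kd = δ • q • Kd by module, cmc_scale, h0,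
    smul_zero, Matrix.mul_zero, add_zero, ← Matrix.mul_assoc, ← sub_sub_cancel (n • V) (W * G * Ψ),
    hM, sub_eq_add_neg (n • V), cmc_add hd, cmc_neg hd, cmc_smul hd, cmc_smul hd, hc, hF,
    Matrix.smul_mul, Matrix.mul_smul] at e1
  linear_combination (norm := module) e1

theorem cmc_core [IsDomain Λ] (hd : Dv d) (H : Rel d q A l Cm n W) (hg : gf d q A A0 g = 0)
    (gg : g * g' = 1) (h0 : gf d q A0 (q • Kd) Ψ = 0) (inv : Ψ * Ψ' = 1) (reg : n • U = W * g * Ψ)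
    (hM : M = W * g * Ψ * ζ) (hF : (q * n ^ 2) • F = (l * n) • (W * (E * Ψ)) +
      ((q * n) • gf d l Cm (l • Kd) M - (q * l * d n) • M)) (hZ : gf d q A0 A0 Z = g' * E)
    (hq : q ≠ 0) (hn : n ≠ 0) : F = l • (U * gf d 1 Kd Kd (Ψ' * Z * Ψ + ζ)) := by
  have e1 := cmc_rel (Kd := Kd) hd H (g * Ψ * ζ)
  rw [gf_mul hd (A := A) (A' := q • Kd), gf_mul hd (A := A) (A' := A0), hg, h0, cmc_scale',
    Matrix.zero_mul, Matrix.mul_zero, add_zero, Matrix.zero_mul, zero_add, ← Matrix.mul_assoc, ← Matrix.mul_assoc,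
    ← hM, ← Matrix.mul_assoc, ← Matrix.mul_assoc, ← reg] at e1
  have e2 := gf_mul (d := d) (q := q) (A := A0) (A' := A0) (G := Z) hd (q • Kd) Ψ
  rw [h0, hZ, Matrix.mul_zero, add_zero, show Z * Ψ = Ψ * (Ψ' * Z * Ψ) by
    rw [← Matrix.mul_assoc, ← Matrix.mul_assoc, inv, Matrix.one_mul],
    gf_mul hd (A' := q • Kd), h0, cmc_scale', Matrix.zero_mul, zero_add] at e2
  have e3 : W * (E * Ψ) = (n • U) * (q • gf d 1 Kd Kd (Ψ' * Z * Ψ)) := by
    rw [reg, Matrix.mul_assoc (W * g), e2, Matrix.mul_assoc W, Matrix.mul_assoc g',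
      ← Matrix.mul_assoc g, gg, Matrix.one_mul]
  rw [e1, e3] at hF
  have e4 : (q * n ^ 2) • F = (q * n ^ 2) • l • (U * gf d 1 Kd Kd (Ψ' * Z * Ψ + ζ)) := by
    rw [hF, cmc_add hd]
    simp only [Matrix.mul_smul, Matrix.smul_mul, Matrix.mul_add]
    module
  exact Matrix.ext fun i j =>
    mul_left_cancel₀ (mul_ne_zero hq (pow_ne_zero 2 hn)) (congrFun (congrFun e4 i) j)

theorem cmc_new (hM : n • V - W * Ψ = c • M) (ν : Λ) (R S Z : Matrix ι ι Λ) :
    n • (V + c • ν • R) - W * (1 + c • -Z) * (Ψ * (1 + c • S)) =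
      c • (M + (n * ν) • R - W * (Ψ * S - Z * Ψ - c • (Z * (Ψ * S)))) := by
  rw [smul_add, sub_eq_iff_eq_add.1 hM]
  simp only [Matrix.mul_add, Matrix.add_mul, Matrix.mul_sub, Matrix.mul_smul, Matrix.smul_mul,
    Matrix.mul_one, Matrix.mul_neg, Matrix.neg_mul, Matrix.mul_assoc]
  module

omit [Fintype ι] [DecidableEq ι] in
theorem cmc_pow (h : Dd c M) (m : ℕ) : Dd (c ^ (m + 1)) (c ^ m • M) := fun i j => by
  rw [pow_succ]
  exact mul_dvd_mul_left _ (h i j)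

end

section
variable {R : Type*} [CommRing R] {ι : Type*} [Fintype ι] [DecidableEq ι]

/-- The coefficients below `x` vanish. -/
def Oz (x : ℤ) (M : Matrix ι ι (Ls R)) : Prop := ∀ i j a, a < x → (M i j).coeff a = 0

theorem cmc_cmul {f g : Ls R} {x y : ℤ} (hf : ∀ a < x, f.coeff a = 0) (hg : ∀ a < y, g.coeff a = 0)
    (a : ℤ) (h : a < x + y) : (f * g).coeff a = 0 := by
  rw [HahnSeries.coeff_mul]
  refine sum_eq_zero fun z hz => ?_
  have e := (mem_antidiagonal.1 hz).2.2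
  by_cases k : z.1 < x
  · rw [hf _ k, zero_mul]
  · rw [hg _ (by omega), mul_zero]

omit [DecidableEq ι] in
theorem Oz.mul {x y : ℤ} {M N : Matrix ι ι (Ls R)} (h : Oz x M) (h' : Oz y N) :
    Oz (x + y) (M * N) := fun i j a ha => by
  rw [Matrix.mul_apply, HahnSeries.coeff_sum]
  exact sum_eq_zero fun k _ => cmc_cmul (h i k) (h' k j) a ha

theorem cmc_nab (b : Bool) (K : ι → R) (Z : Matrix ι ι (Ls R)) (i j : ι) (a : ℤ) :
    (gf (dS b) 1 (diagonal fun i => cS (K i)) (diagonal fun i => cS (K i)) Z i j).coeff a =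
      ((sg b * a : ℤ) + K j - K i) * (Z i j).coeff a := by
  rw [gf, one_smul, Matrix.add_apply, Matrix.sub_apply, diagonal_mul, mul_diagonal, map_apply,
    mul_comm (Z i j), HahnSeries.coeff_add, HahnSeries.coeff_sub, coeff_cS_mul, coeff_cS_mul,
    coeff_dS]
  ring

theorem cmc_pol (b : Bool) (f : Ls R) : ∃ η : R[T;T⁻¹], ∀ e,
    η.coeff e = if sg b * e < 0 then f.coeff (sg b * e) else 0 :=
  ⟨.ofCoeff (Finsupp.onFinset ((Ico f.order 0).image (sg b * ·))
    (fun e => if sg b * e < 0 then f.coeff (sg b * e) else 0) fun e h => by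
      by_cases k : sg b * e < 0
      · rw [if_pos k] at h
        exact mem_image.2 ⟨_, mem_Ico.2 ⟨HahnSeries.order_le_of_coeff_ne_zero h, k⟩,
          by rw [← mul_assoc, sg_sq, one_mul]⟩
      · exact absurd (if_neg k) h), fun _ => rfl⟩

end

variable {B : Type*} [CommRing B] {ι : Type*} [Fintype ι] [DecidableEq ι] {s : B} {ρ : B →+* ℂ}

omit [Fintype ι] [DecidableEq ι] in
theorem cmc_ddL (H : Loc s ρ) {M : Matrix ι ι (Ls B)} : Dd (cS s) M ↔ M.map (mL ρ) = 0 :=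
  ⟨fun h => cmb_map h (by rw [mL_cS, (H.ker s).2 dvd_rfl, map_zero]), fun h i j =>
    cS_dvd.2 fun a => (H.ker _).1 (congrArg (fun f => f.coeff a) (congrFun (congrFun h i) j))⟩

omit [Fintype ι] [DecidableEq ι] in
theorem cmc_ddP (H : Loc s ρ) {M : Matrix ι ι B[T;T⁻¹]} : Dd (C s) M ↔ M.map (mp ρ) = 0 :=
  ⟨fun h => cmb_map h (cmb_s H), fun h i j => dvd_iff.2 fun a => (H.ker _).1 (by
    simpa using congrArg (fun f => f.coeff a) (congrFun (congrFun h i) j))⟩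

theorem cmc_sL (H : Loc s ρ) (m : ℕ) : mL ρ (cS s ^ (m + 1)) = 0 := by
  rw [map_pow, mL_cS, (H.ker s).2 dvd_rfl, map_zero, zero_pow m.succ_ne_zero]

theorem cmc_un (H : Loc s ρ) {f g : Ls B} (h : cS s ∣ f * g - 1) : mL ρ f * mL ρ g = 1 := by
  obtain ⟨y, e⟩ := h
  rw [← map_mul, sub_eq_iff_eq_add.1 e, map_add, map_mul, mL_cS, (H.ker s).2 dvd_rfl, map_zero,
    zero_mul, zero_add, map_one]

omit [Fintype ι] [DecidableEq ι] in
theorem cmc_reg (H : Loc s ρ) (m : ℕ) {M N : Matrix ι ι (Ls B)}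
    (h : (cS s ^ m : Ls B) • M = (cS s ^ m : Ls B) • N) : M = N := by
  induction m with
  | zero => simpa using h
  | succ m ih =>
    refine ih (Matrix.ext fun i j => HahnSeries.ext (funext fun a => sub_eq_zero.1 (H.reg _ ?_)))
    have e := congrArg (fun f => f.coeff a) (congrFun (congrFun h i) j)
    simp only [pow_succ', mul_assoc, Matrix.smul_apply, smul_eq_mul, coeff_cS_mul] at e ⊢
    rw [mul_sub, e, sub_self]

omit [Fintype ι] [DecidableEq ι] in
theorem cmc_io (b : Bool) (M : Matrix ι ι B[T;T⁻¹]) :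
    (M.map (io b)).map (mL ρ) = (M.map (mp ρ)).map (io b) := Matrix.ext fun _ _ => mL_io ρ b _

omit [Fintype ι] [DecidableEq ι] in
theorem cmc_oz (H : Loc s ρ) {D : ℕ} {M : Matrix ι ι (Ls B)} (h : Od s D M) :
    Oz (-D) (M.map (mL ρ)) := fun i j a ha => (H.ker _).2 (h i j a ha)

end Pool.Agent.Lib.MP_815ef6_nt.Ch
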