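import Pool.Agent.Lib.MP_815ef6_nt.CS.MDx

/-! Components of the degeneration over one ring: definitions. -/

namespace Pool.Agent.Lib.MP_815ef6_nt.Ch
open Finset LaurentPolynomial Matrix

variable {B : Type*} [CommRing B] {ι : Type*} [Fintype ι] [DecidableEq ι]

/-- The systems on a component: `(1 - w) δ θ Y = A Y` and, at the two ends, `l θ U = Cm U`,
`n U = W Y`. -/
structure PD (B : Type*) [CommRing B] (ι : Type*) where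
  δ : B[T;T⁻¹]
  n : B[T;T⁻¹]
  A : Matrix ι ι B[T;T⁻¹]
  W : Matrix ι ι B[T;T⁻¹]
  l : Bool → B[T;T⁻¹]
  Cm : Bool → Matrix ι ι B[T;T⁻¹]

/-- The model, the gauge transformation to the model and the solutions of the model. -/
structure CD (B : Type*) [CommRing B] (ι : Type*) where
  A0 : Matrix ι ι B[T;T⁻¹]
  g : Matrix ι ι B[T;T⁻¹]
  g' : Matrix ι ι B[T;T⁻¹]
  Ψ : Bool → Matrix ι ι (Ls B)
  Ψ' : Bool → Matrix ι ι (Ls B)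
  D : ℕ

structure Pre (s : B) (X : PD B ι) : Prop where
  one : C s ∣ X.δ - 1
  rel : ∀ b, Rel th ((1 - T 1) * X.δ) X.A (X.l b) (X.Cm b) X.n X.W
  re : ∀ b, Re s b (X.l b) (X.Cm b)
  un : Un s X.n
  uW : Un s X.W.det
  mb : ∀ b, MB (X.l b) (X.Cm b)
  rk : ∃ u v : ι → B, X.A.map ev1 = vecMulVec u v

structure Cmp (s : B) (ρ : B →+* ℂ) (X : PD B ι) (K : Bool → ι → B) (P : Bool → Matrix ι ι B)
    (Y : CD B ι) : Prop extends Pre s X where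
  mb0 : MB (1 - T 1) Y.A0
  rk0 : ∃ u v : ι → B, Y.A0.map ev1 = vecMulVec u v
  gg : Dd (C s) (Y.g * Y.g' - 1)
  hg : Dd (C s) (gf th (1 - T 1) X.A Y.A0 Y.g)
  fund : ∀ b, df b (1 - T 1) Y.A0 (K b) (Y.Ψ b) = 0
  inv : ∀ b, Dd (cS s) (Y.Ψ b * Y.Ψ' b - 1)
  od : ∀ b, Od s Y.D (Y.Ψ b) ∧ Od s Y.D (Y.Ψ' b)
  res : ∀ b i j (a : ℤ), ρ (a + K b j - K b i) = 0 → a + K b j - K b i = 0 ∧ |a| ≤ Y.D
  pp : ∀ b, IsUnit (P b)
  reg : ∀ b, ∃ U : Matrix ι ι (Ls ℂ), Od 0 0 U ∧ c0 U = (P b).map ρ ∧ io b (mp ρ X.n) • U =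
    ((X.W * Y.g).map (mp ρ)).map (io b) * (Y.Ψ b).map (mL ρ)
  split : ∀ E, MD (1 - T 1) (fromBlocks (Y.A0.map (mp ρ)) E 0 (Y.A0.map (mp ρ))) →
    Tan ((Y.A0.map (mp ρ)).map ev1) (E.map ev1) →
      ∃ δ, gf th (1 - T 1) (Y.A0.map (mp ρ)) (Y.A0.map (mp ρ)) δ = E
  desc : ∀ (δ : Matrix ι ι ℂ[T;T⁻¹]) (E : Matrix ι ι B[T;T⁻¹]),
    (∀ i j (a : ℤ), 3 * Y.D < |a| → (δ i j).coeff a = 0) →
      gf th (1 - T 1) (Y.A0.map (mp ρ)) (Y.A0.map (mp ρ)) δ = E.map (mp ρ) →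
        ∃ δ', Dd (C s) (gf th (1 - T 1) Y.A0 Y.A0 δ' - E)

/-- The states of a component. -/
def St (s : B) (X : PD B ι) (K : Bool → ι → B) (Y : CD B ι) (m : ℕ)
    (U : Bool → Matrix ι ι (Ls B)) : Prop :=
  ∃ (G : Matrix ι ι B[T;T⁻¹]) (Ψ : Bool → Matrix ι ι (Ls B)),
    Dd (C s ^ m) (gf th ((1 - T 1) * X.δ) X.A (X.δ • Y.A0) G) ∧ Dd (C s) (G - Y.g) ∧
      ∀ b, df b (1 - T 1) Y.A0 (K b) (Ψ b) = 0 ∧ Dd (cS s) (Ψ b - Y.Ψ b) ∧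
        Dd (cS s ^ m) (io b X.n • U b - (X.W * G).map (io b) * Ψ b)

/-- What the gluing uses about a component. -/
structure Abs (s : B) (l : Bool → B[T;T⁻¹]) (Cm : Bool → Matrix ι ι B[T;T⁻¹]) (K : Bool → ι → B)
    (P : Bool → Matrix ι ι B) (S : ℕ → (Bool → Matrix ι ι (Ls B)) → Prop) : Prop where
  base : ∃ U, S 1 U
  red : ∀ m U, S (m + 1) U → ∀ b, Od s 0 (U b) ∧ Dd s (c0 (U b) - P b)
  sol : ∀ m U, S m U → ∀ b, Dd (cS s ^ m) (df b (l b) (Cm b) (K b) (U b))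
  step : ∀ m U (V : Bool → Matrix ι ι (Ls B)), S (m + 1) U → (∀ b, Dd (cS s ^ (m + 1)) (V b - U b)) →
    (∀ b, Od (s ^ (m + 2)) 0 (df b (l b) (Cm b) (K b) (V b))) → ∃ U', S (m + 2) U' ∧
      ∀ b, Dd (cS s ^ (m + 1)) (U' b - V b) ∧ Od (s ^ (m + 2)) 0 (U' b - V b)
  scale : ∀ m U (c : Bool → ι → B), S (m + 1) U →
    S (m + 1) fun b => U b * diagonal fun i => cS (1 + s * c b i)

/-- A chain of components. -/
structure Ch2 (s : B) (r : ℕ) (l : Fin (r + 1) → Bool → B[T;T⁻¹])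
    (Cm : Fin (r + 1) → Bool → Matrix ι ι B[T;T⁻¹]) (K : Fin (r + 1) → Bool → ι → B)
    (P : Fin (r + 1) → Bool → Matrix ι ι B) (τ : Fin r → B) : Prop where
  reg : ∀ x, s * x = 0 → x = 0
  tau : ∀ j, s ∣ τ j
  nl : ∀ j : Fin r, Nd ⊥ (τ j) (cf (l j.castSucc false)) (cf (l j.succ true))
  nC : ∀ (j : Fin r) i i', Nd ⊥ (τ j) (cf (Cm j.castSucc false i i')) (cf (Cm j.succ true i i'))
  hK : ∀ j : Fin r, K j.castSucc false = K j.succ true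
  hP : ∀ j : Fin r, P j.castSucc false = P j.succ true
  e0 : Re 0 true (l 0 true) (Cm 0 true)
  e1 : Re 0 false (l (Fin.last r) false) (Cm (Fin.last r) false)
  re : ∀ j b, Re s b (l j b) (Cm j b)
  sep : ∀ j b i i', i ≠ i' → IsUnit (K j b i - K j b i')
  pp : ∀ j b, IsUnit (P j b)
  eig : ∀ j b, Dd s ((Cm j b).map (fun f => f.coeff 0) * P j b - P j b * diagonal (K j b))

end Pool.Agent.Lib.MP_815ef6_nt.Ch
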