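import Pool.Agent.Lib.MP_815ef6_nt.CS.Spn

/-! The scalar operator on the components of the spine. -/

namespace Pool.Agent.Lib.MP_815ef6_nt.Ch
open Finset LaurentPolynomial Filter

variable {n M R : ℕ}

section
variable (β : Fin M → ℂ) (cls : Fin M → Fin (R + 1)) (Z : ℕ → Polynomial ℂ)

/-- The number of the points inside. -/
def cn (v : ℕ) : ℕ := #{l | (cls l : ℕ) < v}

/-- The normalizing constants. -/
noncomputable def cb (v : ℕ) : ℂ := ∏ l with ¬ (cls l : ℕ) < v, (-β l)⁻¹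

/-- The normalizing factors. -/
noncomputable def ub (v : ℕ) (y : ℂ) : ℂ[T;T⁻¹] :=
  C (cb β cls v * y⁻¹ ^ cn cls v) * T (-cn cls v)

/-- The normalized operators. -/
noncomputable def Ln (v : ℕ) (y : ℂ) (i : ℕ) : ℂ[T;T⁻¹] := ub β cls v y * sc y (Z i)

/-- The position of an end of a component. -/
def ps (j : Fin (R + 1)) : Bool → ℕ
  | true => j
  | false => j + 1

variable {β cls Z} {v : ℕ} {y y' : ℂ}

theorem rr_Ln (i₀ m i : ℕ) : rr th 1 n (Ln β cls Z v y) (bs _ i₀) m i =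
    ub β cls v y ^ m * sc y (rr dz 1 n Z (bs _ i₀) m i) := by
  rw [rr_map (sc y) (sc_dz _), map_one, bs_map]
  exact rr_mul dv_th _ m i

theorem coeff_Ln (hy : y ≠ 0) (i : ℕ) (e : ℤ) : (Ln β cls Z v y i).coeff e =
    cb β cls v * y ^ e * (Polynomial.toLaurent (Z i)).coeff (e + cn cls v) := by
  rw [Ln, ub, coeff_CT_mul, coeff_sc, sub_neg_eq_add, zpow_add₀ hy, zpow_natCast, inv_pow]
  have := pow_ne_zero (cn cls v) hy
  field_simp

theorem Ln_nd (hy : y ≠ 0) (hy' : y' ≠ 0) (i : ℕ) :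
    Nd ⊥ (y / y') (cf (Ln β cls Z v y i)) (cf (Ln β cls Z v y' i)) := fun k => by
  have h1 := pow_ne_zero k hy
  have h2 := pow_ne_zero k hy'
  simp only [cf, coeff_Ln hy, coeff_Ln hy', Ideal.mem_bot, zpow_neg, zpow_natCast, div_pow]
  constructor <;> field_simp <;> ring

theorem Ln_zero (hy : y ≠ 0) (i : ℕ) {e : ℤ} (he : e < 0) : (Ln β cls Z 0 y i).coeff e = 0 := by
  rw [coeff_Ln hy, coeff_tl_neg _ (by simpa [cn] using he), mul_zero]

theorem Ln_last (hy : y ≠ 0) {i : ℕ} (h : (Z i).natDegree ≤ M) {e : ℤ} (he : 0 < e) :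
    (Ln β cls Z (R + 1) y i).coeff e = 0 := by
  obtain ⟨k, rfl⟩ := Int.eq_ofNat_of_zero_le he.le
  have : cn cls (R + 1) = M := by
    rw [cn, filter_true_of_mem fun l _ => (cls l).is_lt, card_univ, Fintype.card_fin]
  rw [coeff_Ln hy, this, ← Nat.cast_add, coeff_tl,
    Polynomial.coeff_eq_zero_of_natDegree_lt (h.trans_lt (by omega)), mul_zero]

theorem Ln_lead (hβ : ∀ l, β l ≠ 0) (hy : y ≠ 0) {i : ℕ}
    (top : Z i = ∏ l, (Polynomial.X - Polynomial.C (β l))) : Ln β cls Z v y i =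
      ∏ l, if (cls l : ℕ) < v then 1 - C (β l / y) * T (-1) else 1 - C (y / β l) * T 1 := by
  have e : ub β cls v y = ∏ l, if (cls l : ℕ) < v then C y⁻¹ * T (-1) else C (-β l)⁻¹ := by
    rw [prod_ite, prod_const, mul_pow, T_pow, ← map_prod, ← map_pow, ub, map_mul, cb, cn]
    simp only [mul_neg, mul_one]
    ring
  rw [Ln, top, map_prod, e, ← prod_mul_distrib]
  refine prod_congr rfl fun l _ => ?_
  have h1 : (C y⁻¹ * C y : ℂ[T;T⁻¹]) = 1 := by rw [← map_mul, inv_mul_cancel₀ hy, map_one]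
  have h2 : (C (β l)⁻¹ * C (β l) : ℂ[T;T⁻¹]) = 1 := by
    rw [← map_mul, inv_mul_cancel₀ (hβ l), map_one]
  have h3 : (T (-1) * T 1 : ℂ[T;T⁻¹]) = 1 := by rw [← T_add]; rfl
  rw [map_sub, sc_X, sc_C]
  split_ifs
  · rw [div_eq_mul_inv, map_mul]
    linear_combination T (-1) * T 1 * h1 + h3
  · rw [div_eq_mul_inv, map_mul, inv_neg, map_neg]
    linear_combination h2

theorem ub_unit (hβ : ∀ l, β l ≠ 0) (hy : y ≠ 0) : IsUnit (ub β cls v y) :=
  ((mul_ne_zero (prod_ne_zero_iff.2 fun l _ => inv_ne_zero (neg_ne_zero.2 (hβ l)))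
    (pow_ne_zero _ (inv_ne_zero hy))).isUnit.map C).mul (isUnit_T _)

theorem Ln_dm {F : Finset ℂ} {p₀ : ℕ} (x : Fin (R + 1) → ℂ)
    (h : ∀ p : ℕ, p.Prime → p₀ ≤ p → ∀ i₀ ≤ n, ∀ i ≤ n, ∀ a,
      ∃ y ∈ cl F, (rr dz 1 n Z (bs _ i₀) p i).coeff a = p * y) :
    ∃ F' : Finset ℂ, ∀ p : ℕ, p.Prime → p₀ ≤ p → ∀ j b, ∀ i₀ ≤ n, ∀ i ≤ n,
      ∃ g ∈ LS (cl F'), rr th 1 n (Ln β cls Z (ps j b) (x j)) (bs _ i₀) p i = p * g := by
  classical
  let F' := F ∪ univ.image x ∪ univ.image fun a : Fin (R + 1) × Bool =>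
    cb β cls (ps a.1 a.2) * (x a.1)⁻¹ ^ cn cls (ps a.1 a.2)
  have m : ∀ x ∈ F', x ∈ cl F' := fun x hx => Subring.subset_closure hx
  refine ⟨F', fun p hp h0 j b i₀ h₀ i hi => ?_⟩
  have p0 : (p : ℂ) ≠ 0 := Nat.cast_ne_zero.2 hp.ne_zero
  refine ⟨ub β cls (ps j b) (x j) ^ p * sc (x j) (Polynomial.C (p : ℂ)⁻¹ * rr dz 1 n Z (bs _ i₀) p i),
    mul_mem (pow_mem (mul_mem (C_mem (m _ (mem_union_right _ (mem_image_of_mem _
      (mem_univ (j, b)))))) (T_mem _ _)) p) (sc_mem (m _ (by simp [F'])) fun e => ?_), ?_⟩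
  · obtain ⟨y, hy, e⟩ := h p hp h0 i₀ h₀ i hi e
    rw [Polynomial.coeff_C_mul, e, inv_mul_cancel_left₀ p0]
    exact Subring.closure_mono (fun x hx => by simp [F', mem_coe.1 hx]) hy
  · rw [rr_Ln, map_mul, sc_C, ← map_natCast C, mul_left_comm, ← mul_assoc (C _), ← map_mul,
      mul_inv_cancel₀ p0, map_one, one_mul]

theorem Ln_back (hβ : ∀ l, β l ≠ 0) (hy : y ≠ 0) {T : Finset ℂ}
    (h : ∀ i₀ ≤ n, ∀ m : ℕ, ∀ i ≤ n, ∀ e, ∃ w ∈ cl T,
      (rr th 1 n (Ln β cls Z 0 y) (bs _ i₀) m i).coeff e = m.factorial * w) :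
    ∃ T' : Finset ℂ, ∀ i₀ ≤ n, ∀ m : ℕ, ∀ i ≤ n, ∀ e, ∃ w ∈ cl T',
      (rr dz 1 n Z (bs _ i₀) m i).coeff e = m.factorial * w := by
  classical
  have c0 : cb β cls 0 ≠ 0 := prod_ne_zero_iff.2 fun i _ => inv_ne_zero (neg_ne_zero.2 (hβ i))
  refine ⟨T ∪ {(cb β cls 0)⁻¹, y⁻¹}, fun i₀ h₀ m i hi e => ?_⟩
  obtain ⟨w, hw, k⟩ := h i₀ h₀ m i hi e
  rw [rr_Ln, ub, show cn cls 0 = 0 by simp [cn], pow_zero, mul_one, Nat.cast_zero, neg_zero, T_zero,
    mul_one, ← map_pow, coeff_C_mul, coeff_sc, coeff_tl, zpow_natCast] at k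
  refine ⟨(cb β cls 0)⁻¹ ^ m * y⁻¹ ^ e * w, mul_mem (mul_mem (pow_mem (Subring.subset_closure
    (by simp)) _) (pow_mem (Subring.subset_closure (by simp)) _))
      (Subring.closure_mono (coe_subset.2 subset_union_left) hw), ?_⟩
  rw [mul_left_comm, ← k, inv_pow, inv_pow]
  field_simp

end

variable {O : Subring ℂ} {t : ℂ}

theorem Sm.dvd (H : Frame O t) {y : ℂ} (h : Sm O t y) {s : O} (hp : Prime s)
    (hs : s ∣ ⟨t, H.mem⟩) : s ∣ ⟨y, h.1⟩ := by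
  obtain ⟨h1, d, z, hz, e⟩ := h
  exact hp.dvd_of_dvd_pow (n := d) (hs.trans ⟨⟨z, hz⟩, Subtype.ext e⟩)

/-- The coefficients of an operator with vanishing `p`-curvature are integral. -/
theorem Frame.int (H : Frame O t) {L : ℕ → ℂ[T;T⁻¹]} {G : O[T;T⁻¹]}
    (top : mp O.subtype G = L (n + 1)) (top' : ∀ s : O, Prime s → s ∣ ⟨t, H.mem⟩ → ¬ C s ∣ G)
    {F : Finset ℂ} (f1 : ∀ x ∈ F, ∃ e : ℕ, t ^ e * x ∈ O) {p₀ : ℕ}
    (f2 : ∀ p : ℕ, p.Prime → p₀ ≤ p → ∀ i ≤ n, ∃ g ∈ LS (cl F), rr th 1 n L (bs _ 0) p i = p * g)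
    (root : ∀ i ≤ n, ∀ k ∈ (L i).coeff.support, ∃ ξ : ℂ,
      ξ ^ (n + 1 - i) = (L i).coeff k ∧ ∃ e : ℕ, t ^ e * ξ ∈ O) {i : ℕ} (hi : i ≤ n + 1) :
    L i ∈ LS O := by
  choose! ξ h1 h2 using root
  let X : Finset ((_ : ℕ) × ℤ) := (range (n + 1)).sigma fun i => (L i).coeff.support
  have mX : ∀ {i k}, i ≤ n → (L i).coeff k ≠ 0 → ⟨i, k⟩ ∈ X := fun h l =>
    mem_sigma.2 ⟨mem_range.2 (Nat.lt_succ_of_le h), Finsupp.mem_support_iff.2 l⟩
  have key : ∀ η : ℂ, (∀ x ∈ X, η * ξ x.1 x.2 ∈ O) → ∀ i ≤ n + 1,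
      C η ^ (n + 1 - i) * L i ∈ LS O := fun η h i hi => by
    rcases hi.lt_or_eq with hi | rfl
    · refine mem_LS.2 fun k => ?_
      rw [← map_pow, coeff_C_mul]
      by_cases l : (L i).coeff k = 0
      · rw [l, mul_zero]
        exact zero_mem _
      · rw [← h1 i (by omega) k (Finsupp.mem_support_iff.2 l), ← mul_pow]
        exact pow_mem (h _ (mX (by omega) l)) _
    · simpa using ⟨G, top⟩
  rcases H.resc X (fun x => ξ x.1 x.2) fun x hx => h2 _ (by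
    have := mem_range.1 (mem_sigma.1 hx).1; omega) _ (mem_sigma.1 hx).2 with h | h
  · simpa using key 1 (by simpa using h) i hi
  obtain ⟨s, η, hp, hs, hη, h0, h3, h4⟩ := h
  obtain ⟨ρ, hρ⟩ := H.res s hp hs
  have := H.neBot
  obtain ⟨T, ⟨hle, hsT, K⟩, hT, hη', h5⟩ := ((H.ev_loc hs hρ).and
    (((eventually_all_finset (range (n + 2))).2 fun i hi => ev_LS (key η h3 i (by
      have := mem_range.1 hi; omega))).and ((ev_in η.2).and (H.ev_desc f1)))).exists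
  choose! L' hL using hT
  have hL' : ∀ i ≤ n + 1, mp (cl T).subtype (L' i) = C (η : ℂ) ^ (n + 1 - i) * L i :=
    fun i hi => hL i (mem_range.2 (by omega))
  have nil := K.nil (η := ⟨η, hη'⟩) (L := L') (n := n) ((K.ker _).1 ((hρ _).2 hη))
    ⟨p₀ + n + 1, fun p hp' hp0 i hi => ?_⟩ fun e => top' s hp hs (dvd_iff.2 fun a => (hρ _).1 (by
      have e1 := congrArg (fun f : ℂ[T;T⁻¹] => f.coeff a) e
      have e2 := congrArg (fun f : ℂ[T;T⁻¹] => f.coeff a) ((hL' _ le_rfl).trans (by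
        rw [Nat.sub_self, pow_zero, one_mul, ← top]))
      simp only [coeff_mp] at e1 e2
      exact (congrArg ρ (Subtype.ext e2.symm)).trans e1))
  · refine absurd (fun x hx y hy => ?_) h4
    obtain ⟨k1, k2⟩ := mem_sigma.1 hx
    have k3 : x.1 ≤ n := by have := mem_range.1 k1; omega
    refine hp.dvd_of_dvd_pow (n := n + 1 - x.1) ((hρ _).1 ?_)
    have e1 := congrArg (fun f : ℂ[T;T⁻¹] => f.coeff x.2) (nil x.1 k3)
    have e2 := congrArg (fun f : ℂ[T;T⁻¹] => f.coeff x.2) (hL' x.1 (by omega))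
    simp only [coeff_mp, ← map_pow, coeff_C_mul, ← h1 _ k3 _ k2, ← mul_pow, ← hy] at e1 e2
    exact (congrArg ρ (Subtype.ext e2.symm)).trans e1
  · obtain ⟨g, hg, e⟩ := f2 p hp' (by omega) i hi
    refine h5 p hp'.ne_zero g hg ((η : ℂ) ^ (p - i)) (pow_mem hη' _) _ ?_
    have e1 := rr_scale (η := 1) (c := C (η : ℂ)) (d := th) (th_C_mul _) hL' p hi
    have c0 : (C (η : ℂ) : ℂ[T;T⁻¹]) ^ i ≠ 0 := pow_ne_zero _ fun k => h0 (Subtype.ext (by
      simpa using congrArg (fun x : ℂ[T;T⁻¹] => x.coeff 0) k))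
    rw [rr_map (d' := fun f => C (η : ℂ) * th f) _ fun x => by rw [map_mul, mp_C, mp_th]; rfl,
      bs_map, mp_C]
    refine mul_left_cancel₀ c0 ((mul_one (C (η : ℂ)) ▸ e1 :).trans ?_)
    rw [e, map_pow, show p = i + (p - i) by omega, pow_add, Nat.add_sub_cancel_left]
    ring

/-- The leading coefficient at an end. -/
theorem Spn.lead (H : Frame O t) {β : Fin M → ℂ} {cls : Fin M → Fin (R + 1)}
    {x : Fin (R + 1) → ℂ} (S : Spn O t β cls x) (j : Fin (R + 1)) (b : Bool) :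
    ∃ G : O[T;T⁻¹], mp O.subtype G = (∏ l, if (cls l : ℕ) < ps j b then 1 - C (β l / x j) * T (-1)
      else 1 - C (x j / β l) * T 1) ∧ ∀ J : Ideal O, ((∃ s : O, Prime s ∧ s ∣ ⟨t, H.mem⟩ ∧ s ∈ J) ∨
        ∀ l, (cls l : ℕ) < ps j b ↔ b = false) → G ∈ rgS J b ∧ G.coeff 0 - 1 ∈ J := by
  have m1 : ∀ l, (cls l : ℕ) < ps j b → β l / x j ∈ O := fun l h => by
    rcases lt_trichotomy (cls l) j with k | k | k
    · exact (S.lt l j k).1
    · exact k ▸ (S.eq l).1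
    · cases b <;> simp only [ps] at h <;> omega
  have m2 : ∀ l, ¬ (cls l : ℕ) < ps j b → x j / β l ∈ O := fun l h => by
    rcases lt_trichotomy (cls l) j with k | k | k
    · cases b <;> simp only [ps] at h <;> omega
    · exact k ▸ (S.eq l).2
    · exact (S.gt l j k).1
  refine ⟨∏ l, if h : (cls l : ℕ) < ps j b then 1 - C ⟨_, m1 l h⟩ * T (-1)
    else 1 - C ⟨_, m2 l h⟩ * T 1, ?_, fun J hJ => ?_⟩
  · rw [map_prod]
    refine prod_congr rfl fun l _ => ?_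
    split_ifs <;> simp
  have k : ∀ (c : O) (a : ℤ), a ≠ 0 → (sg b * a < 0 → c ∈ J) →
      (1 - C c * T a ∈ rgS J b ∧ (1 - C c * T a : O[T;T⁻¹]).coeff 0 - 1 ∈ J) := fun c a ha h =>
    ⟨sub_mem (one_mem _) fun a' ha' => by
      rw [coeff_CT]
      split_ifs with e
      exacts [h (e ▸ ha'), J.zero_mem], by simp [coeff_CT, ha, ← T_zero]⟩
  refine prod_induction _ (fun G : O[T;T⁻¹] => G ∈ rgS J b ∧ G.coeff 0 - 1 ∈ J)
    (fun f g hf hg => ⟨mul_mem hf.1 hg.1, ?_⟩) ⟨one_mem _, by simp [← T_zero]⟩ fun l _ => ?_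
  · have := (epC (Ideal.Quotient.mk J) (fun _ => Ideal.Quotient.eq_zero_iff_mem.2) b).map_mul
      ⟨f, hf.1⟩ ⟨g, hg.1⟩
    rw [← Ideal.Quotient.eq] at hf hg ⊢
    exact this.trans (by
      change Ideal.Quotient.mk J (f.coeff 0) * Ideal.Quotient.mk J (g.coeff 0) = _
      rw [hf.2, hg.2, map_one, one_mul])
  split_ifs with h
  · refine k _ _ (by decide) fun e => ?_
    cases b
    · exact absurd e (by decide)
    · rcases hJ with ⟨s, hp, hs, hJ⟩ | hJ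
      · exact J.mem_of_dvd ((S.lt l j h).dvd H hp hs) hJ
      · exact absurd ((hJ l).1 h) (by decide)
  · refine k _ _ (by decide) fun e => ?_
    cases b
    · rcases hJ with ⟨s, hp, hs, hJ⟩ | hJ
      · exact J.mem_of_dvd ((S.gt l j (by simp only [ps] at h; omega)).dvd H hp hs) hJ
      · exact absurd ((hJ l).2 rfl) h
    · exact absurd e (by decide)

end Pool.Agent.Lib.MP_815ef6_nt.Ch
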