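import Pool.Agent.Lib.MP_815ef6_nt.CS.Cx2
import Pool.Agent.Lib.MP_815ef6_nt.CS.AsD

/-! The scalar operator over the semilocal ring. -/

namespace Pool.Agent.Lib.MP_815ef6_nt.Ch
open Finset LaurentPolynomial Filter Matrix

variable {n M R : ℕ} {O : Subring ℂ} {t : ℂ}

theorem Rg.re {B : Type*} [CommRing B] {s : B} {b : Bool} {L : ℕ → B[T;T⁻¹]}
    (h : Rg (Ideal.span {s}) b n L) : Re s b (L (n + 1)) (cM n L) := by
  refine ⟨fun a ha => Ideal.mem_span_singleton.1 (h.pol _ le_rfl a ha),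
    Ideal.mem_span_singleton.1 h.one, fun i j a ha => ?_⟩
  rw [cM]
  split_ifs
  · exact Ideal.mem_span_singleton.1 (neg_mem (h.pol j (by omega) a ha))
  · exact Ideal.mem_span_singleton.1 (h.pol _ le_rfl a ha)
  · exact dvd_zero _

theorem nd_cM {B : Type*} [CommRing B] {τ : B} {L L' : ℕ → B[T;T⁻¹]}
    (h : ∀ i ≤ n + 1, Nd ⊥ τ (cf (L i)) (cf (L' i))) (i j : Fin (n + 1)) :
    Nd ⊥ τ (cf (cM n L i j)) (cf (cM n L' i j)) := fun k => by
  have h1 := h j (by omega) k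
  simp only [cM, cf, Ideal.mem_bot] at h1 ⊢
  split_ifs
  · simp only [AddMonoidAlgebra.coeff_neg, Finsupp.neg_apply]
    exact ⟨by linear_combination -h1.1, by linear_combination -h1.2⟩
  · exact h _ le_rfl k
  · simp

theorem cM_map {Λ Λ' : Type*} [CommRing Λ] [CommRing Λ'] (φ : Λ →+* Λ') {L : ℕ → Λ}
    {f : Λ'} {Λ'' : Type*} [CommRing Λ''] (ψ : Λ'' →+* Λ') {Z : ℕ → Λ''}
    (h : ∀ i ≤ n + 1, φ (L i) = f * ψ (Z i)) : (cM n L).map φ = f • (cM n Z).map ψ := by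
  ext i j
  simp only [cM, map_apply, Matrix.smul_apply, smul_eq_mul]
  split_ifs
  · rw [map_neg, map_neg, h j (by omega), mul_neg]
  · exact h _ le_rfl
  · simp

theorem eg_cM {B : Type*} [CommRing B] (ρ : B →+* ℂ) {L : Bool → ℕ → B[T;T⁻¹]}
    {κ : Bool → Fin (n + 1) → ℚ} (inj : ∀ b, Function.Injective (κ b))
    (h : ∀ b, ∀ i ≤ n + 1, ρ ((L b i).coeff 0) = es (fun l => (κ b l : ℂ)) i) :
    Eg ρ (fun b => cM n (L b)) κ (fun b => (vandermonde (κ b))ᵀ) fun b => ((vandermonde (κ b))ᵀ)⁻¹ := by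
  refine ⟨fun b => mul_nonsing_inv _ (by
    rw [det_transpose]
    exact s1_det fun i j e => (sub_ne_zero.2 ((inj b).ne e)).isUnit), fun b => ?_⟩
  ext i l
  rw [mul_diagonal, mul_apply]
  simp only [cM, map_apply, transpose_apply, vandermonde_apply, Rat.cast_pow]
  by_cases e : i = Fin.last n
  · have := s2_es (fun l => (κ b l : ℂ)) (κ b l)
    rw [prod_eq_zero (mem_univ l) (sub_self _), sum_range_succ, es_top, sum_range] at this
    simp only [e, if_true, AddMonoidAlgebra.coeff_neg, Finsupp.neg_apply, map_neg, Fin.val_last,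
      fun j : Fin (n + 1) => h b j (by omega), neg_mul, sum_neg_distrib]
    linear_combination -this
  · have : (i : ℕ) + 1 < n + 1 := by have := Fin.val_lt_last e; omega
    rw [sum_eq_single ⟨i + 1, this⟩ (fun j _ k => by
      rw [if_neg e, if_neg fun k' => k (Fin.ext k')]; simp) (by simp), if_neg e, if_pos rfl,
      h b _ le_rfl, es_top, one_mul, pow_succ]

/-- The data lie in the frame. -/
structure St2 (O : Subring ℂ) (t : ℂ) (β : Fin M → ℂ) (cls : Fin M → Fin (R + 1))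
    (x : Fin (R + 1) → ℂ) (Z : ℕ → Polynomial ℂ) (n : ℕ) (F : Finset ℂ) (p₀ : ℕ) : Prop where
  fr : Frame O t
  spn : Spn O t β cls x
  ne : ∀ l, β l ≠ 0
  hx : ∀ j, ∃ l, x j = β l
  deg : ∀ i, (Z i).natDegree ≤ M
  top : Z (n + 1) = ∏ l, (Polynomial.X - Polynomial.C (β l))
  hF : ∀ y ∈ F, ∃ e : ℕ, t ^ e * y ∈ O
  dm : ∀ p : ℕ, p.Prime → p₀ ≤ p → ∀ j b, ∀ i₀ ≤ n, ∀ i ≤ n,
    ∃ g ∈ LS (cl F), rr th 1 n (Ln β cls Z (ps j b) (x j)) (bs _ i₀) p i = p * g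
  root : ∀ j b, ∀ i ≤ n, ∀ k ∈ (Ln β cls Z (ps j b) (x j) i).coeff.support, ∃ ξ : ℂ,
    ξ ^ (n + 1 - i) = (Ln β cls Z (ps j b) (x j) i).coeff k ∧ ∃ e : ℕ, t ^ e * ξ ∈ O

namespace St2

variable {β : Fin M → ℂ} {cls : Fin M → Fin (R + 1)} {x : Fin (R + 1) → ℂ} {Z : ℕ → Polynomial ℂ}
  {F : Finset ℂ} {p₀ : ℕ} (S : St2 O t β cls x Z n F p₀)
include S

theorem x0 (j : Fin (R + 1)) : x j ≠ 0 := by
  obtain ⟨l, e⟩ := S.hx j
  exact e ▸ S.ne l

theorem lift : ∃ L : Fin (R + 1) → Bool → ℕ → O[T;T⁻¹],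
    ∀ j b, ∀ i ≤ n + 1, mp O.subtype (L j b i) = Ln β cls Z (ps j b) (x j) i := by
  have : ∀ j b, ∀ i ≤ n + 1, Ln β cls Z (ps j b) (x j) i ∈ LS O := fun j b i hi => by
    obtain ⟨G, h1, h2⟩ := S.spn.lead S.fr j b
    refine S.fr.int (h1.trans (Ln_lead S.ne (S.x0 j) S.top).symm) (fun s hp hs k => ?_) S.hF
      (fun p hp h0 => S.dm p hp h0 j b 0 (by omega)) (S.root j b) hi
    have := Ideal.mem_span_singleton.1 (h2 _ (.inl ⟨s, hp, hs, Ideal.mem_span_singleton_self s⟩)).2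
    exact hp.not_dvd_one (by simpa using (dvd_iff.1 k 0).sub this)
  choose! L hL using this
  exact ⟨L, hL⟩

variable {L : Fin (R + 1) → Bool → ℕ → O[T;T⁻¹]}
  (hL : ∀ j b, ∀ i ≤ n + 1, mp O.subtype (L j b i) = Ln β cls Z (ps j b) (x j) i)
include hL

omit S in
theorem cf' (j b) {i : ℕ} (hi : i ≤ n + 1) (a : ℤ) :
    ((L j b i).coeff a : ℂ) = (Ln β cls Z (ps j b) (x j) i).coeff a := by
  rw [← hL j b i hi, coeff_mp]
  rfl

theorem nd (j : Fin R) : ∀ i ≤ n + 1,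
    Nd ⊥ ⟨_, (S.spn.nx j).1⟩ (cf (L j.castSucc false i)) (cf (L j.succ true i)) := fun i hi k => by
  have := Ln_nd (β := β) (cls := cls) (Z := Z) (v := j + 1) (S.x0 j.castSucc) (S.x0 j.succ) i k
  have e1 := cf' hL j.castSucc false hi
  have e2 := cf' hL j.succ true hi
  simp only [ps, Fin.val_castSucc, Fin.val_succ] at e1 e2
  simp only [cf, Ideal.mem_bot, ← e1, ← e2] at this
  exact ⟨Subtype.ext this.1, Subtype.ext this.2⟩

theorem one (j b) (J : Ideal O) (h : (∃ s : O, Prime s ∧ s ∣ ⟨t, S.fr.mem⟩ ∧ s ∈ J) ∨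
    ∀ l, (cls l : ℕ) < ps j b ↔ b = false) : (L j b (n + 1)).coeff 0 - 1 ∈ J := by
  obtain ⟨G, h1, h2⟩ := S.spn.lead S.fr j b
  rw [mp_inj _ ((hL j b _ le_rfl).trans ((Ln_lead S.ne (S.x0 j) S.top).trans h1.symm))]
  exact (h2 J h).2

theorem rg0 (J : Ideal O) : Rg J true n (L 0 true) :=
  ⟨fun i hi a ha => (show (L 0 true i).coeff a = 0 from Subtype.ext
    ((cf' hL 0 true hi a).trans (Ln_zero (S.x0 0) i (by simpa [sg] using ha)))) ▸ J.zero_mem,
    S.one hL 0 true J (.inr fun l => by simp [ps])⟩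

theorem rg1 (J : Ideal O) : Rg J false n (L (Fin.last R) false) :=
  ⟨fun i hi a ha => (show (L (Fin.last R) false i).coeff a = 0 from Subtype.ext
    ((cf' hL _ false hi a).trans (Ln_last (S.x0 _) (S.deg i) (by simpa [sg] using ha)))) ▸
      J.zero_mem, S.one hL _ false J (.inr fun l => by simpa [ps] using (cls l).is_le)⟩

variable {s : O} (hp : Prime s) (hs : s ∣ ⟨t, S.fr.mem⟩)
include hp hs

theorem rg (j b) : Rg (Ideal.span {s}) b n (L j b) := by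
  refine ⟨fun i hi a ha => ?_, S.one hL j b _ (.inl ⟨s, hp, hs, Ideal.mem_span_singleton_self s⟩)⟩
  have k : ∀ (j : Fin R) (k : ℕ) (y : O), k ≠ 0 →
      (⟨_, (S.spn.nx j).1⟩ : O) ^ k * y ∈ Ideal.span {s} := fun j k y hk =>
    Ideal.mem_span_singleton.2 ((((S.spn.nx j).dvd S.fr hp hs).pow hk).mul_right _)
  cases b
  · induction j using Fin.lastCases with
    | last => exact (S.rg1 hL _).pol i hi a ha
    | cast j =>
      obtain ⟨a, rfl⟩ := Int.eq_ofNat_of_zero_le (a := a) (by simp only [sg] at ha; omega)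
      exact (show (L _ false i).coeff _ = _ from sub_eq_zero.1 (S.nd hL j i hi a).1) ▸
        k j a _ (by rintro rfl; simp at ha)
  · induction j using Fin.cases with
    | zero => exact (S.rg0 hL _).pol i hi a ha
    | succ j =>
      obtain ⟨a, e⟩ := Int.eq_ofNat_of_zero_le (a := -a) (by simp only [sg] at ha; omega)
      rw [neg_eq_iff_eq_neg.1 e] at ha ⊢
      exact (show (L _ true i).coeff _ = _ from sub_eq_zero.1 (S.nd hL j i hi a).2) ▸
        k j a _ (by rintro rfl; simp at ha)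

theorem exps {ρ : O →+* ℂ} (hρ : ∀ y, ρ y = 0 ↔ s ∣ y) : ∃ κ : ℕ → Fin (n + 1) → ℚ, ∀ j b,
    Function.Injective (κ (ps j b)) ∧
      ∀ i ≤ n + 1, ρ ((L j b i).coeff 0) = es (fun l => (κ (ps j b) l : ℂ)) i := by
  have := S.fr.neBot
  have c0 : ∀ j b, ∀ i ≤ n + 1, ((L j b i).coeff 0 : ℂ) = cb β cls (ps j b) *
      (Polynomial.toLaurent (Z i)).coeff (cn cls (ps j b)) := fun j b i hi => by
    rw [cf' hL j b hi, coeff_Ln (S.x0 j), zpow_zero, mul_one, zero_add]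
  have : ∀ v, (∃ j b, v = ps (R := R) j b) → ∃ κ : Fin (n + 1) → ℚ, Function.Injective κ ∧
      ∀ i ≤ n + 1, ∀ y : O, (y : ℂ) = cb β cls v * (Polynomial.toLaurent (Z i)).coeff (cn cls v) →
        ρ y = es (fun l => (κ l : ℂ)) i := by
    rintro _ ⟨j, b, rfl⟩
    obtain ⟨T, ⟨hle, hsT, K⟩, hT, h5⟩ := ((S.fr.ev_loc hs hρ).and
      (((eventually_all_finset (range (n + 2))).2 fun i hi => ev_LS ⟨_, hL j b i (by
        have := mem_range.1 hi; omega)⟩).and (S.fr.ev_desc S.hF))).exists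
    choose! L' hL' using hT
    have h1 : ∀ i ≤ n + 1, mp (cl T).subtype (L' i) = Ln β cls Z (ps j b) (x j) i :=
      fun i hi => hL' i (mem_range.2 (by omega))
    have h2 : ∀ i ≤ n + 1, ∀ a, Subring.inclusion hle ((L' i).coeff a) = (L j b i).coeff a :=
      fun i hi a => Subtype.ext (by rw [cf' hL j b hi, ← h1 i hi, coeff_mp]; rfl)
    have rg := S.rg hL hp hs j b
    obtain ⟨κ, k1, k2⟩ := K.exps (b := b) (n := n) (L := L') ⟨fun i hi a ha =>
      Ideal.mem_span_singleton.2 ((K.ker _).1 (by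
        rw [RingHom.comp_apply, h2 i hi]
        exact (hρ _).2 (Ideal.mem_span_singleton.1 (rg.pol i hi a ha)))),
      Ideal.mem_span_singleton.2 ((K.ker _).1 (by
        rw [RingHom.comp_apply, map_sub, map_one, h2 _ le_rfl]
        exact (hρ _).2 (Ideal.mem_span_singleton.1 rg.one)))⟩ ⟨p₀, fun p hp' h0 i hi => by
      obtain ⟨g, hg, e⟩ := S.dm p hp' h0 j b 0 (by omega) i hi
      refine h5 p hp'.ne_zero g hg 1 (one_mem _) _ ?_
      rw [rr_map _ (mp_th _), bs_map, map_one, rr_congr h1 p hi, e, map_one, one_mul]⟩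
    refine ⟨κ, k1, fun i hi y hy => ?_⟩
    rw [← k2 i hi, RingHom.comp_apply, h2 i hi]
    exact congrArg ρ (Subtype.ext (hy.trans (c0 j b i hi).symm))
  choose! κ h1 h2 using this
  exact ⟨κ, fun j b => ⟨h1 _ ⟨j, b, rfl⟩, fun i hi => h2 _ ⟨j, b, rfl⟩ i hi _ (c0 j b i hi)⟩⟩

omit hp hs S in
theorem am (j b) (m : ℕ) (i i' : Fin (n + 1)) :
    mp O.subtype (Am th (L j b (n + 1)) (cM n (L j b)) m i i') =
      rr th 1 n (Ln β cls Z (ps j b) (x j)) (bs _ i) m i' := by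
  rw [Am_cM, rr_map _ (mp_th _), bs_map, map_one, rr_congr (hL j b) m i'.is_le]

end St2

end Pool.Agent.Lib.MP_815ef6_nt.Ch
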