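import Pool.Agent.Lib.MP_815ef6_nt.CS.Def

/-! Cyclic vectors. -/

namespace Pool.Agent.Lib.MP_815ef6_nt.Ch
open Finset Polynomial Matrix

variable {n : ℕ}

section abstract

variable {K V : Type*} [Field K] [CharZero K] [AddCommGroup V] [Module K V]

/-- Linear independence survives a suitable perturbation. -/
theorem cyc_pert {m : ℕ} {c : Fin m → V} (hc : LinearIndependent K c) (d : Fin m → V) :
    ∃ l : ℕ, l ≠ 0 ∧ LinearIndependent K fun i => c i + l • d i := by
  obtain ⟨p, hp⟩ := (Fintype.linearCombination K c).exists_leftInverse_of_injective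
    (LinearMap.ker_eq_bot.2 hc.fintypeLinearCombination_injective)
  let S : Module.End K (Fin m → K) := p ∘ₗ Fintype.linearCombination K d
  obtain ⟨l, hl⟩ : ∃ l : ℕ, ¬ S.HasEigenvalue (-((l + 1 : ℕ) : K)⁻¹) := by
    by_contra! k
    refine Set.infinite_of_injective_forall_mem (f := fun l : ℕ => -((l + 1 : ℕ) : K)⁻¹)
      (fun a b e => ?_) k S.finite_hasEigenvalue
    simpa using e
  refine ⟨l + 1, l.succ_ne_zero, Fintype.linearIndependent_iff.2 fun g hg => ?_⟩
  have h0 : ((l + 1 : ℕ) : K) ≠ 0 := Nat.cast_ne_zero.2 l.succ_ne_zero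
  have h1 : Fintype.linearCombination K c g + ((l + 1 : ℕ) : K) • Fintype.linearCombination K d g =
      0 := by
    rw [← hg, Fintype.linearCombination_apply, Fintype.linearCombination_apply, smul_sum,
      ← sum_add_distrib]
    exact sum_congr rfl fun i _ => by rw [smul_add, smul_comm, Nat.cast_smul_eq_nsmul]
  have h2 := congrArg p h1
  rw [map_add, map_smul, map_zero, show p (Fintype.linearCombination K c g) = g from
    LinearMap.congr_fun hp g] at h2
  refine congrFun (by_contra fun k => hl (Module.End.hasEigenvalue_of_hasEigenvector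
    ⟨Module.End.mem_eigenspace_iff.2 ?_, k⟩))
  rw [neg_smul, ← smul_neg, eq_inv_smul_iff₀ h0]
  exact eq_neg_of_add_eq_zero_right h2

variable {D : AddMonoid.End V} {t : K} (h : ∀ (k : ℕ) w, D (t ^ k • w) = t ^ k • (k • w + D w))
include h

theorem cyc_poly (φ : V →ₗ[K] K) (i : ℕ) (w : V) : ∃ p : K[X], p.natDegree ≤ i ∧ p.coeff i = φ w ∧
    ∀ k : ℕ, φ ((D ^ i) (t ^ k • w)) = t ^ k * p.eval (k : K) := by
  induction i generalizing w with
  | zero => exact ⟨C (φ w), by simp, by simp, fun k => by simp⟩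
  | succ i ih =>
    obtain ⟨p, p1, p2, p3⟩ := ih w
    obtain ⟨q, q1, -, q3⟩ := ih (D w)
    refine ⟨X * p + q, (natDegree_add_le _ _).trans (max_le (natDegree_mul_le.trans
      (by rw [natDegree_X]; omega)) (by omega)), ?_, fun k => ?_⟩
    · rw [coeff_add, coeff_X_mul, p2, coeff_eq_zero_of_natDegree_lt (by omega), add_zero]
    · rw [pow_succ, AddMonoid.End.coe_mul, Function.comp_apply, h, smul_add, smul_comm, map_add, map_nsmul, map_add,
        map_nsmul, p3, q3, eval_add, eval_mul, eval_X, nsmul_eq_mul]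
      ring

theorem cyc_step [FiniteDimensional K V] (ht : t ≠ 0) {m : ℕ} (hm : m < Module.finrank K V) {v : V}
    (hv : LinearIndependent K fun i : Fin m => (D ^ (i : ℕ)) v) :
    ∃ v : V, LinearIndependent K fun i : Fin (m + 1) => (D ^ (i : ℕ)) v := by
  by_cases k : (D ^ m) v ∈ Submodule.span K (Set.range fun i : Fin m => (D ^ (i : ℕ)) v)
  swap
  · exact ⟨v, linearIndependent_finSucc'.2 ⟨hv, k⟩⟩
  obtain ⟨a, ha⟩ := (Submodule.mem_span_range_iff_exists_fun K).1 k
  obtain ⟨w, hw⟩ : ∃ w, w ∉ Submodule.span K (Set.range fun i : Fin m => (D ^ (i : ℕ)) v) := by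
    by_contra! e
    have := finrank_le_of_span_eq_top (Submodule.eq_top_iff'.2 e)
    rw [Fintype.card_fin] at this
    omega
  obtain ⟨φ, h1, h2⟩ := Submodule.exists_dual_map_eq_bot_of_notMem hw inferInstance
  obtain ⟨j, hj⟩ : ∃ j : ℕ, φ ((D ^ m) (t ^ j • w) - ∑ i, a i • (D ^ (i : ℕ)) (t ^ j • w)) ≠ 0 := by
    by_contra! e
    choose p p1 p2 p3 using fun i => cyc_poly h φ i w
    have q : p m - ∑ i : Fin m, C (a i) * p i = 0 := eq_zero_of_infinite_isRoot _
      (Set.infinite_of_injective_forall_mem (f := fun j : ℕ => (j : K)) Nat.cast_injective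
        fun j => by
          have e := e j
          simp only [map_sub, map_sum, map_smul, p3, smul_eq_mul, mul_left_comm _ (t ^ j),
            ← mul_sum, ← mul_sub] at e
          simpa [eval_finsetSum] using (mul_eq_zero.1 e).resolve_left (pow_ne_zero _ ht))
    have q1 := congrArg (coeff · m) q
    simp only [coeff_sub, finsetSum_coeff, p2, coeff_zero] at q1
    rw [sum_eq_zero fun i _ => by
      rw [Polynomial.coeff_C_mul, coeff_eq_zero_of_natDegree_lt ((p1 i).trans_lt i.2), mul_zero], sub_zero] at q1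
    exact h1 q1
  generalize t ^ j • w = y at hj
  obtain ⟨l, l0, hl⟩ := cyc_pert (linearIndependent_finSnoc.2 ⟨hv, fun e => hj
    ((Submodule.eq_bot_iff _).1 h2 _ (Submodule.mem_map_of_mem e))⟩)
    (Fin.snoc (fun i : Fin m => (D ^ (i : ℕ)) y) 0)
  obtain ⟨h3, h4⟩ := linearIndependent_finSucc'.1 hl
  have e : (Fin.init fun i : Fin (m + 1) => (Fin.snoc (fun i : Fin m => (D ^ (i : ℕ)) v)
      ((D ^ m) y - ∑ i, a i • (D ^ (i : ℕ)) y) : Fin (m + 1) → V) i +
      l • (Fin.snoc (fun i : Fin m => (D ^ (i : ℕ)) y) 0 : Fin (m + 1) → V) i) =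
      Fin.init fun i : Fin (m + 1) => (D ^ (i : ℕ)) (v + l • y) := funext fun i => by
    simp only [Fin.init, Fin.snoc_castSucc, Fin.val_castSucc, map_add, map_nsmul]
  rw [e] at h3 h4
  refine ⟨v + l • y, linearIndependent_finSucc'.2 ⟨h3, fun k => h4 ?_⟩⟩
  have k2 := Submodule.sub_mem _ k ((Submodule.mem_span_range_iff_exists_fun K).2 ⟨a, rfl⟩)
  rw [← Submodule.smul_mem_iff _ (Nat.cast_ne_zero.2 l0 : (l : K) ≠ 0)]
  convert k2 using 1
  simp only [Fin.init, Fin.snoc_last, Fin.val_castSucc, Fin.val_last, map_add, map_nsmul, smul_add,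
    sum_add_distrib, ha, smul_zero, add_zero, Nat.cast_smul_eq_nsmul, smul_sub, smul_sum,
    smul_comm l]
  abel

theorem cyc_vec [FiniteDimensional K V] (ht : t ≠ 0) {m : ℕ} (hm : m ≤ Module.finrank K V) :
    ∃ v : V, LinearIndependent K fun i : Fin m => (D ^ (i : ℕ)) v := by
  induction m with
  | zero => exact ⟨0, linearIndependent_empty_type⟩
  | succ m ih =>
    obtain ⟨v, hv⟩ := ih (by omega)
    exact cyc_step h ht hm hv

end abstract

theorem cyc (A : Matrix (Fin (n + 1)) (Fin (n + 1)) (RatFunc ℂ)) :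
    ∃ (G H : Matrix (Fin (n + 1)) (Fin (n + 1)) (RatFunc ℂ)) (D : ℂ[X]) (P : Fin (n + 1) → ℂ[X]),
      G * H = 1 ∧ D ≠ 0 ∧ H * A * G - H * G.map rder = compM D P := by
  let T : AddMonoid.End (Fin (n + 1) → RatFunc ℂ) := AddMonoidHom.mk'
    (fun h : Fin (n + 1) → RatFunc ℂ => (RatFunc.X : RatFunc ℂ) • ((fun j => rder (h j)) + h ᵥ* A))
    fun h h' => funext fun j => by
      simp only [add_vecMul, Pi.smul_apply, Pi.add_apply, smul_eq_mul, rder_add]
      ring
  have hT : ∀ h, T h = (RatFunc.X : RatFunc ℂ) • ((fun j => rder (h j)) + h ᵥ* A) := fun _ => rfl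
  obtain ⟨v, hv⟩ := cyc_vec (K := RatFunc ℂ) (D := T) (t := (RatFunc.X : RatFunc ℂ)) (fun k w => by
    have e : (RatFunc.X : RatFunc ℂ) * rder ((RatFunc.X : RatFunc ℂ) ^ k) =
        k * (RatFunc.X : RatFunc ℂ) ^ k := by
      rw [← dR_apply, Derivation.leibniz_pow, dR_X]
      cases k <;> simp [pow_succ]
      ring
    funext j
    simp only [hT, smul_vecMul, Pi.smul_apply, Pi.add_apply, smul_eq_mul, rder_mul]
    rw [nsmul_eq_mul]
    linear_combination w j * e) RatFunc.X_ne_zero (m := n + 1) (by simp)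
  let H : Matrix (Fin (n + 1)) (Fin (n + 1)) (RatFunc ℂ) := fun i => (T ^ (i : ℕ)) v
  have hH := (isUnit_iff_isUnit_det H).1 (linearIndependent_rows_iff_isUnit.1 hv)
  have h1 := mul_nonsing_inv H hH
  have h2 : H * A * H⁻¹ - H * H⁻¹.map rder = (H.map rder + H * A) * H⁻¹ := by
    have k := ga_mder H H⁻¹
    rw [h1, ga_one] at k
    rw [add_mul, eq_neg_of_add_eq_zero_left k.symm]
    abel
  have h3 : ∀ i j, ((H.map rder + H * A) * H⁻¹) i j =
      ((T ^ ((i : ℕ) + 1)) v ᵥ* H⁻¹) j / RatFunc.X := fun i j => by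
    rw [pow_succ', AddMonoid.End.coe_mul, Function.comp_apply, hT, smul_vecMul, Pi.smul_apply, smul_eq_mul,
      mul_div_cancel_left₀ _ RatFunc.X_ne_zero]
    rfl
  obtain ⟨b, hb⟩ := IsLocalization.exist_integer_multiples_of_finite (nonZeroDivisors ℂ[X])
    ((T ^ (n + 1)) v ᵥ* H⁻¹)
  choose P hP using hb
  have b0 : (b : ℂ[X]) ≠ 0 := nonZeroDivisors.coe_ne_zero b
  refine ⟨H⁻¹, H, b, -P, nonsing_inv_mul H hH, b0, h2.trans ?_⟩
  ext i j : 1
  rw [h3, compM]
  congr 1
  split_ifs with k1 k2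
  · rw [k1, Pi.neg_apply, map_neg, neg_neg, hP, Algebra.smul_def,
      mul_div_cancel_left₀ _ (am_ne b0), Fin.val_last]
  · rw [← k2]
    exact (congrFun (congrFun h1 j) j).trans (one_apply_eq j)
  · have k : (i : ℕ) + 1 < n + 1 := Nat.succ_lt_succ (Fin.val_lt_last k1)
    exact (congrFun (congrFun h1 ⟨_, k⟩) j).trans (one_apply_ne fun e => k2 (by rw [← e]))

end Pool.Agent.Lib.MP_815ef6_nt.Ch
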