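import Pool.Agent.Lib.MP_815ef6_nt.CS.Cyc

/-! The scalar equation of a system. -/

namespace Pool.Agent.Lib.MP_815ef6_nt.Ch
open Finset Polynomial Matrix

variable {n : ℕ}

theorem cyc2_ms (s : Multiset ℂ) : ∃ (e M : ℕ) (β : Fin M → ℂ), (∀ l, β l ≠ 0) ∧
    (s.map fun x => X - C x).prod = X ^ e * ∏ l, (X - C (β l)) := by
  induction s using Multiset.induction_on with
  | empty => exact ⟨0, 0, Fin.elim0, fun l => l.elim0, by simp⟩
  | cons x s ih =>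
    obtain ⟨e, M, β, h, k⟩ := ih
    rw [Multiset.map_cons, Multiset.prod_cons, k]
    by_cases l : x = 0
    · exact ⟨e + 1, M, β, h, by rw [l, map_zero, sub_zero, pow_succ', mul_assoc]⟩
    · refine ⟨e, M + 1, Fin.cons x β, Fin.cases l h, ?_⟩
      rw [Fin.prod_univ_succ, mul_left_comm]
      rfl

theorem cyc2_fac {Q : ℂ[X]} (hQ : Q ≠ 0) : ∃ (c : ℂ) (e M : ℕ) (β : Fin M → ℂ), c ≠ 0 ∧
    (∀ l, β l ≠ 0) ∧ Q = C c * (X ^ e * ∏ l, (X - C (β l))) := by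
  obtain ⟨e, M, β, h, k⟩ := cyc2_ms Q.roots
  exact ⟨_, e, M, β, leadingCoeff_ne_zero.2 hQ, h, by
    rw [← k, C_leadingCoeff_mul_prod_multiset_X_sub_C IsAlgClosed.card_roots_eq_natDegree]⟩

theorem cyc2_mul {c : ℂ[X]} (hc : c ≠ 0) (D : ℂ[X]) (P : Fin (n + 1) → ℂ[X]) :
    compM (c * D) (fun k => c * P k) = compM D P := by
  ext i j : 1
  rw [compM, compM, map_mul, map_mul, ← mul_neg, mul_div_mul_left _ _ (am_ne hc)]

theorem cyc2_den (H : Matrix (Fin n) (Fin n) (RatFunc ℂ)) :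
    ∃ (no : ℂ[X]) (Wo : Matrix (Fin n) (Fin n) ℂ[X]), no ≠ 0 ∧ Wo.map am = am no • H := by
  have h : ∀ j k, ∃ w, am w = am (∏ p : Fin n × Fin n, (H p.1 p.2).denom) * H j k := fun j k => by
    obtain ⟨c, hc⟩ := dvd_prod_of_mem (fun p : Fin n × Fin n => (H p.1 p.2).denom) (mem_univ (j, k))
    exact ⟨c * (H j k).num, by rw [hc, map_mul, map_mul, ← mul_denom]; ring⟩
  choose w hw using h
  exact ⟨_, Matrix.of w, prod_ne_zero_iff.2 fun p _ => RatFunc.denom_ne_zero _,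
    Matrix.ext fun j k => hw j k⟩

theorem cyc2_rel {A G H : Matrix (Fin (n + 1)) (Fin (n + 1)) (RatFunc ℂ)} (hG : G * H = 1)
    {qo no Δ : ℂ[X]} {Ao Wo : Matrix (Fin (n + 1)) (Fin (n + 1)) ℂ[X]}
    (hA : ∀ j k, A j k * am (X * qo) = am (Ao j k)) (hW : Wo.map am = am no • H) (hΔ : Δ ≠ 0)
    {P : Fin (n + 1) → ℂ[X]} (e : H * A * G - H * G.map rder = compM Δ P) :
    Rel dz qo Ao Δ (cM n (Lz Δ P)) no Wo := by
  have ed : ∀ f, am (dz f) = am X * rder (am f) := fun f => by rw [dz, map_mul, rder_am]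
  have e1 : (Wo.map dz).map am = (am X * rder (am no)) • H + (am X * am no) • H.map rder := by
    ext j k : 1
    have := congrFun (congrFun hW j) k
    simp only [Matrix.map_apply, Matrix.smul_apply, Matrix.add_apply, smul_eq_mul] at this ⊢
    rw [ed, this, rder_mul]
    ring
  have e2 : (cM n (Lz Δ P)).map am = (am X * am Δ) • compM Δ P := by
    ext j k : 1
    have e4 : Lz Δ P (n + 1) = Δ := dif_neg (lt_irrefl _)
    have e5 : Lz Δ P k = P k := dif_pos k.2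
    rw [Matrix.smul_apply, smul_eq_mul, ← map_mul, mul_comm, ana_comp hΔ, Matrix.map_apply, cM, e4,
      e5]
  have e3 : Ao.map am = (am X * am qo) • A := by
    ext j k : 1
    rw [Matrix.smul_apply, smul_eq_mul, ← map_mul, mul_comm, hA, Matrix.map_apply]
  have e4 : compM Δ P * H = H * A + H.map rder := by
    have h := ga_mder G H
    rw [hG, ga_one] at h
    have k : (H * A * G - H * G.map rder) * H = H * A * (G * H) + H * G * H.map rder -
        H * (G.map rder * H + G * H.map rder) := by noncomm_ring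
    rw [← e, k, ← h, hG, mul_eq_one_comm.1 hG, mul_one, one_mul, mul_zero, sub_zero]
  have sm : ∀ (c : ℂ[X]) (B : Matrix (Fin (n + 1)) (Fin (n + 1)) ℂ[X]),
      (c • B).map am = am c • B.map am := fun c B => Matrix.map_smul' _ _ _ (map_mul am)
  have sb : ∀ B B' : Matrix (Fin (n + 1)) (Fin (n + 1)) ℂ[X],
      (B - B').map am = B.map am - B'.map am := fun B B' => Matrix.map_sub _ (map_sub am) _ _
  refine Matrix.map_injective (f := am) (fun _ _ => am_inj) ?_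
  simp only [sm, sb, Matrix.map_mul, e1, e2, e3, hW, ed, map_mul, Matrix.smul_mul,
    Matrix.mul_smul, e4]
  ext j k : 1
  simp only [Matrix.smul_apply, Matrix.add_apply, Matrix.sub_apply, smul_eq_mul]
  ring

theorem base_data {r : ℕ} {a : Fin r → ℂ} (ha : ∀ i, a i ≠ 0)
    {A : Matrix (Fin (n + 1)) (Fin (n + 1)) (RatFunc ℂ)} (h : Dormant A) {qo : ℂ[X]} (hq : qo ≠ 0)
    {Ao : Matrix (Fin (n + 1)) (Fin (n + 1)) ℂ[X]} (hA : ∀ j k, A j k * am (X * qo) = am (Ao j k)) :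
    ∃ (M : ℕ) (β : Fin M → ℂ) (P : Fin (n + 1) → ℂ[X]) (no : ℂ[X])
      (Wo : Matrix (Fin (n + 1)) (Fin (n + 1)) ℂ[X]), (∀ l, β l ≠ 0) ∧ (∀ i, ∃ l, β l = a i) ∧
      (∀ k, (P k).natDegree ≤ M) ∧ Dormant (compM (∏ l, (X - C (β l))) P) ∧
      (Bd (compM (∏ l, (X - C (β l))) P) → Bd A) ∧
      Rel dz qo Ao (∏ l, (X - C (β l))) (cM n (Lz (∏ l, (X - C (β l))) P)) no Wo ∧ no ≠ 0 ∧
      Wo.det ≠ 0 ∧ ∀ y, y ≠ 0 → (no * Wo.det).eval y = 0 → ∃ l, β l = y := by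
  obtain ⟨G, H, D, P, hG, hD, e⟩ := cyc A
  obtain ⟨no, Wo, hn, hW⟩ := cyc2_den H
  have hd : Wo.det ≠ 0 := fun k => by
    have k1 := RingHom.map_det am Wo
    rw [k, map_zero, RingHom.mapMatrix_apply, hW, det_smul] at k1
    have k2 := congrArg det hG
    rw [det_mul, det_one, (mul_eq_zero.1 k1.symm).resolve_left (pow_ne_zero _ (am_ne hn)),
      mul_zero] at k2
    exact zero_ne_one k2
  have hE : (∏ i, (X - C (a i))) * (no * Wo.det) ≠ 0 :=
    mul_ne_zero (prod_ne_zero_iff.2 fun i _ => X_sub_C_ne_zero _) (mul_ne_zero hn hd)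
  have hr : ∀ i, ((∏ i, (X - C (a i))) * (no * Wo.det)).eval (a i) = 0 := fun i => by
    rw [eval_mul, eval_prod, prod_eq_zero (mem_univ i) (by simp), zero_mul]
  have hs : ∀ y, (no * Wo.det).eval y = 0 → ((∏ i, (X - C (a i))) * (no * Wo.det)).eval y = 0 :=
    fun y k => by rw [eval_mul, k, mul_zero]
  generalize (∏ i, (X - C (a i))) * (no * Wo.det) = E at hE hr hs
  obtain ⟨c, m, M, β, hc, hβ, hQ⟩ := cyc2_fac (mul_ne_zero hE hD)
  have rt : ∀ y, y ≠ 0 → E.eval y = 0 → ∃ l, β l = y := fun y h0 k => by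
    have k1 := congrArg (eval y) hQ
    rw [eval_mul, k, zero_mul, eval_mul, eval_mul, eval_C, eval_pow, eval_X, eval_prod] at k1
    obtain ⟨l, -, k2⟩ := prod_eq_zero_iff.1 ((mul_eq_zero.1 ((mul_eq_zero.1 k1.symm).resolve_left
      hc)).resolve_left (pow_ne_zero _ h0))
    rw [eval_sub, eval_X, eval_C] at k2
    exact ⟨l, (sub_eq_zero.1 k2).symm⟩
  have h0 : (∏ l, (X - C (β l)) : ℂ[X]).coeff 0 ≠ 0 := by
    rw [coeff_zero_eq_eval_zero, eval_prod]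
    exact prod_ne_zero_iff.2 fun i _ => by simpa using hβ i
  have h1 : (∏ l, (X - C (β l)) : ℂ[X]).natDegree = M := by
    rw [natDegree_prod_of_monic _ _ fun x _ => monic_X_sub_C _]
    simp
  refine ⟨M, β, ?_⟩
  generalize (∏ l, (X - C (β l)) : ℂ[X]) = Δ at hQ h0 h1 ⊢
  have e1 : compM (X ^ m * Δ) (fun k => C c⁻¹ * (E * P k)) = compM D P := by
    rw [← cyc2_mul hE D, hQ, ← cyc2_mul (C_ne_zero.2 (inv_ne_zero hc)) (C c * _), ← mul_assoc (C _),
      ← map_mul, inv_mul_cancel₀ hc, map_one, one_mul]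
  have hM := dorm_gauge hG h
  rw [e, ← e1] at hM
  choose Q hQ using fun k => (reg_ends h0 m hM k).1
  have e2 : compM Δ Q = compM D P := by
    rw [← e1, ← cyc2_mul (pow_ne_zero m X_ne_zero) Δ Q]
    exact congrArg _ (funext fun k => (hQ k).symm)
  refine ⟨Q, no, Wo, hβ, fun i => rt _ (ha i) (hr i), fun k => ?_, by rwa [e2, ← e1], fun k => ?_,
    cyc2_rel hG hA hW (fun k => h0 (by simp [k])) (e.trans e2.symm), hn, hd,
    fun y h k => rt y h (hs y k)⟩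
  · have := (reg_ends h0 m hM k).2
    by_cases l : Q k = 0
    · simp [l]
    · rw [hQ, natDegree_X_pow_mul m l] at this
      omega
  · rw [e2, ← e] at k
    have h2 := bd_gauge (mul_eq_one_comm.1 hG) k
    rwa [gauge_inv hG] at h2

theorem dorm_all {Δ : ℂ[X]} (hΔ : Δ ≠ 0) {P : Fin (n + 1) → ℂ[X]} (h : Dormant (compM Δ P)) :
    ∃ (F : Finset ℂ) (p₀ : ℕ), ∀ p : ℕ, p.Prime → p₀ ≤ p → ∀ i₀ ≤ n, ∀ i ≤ n, ∀ a,
      ∃ y ∈ cl F, (rr dz 1 n (Lz Δ P) (bs _ i₀) p i).coeff a = p * y := by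
  obtain ⟨T₀, D, hD, hc, -, p₀, h⟩ := h
  obtain ⟨T, h1, h2, h3⟩ := ((ev_le T₀).and ((ev_mem D.leadingCoeff⁻¹).and (ev_poly Δ))).exists
  refine ⟨T, p₀, fun p hp hp0 i₀ hi₀ i hi a => ?_⟩
  obtain ⟨g, ⟨Q, s, hQ, hg⟩, hij⟩ := h p hp hp0 ⟨i₀, by omega⟩ ⟨i, by omega⟩
  have e := aseq_eq hΔ P p ⟨i₀, by omega⟩ ⟨i, by omega⟩
  have hp' : (p : ℂ) ≠ 0 := by exact_mod_cast hp.ne_zero
  rw [hij] at e
  dsimp only at e
  generalize rr dz 1 n (Lz Δ P) (bs _ i₀) p i = r at e ⊢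
  have l1 : C D.leadingCoeff⁻¹ ∈ lifts (cl T).subtype := C_mem_lifts _ (⟨_, h2⟩ : cl T)
  have l2 : D ∈ lifts (cl T).subtype := ana_lifts.mpr fun a => h1 (hc a)
  have l3 : (D * C D.leadingCoeff⁻¹) ^ s * (C (p : ℂ)⁻¹ * r) =
      C D.leadingCoeff⁻¹ ^ s * ((X * Δ) ^ p * Q) := by
    have e1 : am (C (p : ℂ)⁻¹) * (p : RatFunc ℂ) = 1 := by
      rw [← map_natCast am, ← map_mul, ← map_natCast (C : ℂ →+* ℂ[X]), ← map_mul,
        inv_mul_cancel₀ hp', map_one, map_one]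
    apply am_inj
    rw [mul_pow, map_mul, map_mul, map_mul, map_mul, map_mul, map_pow am D, map_pow am (X * Δ),
      ← e, ← hg]
    linear_combination am D ^ s * am (C D.leadingCoeff⁻¹ ^ s) * am (X * Δ) ^ p * g * e1
  have l4 := ana_lifts.mp (ana_div ((monic_mul_leadingCoeff_inv hD).pow s)
    (pow_mem (mul_mem l2 l1) s) (l3 ▸ mul_mem (pow_mem l1 s) (mul_mem (pow_mem
      (mul_mem (X_mem_lifts _) (ana_lifts.mpr h3)) p) (ana_lifts.mpr fun a => h1 (hQ a))))) a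
  exact ⟨_, l4, by rw [Polynomial.coeff_C_mul, mul_inv_cancel_left₀ hp']⟩

end Pool.Agent.Lib.MP_815ef6_nt.Ch
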