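import Pool.Agent.Lib.MP_815ef6_nt.CH.Fin2

/-! Systems over Laurent polynomials and their fundamental matrices of Laurent series. -/

namespace Pool.Agent.Lib.MP_815ef6_nt.Ch
open Finset LaurentPolynomial Matrix

section
variable {Λ : Type*} [CommRing Λ] {ι ι' : Type*} [Fintype ι] [DecidableEq ι] [Fintype ι']
  [DecidableEq ι']

/-- For the system `q θ Y = A Y`: `q ^ k θ (θ - 1) ... (θ - k + 1) Y = Am d q A k Y`. -/
def Am (d : Λ → Λ) (q : Λ) (A : Matrix ι ι Λ) : ℕ → Matrix ι ι Λ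
  | 0 => 1
  | k + 1 => q • (Am d q A k).map d + Am d q A k * A - (k * (q + d q)) • Am d q A k

/-- The defect of the gauge transformation `Y = G Y'` between `q θ Y = A Y`, `q θ Y' = A' Y'`. -/
def gf (d : Λ → Λ) (q : Λ) (A : Matrix ι ι Λ) (A' : Matrix ι' ι' Λ) (G : Matrix ι ι' Λ) :
    Matrix ι ι' Λ := q • G.map d - A * G + G * A'

/-- `U = W Y / n` transforms `q θ Y = A Y` to `l θ U = C U`. -/
def Rel (d : Λ → Λ) (q : Λ) (A : Matrix ι ι Λ) (l : Λ) (C : Matrix ι ι Λ) (n : Λ)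
    (W : Matrix ι ι Λ) : Prop :=
  (q * l) • (n • W.map d - d n • W) = (q * n) • (C * W) - (l * n) • (W * A)

/-- All entries are divisible by `c`. -/
def Dd {ι ι' : Type*} (c : Λ) (M : Matrix ι ι' Λ) : Prop := ∀ i j, c ∣ M i j

/-- The companion matrix with cleared denominators. -/
def cM (n : ℕ) (L : ℕ → Λ) : Matrix (Fin (n + 1)) (Fin (n + 1)) Λ := fun i j =>
  if i = Fin.last n then -L j else if (j : ℕ) = i + 1 then L (n + 1) else 0

end

/-- Laurent series. -/
abbrev Ls (R : Type*) [CommRing R] := LaurentSeries R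

section
variable {R R' : Type*} [CommRing R] [CommRing R'] {ι ι' : Type*} [Fintype ι] [DecidableEq ι]
  [Fintype ι'] [DecidableEq ι']

/-- Constants. -/
noncomputable abbrev cS : R →+* Ls R := HahnSeries.C

/-- The expansion at `0` (`b = true`, `X = w`) or at infinity (`b = false`, `X = 1 / w`). -/
noncomputable def io (b : Bool) : R[T;T⁻¹] →+* Ls R :=
  eval₂ cS ⟨HahnSeries.single (sg b) 1, HahnSeries.single (-sg b) 1,
    by rw [HahnSeries.single_mul_single, add_neg_cancel, mul_one]; rfl,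
    by rw [HahnSeries.single_mul_single, neg_add_cancel, mul_one]; rfl⟩

/-- The derivation `w d/dw` on the expansions. -/
def dS (b : Bool) (f : Ls R) : Ls R where
  coeff a := (sg b * a : ℤ) * f.coeff a
  isPWO_support' := f.isPWO_support.mono fun _ h => right_ne_zero_of_mul h

/-- Change of the coefficients. -/
noncomputable def mL (φ : R →+* R') : Ls R →+* Ls R' where
  toFun f := f.map φ
  map_one' := HahnSeries.map_one φ.toMonoidWithZeroHom
  map_mul' _ _ := HahnSeries.map_mul φ.toNonUnitalRingHom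
  map_zero' := HahnSeries.map_zero φ.toAddMonoidHom.toZeroHom
  map_add' _ _ := HahnSeries.map_add φ.toAddMonoidHom

/-- The value at `w = 1`. -/
noncomputable def ev1 : R[T;T⁻¹] →+* R := eval₂ (RingHom.id R) 1

/-- The defect of `Ψ w ^ K` as a solution of `q θ Y = A Y` at the end `b`. -/
noncomputable def df (b : Bool) (q : R[T;T⁻¹]) (A : Matrix ι ι R[T;T⁻¹]) (K : ι' → R)
    (Ψ : Matrix ι ι' (Ls R)) : Matrix ι ι' (Ls R) :=
  gf (dS b) (io b q) (A.map (io b)) (io b q • diagonal fun i => cS (K i)) Ψ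

/-- The coefficients below `-D` are divisible by `c`. -/
def Od {ι ι' : Type*} (c : R) (D : ℕ) (M : Matrix ι ι' (Ls R)) : Prop :=
  ∀ i j (a : ℤ), a < -D → c ∣ (M i j).coeff a

/-- The constant terms. -/
def c0 {ι ι' : Type*} (M : Matrix ι ι' (Ls R)) : Matrix ι ι' R := fun i j => (M i j).coeff 0

/-- The expansions at both ends are units modulo `s`. -/
def Un (s : R) (f : R[T;T⁻¹]) : Prop := ∀ b, ∃ g, cS s ∣ io b f * g - 1

/-- The system `l θ U = C U` is regular modulo `s` at the end `b`. -/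
structure Re (s : R) (b : Bool) (l : R[T;T⁻¹]) (C : Matrix ι ι R[T;T⁻¹]) : Prop where
  pl : ∀ a, sg b * a < 0 → s ∣ l.coeff a
  one : s ∣ l.coeff 0 - 1
  pc : ∀ i j a, sg b * a < 0 → s ∣ (C i j).coeff a

/-- The normal form `θ Y = (μ + u v / (1 - w)) Y`. -/
noncomputable def mA (μ u v : ι → R) : Matrix ι ι R[T;T⁻¹] :=
  (1 - T 1 : R[T;T⁻¹]) • (diagonal μ).map C + (vecMulVec u v).map C

/-- The `p`-curvature vanishes for large `p`, inside the ring. -/
def MB (q : R[T;T⁻¹]) (A : Matrix ι ι R[T;T⁻¹]) : Prop :=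
  ∃ p₀ : ℕ, ∀ p : ℕ, p.Prime → p₀ ≤ p → Dd (p : R[T;T⁻¹]) (Am th q A p)

/-- The linearized two by two minors vanish. -/
def Tan (A E : Matrix ι ι R) : Prop :=
  ∀ i j k l, A i j * E k l + E i j * A k l = A i l * E k j + E i l * A k j

/-- The relation between the two branches at a node, modulo `c`. -/
def Nm {ι ι' : Type*} (c t : R) (U V : Matrix ι ι' (Ls R)) : Prop := ∀ i j (k : ℕ),
  c ∣ (U i j).coeff (-k) - t ^ k * (V i j).coeff k ∧
    c ∣ (V i j).coeff (-k) - t ^ k * (U i j).coeff k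

@[simp] theorem coeff_dS (b : Bool) (f : Ls R) (a : ℤ) :
    (dS b f).coeff a = (sg b * a : ℤ) * f.coeff a := rfl

@[simp] theorem coeff_mL (φ : R →+* R') (f : Ls R) (a : ℤ) : (mL φ f).coeff a = φ (f.coeff a) := rfl

theorem io_C (b : Bool) (c : R) : io b (C c) = cS c := eval₂_C _ _ _

theorem io_T (b : Bool) (a : ℤ) : io b (T a : R[T;T⁻¹]) = HahnSeries.single (sg b * a) 1 := by
  induction a using Int.induction_on with
  | zero => rw [T_zero, map_one, mul_zero]; rfl
  | succ a ih =>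
    rw [T_add, map_mul, ih, io, eval₂_T, zpow_one, HahnSeries.single_mul_single, mul_add, mul_one,
      mul_one]
  | pred a ih =>
    rw [sub_eq_add_neg, T_add, map_mul, ih, io, eval₂_T, _root_.zpow_neg_one, Units.inv_mk,
      HahnSeries.single_mul_single, mul_add, mul_one, mul_neg (sg b) 1, mul_one]

theorem coeff_cS_mul (c : R) (f : Ls R) (a : ℤ) : (cS c * f).coeff a = c * f.coeff a :=
  HahnSeries.coeff_single_zero_mul

@[simp] theorem coeff_io (b : Bool) (f : R[T;T⁻¹]) (a : ℤ) :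
    (io b f).coeff a = f.coeff (sg b * a) := by
  induction f using LaurentPolynomial.induction_on' with
  | add f g h h' => simp [h, h']
  | C_mul_T k c =>
    rw [map_mul, io_C, io_T, coeff_cS_mul, coeff_CT, HahnSeries.coeff_single]
    cases b <;> simp only [sg] <;> split_ifs <;> first | omega | simp

theorem io_inj (b : Bool) : Function.Injective (io b : R[T;T⁻¹] → Ls R) := fun f g h =>
  LaurentPolynomial.ext fun a => by
    have := congrArg (fun x : Ls R => x.coeff (sg b * a)) h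
    simpa only [coeff_io, ← mul_assoc, sg_sq, one_mul] using this

theorem io_th (b : Bool) (f : R[T;T⁻¹]) : io b (th f) = dS b (io b f) := by
  ext a
  simp

theorem mL_io (φ : R →+* R') (b : Bool) (f : R[T;T⁻¹]) : mL φ (io b f) = io b (mp φ f) := by
  ext a
  simp

theorem mL_dS (φ : R →+* R') (b : Bool) (f : Ls R) : mL φ (dS b f) = dS b (mL φ f) := by
  ext a
  simp

theorem mL_cS (φ : R →+* R') (c : R) : mL φ (cS c) = cS (φ c) :=
  HahnSeries.map_single φ.toAddMonoidHom.toZeroHom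

theorem dv_dS (b : Bool) : Dv (dS (R := R) b) := ⟨fun f g => by ext a; simp [mul_add], fun f g => by
  ext a
  rw [coeff_dS, HahnSeries.coeff_add, HahnSeries.coeff_mul,
    HahnSeries.coeff_mul_left' (x := dS b f) f.isPWO_support fun _ h => right_ne_zero_of_mul h,
    HahnSeries.coeff_mul_right' (y := dS b g) g.isPWO_support fun _ h => right_ne_zero_of_mul h,
    ← sum_add_distrib, mul_sum]
  refine sum_congr rfl fun x hx => ?_
  rw [coeff_dS, coeff_dS, ← (mem_antidiagonal.1 hx).2.2]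
  push_cast
  ring⟩

theorem dS_cS (b : Bool) (c : R) : dS b (cS c) = 0 := by
  ext a
  by_cases h : a = 0 <;> simp [h, HahnSeries.C_apply]

theorem cS_dvd {c : R} {f : Ls R} : cS c ∣ f ↔ ∀ a, c ∣ f.coeff a := by
  classical
  refine ⟨fun ⟨g, e⟩ a => ⟨g.coeff a, by rw [e, coeff_cS_mul]⟩, fun h => ?_⟩
  choose y hy using h
  refine ⟨⟨fun a => if f.coeff a = 0 then 0 else y a, f.isPWO_support.mono fun a h l => h (if_pos l)⟩,
    HahnSeries.ext (funext fun a => ?_)⟩
  rw [coeff_cS_mul]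
  dsimp only
  split_ifs with l
  · rw [l, mul_zero]
  · exact hy a

theorem ev1_C (c : R) : ev1 (C c) = c := eval₂_C _ _ _

theorem ev1_T (a : ℤ) : ev1 (T a : R[T;T⁻¹]) = 1 := by rw [ev1, eval₂_T, _root_.one_zpow, Units.val_one]

theorem ev1_mp (φ : R →+* R') (f : R[T;T⁻¹]) : ev1 (mp φ f) = φ (ev1 f) := by
  induction f using LaurentPolynomial.induction_on' with
  | add f g h h' => simp [h, h']
  | C_mul_T k c => simp [ev1_C, ev1_T]

end

section
variable {ι : Type*} [Fintype ι] [DecidableEq ι]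

/-- The `p`-curvature vanishes for almost all `p`. -/
def MD (q : ℂ[T;T⁻¹]) (A : Matrix ι ι ℂ[T;T⁻¹]) : Prop :=
  ∃ (F : Finset ℂ) (p₀ : ℕ), ∀ p : ℕ, p.Prime → p₀ ≤ p → ∀ i j a,
    ∃ y ∈ cl F, (Am th q A p i j).coeff a = p * y

/-- The complex system of a rational normal form. -/
noncomputable abbrev mC (μ u v : ι → ℚ) : Matrix ι ι ℂ[T;T⁻¹] :=
  mA (fun i => (μ i : ℂ)) (fun i => (u i : ℂ)) fun i => (v i : ℂ)

/-- Models: a hypergeometric system plus Kummer systems. -/
structure Mdl (μ u v : ι → ℚ) : Prop where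
  uv : ∀ l, u l = 0 ↔ v l = 0
  inj : ∀ l l', u l ≠ 0 → u l' ≠ 0 → μ l = μ l' → l = l'
  tr : (∀ z : ℤ, ∑ l, u l * v l ≠ z) ∨ ∀ l, u l = 0
  md : MD (1 - T 1) (mC μ u v)

/-- The exponents at zero of a model. -/
structure Exq (μ u v κ : ι → ℚ) : Prop where
  fr : ∀ l, u l = 0 → κ l = μ l
  inj : ∀ l l', u l ≠ 0 → u l' ≠ 0 → κ l = κ l' → l = l'
  ne : ∀ i l, u i ≠ 0 → u l ≠ 0 → κ i ≠ μ l
  eq : ∀ i, u i ≠ 0 → ∑ l, u l * v l / (κ i - μ l) = 1

/-- Between two points of `c` there is a point of `d`, modulo all large primes. -/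
def Gap (u c d : ι → ℚ) : Prop := ∃ p₀ : ℕ, ∀ p : ℕ, p.Prime → p₀ ≤ p → ∀ i j, u i ≠ 0 → u j ≠ 0 →
  ∀ l : ℕ, 0 < l → (p : ℤ) ∣ (c i + l - c j).num →
    ∃ l' < l, ∃ j', u j' ≠ 0 ∧ (p : ℤ) ∣ (c i + (l' : ℕ) - d j').num

/-- The rational numbers with denominators in `M`. -/
def ZM (M : ℕ) : Subring ℚ := Subring.closure {(M : ℚ)⁻¹}

end

end Pool.Agent.Lib.MP_815ef6_nt.Ch
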