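import Pool.Agent.Lib.MP_815ef6_nt.CS.Res

/-! Removal of the integral exponents. -/

namespace Pool.Agent.Lib.MP_815ef6_nt.Ch
open Finset Polynomial Matrix

variable {n r : ℕ} {a : Fin r → ℂ}

/-- Constant matrices. -/
noncomputable abbrev res2c : Matrix (Fin n) (Fin n) ℂ →+* Matrix (Fin n) (Fin n) (RatFunc ℂ) :=
  (RatFunc.C : ℂ →+* RatFunc ℂ).mapMatrix

/-- Polynomial matrices. -/
noncomputable abbrev res2p : Matrix (Fin n) (Fin n) ℂ[X] →+* Matrix (Fin n) (Fin n) (RatFunc ℂ) :=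
  (am : ℂ[X] →+* RatFunc ℂ).mapMatrix

/-- The local parameter. -/
noncomputable abbrev res2t (c : ℂ) : RatFunc ℂ := RatFunc.X - RatFunc.C c

/-- The system has simple poles with residues `R`. -/
def Res2S (a : Fin r → ℂ) (e : ℕ) (A : Matrix (Fin n) (Fin n) (RatFunc ℂ))
    (R : Fin r → Matrix (Fin n) (Fin n) ℂ) : Prop := ∃ L, A = sysM a R e L

variable {e : ℕ} {A A' : Matrix (Fin n) (Fin n) (RatFunc ℂ)} {R R' : Fin r → Matrix (Fin n) (Fin n) ℂ}

theorem res2_ne (c : ℂ) : res2t c ≠ 0 := tt_ne (some c)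

theorem res2_eq (R : Fin r → Matrix (Fin n) (Fin n) ℂ) (L : Matrix (Fin n) (Fin n) ℂ[X]) :
    sysM a R e L = ∑ l, (res2t (a l))⁻¹ • res2c (R l) + (RatFunc.X ^ e : RatFunc ℂ)⁻¹ • res2p L := by
  ext j k : 1
  simp [sysM, Matrix.sum_apply, div_eq_inv_mul]

theorem res2_pc (P : Matrix (Fin n) (Fin n) ℂ) : res2p ((C : ℂ →+* ℂ[X]).mapMatrix P) = res2c P := by
  ext j k : 1
  exact am_C _

theorem res2_cs (c : ℂ) (P : Matrix (Fin n) (Fin n) ℂ) : res2c (c • P) = RatFunc.C c • res2c P := by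
  ext j k : 1
  simp

theorem res2_ps (c : ℂ[X]) (P : Matrix (Fin n) (Fin n) ℂ[X]) : res2p (c • P) = am c • res2p P := by
  ext j k : 1
  simp

theorem Res2S.add (h : Res2S a e A R) (h' : Res2S a e A' R') :
    Res2S a e (A + A') fun l => R l + R' l := by
  obtain ⟨L, rfl⟩ := h
  obtain ⟨L', rfl⟩ := h'
  refine ⟨L + L', ?_⟩
  simp only [res2_eq, map_add, smul_add, sum_add_distrib]
  abel

theorem Res2S.mul (h : Res2S a e A R) (P Q : Matrix (Fin n) (Fin n) ℂ) :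
    Res2S a e (res2c P * A * res2c Q) fun l => P * R l * Q := by
  obtain ⟨L, rfl⟩ := h
  refine ⟨(C : ℂ →+* ℂ[X]).mapMatrix P * L * (C : ℂ →+* ℂ[X]).mapMatrix Q, ?_⟩
  simp only [res2_eq, map_mul, res2_pc, mul_add, add_mul, mul_sum, sum_mul, mul_smul_comm,
    smul_mul_assoc]

theorem res2_pole (i : Fin r) (P : Matrix (Fin n) (Fin n) ℂ) :
    Res2S a e ((res2t (a i))⁻¹ • res2c P) fun l => if l = i then P else 0 := by
  refine ⟨0, ?_⟩
  rw [res2_eq, map_zero, smul_zero, add_zero, sum_eq_single i (fun l _ h => by simp [h]) (by simp),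
    if_pos rfl]

theorem Res2S.mul_t (h : Res2S a e A R) (c : ℂ) :
    Res2S a e (res2t c • A) fun l => (a l - c) • R l := by
  obtain ⟨L, rfl⟩ := h
  refine ⟨(X - C c) • L + (X ^ e : ℂ[X]) • ∑ l, (C : ℂ →+* ℂ[X]).mapMatrix (R l), ?_⟩
  have x0 : (RatFunc.X ^ e : RatFunc ℂ) ≠ 0 := pow_ne_zero _ RatFunc.X_ne_zero
  simp only [res2_eq, map_add, res2_ps, map_sum, res2_pc, smul_add, smul_sum, smul_smul, map_pow,
    map_sub, am_X, am_C, res2_cs, inv_mul_cancel₀ x0, one_smul]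
  rw [add_comm (_ • res2p L), ← add_assoc, ← sum_add_distrib, mul_comm (res2t c)]
  refine congrArg (· + _) (sum_congr rfl fun l _ => ?_)
  have := res2_ne (a l)
  rw [show res2t c * (res2t (a l))⁻¹ =
    (res2t (a l))⁻¹ * (RatFunc.C (a l) - RatFunc.C c) + 1 by field_simp; ring, add_smul, one_smul]

theorem Res2S.div_t (ha : Function.Injective a) {i : Fin r} (h0 : a i ≠ 0) (h : Res2S a e A R)
    (hi : R i = 0) : ∃ B, Res2S a e ((res2t (a i))⁻¹ • A)
      fun l => if l = i then B else (a l - a i)⁻¹ • R l := by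
  obtain ⟨L, rfl⟩ := h
  have x0 : (RatFunc.X ^ e : RatFunc ℂ) ≠ 0 := pow_ne_zero _ RatFunc.X_ne_zero
  have : ∀ j k, X - C (a i) ∣ L j k - X ^ e * C ((a i ^ e)⁻¹ * (L j k).eval (a i)) := fun j k =>
    dvd_iff_isRoot.2 (by simp [h0])
  choose Q hQ using this
  have hL : L = (X - C (a i)) • Matrix.of Q +
      (X ^ e : ℂ[X]) • (C : ℂ →+* ℂ[X]).mapMatrix ((a i ^ e)⁻¹ • L.map (eval (a i))) := by
    ext j k : 1
    exact eq_add_of_sub_eq (hQ j k)
  refine ⟨(a i ^ e)⁻¹ • L.map (eval (a i)) - ∑ l, (a l - a i)⁻¹ • R l, Matrix.of Q, ?_⟩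
  generalize (a i ^ e)⁻¹ • L.map (eval (a i)) = B at hL
  have t0 := res2_ne (a i)
  have e1 : ∀ l, (res2t (a l))⁻¹ • res2c (if l = i then B - ∑ l, (a l - a i)⁻¹ • R l
      else (a l - a i)⁻¹ • R l) = (res2t (a l))⁻¹ • res2c ((a l - a i)⁻¹ • R l) +
        if l = i then (res2t (a i))⁻¹ • res2c (B - ∑ l, (a l - a i)⁻¹ • R l) else 0 := fun l => by
    split_ifs with h
    · simp [h, hi]
    · simp
  have e2 : ∀ l, ((res2t (a i))⁻¹ * (res2t (a l))⁻¹) • res2c (R l) =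
      (res2t (a l))⁻¹ • res2c ((a l - a i)⁻¹ • R l) -
        (res2t (a i))⁻¹ • res2c ((a l - a i)⁻¹ • R l) := fun l => by
    by_cases h : l = i
    · simp [h, hi]
    have t1 := res2_ne (a l)
    have t2 : (RatFunc.C (a l - a i) : RatFunc ℂ) ≠ 0 :=
      (_root_.map_ne_zero _).2 (sub_ne_zero.2 (ha.ne h))
    rw [res2_cs, smul_smul, smul_smul, ← sub_smul, map_inv₀]
    congr 1
    field_simp
    rw [map_sub]
    ring
  rw [res2_eq, res2_eq, hL, sum_congr rfl fun l _ => e1 l, sum_add_distrib, sum_ite_eq' univ i,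
    if_pos (mem_univ _)]
  simp only [map_add, res2_ps, res2_pc, smul_add, smul_sum, smul_smul, map_pow, map_sub, am_X, am_C,
    inv_mul_cancel₀ x0, one_smul, e2, sum_sub_distrib, map_sum, smul_sub]
  rw [show (res2t (a i))⁻¹ * ((RatFunc.X ^ e)⁻¹ * (RatFunc.X - RatFunc.C (a i))) =
    (RatFunc.X ^ e)⁻¹ by field_simp]
  abel

theorem res2_step (ha : Function.Injective a) {i : Fin r} (h0 : a i ≠ 0) (h : Res2S a e A R)
    {σ : Matrix (Fin n) (Fin n) ℂ} (hσ : σ * σ = σ) (hR : σ * R i * (1 - σ) = 0) :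
    ∃ (G H : Matrix (Fin n) (Fin n) (RatFunc ℂ)) (B : Matrix (Fin n) (Fin n) ℂ)
      (P Q : Fin r → Matrix (Fin n) (Fin n) ℂ), G * H = 1 ∧ (∀ l ≠ i, Q l * P l = 1) ∧
      Res2S a e (H * A * G - H * G.map rder) fun l => if l = i then
        σ * R i * σ + (1 - σ) * R i * (1 - σ) + σ * B * (1 - σ) - σ else P l * R l * Q l := by
  have t0 := res2_ne (a i)
  obtain ⟨B, hB⟩ := (h.add (res2_pole i (-R i))).div_t ha h0 (by simp)
  have k1 : ∀ {K : Type} [Field K] {s : Matrix (Fin n) (Fin n) K} {t : K}, s * s = s → t ≠ 0 →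
      (t • s + (1 - s)) * (t⁻¹ • s + (1 - s)) = 1 := fun hs ht => by
    simp only [mul_add, add_mul, mul_sub, sub_mul, smul_mul_assoc, mul_smul_comm, hs, mul_one,
      one_mul, smul_smul, inv_mul_cancel₀ ht, one_smul, sub_self, smul_zero, smul_add]
    abel
  have s2 : res2c σ * res2c σ = res2c σ := by rw [← map_mul, hσ]
  refine ⟨res2t (a i) • res2c σ + (1 - res2c σ), (res2t (a i))⁻¹ • res2c σ + (1 - res2c σ), B,
    fun l => (a l - a i)⁻¹ • σ + (1 - σ), fun l => (a l - a i) • σ + (1 - σ), k1 s2 t0,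
    fun l hl => k1 hσ (sub_ne_zero.2 (ha.ne hl)), ?_⟩
  have d : (res2t (a i) • res2c σ + (1 - res2c σ)).map rder = res2c σ := by
    ext j k : 1
    have : (res2t (a i) • res2c σ + (1 - res2c σ)) j k =
        am ((X - C (a i)) * C (σ j k) + C ((1 - σ) j k)) := by
      rw [← map_one res2c, ← map_sub res2c]
      simp
    rw [Matrix.map_apply, this, rder_am]
    simp
  have s3 : res2c σ * res2c (R i) * (1 - res2c σ) = 0 := by
    rw [← map_one res2c, ← map_sub, ← map_mul, ← map_mul, hR, map_zero]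
  have h1 := (((((h.mul σ σ).add (h.mul (1 - σ) (1 - σ))).add (hB.mul σ (1 - σ))).add
    ((h.mul (1 - σ) σ).mul_t (a i))).add (res2_pole i (-σ)))
  convert h1 using 1
  · rw [d]
    simp only [map_sub, map_one, map_neg, smul_neg, smul_add, mul_add, add_mul, smul_mul_assoc,
      mul_smul_comm, mul_neg, neg_mul, s3, s2, smul_smul, mul_inv_cancel₀ t0,
      one_smul, smul_zero, neg_zero, add_zero]
    rw [sub_mul 1 (res2c σ) (res2c σ), one_mul, s2, sub_self, add_zero]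
    abel
  · funext l
    split_ifs with hl
    · simp [hl, sub_eq_add_neg]
    · have := sub_ne_zero.2 (ha.ne hl)
      simp only [smul_add, mul_add, add_mul, smul_mul_assoc, mul_smul_comm, smul_smul,
        mul_inv_cancel₀ this, one_smul, add_zero]
      abel

theorem res2_tw (ha : Function.Injective a) {G H : Matrix (Fin n) (Fin n) (RatFunc ℂ)}
    (hG : G * H = 1) (c : Fin r → ℚ)
    (h : Res2S a e (H * A * G - H * G.map rder) fun l => R l + Matrix.scalar _ (c l : ℂ))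
    (k : ∀ L, Dormant (sysM a R e L) → Bd (sysM a R e L)) (hA : Dormant A) : Bd A := by
  classical
  obtain ⟨L, h⟩ := h
  refine bd_of hG (univ.image a) (Function.extend a c 0) (h.trans ?_) (k L) hA
  rw [sum_image fun _ _ _ _ h => ha h, res2_eq, res2_eq, map_sum, add_right_comm, ← sum_add_distrib]
  refine congrArg (· + _) (sum_congr rfl fun l _ => ?_)
  rw [map_add, smul_add, ha.extend_apply]
  congr 1
  ext j k : 1
  by_cases l : j = k <;> simp [l, div_eq_inv_mul]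

theorem res2_eig {M : Matrix (Fin n) (Fin n) ℂ} {F : Finset ℂ} {p₀ : ℕ}
    (h : ∀ p : ℕ, p.Prime → p₀ ≤ p → ∀ j k, ∃ y ∈ cl F, (M ^ p - M) j k = p * y)
    {y : Fin n → ℂ} (hy : y ≠ 0) {c : ℂ} (hc : M *ᵥ y = c • y) : ∃ q : ℚ, c = q := by
  classical
  obtain ⟨k, hk⟩ := Function.ne_iff.1 hy
  have hk : y k ≠ 0 := hk
  have pw : ∀ p : ℕ, (M ^ p) *ᵥ y = c ^ p • y := fun p => by
    induction p with
    | zero => simp
    | succ p ih => rw [pow_succ, ← mulVec_mulVec, hc, mulVec_smul, ih, smul_smul, pow_succ']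
  refine kron (F ∪ insert (y k)⁻¹ (univ.image y)) p₀ fun p h1 h2 => ?_
  choose w h3 h4 using h p h1 h2 k
  refine ⟨(∑ m, w m * y m) * (y k)⁻¹, mul_mem (sum_mem fun m _ => mul_mem
    (kr_mono subset_union_left (h3 m)) (kr_mem (by simp))) (kr_mem (by simp)), ?_⟩
  have : ((M ^ p - M) *ᵥ y) k = (c ^ p - c) * y k := by
    rw [sub_mulVec, pw, hc, ← sub_smul]
    rfl
  rw [eq_div_of_mul_eq hk this.symm, div_eq_mul_inv, ← mul_assoc, mul_sum]
  refine congrArg (· * (y k)⁻¹) ?_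
  rw [mulVec, dotProduct]
  exact sum_congr rfl fun m _ => by rw [h4, mul_assoc]

theorem res2_rank {M : Matrix (Fin n) (Fin n) ℂ} (h : M.rank ≤ 1) :
    ∃ u v : Fin n → ℂ, M = vecMulVec u v := by
  obtain ⟨u, hu⟩ := finrank_le_one_iff.1 h
  choose v hv using fun k => hu ⟨M.mulVecLin (Pi.single k 1), _, rfl⟩
  refine ⟨u.1, v, Matrix.ext fun j k => ?_⟩
  have := congrFun (congrArg Subtype.val (hv k)) j
  simpa [vecMulVec_apply, mul_comm] using this.symm

theorem res2_dec {M : Matrix (Fin n) (Fin n) ℂ} {F : Finset ℂ} {p₀ : ℕ}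
    (h : ∀ p : ℕ, p.Prime → p₀ ≤ p → ∀ j k, ∃ y ∈ cl F, (M ^ p - M) j k = p * y) {c : ℂ}
    (hc : (M - Matrix.scalar _ c).rank ≤ 1) : ∃ (q γ : ℚ) (u v : Fin n → ℂ),
      M = vecMulVec u v + Matrix.scalar _ (q : ℂ) ∧ trace (vecMulVec u v) = γ := by
  obtain ⟨u, v, e⟩ := res2_rank hc
  have e := eq_add_of_sub_eq e
  have ev : ∀ y, M *ᵥ y = (v ⬝ᵥ y) • u + c • y := fun y => by
    rw [e, add_mulVec, vecMulVec_mulVec, op_smul_eq_smul]
    congr 1
    funext j
    simp [mulVec_diagonal]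
  by_cases l : ∃ y ≠ 0, v ⬝ᵥ y = 0
  · obtain ⟨y, h1, h2⟩ := l
    obtain ⟨q, rfl⟩ := res2_eig h h1 (c := c) (by rw [ev, h2, zero_smul, zero_add])
    by_cases hu : u = 0
    · exact ⟨q, 0, u, v, e, by simp [hu]⟩
    obtain ⟨q', hq⟩ := res2_eig h hu (by rw [ev, ← add_smul])
    refine ⟨q, q' - q, u, v, e, ?_⟩
    rw [trace_vecMulVec, dotProduct_comm, Rat.cast_sub, ← hq, add_sub_cancel_right]
  have ev2 : ∀ y, M *ᵥ y = (v ⬝ᵥ u + c) • y := fun y => by
    rw [ev, add_smul, add_left_inj, ← sub_eq_zero]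
    by_contra k
    exact l ⟨_, k, by simp [mul_comm]⟩
  cases n with
  | zero => exact ⟨0, 0, 0, 0, Subsingleton.elim _ _, by simp⟩
  | succ n =>
    obtain ⟨q, hq⟩ := res2_eig h (y := Pi.single 0 1) (by simp) (ev2 _)
    refine ⟨q, 0, 0, 0, Matrix.ext fun j k => ?_, by simp⟩
    have := congrFun (ev2 (Pi.single k 1)) j
    by_cases m : j = k <;> simpa [hq, m] using this

theorem res2_ind (ha : Function.Injective a) (h0 : ∀ i, a i ≠ 0)
    (H : ∀ (R : Fin r → Matrix (Fin n) (Fin n) ℂ) (e : ℕ) (L : Matrix (Fin n) (Fin n) ℂ[X]),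
      (∀ i, ∃ (u v : Fin n → ℂ) (γ : ℚ), R i = vecMulVec u v ∧ ∑ k, u k * v k = γ ∧
        ((∀ z : ℤ, γ ≠ z) ∨ vecMulVec u v = 0)) → Dormant (sysM a R e L) → Bd (sysM a R e L))
    (N : ℕ) : ∀ (R : Fin r → Matrix (Fin n) (Fin n) ℂ) (γ : Fin r → ℚ),
      (∀ i, ∃ u v, R i = vecMulVec u v) → (∀ i, trace (R i) = γ i) →
      ∑ i, (if (γ i).den = 1 then (γ i).num.natAbs else 0) = N →
      ∀ L, Dormant (sysM a R e L) → Bd (sysM a R e L) := by
  induction N using Nat.strong_induction_on with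
  | _ N ih =>
  intro R γ h1 h2 h3 L h
  have sq : ∀ i, R i * R i = (γ i : ℂ) • R i := fun i => by
    obtain ⟨u, v, e⟩ := h1 i
    rw [← h2, e, vecMulVec_mul_vecMulVec, trace_vecMulVec, dotProduct_comm, vecMulVec_smul]
  by_cases l : ∃ i, ∃ z : ℤ, z ≠ 0 ∧ γ i = z
  swap
  · refine H R e L (fun i => ?_) h
    obtain ⟨u, v, e⟩ := h1 i
    refine ⟨u, v, γ i, e, by rw [← h2, e, trace_vecMulVec]; rfl, or_iff_not_imp_left.2 fun k => ?_⟩
    obtain ⟨z, hz⟩ := not_forall.1 k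
    have hz := not_not.1 hz
    have z0 : z = 0 := by_contra fun k => l ⟨i, z, k, hz⟩
    obtain ⟨F, p₀, hp⟩ := res_pow ha h0 h i
    rw [← e]
    refine Matrix.ext fun j k => fg_zero F p₀ fun p k1 k2 => ?_
    obtain ⟨y, hy, k3⟩ := hp p k1 k2 j k
    have : R i ^ p = 0 := pow_eq_zero_of_le k1.two_le (by rw [pow_two, sq, hz, z0]; simp)
    exact ⟨1, -y, neg_mem hy, by rw [pow_one, mul_neg, ← k3, this]; simp⟩
  obtain ⟨i, z, z0, hz⟩ := l
  have g0 : (γ i : ℂ) ≠ 0 := by rw [hz]; simpa using z0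
  obtain ⟨π, hπ⟩ : ∃ π, π = (γ i : ℂ)⁻¹ • R i := ⟨_, rfl⟩
  have e1 : R i = (γ i : ℂ) • π := by rw [hπ, smul_inv_smul₀ g0]
  have e2 : π * π = π := by
    rw [hπ, smul_mul_assoc, mul_smul_comm, sq, inv_smul_smul₀ g0]
  have e3 : trace π = 1 := by rw [hπ, trace_smul, h2, smul_eq_mul, inv_mul_cancel₀ g0]
  have e4 : π * (1 - π) = 0 := by rw [mul_sub, mul_one, e2, sub_self]
  have e5 : (1 - π) * π = 0 := by rw [sub_mul, one_mul, e2, sub_self]
  have rk : ∀ l P Q, ∃ u v, P * R l * Q = vecMulVec u v := fun l P Q => by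
    obtain ⟨u, v, e⟩ := h1 l
    exact ⟨_, _, by rw [e, mul_vecMulVec, vecMulVec_mul]⟩
  have key : ∀ (P Q : Fin r → Matrix (Fin n) (Fin n) ℂ) (S T : Matrix (Fin n) (Fin n) ℂ) (w : ℤ),
      (∀ l ≠ i, Q l * P l = 1) → trace (S * R i * T) = w → w.natAbs < z.natAbs → ∀ L,
      Dormant (sysM a (fun l => if l = i then S * R i * T else P l * R l * Q l) e L) →
      Bd (sysM a (fun l => if l = i then S * R i * T else P l * R l * Q l) e L) := by
    intro P Q S T w k1 k2 k3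
    refine ih _ ?_ _ (fun l => if l = i then w else γ l) (fun l => ?_) (fun l => ?_) rfl
    · rw [← h3]
      refine sum_lt_sum (fun l _ => ?_) ⟨i, mem_univ _, by simpa [hz] using k3⟩
      by_cases m : l = i
      · simpa [m, hz] using k3.le
      · simp [m]
    · split_ifs <;> exact rk _ _ _
    · split_ifs with m
      · rw [k2, Rat.cast_intCast]
      · rw [trace_mul_cycle, k1 l m, one_mul, h2]
  rcases z0.lt_or_gt with k | k
  · obtain ⟨G, H, B, P, Q, k1, k2, k3⟩ := res2_step ha (h0 i) ⟨L, rfl⟩ (σ := 1 - π) (R := R)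
      (by rw [mul_sub, mul_one, e5, sub_zero])
      (by rw [e1, mul_smul_comm, e5, smul_zero, zero_mul])
    have e6 : (γ i : ℂ)⁻¹ • (((γ i : ℂ) + 1) • 1 + (1 - π) * B) * R i * 1 =
        ((γ i : ℂ) + 1) • π + (1 - π) * B * π := by
      rw [mul_one, smul_mul_assoc, ← mul_smul_comm, ← hπ, add_mul, smul_mul_assoc, one_mul]
    refine res2_tw ha k1 (fun l => if l = i then -1 else 0) ?_ (key P Q
      ((γ i : ℂ)⁻¹ • (((γ i : ℂ) + 1) • 1 + (1 - π) * B)) 1 (z + 1) k2 ?_ (by omega)) h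
    · convert k3 using 2 with l
      split_ifs
      · rw [e6, sub_sub_cancel, e1]
        simp only [mul_smul_comm, smul_mul_assoc, e5, e2, smul_zero, zero_mul, Rat.cast_neg,
          Rat.cast_one, map_neg, map_one, add_smul, one_smul]
        abel
      · simp
    · rw [e6, trace_add, trace_smul, e3, trace_mul_cycle, e4, zero_mul, trace_zero, hz]
      simp
  · obtain ⟨G, H, B, P, Q, k1, k2, k3⟩ := res2_step ha (h0 i) ⟨L, rfl⟩ (R := R) e2
      (by rw [e1, mul_smul_comm, e2, smul_mul_assoc, e4, smul_zero])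
    have e6 : 1 * R i * (γ i : ℂ)⁻¹ • (((γ i : ℂ) - 1) • 1 + B * (1 - π)) =
        ((γ i : ℂ) - 1) • π + π * B * (1 - π) := by
      rw [one_mul, mul_smul_comm, ← smul_mul_assoc, ← hπ, mul_add, mul_smul_comm, mul_one, mul_assoc]
    refine res2_tw ha k1 (fun _ => 0) ?_ (key P Q 1
      ((γ i : ℂ)⁻¹ • (((γ i : ℂ) - 1) • 1 + B * (1 - π))) (z - 1) k2 ?_ (by omega)) h
    · convert k3 using 2 with l
      split_ifs
      · rw [e6, e1]
        simp only [mul_smul_comm, smul_mul_assoc, e5, e2, smul_zero, zero_mul, Rat.cast_zero,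
          map_zero, sub_smul, one_smul]
        abel
      · simp
    · rw [e6, trace_add, trace_smul, e3, trace_mul_cycle, e5, zero_mul, trace_zero, hz]
      simp

theorem res_red (ha : Function.Injective a) (h0 : ∀ i, a i ≠ 0)
    (H : ∀ (R : Fin r → Matrix (Fin n) (Fin n) ℂ) (e : ℕ) (L : Matrix (Fin n) (Fin n) ℂ[X]),
      (∀ i, ∃ (u v : Fin n → ℂ) (γ : ℚ), R i = vecMulVec u v ∧ ∑ k, u k * v k = γ ∧
        ((∀ z : ℤ, γ ≠ z) ∨ vecMulVec u v = 0)) → Dormant (sysM a R e L) → Bd (sysM a R e L))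
    (R : Fin r → Matrix (Fin n) (Fin n) ℂ) (e : ℕ) (L : Matrix (Fin n) (Fin n) ℂ[X])
    (hR : ∀ i, ∃ c : ℂ, (R i - Matrix.scalar _ c).rank ≤ 1) (h : Dormant (sysM a R e L)) :
    Bd (sysM a R e L) := by
  choose c hc using hR
  choose F p₀ hp using res_pow ha h0 h
  choose q γ u v h1 h2 using fun i => res2_dec (hp i) (hc i)
  refine res2_tw (e := e) ha (mul_one 1) q ⟨L, ?_⟩ (res2_ind ha h0 H _ (fun i => vecMulVec (u i) (v i)) γ
    (fun i => ⟨_, _, rfl⟩) h2 rfl) h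
  rw [ga_one, mul_zero, sub_zero, mul_one, one_mul, show R = _ from funext h1]

end Pool.Agent.Lib.MP_815ef6_nt.Ch
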