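import Pool.Agent.Lib.MP_815ef6_nt.CS.Spn

/-! The existence of the spine. -/

namespace Pool.Agent.Lib.MP_815ef6_nt.Ch
open Finset LaurentPolynomial Matrix

open Polynomial in
theorem spn2_val {r : ℕ} {a : Fin (r + 1) → ℂ} (ha : ∀ i, a i ≠ 0)
    (hv : ∀ f : MvPolynomial (Fin r) ℚ,
      MvPolynomial.aeval (fun j : Fin r => a j.castSucc / a j.succ) f = 0 →
        MvPolynomial.constantCoeff f = 0) :
    ∃ (k : Subfield ℂ) (u : ℂ) (W : ValuationSubring ℂ), Transcendental k u ∧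
      (∀ x : ℂ, IsAlgebraic (frA k u) x) ∧ (∀ c ∈ k, c ∈ W) ∧ u⁻¹ ∉ W ∧
      StrictMono fun i => W.valuation (a i) := by
  obtain ⟨K, u, hu, hx⟩ := exists_van _ (fun j => div_ne_zero (ha _) (ha _)) hv
  obtain ⟨k, hK, hk, alg⟩ := exists_base K hu
  have le : (Algebra.adjoin k {u}).toSubring ≤ frA k u := by
    rw [Algebra.adjoin_eq_ring_closure, Subring.closure_le]
    rintro y (⟨c, rfl⟩ | rfl)
    exacts [fr_k c.2, fr_t]
  obtain ⟨W, h1, h2⟩ := Ideal.image_subset_nonunits_valuationSubring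
    (Ideal.span {(⟨u, fr_t⟩ : frA k u)}) fun e => vz_unit hk (Ideal.span_singleton_eq_top.1 e)
  have h3 : W.valuation u < 1 := W.mem_nonunits_iff.1 (h2 ⟨_, Ideal.subset_span rfl, rfl⟩)
  refine ⟨k, u, W, hk, fun x => (alg x).ringHom_of_comp_eq (Subring.inclusion le) (RingHom.id ℂ)
    (Subring.inclusion_injective le) rfl, fun c hc => h1 (fr_k hc),
    vr_not (fun e => hk (e ▸ isAlgebraic_zero)) h3, Fin.strictMono_iff_lt_succ.2 fun j => ?_⟩
  obtain ⟨d, b, hb, e⟩ := fr_van hK hk (hx j)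
  have k1 : a j.castSucc / a j.succ ∈ W :=
    vr_int h1 (fr_int (fun i => Subring.mul_mem _ fr_t (hb i)) e)
  have k2 : W.valuation ((a j.castSucc / a j.succ) ^ d) < 1 := by
    rw [e]
    simp only [mul_assoc, ← mul_sum]
    exact vr_mul h3 (sum_mem fun i _ => mul_mem (h1 (hb i)) (pow_mem k1 i))
  rw [map_pow, map_div₀] at k2
  exact (div_lt_one₀ (zero_lt_iff.2 ((Valuation.ne_zero_iff _).2 (ha _)))).1
    (lt_of_not_ge fun h => k2.not_ge (one_le_pow₀ h))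

open Polynomial in
theorem spn2_poly {k : Subfield ℂ} {u y : ℂ} {W : ValuationSubring ℂ} (hk : Transcendental k u)
    (hy : IsAlgebraic (frA k u) y) (h1 : ∀ c ∈ k, c ∈ W) (h2 : u⁻¹ ∉ W) (h3 : y ∈ W) :
    ∃ f : k[X], f.Monic ∧ f.natDegree ≠ 0 ∧ W.valuation (aeval y f) < 1 := by
  have := fr_dvr hk
  obtain ⟨p, p0, hp⟩ := hy
  obtain ⟨n, q, hq, rfl⟩ := WfDvdMonoid.max_power_factor' (x := Polynomial.C (⟨u, fr_t⟩ : frA k u))
    p0 fun e => vz_unit hk (isUnit_C.1 e)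
  have u0 : u ≠ 0 := fun e => hk (e ▸ isAlgebraic_zero)
  rw [map_mul, map_pow, aeval_C, mul_eq_zero, aeval_eq_sum_range] at hp
  replace hp := hp.resolve_left (pow_ne_zero n u0)
  choose c z hz e using fun i => fr_mod hk (q.coeff i).2
  obtain ⟨g, hg⟩ : ∃ g : k[X], g = ∑ i ∈ range (q.natDegree + 1), monomial i (c i) := ⟨_, rfl⟩
  have g0 : g ≠ 0 := fun g0 => hq ((C_dvd_iff_dvd_coeff _ _).2 fun i => by
    rcases le_or_gt i q.natDegree with hi | hi
    · have k1 : c i = 0 := by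
        have := congrArg (coeff · i) hg
        simpa [g0, coeff_monomial, Nat.lt_succ_iff, hi] using this.symm
      exact ⟨⟨z i, hz i⟩, Subtype.ext (by rw [e, k1]; simp)⟩
    · simp [coeff_eq_zero_of_natDegree_lt hi])
  have g1 : W.valuation (aeval y g) < 1 := by
    rw [show aeval y g = u * -∑ i ∈ range (q.natDegree + 1), z i * y ^ i by
      rw [hg, map_sum, mul_neg, eq_neg_iff_add_eq_zero, mul_sum, ← sum_add_distrib, ← hp]
      refine sum_congr rfl fun i _ => ?_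
      rw [aeval_monomial, ← mul_assoc, ← add_mul]
      exact congrArg (· * y ^ i) (e i).symm]
    exact vr_mul (vr_lt h2) (neg_mem (sum_mem fun i _ =>
      mul_mem (vr_A h1 h2 (hz i)) (pow_mem h3 i)))
  have g2 := monic_mul_leadingCoeff_inv g0
  have g3 : W.valuation (aeval y (g * Polynomial.C g.leadingCoeff⁻¹)) < 1 := by
    rw [map_mul, aeval_C]
    exact vr_mul g1 (h1 _ (g.leadingCoeff⁻¹).2)
  refine ⟨_, g2, fun h => ?_, g3⟩
  rw [g2.natDegree_eq_zero.1 h] at g3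
  simp at g3

open Polynomial in
theorem spn2_frame (K : Subfield ℂ) {t : ℂ} (ht : Transcendental K t) (F : Finset ℂ) :
    ∃ O, Frame O t ∧ (∀ x ∈ F, ∃ e : ℕ, t ^ e * x ∈ O) ∧ (∀ x ∈ F, Van K t x → Sm O t x) ∧
      ∀ x ∈ F, ∀ f : K[X], f.Monic → f.natDegree ≠ 0 → Van K t (aeval x f) → x ∈ O := by
  obtain ⟨k, hK, hk, alg⟩ := exists_base K ht
  have := fr_dvr hk
  have le : (Algebra.adjoin k {t}).toSubring ≤ frA k t := by
    rw [Algebra.adjoin_eq_ring_closure, Subring.closure_le]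
    rintro y (⟨c, rfl⟩ | rfl)
    exacts [fr_k c.2, fr_t]
  have alg' : ∀ x : ℂ, IsAlgebraic (frA k t) x := fun x =>
    (alg x).ringHom_of_comp_eq (Subring.inclusion le) (RingHom.id ℂ)
      (Subring.inclusion_injective le) rfl
  obtain ⟨O, n, b, pid, hA, hb, hs, hi, hx⟩ := fr_closure F fun x _ => alg' x
  have hO : ∀ x ∈ F, IsIntegral (frA k t) x → x ∈ O := fun x h k1 =>
    one_mul x ▸ hx x h 1 (Subring.one_mem _) (by rwa [one_mul])
  refine ⟨O, ⟨pid, fun q => hA (fr_k (SubfieldClass.ratCast_mem k q)), hA fr_t,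
    fun t0 => ht (t0 ▸ isAlgebraic_zero), fun s hp hd => fr_res hk hA hb hs hp hd,
    fr_sub hk hA hb hs hi⟩, fun x h => ?_, fun x h hv => ?_, fun x h f f1 f2 hv => ?_⟩
  · obtain ⟨y, y0, hy⟩ := (alg' x).exists_integral_multiple
    obtain ⟨e, z, hz, e'⟩ := fr_pow hk y.2 fun h => y0 (Subtype.ext h)
    refine ⟨e, ?_⟩
    rw [e', mul_assoc]
    exact O.mul_mem (hA hz) (hx x h y y.2 hy)
  · obtain ⟨d, a, ha, e⟩ := fr_van hK hk hv
    have k1 := hO x h (fr_int (fun j => Subring.mul_mem _ fr_t (ha j)) e)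
    exact ⟨k1, d, ∑ j ∈ range d, a j * x ^ j, O.sum_mem fun j _ =>
      O.mul_mem (hA (ha j)) (O.pow_mem k1 j), by simp only [e, mul_sum, mul_assoc]⟩
  · obtain ⟨d, a, ha, e⟩ := fr_van hK hk hv
    let φ : K →+* frA k t := K.subtype.codRestrict _ fun c => fr_k (hK c.2)
    refine hO x h (IsIntegral.of_aeval_monic (f1.map φ) (by rwa [f1.natDegree_map]) ?_)
    rw [aeval_def, eval₂_map]
    exact fr_int (fun j => Subring.mul_mem _ fr_t (ha j)) e

theorem spn2_par {k : Subfield ℂ} {u : ℂ} {W : ValuationSubring ℂ} (hk : Transcendental k u)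
    (hy : ∀ y : ℂ, IsAlgebraic (frA k u) y) (h1 : ∀ c ∈ k, c ∈ W) (h2 : u⁻¹ ∉ W) (G : Finset ℂ) :
    ∃ t : ℂ, ∀ F : Finset ℂ, ∃ O, Frame O t ∧ (∀ y ∈ F, ∃ e : ℕ, t ^ e * y ∈ O) ∧
      ∀ y ∈ G, (W.valuation y < 1 → Sm O t y) ∧ (W.valuation y ≤ 1 → y ∈ O) := by
  classical
  choose! f f1 f2 f3 using fun y (h : y ∈ W) => spn2_poly hk (hy y) h1 h2 h
  obtain ⟨g, k1, k2⟩ := van_rr hk (G ∪ G.image fun y => Polynomial.aeval y (f y))
    (fun y _ => hy y) h1 h2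
  have k3 : Transcendental k g⁻¹ := fun l => k1 (by
    obtain ⟨y, rfl⟩ := (IsIntegrallyClosedIn.isIntegral_iff (R := W)).1
      ((IsAlgebraic.inv_iff.1 l).isIntegral.map_of_comp_eq
        (k.subtype.codRestrict W fun c => h1 _ c.2) (RingHom.id ℂ) rfl)
    exact y.2)
  have k4 : ∀ z ∈ G ∪ G.image fun y => Polynomial.aeval y (f y), W.valuation z < 1 →
      Van k g⁻¹ z := fun z hz h => by
    rcases eq_or_ne z 0 with rfl | z0
    · exact ⟨1, fun j => (j : Polynomial k), by simp, by simp, by simp [sum_range_succ]⟩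
    · exact van_of (fun l => k1 (l ▸ W.zero_mem)) z0 fun V a b => k2 V a b _ hz (vr_not z0 h)
  refine ⟨g⁻¹, fun F => ?_⟩
  obtain ⟨O, o1, o2, o3, o4⟩ := spn2_frame k k3 (F ∪ G)
  refine ⟨O, o1, fun y h => o2 y (mem_union_left _ h), fun y h => ⟨fun l =>
    o3 y (mem_union_right _ h) (k4 y (mem_union_left _ h) l), fun l => ?_⟩⟩
  have l' := (W.valuation_le_one_iff y).1 l
  exact o4 y (mem_union_right _ h) (f y) (f1 y l') (f2 y l')
    (k4 _ (mem_union_right _ (mem_image_of_mem _ h)) (f3 y l'))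

theorem chain_inj {r : ℕ} {a : Fin (r + 1) → ℂ} (ha : ∀ i, a i ≠ 0)
    (hv : ∀ f : MvPolynomial (Fin r) ℚ,
      MvPolynomial.aeval (fun j : Fin r => a j.castSucc / a j.succ) f = 0 →
        MvPolynomial.constantCoeff f = 0) : Function.Injective a := by
  obtain ⟨k, u, W, -, -, -, -, h⟩ := spn2_val ha hv
  exact fun i j e => h.injective (congrArg W.valuation e)

theorem spine {r M : ℕ} {a : Fin (r + 1) → ℂ} (ha : ∀ i, a i ≠ 0)
    (hv : ∀ f : MvPolynomial (Fin r) ℚ,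
      MvPolynomial.aeval (fun j : Fin r => a j.castSucc / a j.succ) f = 0 →
        MvPolynomial.constantCoeff f = 0) {β : Fin M → ℂ} (hβ : ∀ l, β l ≠ 0)
    (hab : ∀ i, ∃ l, β l = a i) :
    ∃ (R : ℕ) (cls : Fin M → Fin (R + 1)) (x : Fin (R + 1) → ℂ) (t : ℂ), (∀ j, ∃ l, x j = β l) ∧
      (∀ l i, β l = a i → x (cls l) = a i) ∧ ∀ F : Finset ℂ, ∃ O, Frame O t ∧
        (∀ y ∈ F, ∃ e : ℕ, t ^ e * y ∈ O) ∧ Spn O t β cls x := by
  classical
  obtain ⟨k, u, W, hk, hy, h1, h2, h3⟩ := spn2_val ha hv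
  obtain ⟨t, ht⟩ := spn2_par hk hy h1 h2 (univ.image fun p : Fin M × Fin M => β p.1 / β p.2)
  obtain ⟨S, hS⟩ : ∃ S, S = univ.image fun l => W.valuation (β l) := ⟨_, rfl⟩
  have m : ∀ l, W.valuation (β l) ∈ S := fun l => hS ▸ mem_image_of_mem _ (mem_univ l)
  obtain ⟨R, hR⟩ : ∃ R, S.card = R + 1 := Nat.exists_eq_succ_of_ne_zero
    (card_ne_zero.2 ⟨_, m (hab 0).choose⟩)
  let e := S.orderIsoOfFin hR
  have k1 : ∀ j, ∃ l, W.valuation (β l) = e j ∧ ∀ i, W.valuation (a i) = e j → β l = a i :=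
    fun j => by
    by_cases h : ∃ i, W.valuation (a i) = e j
    · obtain ⟨i, hi⟩ := h
      obtain ⟨l, hl⟩ := hab i
      exact ⟨l, hl ▸ hi, fun i' h' => h3.injective (hi.trans h'.symm) ▸ hl⟩
    · obtain ⟨l, -, hl⟩ := mem_image.1 (hS.le (e j).2)
      exact ⟨l, hl, fun i h' => (h ⟨i, h'⟩).elim⟩
  choose σ s1 s2 using k1
  have s3 : ∀ l, W.valuation (β l) = e (e.symm ⟨_, m l⟩) := fun l => by
    rw [e.apply_symm_apply]
  refine ⟨R, fun l => e.symm ⟨_, m l⟩, fun j => β (σ j), t, fun j => ⟨_, rfl⟩,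
    fun l i h => s2 _ _ (h ▸ s3 l), fun F => ?_⟩
  obtain ⟨O, o1, o2, o3⟩ := ht F
  have p : ∀ l, 0 < W.valuation (β l) := fun l =>
    zero_lt_iff.2 ((Valuation.ne_zero_iff _).2 (hβ l))
  have q1 : ∀ l l' j j', W.valuation (β l) = e j → W.valuation (β l') = e j' → j < j' →
      Sm O t (β l / β l') := fun l l' j j' e1 e2 h =>
    (o3 _ (mem_image_of_mem _ (mem_univ (l, l')))).1 (by
      rw [map_div₀, div_lt_one₀ (p l'), e1, e2]
      exact e.strictMono h)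
  have q2 : ∀ l l', W.valuation (β l) = W.valuation (β l') → β l / β l' ∈ O := fun l l' h =>
    (o3 _ (mem_image_of_mem _ (mem_univ (l, l')))).2 (by
      rw [map_div₀, div_le_one₀ (p l'), h])
  exact ⟨O, o1, o2, fun l j h => q1 _ _ _ _ (s3 l) (s1 j) h,
    fun l j h => q1 _ _ _ _ (s1 j) (s3 l) h,
    fun l => ⟨q2 _ _ ((s3 l).trans (s1 _).symm), q2 _ _ ((s1 _).trans (s3 l).symm)⟩,
    fun j => q1 _ _ _ _ (s1 _) (s1 _) Fin.castSucc_lt_succ⟩

end Pool.Agent.Lib.MP_815ef6_nt.Ch
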