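import Pool.Agent.Lib.MP_815ef6_nt.CS.Top2
import Pool.Agent.Lib.MP_815ef6_nt.CS.Spn2
import Pool.Agent.Lib.MP_815ef6_nt.CS.Cyc2
import Pool.Agent.Lib.MP_815ef6_nt.CS.Res2

/-! The theorem for systems with simple poles. -/

namespace Pool.Agent.Lib.MP_815ef6_nt.Ch
open Finset Polynomial Matrix Filter

variable {n r : ℕ}

theorem bd_of_rr {Δ : ℂ[X]} (hΔ : Δ ≠ 0) {Q : Fin (n + 1) → ℂ[X]} {T : Finset ℂ}
    (hT : ∀ i₀ ≤ n, ∀ m : ℕ, ∀ i ≤ n, ∀ e, ∃ y ∈ cl T,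
      (rr dz 1 n (Lz Δ Q) (bs _ i₀) m i).coeff e = m.factorial * y) : Bd (compM Δ Q) := by
  classical
  refine ⟨T ∪ (X * Δ).coeffs, X * Δ, mul_ne_zero X_ne_zero hΔ, fun i => ?_, fun m i j => ?_⟩
  · by_cases l : (X * Δ).coeff i = 0
    · exact l ▸ zero_mem _
    · exact Subring.subset_closure (mem_union_right _ (coeff_mem_coeffs l))
  have m0 : (m.factorial : ℂ) ≠ 0 := Nat.cast_ne_zero.2 m.factorial_ne_zero
  refine ⟨am (C (m.factorial : ℂ)⁻¹) * Aseq (compM Δ Q) m i j,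
    ⟨C (m.factorial : ℂ)⁻¹ * rr dz 1 n (Lz Δ Q) (bs _ i) m j, m, fun k => ?_, by
      rw [map_mul am (C _), ← aseq_eq hΔ, mul_assoc, mul_comm (Aseq _ _ _ _)]⟩, ?_⟩
  · obtain ⟨y, hy, l⟩ := hT i (by omega) m j (by omega) k
    rw [Polynomial.coeff_C_mul, l, inv_mul_cancel_left₀ m0]
    exact Subring.closure_mono (coe_subset.2 subset_union_left) hy
  · rw [← mul_assoc, ← map_natCast am, ← map_mul, ← map_natCast (C : ℂ →+* ℂ[X]), ← map_mul,
      mul_inv_cancel₀ m0, map_one, map_one, one_mul]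

theorem bd_sys {a : Fin (r + 1) → ℂ} (ha : ∀ i, a i ≠ 0)
    (hv : ∀ f : MvPolynomial (Fin r) ℚ,
      MvPolynomial.aeval (fun j : Fin r => a j.castSucc / a j.succ) f = 0 →
        MvPolynomial.constantCoeff f = 0) (R : Fin (r + 1) → Matrix (Fin n) (Fin n) ℂ) (e : ℕ)
    (L : Matrix (Fin n) (Fin n) ℂ[X]) (hR : ∀ i, ∃ c : ℂ, (R i - Matrix.scalar _ c).rank ≤ 1)
    (h : Dormant (sysM a R e L)) : Bd (sysM a R e L) := by
  classical
  have inj := chain_inj ha hv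
  refine res_red inj ha (fun R e L hR h => ?_) R e L hR h
  cases n with
  | zero => exact ⟨∅, 1, one_ne_zero, fun i => by
      rw [coeff_one]
      split_ifs
      exacts [one_mem _, zero_mem _], fun _ i => i.elim0⟩
  | succ n =>
  obtain ⟨Ao, h1, h2⟩ := sys_poly a R e L
  obtain ⟨M, β, P, no, Wo, b0, hab, dg, dm, bd, rel, n0, W0, rt⟩ := base_data ha h
    (mul_ne_zero (pow_ne_zero e X_ne_zero) (prod_ne_zero_iff.2 fun i _ => X_sub_C_ne_zero _)) h1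
  have mo : (∏ l, (X - C (β l))).Monic := monic_prod_of_monic _ _ fun x _ => monic_X_sub_C _
  obtain ⟨R', cls, x, t, hx, hxa, hF⟩ := spine ha hv b0 hab
  obtain ⟨F₀, p₀, h3⟩ := dorm_all mo.ne_zero dm
  obtain ⟨F₁, h4⟩ := Ln_dm (β := β) (cls := cls) x h3
  choose u v γ k1 k2 k3 using hR
  have hξ : ∀ (x : ℂ) (m : ℕ), ∃ ξ : ℂ, ξ ^ (m + 1) = x := fun x m =>
    IsAlgClosed.exists_pow_nat_eq x m.succ_pos
  choose ξ hξ using hξ
  set Z := Lz (∏ l, (X - C (β l))) P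
  obtain ⟨F, f1, f2, f3, f4, f5, f6, f7, f8⟩ := ((ev_le F₁).and ((eventually_all.2 fun l =>
    (ev_mem (β l)).and (ev_mem (β l)⁻¹)).and ((eventually_all.2 fun i => eventually_all.2 fun k =>
      ev_poly (Ao i k)).and ((eventually_all.2 fun i => eventually_all.2 fun k =>
      ev_poly (Wo i k)).and (((ev_mem no.leadingCoeff).and (ev_mem no.leadingCoeff⁻¹)).and
      (((ev_mem Wo.det.leadingCoeff).and (ev_mem Wo.det.leadingCoeff⁻¹)).and
      ((eventually_all.2 fun i => eventually_all.2 fun k => ev_mem (u i k)).and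
      (eventually_all.2 fun j => eventually_all.2 fun b => (eventually_all_finset (range (n + 1))).2
        fun i _ => (eventually_all_finset (Ln β cls Z (ps j b) (x j) i).coeff.support).2 fun k _ =>
          ev_mem (ξ ((Ln β cls Z (ps j b) (x j) i).coeff k) (n - i)))))))))).exists
  obtain ⟨O, H, m1, sp⟩ := hF F
  have m : ∀ {y}, y ∈ cl F → y ∈ Lo O H.mem := lo_cl H.mem m1
  have dg' : ∀ i, (Z i).natDegree ≤ M := fun i => by
    simp only [Z, Lz]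
    split_ifs
    · exact dg _
    · rw [natDegree_prod_of_monic _ _ fun x _ => monic_X_sub_C _]
      simp
  obtain ⟨T, hT⟩ := St2.main (Z := Z) (F := F) (p₀ := p₀) ⟨H, sp, b0, hx, dg',
    dif_neg (lt_irrefl _), m1, fun p hp h0 j b i₀ h₀ i hi => (h4 p hp h0 j b i₀ h₀ i hi).imp
      fun g hg => ⟨LS_mono f1 hg.1, hg.2⟩, fun j b i hi k hk => ⟨_, Nat.succ_sub hi ▸ hξ _ (n - i),
        m (f8 j b i (mem_range.2 (by omega)) k hk)⟩⟩ (fun l => ⟨m (f2 l).1, m (f2 l).2⟩) inj hab hxa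
    rfl (by rwa [show Z (n + 1) = _ from dif_neg (lt_irrefl _)]) (fun i k c => m (f3 i k c))
    (fun i k c => m (f4 i k c)) n0 ⟨m f5.1, m f5.2⟩ W0 ⟨m f6.1, m f6.2⟩ rt
    fun i => ⟨u i, v i, γ i, fun k => m (f7 i k), k1 i ▸ h2 i, k2 i, k3 i⟩
  exact bd (bd_of_rr mo.ne_zero hT)

end Pool.Agent.Lib.MP_815ef6_nt.Ch
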