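import Pool.Agent.Lib.MP_815ef6_nt.CS.MDx

/-! Formal solutions at a regular singular end. -/

namespace Pool.Agent.Lib.MP_815ef6_nt.Ch
open Finset LaurentPolynomial Matrix

section
variable {R R' : Type*} [CommRing R] [CommRing R'] {ι : Type*} [Fintype ι] [DecidableEq ι]
  {b : Bool} {q : R[T;T⁻¹]} {A : Matrix ι ι R[T;T⁻¹]} {K : ι → R} {a a' : ℤ} {f g : Ls R}
  {V V' : Matrix ι ι (Ls R)}

/-- No coefficients below `a`. -/
def frobG (a : ℤ) (f : Ls R) : Prop := ∀ c, c < a → f.coeff c = 0

/-- The same for matrices. -/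
def frobM {ι : Type*} (a : ℤ) (V : Matrix ι ι (Ls R)) : Prop := ∀ i j, frobG a (V i j)

theorem frob_mul (hf : frobG a f) (hg : frobG a' g) :
    frobG (a + a') (f * g) ∧ (f * g).coeff (a + a') = f.coeff a * g.coeff a' := by
  constructor
  · intro c hc
    rw [HahnSeries.coeff_mul]
    refine sum_eq_zero fun x hx => ?_
    have e := (mem_antidiagonal.1 hx).2.2
    by_cases h : x.1 < a
    · rw [hf _ h, zero_mul]
    · rw [hg _ (by omega), mul_zero]
  · rw [HahnSeries.coeff_mul]
    refine sum_eq_single (a, a') (fun x hx n => ?_) fun h => ?_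
    · have e := (mem_antidiagonal.1 hx).2.2
      by_cases h : x.1 < a
      · rw [hf _ h, zero_mul]
      · have : x.1 ≠ a := fun t => n (Prod.ext t (by dsimp only; omega))
        rw [hg _ (by omega), mul_zero]
    · by_contra k
      exact h (mem_antidiagonal.2 ⟨left_ne_zero_of_mul k, right_ne_zero_of_mul k, rfl⟩)

theorem frob_mul0 (hf : frobG 0 f) (hg : frobG a g) :
    frobG a (f * g) ∧ (f * g).coeff a = f.coeff 0 * g.coeff a := by
  simpa only [zero_add] using frob_mul hf hg

theorem frob_df_apply (i j : ι) : df b q A K V i j = io b q * dS b (V i j) -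
    ∑ l, io b (A i l) * V l j + io b q * (cS (K j) * V i j) := by
  rw [df, gf, Matrix.mul_smul, Matrix.add_apply, Matrix.sub_apply, Matrix.smul_apply,
    Matrix.smul_apply, mul_diagonal, mul_apply, mul_comm (V i j)]
  rfl

theorem frob_df_add : df b q A K (V + V') = df b q A K V + df b q A K V' := by
  refine Matrix.ext fun i j => ?_
  simp only [Matrix.add_apply, frob_df_apply, (dv_dS b).add, mul_add, sum_add_distrib]
  ring

theorem frob_io (h : ∀ a, sg b * a < 0 → (0 : R) ∣ q.coeff a) : frobG 0 (io b q) := fun c hc => by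
  rw [coeff_io]
  exact zero_dvd_iff.1 (h _ (by rwa [← mul_assoc, sg_sq, one_mul]))

omit [Fintype ι] [DecidableEq ι] in
theorem frob_one (re : Re 0 b q A) : (io b q).coeff 0 = 1 := by
  rw [coeff_io, mul_zero]
  exact sub_eq_zero.1 (zero_dvd_iff.1 re.one)

theorem frob_df (re : Re 0 b q A) (h : frobM a V) : frobM a (df b q A K V) ∧ ∀ i j,
    (df b q A K V i j).coeff a = (sg b * a : ℤ) * (V i j).coeff a -
      ∑ l, (A i l).coeff 0 * (V l j).coeff a + K j * (V i j).coeff a := by
  have h1 := fun i j => frob_mul0 (frob_io re.pl) (g := dS b (V i j)) (a := a) fun c hc => by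
    rw [coeff_dS, h i j c hc, mul_zero]
  have h2 := fun i l j => frob_mul0 (frob_io (re.pc i l)) (h l j)
  have h3 := fun i j => frob_mul0 (frob_io re.pl) (g := cS (K j) * V i j) (a := a) fun c hc => by
    rw [coeff_cS_mul, h i j c hc, mul_zero]
  refine ⟨fun i j c hc => ?_, fun i j => ?_⟩
  · rw [frob_df_apply, HahnSeries.coeff_add, HahnSeries.coeff_sub, HahnSeries.coeff_sum,
      (h1 i j).1 c hc, (h3 i j).1 c hc, sum_eq_zero fun l _ => (h2 i l j).1 c hc, sub_zero,
      add_zero]
  · rw [frob_df_apply, HahnSeries.coeff_add, HahnSeries.coeff_sub, HahnSeries.coeff_sum,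
      (h1 i j).2, (h3 i j).2, sum_congr rfl fun l _ => (h2 i l j).2, frob_one re, one_mul, one_mul,
      coeff_dS, coeff_cS_mul]
    simp only [coeff_io, mul_zero]

theorem frob_lead (re : Re 0 b q A) {P Y : Matrix ι ι R}
    (eig : A.map (fun f => f.coeff 0) * P = P * diagonal K) (h : frobM a V)
    (e : ∀ i j, (V i j).coeff a = (P * Y) i j) (i j : ι) : (df b q A K V i j).coeff a =
      ∑ m, P i m * ((((sg b * a : ℤ) : R) - K m + K j) * Y m j) := by
  have k : ∑ l, (A i l).coeff 0 * (P * Y) l j = ∑ m, P i m * K m * Y m j := by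
    have t : A.map (fun f => f.coeff 0) * (P * Y) = P * diagonal K * Y := by
      rw [← Matrix.mul_assoc, eig]
    have := congrFun (congrFun t i) j
    rw [mul_apply, mul_apply (M := P * diagonal K)] at this
    simpa only [Matrix.map_apply, mul_diagonal] using this
  rw [(frob_df re h).2]
  simp only [e]
  rw [k, mul_apply, mul_sum, mul_sum, ← sum_sub_distrib, ← sum_add_distrib]
  exact sum_congr rfl fun m _ => by ring

theorem frob_inv (h : frobG 0 f) (h1 : f.coeff 0 = 1) :
    ∃ u : Ls R, u * f = 1 ∧ frobG 0 u ∧ u.coeff 0 = 1 := by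
  have hu : IsUnit f := by
    refine HahnSeries.isUnit_of_orderTop_pos ?_
    induction e : (f - 1).orderTop using WithTop.recTopCoe with
    | top => exact WithTop.coe_lt_top 0
    | coe c =>
      refine WithTop.coe_lt_coe.2 (not_le.1 fun k => HahnSeries.coeff_orderTop_ne e ?_)
      rw [HahnSeries.coeff_sub, HahnSeries.coeff_one]
      rcases k.lt_or_eq with k | k
      · rw [h c k, if_neg k.ne, sub_zero]
      · rw [k, h1, if_pos rfl, sub_self]
  obtain ⟨u, hu⟩ := hu.exists_left_inv
  have k : frobG 0 u := fun c hc => by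
    by_contra n
    have e := (frob_mul (f := u) (a := u.order)
      (fun _ => HahnSeries.coeff_eq_zero_of_lt_order) h).2
    have o := HahnSeries.order_le_of_coeff_ne_zero n
    rw [hu, h1, mul_one, add_zero, HahnSeries.coeff_one, if_neg (by omega)] at e
    exact HahnSeries.coeff_order_eq_zero.not.2 (HahnSeries.ne_zero_of_coeff_ne_zero n) e.symm
  refine ⟨u, hu, k, ?_⟩
  have e := (frob_mul0 k h).2
  rw [hu, h1, mul_one, HahnSeries.coeff_one, if_pos rfl] at e
  exact e.symm

omit [Fintype ι] [DecidableEq ι] in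
theorem frobM.add (h : frobM a V) (h' : frobM a V') : frobM a (V + V') := fun i j c hc => by
  rw [Matrix.add_apply, HahnSeries.coeff_add, h i j c hc, h' i j c hc, add_zero]

omit [Fintype ι] [DecidableEq ι] in
theorem frobM.succ (h : frobM a V) (h' : ∀ i j, (V i j).coeff a = 0) : frobM (a + 1) V :=
  fun i j c hc => by
    rcases (Int.lt_add_one_iff.1 hc).lt_or_eq with k | k
    · exact h i j c k
    · rw [k, h']

omit [Fintype ι] [DecidableEq ι] in
theorem frobM.map (h : frobM a V) (φ : R →+* R') : frobM a (V.map (mL φ)) := fun i j c hc => by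
  rw [Matrix.map_apply, coeff_mL, h i j c hc, map_zero]

omit [Fintype ι] [DecidableEq ι] in
theorem frobM.comap {φ : R →+* R'} (hφ : Function.Injective φ) (h : frobM a (V.map (mL φ))) :
    frobM a V := fun i j c hc => hφ ((h i j c hc).trans (map_zero φ).symm)

omit [Fintype ι] [DecidableEq ι] in
theorem frob_re_map (re : Re 0 b q A) (φ : R →+* R') : Re 0 b (mp φ q) (A.map (mp φ)) := by
  refine ⟨fun a h => ?_, ?_, fun i j a h => ?_⟩
  · rw [coeff_mp, zero_dvd_iff.1 (re.pl a h), map_zero]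
  · rw [coeff_mp, sub_eq_zero.1 (zero_dvd_iff.1 re.one), map_one, sub_self]
  · rw [Matrix.map_apply, coeff_mp, zero_dvd_iff.1 (re.pc i j a h), map_zero]

omit [Fintype ι] [DecidableEq ι] in
theorem frob_re_comap {φ : R →+* R'} (hφ : Function.Injective φ)
    (re : Re 0 b (mp φ q) (A.map (mp φ))) : Re 0 b q A := by
  refine ⟨fun a h => zero_dvd_iff.2 (hφ ?_), zero_dvd_iff.2 (hφ ?_),
    fun i j a h => zero_dvd_iff.2 (hφ ?_)⟩
  · rw [map_zero, ← coeff_mp, zero_dvd_iff.1 (re.pl a h)]
  · rw [φ.map_zero, map_sub, map_one, ← coeff_mp, zero_dvd_iff.1 re.one]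
  · rw [map_zero, ← coeff_mp]
    exact zero_dvd_iff.1 (re.pc i j a h)

theorem frob_p {p : ℕ} (hp : p.Prime) (h0 : (p : R) = 0) (re : Re 0 b q A) (hA : Am th q A p = 0)
    (hK : ∀ i, K i ^ p = K i) (h1 : frobM a (df b q A K V))
    (h2 : frobM (a + 1) (df b q A K (df b q A K V))) (i j : ι) :
    (df b q A K V i j).coeff a = 0 := by
  obtain ⟨u, hu, u0, u1⟩ := frob_inv (frob_io re.pl) (frob_one re)
  have sm : ∀ {a : ℤ} {Z : Matrix ι ι (Ls R)}, frobM a Z → frobM a (u • Z) ∧
      ∀ i j, ((u • Z) i j).coeff a = (Z i j).coeff a := fun h =>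
    ⟨fun i j => (frob_mul0 u0 (h i j)).1, fun i j =>
      (frob_mul0 u0 (h i j)).2.trans (by rw [u1, one_mul])⟩
  have k := proj_mem hp h0 hA hu hK (W := {Z | frobM (a + 1) Z})
    (fun Z hZ => (sm (frob_df re hZ).1).1) (Y := V) (by
      refine (sm ?_).1
      rw [← add_sub_cancel (df b q A K V) (u • df b q A K V), frob_df_add]
      refine h2.add (frob_df re (frobM.succ (fun i j c hc => ?_) fun i j => ?_)).1
      · rw [Matrix.sub_apply, HahnSeries.coeff_sub, (sm h1).1 i j c hc, h1 i j c hc, sub_zero]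
      · rw [Matrix.sub_apply, HahnSeries.coeff_sub, (sm h1).2, sub_self])
  rw [← (sm h1).2]
  exact k i j a (lt_add_one a)

theorem frob_B (re : Re 0 b q A) (mb : MB q A)
    (hK : ∀ p : ℕ, p.Prime → ∀ i, (p : R) ∣ K i ^ p - K i) (h1 : frobM a (df b q A K V))
    (h2 : frobM (a + 1) (df b q A K (df b q A K V))) : ∃ p₀ : ℕ, ∀ p : ℕ, p.Prime → p₀ ≤ p →
      ∀ i j, (p : R) ∣ (df b q A K V i j).coeff a := by
  obtain ⟨p₀, h⟩ := mb
  refine ⟨p₀, fun p hp hle i j => ?_⟩
  let π := Ideal.Quotient.mk (Ideal.span {(p : R)})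
  have z : ∀ x, π x = 0 ↔ (p : R) ∣ x := fun x =>
    Ideal.Quotient.eq_zero_iff_mem.trans Ideal.mem_span_singleton
  have h0 : (p : R ⧸ Ideal.span {(p : R)}) = 0 := (map_natCast π p).symm.trans ((z _).2 dvd_rfl)
  have k := frob_p (K := fun i => π (K i)) (V := V.map (mL π)) (a := a) hp h0 (frob_re_map re π)
    (by
      rw [← Am_map (mp π) (mp_th π)]
      refine Matrix.ext fun i j => ?_
      obtain ⟨y, e⟩ := h p hp hle i j
      rw [Matrix.map_apply, e, map_mul, map_natCast, ← map_natCast C, h0, map_zero, zero_mul,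
        Matrix.zero_apply])
    (fun i => by rw [← sub_eq_zero, ← map_pow, ← map_sub]; exact (z _).2 (hK p hp i))
    (by rw [← df_map]; exact h1.map π) (by rw [← df_map, ← df_map]; exact h2.map π) i j
  rw [← df_map] at k
  exact (z _).1 k

theorem frob_lift {φ : R →+* R'} {f : Ls R'} (h : ∀ a, f.coeff a ∈ φ.range) :
    ∃ g, mL φ g = f := by
  classical
  choose y hy using h
  refine ⟨⟨fun a => if f.coeff a = 0 then 0 else y a, f.isPWO_support.mono fun a h l => h (if_pos l)⟩,
    HahnSeries.ext (funext fun a => ?_)⟩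
  rw [coeff_mL]
  dsimp only
  split_ifs with l
  · rw [l, map_zero]
  · exact hy a

end

theorem frob_C {ι : Type*} [Fintype ι] [DecidableEq ι] {b : Bool} {q : ℂ[T;T⁻¹]}
    {A : Matrix ι ι ℂ[T;T⁻¹]} {κ : ι → ℚ} {V : Matrix ι ι (Ls ℂ)} {a : ℤ} (re : Re 0 b q A)
    (md : MD q A) (F : Finset ℂ) (hF : ∀ i j c, (V i j).coeff c ∈ cl F)
    (h1 : frobM a (df b q A (fun i => (κ i : ℂ)) V))
    (h2 : frobM (a + 1) (df b q A (fun i => (κ i : ℂ)) (df b q A (fun i => (κ i : ℂ)) V)))
    (i j : ι) : (df b q A (fun i => (κ i : ℂ)) V i j).coeff a = 0 := by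
  classical
  obtain ⟨S, hS, q', B, rfl, rfl, mb⟩ := md.mb (F ∪ univ.image fun i => ((κ i).den : ℂ)⁻¹)
  have inj : Function.Injective (cl S).subtype := Subtype.val_injective
  have hν : ∀ i, ((κ i).den : ℂ)⁻¹ ∈ cl S := fun i =>
    kr_mem (hS (mem_union_right _ (mem_image_of_mem _ (mem_univ i))))
  choose W hW using fun i j => frob_lift (φ := (cl S).subtype) (f := V i j) fun c =>
    ⟨⟨_, kr_mono (subset_union_left.trans hS) (hF i j c)⟩, rfl⟩
  obtain rfl : (Matrix.of W).map (mL (cl S).subtype) = V := Matrix.ext hW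
  have e : (fun i => (κ i : ℂ)) =
      fun i => (cl S).subtype (((κ i).num : cl S) * ⟨_, hν i⟩) := funext fun i => by
    rw [map_mul, map_intCast, Rat.cast_def, div_eq_mul_inv]
    rfl
  rw [e, ← df_map] at h1 h2 ⊢
  rw [← df_map] at h2
  obtain ⟨p₀, h⟩ := frob_B (frob_re_comap inj re) mb (fun p hp i => frob_dvd (N := (κ i).den)
    (Subtype.ext (mul_inv_cancel₀ (Nat.cast_ne_zero.2 (κ i).den_nz))) _ hp)
    (h1.comap inj) (h2.comap inj)
  refine fg_zero S p₀ fun p hp hle => ?_
  obtain ⟨y, hy⟩ := h p hp hle i j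
  exact ⟨1, y, y.2, by rw [pow_one, Matrix.map_apply, coeff_mL, hy]; rfl⟩

theorem frob_step {k : Type} [Field k] (φ : k →+* ℂ) {ι : Type*} [Fintype ι] [DecidableEq ι]
    {b : Bool} {l : k[T;T⁻¹]} {Cm : Matrix ι ι k[T;T⁻¹]} (re : Re 0 b l Cm) {P P' : Matrix ι ι k}
    (hP : P * P' = 1) {κ : ι → ℚ}
    (eig : Cm.map (fun f => f.coeff 0) * P = P * diagonal fun i => (κ i : k))
    (md : MD (mp φ l) (Cm.map (mp φ))) (a : ℤ) (V : Matrix ι ι (Ls k))
    (hF : ∃ F : Finset ℂ, ∀ i j c, φ ((V i j).coeff c) ∈ cl F)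
    (h : frobM a (df b l Cm (fun i => (κ i : k)) V)) : ∃ V' : Matrix ι ι (Ls k),
      frobM a (V' - V) ∧ (∃ F : Finset ℂ, ∀ i j c, φ ((V' i j).coeff c) ∈ cl F) ∧
        frobM (a + 1) (df b l Cm (fun i => (κ i : k)) V') := by
  classical
  obtain ⟨F, hF⟩ := hF
  let e : ι → ι → k := fun m j => ((sg b * a : ℤ) : k) - κ m + κ j
  let G : Matrix ι ι k := P' * of fun i j => (df b l Cm (fun i => (κ i : k)) V i j).coeff a
  let X : Matrix ι ι k := of fun m j => -G m j / e m j
  let S : Matrix ι ι (Ls k) := (P * X).map (HahnSeries.single a)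
  have s1 : frobM a S := fun i j c hc => HahnSeries.coeff_single_of_ne hc.ne
  have s2 : ∀ i j, (S i j).coeff a = (P * X) i j := fun i j => HahnSeries.coeff_single_same _ _
  have hF' : ∀ i j c, φ (((V + S) i j).coeff c) ∈
      cl (F ∪ univ.image fun x : ι × ι => φ ((P * X) x.1 x.2)) := fun i j c => by
    rw [Matrix.add_apply, HahnSeries.coeff_add, map_add]
    refine add_mem (kr_mono subset_union_left (hF i j c)) ?_
    by_cases n : c = a
    · rw [n, s2]
      exact kr_mem (mem_union_right _ (mem_image_of_mem _ (mem_univ (i, j))))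
    · rw [show (S i j).coeff c = 0 from HahnSeries.coeff_single_of_ne n, map_zero]
      exact zero_mem _
  have d1 : frobM a (df b l Cm (fun i => (κ i : k)) (V + S)) := by
    rw [frob_df_add]
    exact h.add (frob_df re s1).1
  have d2 : ∀ i j, (df b l Cm (fun i => (κ i : k)) (V + S) i j).coeff a =
      (P * of fun m j => G m j + e m j * X m j) i j := fun i j => by
    have t := congrFun (congrFun (show P * G = _ by
      rw [← Matrix.mul_assoc, hP, Matrix.one_mul]) i) j
    rw [frob_df_add, Matrix.add_apply, HahnSeries.coeff_add, frob_lead re eig s1 s2, mul_apply]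
    simp only [of_apply, mul_add (P i _), sum_add_distrib]
    exact congrArg (· + _) t.symm
  have d3 := (frob_df (K := fun i => (κ i : k)) re d1).1.succ fun i j => by
    rw [frob_lead re eig d1 d2]
    refine sum_eq_zero fun m _ => mul_eq_zero_of_right _ ?_
    change e m j * (G m j + e m j * (-G m j / e m j)) = 0
    by_cases n : e m j = 0
    · rw [n, zero_mul]
    · rw [mul_div_cancel₀ _ n, add_neg_cancel, mul_zero]
  refine ⟨V + S, by rwa [add_sub_cancel_left], ⟨_, hF'⟩, d1.succ fun i j => φ.injective ?_⟩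
  have m1 := d1.map φ
  have m3 := d3.map φ
  rw [df_map] at m1 m3
  rw [df_map] at m3
  simp only [map_ratCast] at m1 m3
  have := frob_C (frob_re_map re φ) md _ hF' m1 m3 i j
  rw [φ.map_zero, ← this, ← coeff_mL, ← Matrix.map_apply (f := mL φ), df_map]
  simp only [map_ratCast]

theorem frob {k : Type} [Field k] (φ : k →+* ℂ) {ι : Type*} [Fintype ι] [DecidableEq ι] {b : Bool}
    {l : k[T;T⁻¹]} {Cm : Matrix ι ι k[T;T⁻¹]} (re : Re 0 b l Cm) {P P' : Matrix ι ι k}
    (hP : P * P' = 1) {κ : ι → ℚ}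
    (eig : Cm.map (fun f => f.coeff 0) * P = P * diagonal fun i => (κ i : k))
    (md : MD (mp φ l) (Cm.map (mp φ))) :
    ∃ U : Matrix ι ι (Ls k), df b l Cm (fun i => (κ i : k)) U = 0 ∧ Od 0 0 U ∧ c0 U = P := by
  classical
  choose! nx h1 h2 h3 using frob_step φ re hP eig md
  let V : ℕ → Matrix ι ι (Ls k) := fun n =>
    Nat.rec (P.map (HahnSeries.single 0)) (fun n W => nx (n + 1) W) n
  have s0 : frobM 0 (V 0) := fun i j c hc => HahnSeries.coeff_single_of_ne hc.ne
  have s1 : ∀ i j, (V 0 i j).coeff 0 = (P * 1 : Matrix ι ι k) i j := fun i j => by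
    rw [Matrix.mul_one]
    exact HahnSeries.coeff_single_same _ _
  have I : ∀ n : ℕ, (∃ F : Finset ℂ, ∀ i j c, φ ((V n i j).coeff c) ∈ cl F) ∧
      frobM (n + 1) (df b l Cm (fun i => (κ i : k)) (V n)) := fun n => by
    induction n with
    | zero =>
      refine ⟨⟨univ.image fun x : ι × ι => φ (P x.1 x.2), fun i j c => ?_⟩,
        (frob_df re s0).1.succ fun i j => ?_⟩
      · by_cases n : c = 0
        · rw [n, s1, Matrix.mul_one]
          exact kr_mem (mem_image_of_mem _ (mem_univ (i, j)))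
        · rw [show (V 0 i j).coeff c = 0 from HahnSeries.coeff_single_of_ne n, φ.map_zero]
          exact zero_mem _
      · rw [frob_lead re eig s0 s1]
        refine sum_eq_zero fun m _ => mul_eq_zero_of_right _ ?_
        by_cases n : m = j
        · simp [n]
        · rw [one_apply_ne n, mul_zero]
    | succ n ih => exact ⟨h2 _ _ ih.1 ih.2, h3 _ _ ih.1 ih.2⟩
  have J : ∀ (n m : ℕ) i j (c : ℤ), c ≤ n → n ≤ m → (V m i j).coeff c = (V n i j).coeff c :=
    fun n m i j c hc hm => by
      induction m, hm using Nat.le_induction with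
      | base => rfl
      | succ m hm ih =>
        have := h1 _ _ (I m).1 (I m).2 i j c (by omega)
        rw [Matrix.sub_apply, HahnSeries.coeff_sub, sub_eq_zero] at this
        exact this.trans ih
  have z : ∀ i j (c : ℤ), c < 0 → (V c.toNat i j).coeff c = 0 := fun i j c n => by
    rw [Int.toNat_of_nonpos n.le]
    exact s0 i j c n
  let U : Matrix ι ι (Ls k) := fun i j => ⟨fun c => (V c.toNat i j).coeff c,
    (Set.IsWF.isPWO (bddBelow_Ici (a := (0 : ℤ))).wellFoundedOn_lt).mono fun c h =>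
      show 0 ≤ c from not_lt.1 fun n => h (z i j c n)⟩
  refine ⟨U, Matrix.ext fun i j => HahnSeries.ext (funext fun c => ?_), fun i j c hc => ?_,
    Matrix.ext fun i j => (s1 i j).trans (by rw [Matrix.mul_one])⟩
  · have k : frobM (c.toNat + 1) (U - V c.toNat) := fun i j c' hc => by
      rw [Matrix.sub_apply, HahnSeries.coeff_sub, sub_eq_zero]
      exact (J _ _ i j c' (by omega) (by omega)).symm
    rw [← add_sub_cancel (V c.toNat) U, frob_df_add]
    exact ((I _).2.add (frob_df re k).1) i j c (by omega)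
  · exact zero_dvd_iff.2 (z i j c (by omega))

end Pool.Agent.Lib.MP_815ef6_nt.Ch
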