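import Pool.Agent.Lib.MP_815ef6_nt.CS.Mod

/-! The exponents of the models interlace modulo the large primes. -/

namespace Pool.Agent.Lib.MP_815ef6_nt.Ch
open Finset LaurentPolynomial Matrix

variable {ι : Type*} [Fintype ι] [DecidableEq ι] {μ u v κ : ι → ℚ}

section
variable {k : Type*} [Field k] {p : ℕ}

theorem gp_coeff (b : Bool) (μ u v : ι → k) (c : k) (Y : Matrix ι Unit (Ls k)) (l : ι) (n : ℤ) :
    (df b (1 - T 1) (mA μ u v) (fun _ => c) Y l ()).coeff n =
      (c + (sg b * n : ℤ) - μ l) * (Y l ()).coeff n - u l * ∑ m, v m * (Y m ()).coeff n -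
        (c + (sg b * n - 1 : ℤ) - μ l) * (Y l ()).coeff (n - sg b) := by
  have e : df b (1 - T 1) (mA μ u v) (fun _ => c) Y l () =
      (1 - HahnSeries.single (sg b) 1) * (dS b (Y l ()) + cS (c - μ l) * Y l ()) -
        ∑ m, cS (u l * v m) * Y m () := by
    have e1 : ∀ m, io b (mA μ u v l m) = (if l = m then (1 - HahnSeries.single (sg b) 1) * cS (μ l)
        else 0) + cS (u l * v m) := fun m => by
      simp only [mA, Matrix.add_apply, Matrix.smul_apply, Matrix.map_apply, smul_eq_mul, map_add,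
        map_mul, map_sub, map_one, io_T, io_C, mul_one, vecMulVec_apply, diagonal_apply]
      split_ifs <;> simp
    simp only [df, gf, Matrix.add_apply, Matrix.sub_apply, Matrix.smul_apply, Matrix.map_apply,
      smul_eq_mul, Matrix.mul_apply, e1, add_mul, sum_add_distrib, ite_mul, zero_mul, sum_ite_eq,
      mem_univ, if_true, Fintype.sum_unique, diagonal_apply_eq, map_sub, map_one, io_T, mul_one]
    ring
  have e2 : ∀ f : Ls k, (HahnSeries.single (sg b) (1 : k) * f).coeff n = f.coeff (n - sg b) :=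
    fun f => by
      have := HahnSeries.coeff_single_mul_add (r := (1 : k)) (x := f) (a := n - sg b) (b := sg b)
      rwa [sub_add_cancel, one_mul] at this
  rw [e, sub_mul, one_mul, HahnSeries.coeff_sub, HahnSeries.coeff_sub, e2, HahnSeries.coeff_sum,
    mul_sum]
  simp only [HahnSeries.coeff_add, coeff_dS, coeff_cS_mul, mul_sub (sg b), sg_sq, mul_assoc]
  push_cast
  ring

theorem gp_ord {f g : Ls k} {a b : ℤ} (hf : ∀ n < a, f.coeff n = 0) (hg : ∀ n < b, g.coeff n = 0) :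
    ∀ n < a + b, (f * g).coeff n = 0 := fun n hn => by
  rw [HahnSeries.coeff_mul]
  refine sum_eq_zero fun x hx => ?_
  have := (mem_antidiagonal.1 hx).2.2
  by_cases h : x.1 < a
  · rw [hf _ h, zero_mul]
  · rw [hg _ (by omega), mul_zero]

theorem gp_sol (hp : p.Prime) (h0 : (p : k) = 0) {μ u v : ι → k}
    (hA : Am th (1 - T 1) (mA μ u v) p = 0) (b : Bool) {c : k} (hc : c ^ p = c) {y₀ : ι → k}
    (hy : ∀ l, (c - μ l) * y₀ l = if b then u l * ∑ m, v m * y₀ m else 0) :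
    ∃ y : ℤ → ι → k, y 0 = y₀ ∧ y (-sg b) = 0 ∧ ∀ (a : ℤ) l, (c + a - μ l) * y a l -
      u l * ∑ m, v m * y a m = (c + (a - 1 : ℤ) - μ l) * y (a - 1) l := by
  obtain ⟨w, hw, hw'⟩ := exists_inv_one_sub (R := k) b
  have key : ∀ Y : Matrix ι Unit (Ls k), (∀ l, ∀ n < 0, (Y l ()).coeff n = 0) →
      (∀ l, (c - μ l) * (Y l ()).coeff 0 = if b then u l * ∑ m, v m * (Y m ()).coeff 0 else 0) →
      ∀ l, ∀ n < 1, ((w • df b (1 - T 1) (mA μ u v) (fun _ => c) Y) l ()).coeff n = 0 := by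
    intro Y h1 h2 l n hn
    rw [Matrix.smul_apply, smul_eq_mul]
    cases b
    · refine gp_ord (a := 1) (b := 0) (fun n hn => ?_) (fun n hn => ?_) n (by omega)
      · rw [hw', if_neg (by simp), if_neg (by omega)]
      · rw [gp_coeff, h1 l n hn, sum_eq_zero fun m _ => by rw [h1 m n hn, mul_zero]]
        by_cases h : n = -1
        · subst h
          have := h2 l
          simp only [sg] at this ⊢
          norm_num at this ⊢
          exact this
        · rw [h1 l _ (by simp only [sg]; omega)]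
          ring
    · refine gp_ord (a := 0) (b := 1) (fun n hn => ?_) (fun n hn => ?_) n (by omega)
      · rw [hw', if_pos rfl, if_neg (by omega)]
      · rw [gp_coeff, h1 l (n - sg true) (by simp only [sg]; omega)]
        by_cases h : n = 0
        · subst h
          have := h2 l
          rw [if_pos rfl] at this
          rw [← this]
          simp
        · rw [h1 l n (by omega), sum_eq_zero fun m _ => by rw [h1 m n (by omega), mul_zero]]
          ring
  obtain ⟨Z, hZ, hs⟩ := proj_sol (K := fun _ : Unit => c) hp h0 hA hw (fun _ => hc)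
    (W := {Z | ∀ l, ∀ n < 1, (Z l ()).coeff n = 0})
    (fun Z hZ => key Z (fun l n hn => hZ l n (by omega)) fun l => by
      rw [hZ l 0 one_pos, sum_eq_zero fun m _ => by rw [hZ m 0 one_pos, mul_zero]]
      simp)
    (Y := of fun l _ => cS (y₀ l))
    (key _ (fun l n hn => by simp [HahnSeries.C_apply, hn.ne]) fun l => by
      simpa [HahnSeries.C_apply] using hy l)
  refine ⟨fun a l => (cS (y₀ l) - Z l ()).coeff (sg b * a), funext fun l => ?_, funext fun l => ?_,
    fun a l => ?_⟩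
  · simp [hZ l 0 one_pos, HahnSeries.C_apply]
  · simp [sg_sq, hZ l (-1) (by omega), HahnSeries.C_apply]
  · have := gp_coeff b μ u v c ((of fun l _ => cS (y₀ l)) - Z) l (sg b * a)
    rw [hs, ← mul_assoc, sg_sq, one_mul, ← mul_sub_one] at this
    exact sub_eq_zero.1 this.symm

theorem gp_sig (hp : p.Prime) (h0 : (p : k) = 0) {μ u v : ι → k}
    (hA : Am th (1 - T 1) (mA μ u v) p = 0) (b : Bool) {c : k} (hc : c ^ p = c) {y₀ : ι → k}
    (hy : ∀ l, (c - μ l) * y₀ l = if b then u l * ∑ m, v m * y₀ m else 0) {i : ι} (hi : u i ≠ 0)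
    {S : Finset ι} (hS : ∀ l ∉ S, v l = 0) :
    ∃ σ : ℤ → k, (c - μ i) * y₀ i = u i * σ 0 ∧ σ (-1) = σ 0 - ∑ m, v m * y₀ m ∧
      ∀ a : ℤ, (∏ l ∈ S, (c + a - μ l)) * σ (a - 1) = σ a * (∏ l ∈ S, (c + a - μ l) -
        ∑ l ∈ S, u l * v l * ∏ m ∈ S.erase l, (c + a - μ m)) := by
  obtain ⟨y, y0, y1, hr⟩ := gp_sol hp h0 hA b hc hy
  set σ : ℤ → k := fun a => (c + a - μ i) * y a i / u i with hσ
  have h1 : ∀ a, σ (a - 1) = σ a - ∑ m, v m * y a m := fun a => by
    simp only [hσ]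
    rw [← hr a i]
    field_simp
  have h2 : ∀ l (a : ℤ), (c + a - μ l) * y a l - u l * σ a =
      (c + (a - 1 : ℤ) - μ l) * y (a - 1) l - u l * σ (a - 1) := fun l a => by
    rw [h1, ← hr a l]
    ring
  have h3 : ∀ l (a : ℤ), (c + a - μ l) * y a l - u l * σ a =
      (c + (0 : ℤ) - μ l) * y 0 l - u l * σ 0 := fun l a => by
    induction a using Int.induction_on with
    | zero => rfl
    | succ a ih => rw [h2, add_sub_cancel_right, ih]
    | pred a ih => rw [← h2, ih]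
  have h4 : ∀ l (a : ℤ), (c + a - μ l) * y a l = u l * σ a := fun l a => by
    rw [← sub_eq_zero, h3, ← h3 l (-sg b)]
    simp [hσ, y1]
  refine ⟨σ, by simpa [y0] using h4 i 0, by simpa [y0] using h1 0, fun a => ?_⟩
  rw [h1, mul_sub, mul_sub, mul_comm, ← sum_subset (subset_univ S) fun l _ hl => by
    rw [hS l hl, zero_mul], mul_sum, mul_sum]
  congr 1
  refine sum_congr rfl fun l hl => ?_
  rw [← mul_prod_erase S _ hl]
  linear_combination (v l * ∏ m ∈ S.erase l, (c + a - μ m)) * h4 l a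

omit [Fintype ι] in
theorem gp_map {R R' : Type*} [CommRing R] [CommRing R'] (φ : R →+* R') (μ u v : ι → R) :
    (mA μ u v).map (mp φ) = mA (fun i => φ (μ i)) (fun i => φ (u i)) fun i => φ (v i) := by
  ext1 i j
  by_cases h : i = j <;> simp [mA, vecMulVec_apply, h]

theorem gp_den [CharP k p] (hp : p.Prime) {R : Subring ℚ} (ψ : R →+* k) (x : R) :
    ψ x * (x : ℚ).den = (x : ℚ).num ∧ ((x : ℚ).den : k) ≠ 0 := by
  have e : ψ x * (x : ℚ).den = (x : ℚ).num := by
    rw [← map_natCast ψ, ← map_intCast ψ, ← map_mul]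
    exact congrArg ψ (Subtype.ext (by simp))
  refine ⟨e, fun h => ?_⟩
  rw [h, mul_zero, eq_comm, CharP.intCast_eq_zero_iff k p, Int.natCast_dvd] at e
  rw [CharP.cast_eq_zero_iff k p] at h
  exact hp.one_lt.ne' (Nat.eq_one_of_dvd_coprimes (x : ℚ).reduced e h)

theorem gp_num [CharP k p] (hp : p.Prime) {R : Subring ℚ} (ψ : R →+* k) (x : R) :
    (p : ℤ) ∣ (x : ℚ).num ↔ ψ x = 0 := by
  rw [← CharP.intCast_eq_zero_iff k p, ← (gp_den hp ψ x).1, mul_eq_zero,
    or_iff_left (gp_den hp ψ x).2]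

theorem gp_pow [CharP k p] (hp : p.Prime) {R : Subring ℚ} (ψ : R →+* k) (x : R) :
    ψ x ^ p = ψ x := by
  have := Fact.mk hp
  have e := congrArg (frobenius k p) (gp_den hp ψ x).1
  rw [map_mul, map_natCast, map_intCast, ← (gp_den hp ψ x).1] at e
  exact mul_right_cancel₀ (gp_den hp ψ x).2 e

end

theorem gp_red (h : Mdl μ u v) (e : Exq μ u v κ) : ∃ p₀ : ℕ, ∀ p : ℕ, p.Prime → p₀ ≤ p →
    ∃ (k : Type) (_ : Field k) (_ : CharP k p) (μ' u' v' κ' : ι → k),
      Am th (1 - T 1) (mA μ' u' v') p = 0 ∧ (∀ i, μ' i ^ p = μ' i ∧ κ' i ^ p = κ' i) ∧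
      (∀ i, u i = 0 → u' i = 0 ∧ v' i = 0) ∧ (∀ i, u i ≠ 0 → u' i ≠ 0 ∧ v' i ≠ 0) ∧
      (∀ i l, u i ≠ 0 → u l ≠ 0 → κ' i - μ' l ≠ 0) ∧
      (∀ i (a : ℤ) (c : k), c = μ' i ∨ c = κ' i → ∏ l with u l ≠ 0, (c + a - μ' l) -
        ∑ l with u l ≠ 0, u' l * v' l * ∏ m ∈ (univ.filter fun i => u i ≠ 0).erase l,
          (c + a - μ' m) = ∏ l with u l ≠ 0, (c + a - κ' l)) ∧
      ∀ i j (l : ℕ), ((p : ℤ) ∣ (κ i + l - κ j).num ↔ κ' i + l - κ' j = 0) ∧
        ((p : ℤ) ∣ (κ i + l - μ j).num ↔ κ' i + l - μ' j = 0) ∧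
        ((p : ℤ) ∣ (-μ i + l - -μ j).num ↔ -μ' i + l - -μ' j = 0) ∧
        ((p : ℤ) ∣ (-μ i + l - -κ j).num ↔ -μ' i + l - -κ' j = 0) := by
  classical
  obtain ⟨S, hS, q', B, hq, hB, p₁, hm⟩ := h.md.mb ((univ.biUnion fun x : ι × ι =>
    ({μ x.1, u x.1, v x.1, κ x.1, (u x.1)⁻¹, (v x.1)⁻¹, (κ x.1 - μ x.2)⁻¹} : Finset ℚ)).image
      fun x : ℚ => (x : ℂ))
  obtain ⟨p₂, hc⟩ := exists_char S
  refine ⟨max p₁ p₂, fun p hp hle => ?_⟩
  obtain ⟨k, _, _, ⟨φ⟩⟩ := hc p hp (le_of_max_le_right hle)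
  let R : Subring ℚ := (cl S).comap (Rat.castHom ℂ)
  let ρ : R →+* cl S := (Rat.castHom ℂ).restrict R (cl S) fun _ hx => hx
  have hR : ∀ (i l : ι) (x : ℚ), x ∈ ({μ i, u i, v i, κ i, (u i)⁻¹, (v i)⁻¹, (κ i - μ l)⁻¹} :
      Finset ℚ) → x ∈ R := fun i l x hx =>
    kr_mem (hS (mem_image.2 ⟨x, mem_biUnion.2 ⟨(i, l), mem_univ _, hx⟩, rfl⟩))
  let μ' : ι → R := fun i => ⟨μ i, hR i i _ (by simp)⟩
  let u' : ι → R := fun i => ⟨u i, hR i i _ (by simp)⟩
  let v' : ι → R := fun i => ⟨v i, hR i i _ (by simp)⟩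
  let κ' : ι → R := fun i => ⟨κ i, hR i i _ (by simp)⟩
  let ψ : R →+* k := φ.comp ρ
  have hu : ∀ x : R, (x : ℚ) ≠ 0 → (x : ℚ)⁻¹ ∈ R → ψ x ≠ 0 := fun x h1 h2 =>
    left_ne_zero_of_mul_eq_one (b := ψ ⟨_, h2⟩) (by
      rw [← map_mul, ← map_one ψ]
      exact congrArg ψ (Subtype.ext (mul_inv_cancel₀ h1)))
  have inj : Function.Injective (mp (cl S).subtype) := fun f g e =>
    LaurentPolynomial.ext fun a => Subtype.ext (by
      simpa using congrArg (fun f : ℂ[T;T⁻¹] => f.coeff a) e)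
  refine ⟨k, inferInstance, inferInstance, fun i => ψ (μ' i), fun i => ψ (u' i), fun i => ψ (v' i),
    fun i => ψ (κ' i), ?_, fun i => ⟨gp_pow hp ψ _, gp_pow hp ψ _⟩, fun i hi => ⟨?_, ?_⟩,
    fun i hi => ⟨hu _ hi (hR i i _ (by simp [u'])),
      hu _ (fun h' => hi ((h.uv i).2 h')) (hR i i _ (by simp [v']))⟩, fun i l hi hl => ?_,
    fun i a c hc => ?_, fun i j l => ⟨?_, ?_, ?_, ?_⟩⟩
  · have e1 : mp φ q' = 1 - T 1 := by
      rw [show q' = 1 - T 1 from inj (by rw [hq]; simp)]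
      simp
    have e2 : B.map (mp φ) = mA (fun i => ψ (μ' i)) (fun i => ψ (u' i)) fun i => ψ (v' i) := by
      have e3 : B.map (mp (cl S).subtype) = (mA (fun i => ρ (μ' i)) (fun i => ρ (u' i))
          fun i => ρ (v' i)).map (mp (cl S).subtype) := by
        rw [hB, gp_map]
        rfl
      rw [Matrix.map_injective inj e3, gp_map]
      rfl
    rw [← e1, ← e2, ← Am_map (mp φ) (mp_th φ)]
    ext1 i j
    obtain ⟨g, hg⟩ := hm p hp (le_of_max_le_left hle) i j
    rw [Matrix.map_apply, hg, map_mul, map_natCast, ← map_natCast C, CharP.cast_eq_zero, map_zero,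
      zero_mul, Matrix.zero_apply]
  · exact (congrArg ψ (Subtype.ext hi)).trans (map_zero ψ)
  · exact (congrArg ψ (Subtype.ext ((h.uv i).1 hi))).trans (map_zero ψ)
  · beta_reduce
    rw [← map_sub]
    exact hu _ (sub_ne_zero.2 (e.ne i l hi hl)) (hR i l _ (by simp [κ', μ']))
  · obtain ⟨x, rfl⟩ : ∃ x : R, c = ψ x := hc.elim (fun h => ⟨_, h⟩) fun h => ⟨_, h⟩
    simp only [← map_intCast ψ a, ← map_add, ← map_sub, ← map_prod, ← map_mul, ← map_sum]
    refine congrArg ψ (Subtype.ext ?_)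
    simpa [μ', u', v', κ'] using (e.poly h (x + a)).symm
  · simpa [μ', κ'] using gp_num hp ψ (κ' i + l - κ' j)
  · simpa [μ', κ'] using gp_num hp ψ (κ' i + l - μ' j)
  · simpa [μ', κ'] using gp_num hp ψ (-μ' i + l - -μ' j)
  · simpa [μ', κ'] using gp_num hp ψ (-μ' i + l - -κ' j)

theorem Mdl.gap (h : Mdl μ u v) (e : Exq μ u v κ) : Gap u κ μ := by
  obtain ⟨p₀, H⟩ := gp_red h e
  refine ⟨p₀, fun p hp hle i j hi hj l hl hd => ?_⟩
  obtain ⟨k, _, _, μ', u', v', κ', hA, hw, hz, hn, hne, hpo, hdv⟩ := H p hp hle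
  by_contra hc
  push Not at hc
  have hP : ∀ j, u j ≠ 0 → ∏ l with u l ≠ 0, (κ' j - μ' l) ≠ 0 := fun j hj =>
    prod_ne_zero_iff.2 fun l hl => hne j l hj (mem_filter.1 hl).2
  have h1 : ∀ l, (κ' i - μ' l) * (u' l / (κ' i - μ' l)) = u' l := fun l => by
    by_cases hl : u l = 0
    · simp [(hz l hl).1]
    · exact mul_div_cancel₀ _ (hne i l hi hl)
  have h2 : ∑ m, v' m * (u' m / (κ' i - μ' m)) = 1 := by
    have := hpo i 0 _ (Or.inr rfl)
    rw [prod_eq_zero (f := fun l => κ' i + (0 : ℤ) - κ' l) (i := i) (by simpa using hi) (by simp),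
      sub_eq_zero] at this
    simp only [Int.cast_zero, add_zero] at this
    refine mul_left_cancel₀ (hP i hi) ?_
    rw [mul_one, ← sum_subset (subset_univ (univ.filter fun l => u l ≠ 0)) fun l _ hl => by
      rw [(hz l (by simpa using hl)).2, zero_mul], mul_sum]
    refine (sum_congr rfl fun l hl => ?_).trans this.symm
    rw [← mul_prod_erase _ _ hl]
    linear_combination (v' l * ∏ m ∈ (univ.filter fun i => u i ≠ 0).erase l, (κ' i - μ' m)) * h1 l
  obtain ⟨σ, s0, -, hs⟩ := gp_sig hp (CharP.cast_eq_zero k p) hA true (hw i).2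
    (y₀ := fun l => u' l / (κ' i - μ' l)) (fun l => by rw [h1, h2, mul_one, if_pos rfl]) (hn i hi).1
    (S := univ.filter fun l => u l ≠ 0) fun l hl => (hz l (by simpa using hl)).2
  simp only [hpo i _ _ (Or.inr rfl)] at hs
  have h3 : ∀ a : ℕ, a < l → σ a ≠ 0 := fun a => by
    induction a with
    | zero =>
      intro _ h'
      rw [h1, show σ 0 = 0 from h', mul_zero] at s0
      exact (hn i hi).1 s0
    | succ a ih =>
      intro ha h'
      have := hs (a + 1 : ℕ)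
      rw [h', zero_mul, Nat.cast_succ, add_sub_cancel_right] at this
      refine mul_ne_zero (prod_ne_zero_iff.2 fun m hm h'' => ?_) (ih (by omega)) this
      exact hc _ ha m (mem_filter.1 hm).2 ((hdv i m _).2.1.2 (by simpa using h''))
  have h4 : κ' i + ((l : ℤ) : k) = κ' j := by simpa [sub_eq_zero] using (hdv i j l).1.1 hd
  have := hs l
  rw [h4, prod_eq_zero (f := fun l => κ' j - κ' l) (i := j) (by simpa using hj) (by simp), mul_zero,
    show (l : ℤ) - 1 = (l - 1 : ℕ) by omega] at this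
  exact mul_ne_zero (hP j hj) (h3 _ (by omega)) this

theorem Mdl.gap' (h : Mdl μ u v) (e : Exq μ u v κ) : Gap u (-μ) (-κ) := by
  obtain ⟨p₀, H⟩ := gp_red h e
  refine ⟨p₀, fun p hp hle i j hi hj l hl hd => ?_⟩
  obtain ⟨k, _, _, μ', u', v', κ', hA, hw, hz, hn, hne, hpo, hdv⟩ := H p hp hle
  by_contra hc
  push Not at hc
  obtain ⟨σ, s0, s1, hs⟩ := gp_sig hp (CharP.cast_eq_zero k p) hA false (hw i).1
    (y₀ := fun l => if l = i then 1 else 0) (fun l => by by_cases hl : l = i <;> simp [hl])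
    (hn i hi).1 (S := univ.filter fun l => u l ≠ 0) fun l hl => (hz l (by simpa using hl)).2
  simp only [hpo i _ _ (Or.inl rfl)] at hs
  have s2 : σ 0 = 0 := by simpa [(hn i hi).1] using s0
  have h3 : ∀ a : ℕ, a < l → σ (-a - 1) ≠ 0 := fun a => by
    induction a with
    | zero => simpa [s1, s2] using fun _ => (hn i hi).2
    | succ a ih =>
      intro ha h'
      have := hs (-(a + 1 : ℕ))
      rw [h', mul_zero, show (-(a + 1 : ℕ) : ℤ) = -a - 1 by omega] at this
      refine mul_ne_zero (ih (by omega)) (prod_ne_zero_iff.2 fun m hm h'' => ?_) this.symm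
      refine hc _ ha m (mem_filter.1 hm).2 ((hdv i m _).2.2.2.2 ?_)
      push_cast at h'' ⊢
      linear_combination -h''
  have h4 : μ' i + ((-l : ℤ) : k) = μ' j := by
    push_cast
    linear_combination -(hdv i j l).2.2.1.1 hd
  have := hs (-l)
  rw [h4, prod_eq_zero (f := fun l => μ' j - μ' l) (i := j) (by simpa using hj) (by simp), zero_mul,
    show (-l : ℤ) = -(l - 1 : ℕ) - 1 by omega] at this
  exact mul_ne_zero (h3 _ (by omega)) (prod_ne_zero_iff.2 fun m hm h' =>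
    hne m j (mem_filter.1 hm).2 hj (by linear_combination -h')) this.symm

end Pool.Agent.Lib.MP_815ef6_nt.Ch
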