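import Pool.Agent.Lib.MP_815ef6_nt.CS.Spn
import Pool.Agent.Lib.MP_815ef6_nt.CS.Amx

/-! The lattice on a component. -/

namespace Pool.Agent.Lib.MP_815ef6_nt.Ch
open Finset LaurentPolynomial Matrix

variable {ι : Type*} [Fintype ι] [DecidableEq ι] {O : Subring ℂ} {t : ℂ}

theorem Lat_clear (H : Frame O t) {κ : Type*} (s : Finset κ) {u : κ → ℂ}
    (hu : ∀ i, u i ∈ Lo O H.mem) : ∃ e : ℕ, ∀ i ∈ s, t ^ e * u i ∈ O := by
  choose e he using hu
  refine ⟨s.sup e, fun i hi => ?_⟩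
  obtain ⟨k, hk⟩ := Nat.exists_eq_add_of_le (le_sup (f := e) hi)
  rw [hk, add_comm, pow_add, mul_assoc]
  exact mul_mem (pow_mem H.mem k) (he i)

theorem Lat_le (H : Frame O t) : O ≤ Lo O H.mem := fun y hy => ⟨0, by rwa [pow_zero, one_mul]⟩

omit [DecidableEq ι] in
theorem Lat_prim (H : Frame O t) {w : ι → O} (hw : w ≠ 0) :
    ∃ (g : O) (c a : ι → O), g ≠ 0 ∧ (∀ i, w i = g * c i) ∧ ∑ i, a i * c i = 1 := by
  have := H.pid
  obtain ⟨g, hg⟩ := (IsPrincipalIdealRing.principal (Ideal.span (Set.range w))).principal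
  have h1 : ∀ i, g ∣ w i := fun i => Ideal.mem_span_singleton.1 (by
    rw [← Ideal.submodule_span_eq, ← hg]
    exact Ideal.subset_span ⟨i, rfl⟩)
  choose c hc using h1
  have h2 : g ∈ Ideal.span (Set.range w) := hg ▸ Submodule.mem_span_singleton_self g
  obtain ⟨a, ha⟩ := Ideal.mem_span_range_iff_exists_fun.1 h2
  have g0 : g ≠ 0 := fun e => hw (funext fun i => by rw [hc i, e, zero_mul]; rfl)
  refine ⟨g, c, a, g0, hc, mul_left_cancel₀ g0 ?_⟩
  rw [mul_one, mul_sum]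
  exact (sum_congr rfl fun i _ => by rw [hc i]; ring).trans ha

theorem Lat_sm (H : Frame O t) {y : ℂ} (h : Sm O t y) {s : O} (hs : Prime s)
    (hd : s ∣ ⟨t, H.mem⟩) : s ∣ ⟨y, h.1⟩ := by
  obtain ⟨hy, d, z, hz, e⟩ := h
  exact hs.dvd_of_dvd_pow (n := d) (hd.trans ⟨⟨z, hz⟩, Subtype.ext e⟩)

/-- The shape of a normalized polynomial. -/
def LatP (H : Frame O t) (Z : ℂ → Prop) (g : ℂ[T;T⁻¹]) : Prop :=
  ∃ (c : ℂ) (e : ℤ) (J : Multiset Oˣ) (d : O[T;T⁻¹]), c ≠ 0 ∧ c ∈ Lo O H.mem ∧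
    c⁻¹ ∈ Lo O H.mem ∧ (∀ y ∈ J, Z (y : O)) ∧
    (∀ s : O, Prime s → s ∣ ⟨t, H.mem⟩ → C s ∣ d - 1) ∧
      g = C c * T e * mp O.subtype ((J.map fun y : Oˣ => T 1 - C (y : O)).prod * d)

theorem Lat_coe (J : Multiset Oˣ) : (J.map fun y => (T 1 - C (y : O) : O[T;T⁻¹])) =
    J.map fun y : Oˣ => T 1 - C (y : O) := by
  simp only [Multiset.bind_def, Multiset.pure_def, Multiset.bind_singleton, Multiset.map_map,
    Function.comp]

theorem LatP_mul (H : Frame O t) {Z : ℂ → Prop} {g g' : ℂ[T;T⁻¹]} (h : LatP H Z g)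
    (h' : LatP H Z g') : LatP H Z (g * g') := by
  obtain ⟨c, e, J, d, h1, h2, h3, h4, h5, rfl⟩ := h
  obtain ⟨c', e', J', d', k1, k2, k3, k4, k5, rfl⟩ := h'
  refine ⟨c * c', e + e', J + J', d * d', mul_ne_zero h1 k1, mul_mem h2 k2,
    mul_inv c c' ▸ mul_mem h3 k3, fun y hy => (Multiset.mem_add.1 hy).elim (h4 y) (k4 y),
    fun s hs hd => ?_, ?_⟩
  · rw [show d * d' - 1 = (d - 1) * d' + (d' - 1) by ring]
    exact ((h5 s hs hd).mul_right _).add (k5 s hs hd)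
  · simp only [Multiset.map_add, Multiset.prod_add, map_mul, T_add]
    ring

theorem LatP_CT (H : Frame O t) (Z : ℂ → Prop) {c : ℂ} (h1 : c ≠ 0) (h2 : c ∈ Lo O H.mem)
    (h3 : c⁻¹ ∈ Lo O H.mem) (e : ℤ) : LatP H Z (C c * T e) :=
  ⟨c, e, 0, 1, h1, h2, h3, by simp, by simp, by simp⟩

theorem LatP_sm (H : Frame O t) (Z : ℂ → Prop) {y : ℂ} (h : Sm O t y) (e : ℤ) :
    LatP H Z (1 - C y * T e) := by
  refine ⟨1, 0, 0, 1 - C ⟨y, h.1⟩ * T e, one_ne_zero, one_mem _, by rw [inv_one]; exact one_mem _,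
    by simp, fun s hs hd => ?_, by simp⟩
  rw [sub_sub_cancel_left]
  exact dvd_neg.2 ((map_dvd C (Lat_sm H h hs hd)).mul_right _)

theorem Lat_prime (H : Frame O t) {s : O} (hs : Prime s) (hd : s ∣ ⟨t, H.mem⟩) {f g : O[T;T⁻¹]}
    (h : C s ∣ f * g) : C s ∣ f ∨ C s ∣ g := by
  obtain ⟨ρ, hρ⟩ := H.res s hs hd
  have k : ∀ f : O[T;T⁻¹], C s ∣ f ↔ mp ρ f = 0 := fun f => by
    rw [dvd_iff]
    refine ⟨fun h => LaurentPolynomial.ext fun a => ?_, fun h a => (hρ _).1 ?_⟩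
    · rw [coeff_mp, (hρ _).2 (h a)]
      rfl
    · rw [← coeff_mp, h]
      rfl
  rwa [k, map_mul, mul_eq_zero, ← k, ← k] at h

theorem Lat_div {R : Type*} [CommRing R] (y : Rˣ) (g : R[T;T⁻¹]) :
    ∃ w : R, ∃ r, g = C w + (T 1 - C (y : R)) * r := by
  have h1 : (T (-1) * T 1 : R[T;T⁻¹]) = 1 := by rw [← T_add]; rfl
  have h2 : (C ((y⁻¹ : Rˣ) : R) * C (y : R) : R[T;T⁻¹]) = 1 := by
    rw [← map_mul, Units.inv_mul, map_one]
  have k : ∀ a : ℤ, ∃ w : R, ∃ r, (T a : R[T;T⁻¹]) = C w + (T 1 - C (y : R)) * r := fun a => by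
    induction a using Int.induction_on with
    | zero => exact ⟨1, 0, by simp⟩
    | succ a ih =>
      obtain ⟨w, r, e⟩ := ih
      exact ⟨w * y, C w + r * T 1, by rw [T_add, e, map_mul]; ring⟩
    | pred a ih =>
      obtain ⟨w, r, e⟩ := ih
      refine ⟨w * (y⁻¹ : Rˣ), r * T (-1) - C w * C ((y⁻¹ : Rˣ) : R) * T (-1), ?_⟩
      rw [sub_eq_add_neg, T_add, e, map_mul]
      linear_combination C w * C ((y⁻¹ : Rˣ) : R) * h1 - C w * T (-1) * h2
  induction g using LaurentPolynomial.induction_on' with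
  | add f g h h' =>
    obtain ⟨w, r, rfl⟩ := h
    obtain ⟨w', r', rfl⟩ := h'
    exact ⟨w + w', r + r', by rw [map_add]; ring⟩
  | C_mul_T a c =>
    obtain ⟨w, r, e⟩ := k a
    exact ⟨c * w, C c * r, by rw [e, map_mul]; ring⟩

theorem Lat_ele {A : Type*} [CommRing A] {W : Matrix ι ι A} {a c ρ : ι → A} {z : A}
    (h1 : ∑ i, a i * c i = 1) (h2 : ∀ j, ∑ k, c k * W k j = z * ρ j) :
    W = (1 + vecMulVec (fun i => (z - 1) * a i) c) * of fun i j => W i j - (z - 1) * a i * ρ j := by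
  ext i j
  have e : ∑ k, c k * (W k j - (z - 1) * a k * ρ j) = ρ j := by
    rw [sum_congr rfl fun k _ => show c k * (W k j - (z - 1) * a k * ρ j) =
      c k * W k j - (z - 1) * ρ j * (a k * c k) by ring, sum_sub_distrib, ← mul_sum, h1, h2]
    ring
  rw [Matrix.add_mul, Matrix.one_mul, vecMulVec_mul, Matrix.add_apply, vecMulVec_apply, vecMul,
    dotProduct]
  simp only [of_apply]
  rw [e]
  ring

theorem Lat_det {A : Type*} [CommRing A] {a c : ι → A} (z : A) (h1 : ∑ i, a i * c i = 1) :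
    (1 + vecMulVec (fun i => (z - 1) * a i) c).det = z := by
  rw [vecMulVec_eq Unit, det_one_add_replicateCol_mul_replicateRow, dotProduct,
    sum_congr rfl fun i _ => show c i * ((z - 1) * a i) = (z - 1) * (a i * c i) by ring, ← mul_sum,
    h1]
  ring

theorem Lat_step (H : Frame O t) (y : Oˣ) {W : Matrix ι ι ℂ[T;T⁻¹]}
    (h1 : ∀ i j, W i j ∈ LS (Lo O H.mem)) (h2 : T 1 - C ((y : O) : ℂ) ∣ W.det) :
    ∃ (P : Matrix ι ι O[T;T⁻¹]) (V : Matrix ι ι ℂ[T;T⁻¹]), W = P.map (mp O.subtype) * V ∧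
      (∀ i j, V i j ∈ LS (Lo O H.mem)) ∧ P.det = T 1 - C (y : O) := by
  have k : ∀ i j, ∃ w ∈ Lo O H.mem, ∃ r ∈ LS (Lo O H.mem),
      W i j = C w + (T 1 - C ((y : O) : ℂ)) * r := fun i j => by
    obtain ⟨g, hg⟩ := h1 i j
    obtain ⟨w, r, e⟩ := Lat_div (Units.map (Subring.inclusion (Lat_le H)).toMonoidHom y) g
    refine ⟨w, w.2, _, ⟨r, rfl⟩, ?_⟩
    rw [← hg, e, map_add, map_mul, map_sub, mp_C, mp_C, mp_T]
    rfl
  choose w hw r hr e using k
  let ev : ℂ[T;T⁻¹] →+* ℂ := eval₂ (RingHom.id ℂ) (Units.map O.subtype.toMonoidHom y)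
  have v1 : ∀ c, ev (C c) = c := fun c => eval₂_C _ _ _
  have v2 : ev (T 1 - C ((y : O) : ℂ)) = 0 := by
    rw [map_sub, v1, eval₂_T, zpow_one]
    exact sub_self _
  have v3 : (of w).det = 0 := by
    obtain ⟨q, hq⟩ := h2
    have := congrArg ev hq
    rw [map_mul, v2, zero_mul, RingHom.map_det] at this
    rw [← this]
    congr 1
    ext i j
    rw [RingHom.mapMatrix_apply, map_apply, e, map_add, map_mul, v2, v1, zero_mul, add_zero,
      of_apply]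
  obtain ⟨n, hn⟩ := Lat_clear H univ (u := fun p : ι × ι => w p.1 p.2) fun p => hw _ _
  let w' : Matrix ι ι O := of fun i j => ⟨_, hn (i, j) (mem_univ _)⟩
  have v4 : w'.det = 0 := O.subtype_injective (by
    rw [RingHom.map_det, show O.subtype.mapMatrix w' = t ^ n • of w from rfl, det_smul, v3,
      mul_zero, map_zero])
  obtain ⟨v, v0, hv⟩ := exists_vecMul_eq_zero_iff.2 v4
  obtain ⟨g, c, a, g0, hc, ha⟩ := Lat_prim H v0
  have v5 : ∀ j, ∑ k, (c k : ℂ) * w k j = 0 := fun j => by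
    have := congrArg O.subtype (congrFun hv j)
    rw [vecMul, dotProduct, map_sum, Pi.zero_apply, map_zero] at this
    refine mul_left_cancel₀ (mul_ne_zero (fun h => g0 (Subtype.ext h) : (g : ℂ) ≠ 0)
      (pow_ne_zero n H.ne)) ?_
    rw [mul_zero, ← this, mul_sum]
    refine sum_congr rfl fun k _ => ?_
    rw [hc k, map_mul, map_mul]
    exact (by ring : (g : ℂ) * t ^ n * (c k * w k j) = g * c k * (t ^ n * w k j))
  have v6 : ∑ i, (C (a i) * C (c i) : O[T;T⁻¹]) = 1 := by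
    simp only [← map_mul]
    rw [← map_sum, ha, map_one]
  have v7 : ∑ i, (C (a i : ℂ) * C (c i : ℂ) : ℂ[T;T⁻¹]) = 1 := by
    simpa using congrArg (mp O.subtype) v6
  refine ⟨1 + vecMulVec (fun i => (T 1 - C (y : O) - 1) * C (a i)) fun i => C (c i),
    of fun i j => W i j - (T 1 - C ((y : O) : ℂ) - 1) * C (a i : ℂ) * ∑ k, C (c k : ℂ) * r k j,
    (Lat_ele (z := T 1 - C ((y : O) : ℂ)) (ρ := fun j => ∑ k, C (c k : ℂ) * r k j) v7
      fun j => ?_).trans ?_, fun i j => ?_, Lat_det _ v6⟩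
  · have := congrArg (C : ℂ →+* ℂ[T;T⁻¹]) (v5 j)
    rw [map_sum, map_zero] at this
    rw [mul_sum, ← sub_eq_zero, ← sum_sub_distrib, ← this]
    refine sum_congr rfl fun k _ => ?_
    rw [e, map_mul]
    ring
  · congr 1
    ext1 i j
    simp [Matrix.one_apply, vecMulVec_apply, apply_ite (mp O.subtype)]
  · have m : ∀ x : O, (C (x : ℂ) : ℂ[T;T⁻¹]) ∈ LS (Lo O H.mem) := fun x => C_mem (Lat_le H x.2)
    exact sub_mem (h1 i j) (mul_mem (mul_mem (sub_mem (sub_mem (T_mem _ _) (m _)) (one_mem _))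
      (m _)) (sum_mem fun k _ => mul_mem (m _) (hr k j)))

theorem Lat_ne (y : ℂ) : (T 1 - C y : ℂ[T;T⁻¹]) ≠ 0 := fun h => by
  have := congrArg (fun f : ℂ[T;T⁻¹] => f.coeff 1) (sub_eq_zero.1 h)
  simp at this

theorem norm_poly (H : Frame O t) {M R : ℕ} {β : Fin M → ℂ} {cls : Fin M → Fin (R + 1)}
    {x : Fin (R + 1) → ℂ} (S : Spn O t β cls x) (j : Fin (R + 1))
    (hβ : ∀ l, β l ≠ 0 ∧ β l ∈ Lo O H.mem ∧ (β l)⁻¹ ∈ Lo O H.mem) (hx : ∃ l, x j = β l)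
    {f : Polynomial ℂ} (hf : f ≠ 0)
    (h1 : f.leadingCoeff ∈ Lo O H.mem ∧ f.leadingCoeff⁻¹ ∈ Lo O H.mem)
    (h2 : ∀ y, y ≠ 0 → f.eval y = 0 → ∃ l, β l = y) :
    ∃ (c : ℂ) (e : ℤ) (J : Multiset Oˣ) (d : O[T;T⁻¹]), c ≠ 0 ∧ c ∈ Lo O H.mem ∧
      c⁻¹ ∈ Lo O H.mem ∧ (∀ y ∈ J, f.eval (x j * (y : O)) = 0) ∧
      (∀ s : O, Prime s → s ∣ ⟨t, H.mem⟩ → C s ∣ d - 1) ∧ sc (x j) f =
        C c * T e * mp O.subtype ((J.map fun y => T 1 - C (y : O)).prod * d) := by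
  obtain ⟨l₀, hl⟩ := hx
  have x0 : x j ≠ 0 := hl ▸ (hβ l₀).1
  have x1 : x j ∈ Lo O H.mem := hl ▸ (hβ l₀).2.1
  have x2 : (x j)⁻¹ ∈ Lo O H.mem := hl ▸ (hβ l₀).2.2
  have t1 : (T 1 * T (-1) : ℂ[T;T⁻¹]) = 1 := by rw [← T_add]; rfl
  simp only [Lat_coe]
  change LatP H (fun y => f.eval (x j * y) = 0) (sc (x j) f)
  rw [← congrArg (sc (x j)) (Polynomial.C_leadingCoeff_mul_prod_multiset_X_sub_C
    (IsAlgClosed.card_roots_eq_natDegree (p := f))), map_mul, sc_C, map_multiset_prod]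
  have hC : ∀ c, c ≠ 0 → c ∈ Lo O H.mem → c⁻¹ ∈ Lo O H.mem →
      LatP H (fun y => f.eval (x j * y) = 0) (C c) := fun c a1 a2 a3 => by
    simpa using LatP_CT H _ a1 a2 a3 0
  refine LatP_mul H (hC _ (Polynomial.leadingCoeff_ne_zero.2 hf) h1.1 h1.2)
    (Multiset.prod_induction _ _ (fun _ _ => LatP_mul H)
      (by simpa using hC 1 one_ne_zero (one_mem _) (by rw [inv_one]; exact one_mem _)) ?_)
  simp only [Multiset.map_map, Multiset.mem_map, Function.comp]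
  rintro _ ⟨r, hr, rfl⟩
  have hr' : f.eval r = 0 := (Polynomial.mem_roots hf).1 hr
  rw [map_sub, sc_X, sc_C]
  by_cases r0 : r = 0
  · rw [r0, map_zero, sub_zero]
    exact LatP_CT H _ x0 x1 x2 1
  obtain ⟨l, rfl⟩ := h2 r r0 hr'
  have e1 : (C (β l) : ℂ[T;T⁻¹]) = C (x j) * C (β l / x j) := by
    rw [← map_mul, mul_div_cancel₀ _ x0]
  have e2 : (C (x j) : ℂ[T;T⁻¹]) = C (β l) * C (x j / β l) := by
    rw [← map_mul, mul_div_cancel₀ _ r0]
  rcases lt_trichotomy (cls l) j with h | rfl | h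
  · rw [show (C (x j) * T 1 - C (β l) : ℂ[T;T⁻¹]) = C (x j) * T 1 * (1 - C (β l / x j) * T (-1)) by
      rw [e1]; linear_combination C (x j) * C (β l / x j) * t1]
    exact LatP_mul H (LatP_CT H _ x0 x1 x2 1) (LatP_sm H _ (S.lt l j h) _)
  · refine ⟨_, 0, {⟨⟨_, (S.eq l).1⟩, ⟨_, (S.eq l).2⟩,
      Subtype.ext ((div_mul_div_cancel₀ x0).trans (div_self r0)),
      Subtype.ext ((div_mul_div_cancel₀ r0).trans (div_self x0))⟩}, 1, x0, x1, x2,
      fun y hy => ?_, by simp, ?_⟩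
    · rw [Multiset.mem_singleton.1 hy]
      change f.eval (_ * (_ / _)) = 0
      rw [mul_div_cancel₀ _ x0]
      exact hr'
    · rw [e1]
      simp [mul_sub]
  · rw [show (C (x j) * T 1 - C (β l) : ℂ[T;T⁻¹]) = C (-β l) * (1 - C (x j / β l) * T 1) by
      rw [e2, map_neg]; ring]
    exact LatP_mul H (hC _ (neg_ne_zero.2 r0) (neg_mem (hβ l).2.1)
      (by rw [inv_neg]; exact neg_mem (hβ l).2.2)) (LatP_sm H _ (S.gt l j h) _)

theorem gauss (H : Frame O t) {f : O[T;T⁻¹]} (hf : ∀ s : O, Prime s → s ∣ ⟨t, H.mem⟩ → ¬ C s ∣ f)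
    {y : ℂ[T;T⁻¹]} (h1 : y ∈ LS (Lo O H.mem)) (h2 : mp O.subtype f * y ∈ LS O) : y ∈ LS O := by
  have := H.pid
  obtain ⟨g, hg⟩ := h2
  have k : ∀ a : O, a ≠ 0 → (∀ s : O, Prime s → s ∣ a → s ∣ ⟨t, H.mem⟩) →
      C (a : ℂ) * y ∈ LS O → y ∈ LS O := fun a => by
    induction a using UniqueFactorizationMonoid.induction_on_prime with
    | h₁ => exact fun h => absurd rfl h
    | h₂ a ha =>
      obtain ⟨u, rfl⟩ := ha
      refine fun _ _ h => ?_
      have := mul_mem (C_mem ((u⁻¹ : Oˣ) : O).2) h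
      rwa [← mul_assoc, ← map_mul, ← Subring.coe_mul, Units.inv_mul, Subring.coe_one, map_one,
        one_mul] at this
    | h₃ a p a0 hp ih =>
      rintro - hs ⟨q, hq⟩
      have hd := hs p hp (dvd_mul_right _ _)
      have e : f * q = C p * (C a * g) := mp_inj O (by
        rw [map_mul, map_mul, map_mul, hq, hg, mp_C, mp_C, Subring.coe_mul, map_mul]
        exact (by ring : mp O.subtype f * (C (p : ℂ) * C (a : ℂ) * y) =
          C (p : ℂ) * (C (a : ℂ) * (mp O.subtype f * y))))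
      obtain ⟨r, rfl⟩ := (Lat_prime H hp hd ⟨_, e⟩).resolve_left (hf p hp hd)
      refine ih a0 (fun s h1 h2 => hs s h1 (h2.mul_left _)) ⟨r, mul_left_cancel₀
        (show (C (p : ℂ) : ℂ[T;T⁻¹]) ≠ 0 from fun h => hp.ne_zero (Subtype.ext
          (by simpa [ev1_C] using congrArg ev1 h))) ?_⟩
      rw [map_mul, mp_C, Subring.coe_mul, map_mul, mul_assoc] at hq
      exact hq
  obtain ⟨e, he⟩ := Lat_clear H y.coeff.support (mem_LS.1 h1)
  refine k (⟨t, H.mem⟩ ^ e) (pow_ne_zero _ fun h => H.ne (congrArg Subtype.val h))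
    (fun s hs h => hs.dvd_of_dvd_pow h) (mem_LS.2 fun a => ?_)
  rw [coeff_C_mul]
  by_cases h : a ∈ y.coeff.support
  · exact he a h
  · rw [Finsupp.notMem_support_iff.1 h, mul_zero]
    exact zero_mem _

theorem fact_mat (H : Frame O t) (J : Multiset Oˣ) {W : Matrix ι ι ℂ[T;T⁻¹]}
    (h1 : ∀ i j, W i j ∈ LS (Lo O H.mem)) {d : ℂ[T;T⁻¹]}
    (h2 : W.det = mp O.subtype (J.map fun y => T 1 - C (y : O)).prod * d) :
    ∃ (W₁ : Matrix ι ι O[T;T⁻¹]) (E : Matrix ι ι ℂ[T;T⁻¹]) (c : Oˣ),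
      W = W₁.map (mp O.subtype) * E ∧ (∀ i j, E i j ∈ LS (Lo O H.mem)) ∧
      W₁.det = C (c : O) * (J.map fun y => T 1 - C (y : O)).prod ∧
      C ((c : O) : ℂ) * E.det = d := by
  simp only [Lat_coe] at h2 ⊢
  induction J using Multiset.induction_on generalizing W with
  | empty => exact ⟨1, W, 1, by simp, h1, by simp, by simpa using h2⟩
  | cons y J ih =>
    rw [Multiset.map_cons, Multiset.prod_cons, map_mul, mul_assoc, map_sub, mp_T, mp_C] at h2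
    obtain ⟨P, V, e, hV, hP⟩ := Lat_step H y h1 ⟨_, h2⟩
    have k : (P.map (mp O.subtype)).det = T 1 - C (O.subtype y) := by
      rw [← RingHom.mapMatrix_apply, ← RingHom.map_det, hP, map_sub, mp_T, mp_C]
    rw [e, det_mul, k] at h2
    obtain ⟨W₁, E, c, e1, e2, e3, e4⟩ := ih hV (mul_left_cancel₀ (Lat_ne _) h2)
    refine ⟨P * W₁, E, c, by rw [e, e1, Matrix.map_mul, Matrix.mul_assoc], e2, ?_, e4⟩
    rw [det_mul, hP, e3, Multiset.map_cons, Multiset.prod_cons, mul_left_comm]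

theorem rank_one (H : Frame O t) {N : Matrix ι ι O} {u v : ι → ℂ} (hu : ∀ i, u i ∈ Lo O H.mem)
    (h : N.map O.subtype = vecMulVec u v) : ∃ u' v' : ι → O, N = vecMulVec u' v' := by
  obtain ⟨e, he⟩ := Lat_clear H univ hu
  have hN : ∀ i j, (N i j : ℂ) = u i * v j := fun i j => congrFun (congrFun h i) j
  have te := pow_ne_zero e H.ne
  by_cases w0 : (fun i => (⟨_, he i (mem_univ i)⟩ : O)) = 0
  · refine ⟨0, 0, Matrix.ext fun i j => Subtype.ext ?_⟩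
    rw [hN, (mul_eq_zero.1 (congrArg Subtype.val (congrFun w0 i))).resolve_left te]
    simp
  obtain ⟨g, c, a, g0, hc, ha⟩ := Lat_prim H w0
  have k : ∀ i, t ^ e * u i = g * c i := fun i => congrArg Subtype.val (hc i)
  have k' : ∑ i, (a i : ℂ) * c i = 1 := by simpa using congrArg O.subtype ha
  refine ⟨c, fun j => ∑ i, a i * N i j, Matrix.ext fun i j => Subtype.ext
    (mul_left_cancel₀ te ?_)⟩
  rw [vecMulVec_apply, Subring.coe_mul, AddSubmonoidClass.coe_finsetSum, mul_sum, mul_sum, hN,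
    ← mul_assoc, k, ← mul_one (_ * v j), ← k', mul_sum]
  refine sum_congr rfl fun l _ => ?_
  rw [Subring.coe_mul, hN]
  linear_combination (-(c i : ℂ)) * a l * v j * k l

end Pool.Agent.Lib.MP_815ef6_nt.Ch
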