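import Pool.Agent.Lib.MP_815ef6_nt.CS.Lat

/-! The system in the lattice basis. -/

namespace Pool.Agent.Lib.MP_815ef6_nt.Ch
open Finset LaurentPolynomial Matrix

variable {ι : Type*} [Fintype ι] [DecidableEq ι] {O : Subring ℂ} {t : ℂ}

section
variable {Λ : Type*} [CommRing Λ] {d : Λ → Λ} {q l n : Λ} {A C W : Matrix ι ι Λ}

omit [DecidableEq ι] in
theorem lat2_qA (h : Rel d q A l C n W) (f : Λ) : Rel d (f * q) (f • A) l C n W := by
  unfold Rel at h ⊢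
  rw [mul_assoc, mul_smul, h, Matrix.mul_smul]
  module

omit [DecidableEq ι] in
theorem lat2_lC (h : Rel d q A l C n W) (f : Λ) : Rel d q A (f * l) (f • C) n W := by
  unfold Rel at h ⊢
  rw [mul_left_comm, mul_smul, h, Matrix.smul_mul]
  module

omit [DecidableEq ι] in
theorem lat2_nW (hd : Dv d) (h : Rel d q A l C n W) (f : Λ) :
    Rel d q A l C (f * n) (f • W) := by
  unfold Rel at h ⊢
  have e : (f • W).map d = d f • W + f • W.map d := by
    ext i k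
    simp [hd.2]
  rw [e, hd.2, Matrix.mul_smul, Matrix.smul_mul]
  linear_combination (norm := module) (f * f) • h

theorem lat2_bas (hd : Dv d) {E E₂ : Matrix ι ι Λ} {ε : Λ} (h : Rel d q A l C n (W * E))
    (e : E * E₂ = ε • 1) : Rel d (ε * q) ((q • E.map d + E * A) * E₂) l C n W := by
  unfold Rel at h ⊢
  have := congrArg (· * E₂) h
  simp only [hd.map_mul, Matrix.smul_mul, Matrix.sub_mul, Matrix.add_mul, Matrix.mul_add,
    Matrix.mul_assoc, e, Matrix.mul_smul, Matrix.mul_one] at this ⊢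
  linear_combination (norm := module) this

omit [DecidableEq ι] in
theorem lat2_inj {Λ' : Type*} [CommRing Λ'] {d' : Λ' → Λ'} (φ : Λ →+* Λ')
    (hφ : Function.Injective φ) (e : ∀ x, φ (d x) = d' (φ x))
    (h : Rel d' (φ q) (A.map φ) (φ l) (C.map φ) (φ n) (W.map φ)) : Rel d q A l C n W := by
  ext i k
  simpa [← hφ.eq_iff, Matrix.mul_apply, e] using congrFun (congrFun h i) k

theorem lat2_adj {S : Subring Λ} (h : W ∈ S.matrix) : adjugate W ∈ S.matrix := fun i k => by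
  have := congrFun (congrFun (S.subtype.map_adjugate (of fun i k => ⟨W i k, h i k⟩)) i) k
  exact (show _ = adjugate W i k from this) ▸ Subtype.prop _

theorem lat2_sm {S : Subring Λ} (hq : q ∈ S) (h : W ∈ S.matrix) : q • W ∈ S.matrix :=
  fun i k => S.mul_mem hq (h i k)

theorem lat2_int {S : Subring Λ} (hd : ∀ f ∈ S, d f ∈ S) (h : Rel d q A l C n W) (hq : q ∈ S)
    (hl : l ∈ S) (hn : n ∈ S) (hC : C ∈ S.matrix) (hW : W ∈ S.matrix) (i k : ι) :
    l * (n * (W.det * A i k)) ∈ S := by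
  have e : l • n • W.det • A =
      adjugate W * ((q * n) • (C * W) - (q * l) • (n • W.map d - d n • W)) := by
    rw [h, sub_sub_cancel, Matrix.mul_smul, ← Matrix.mul_assoc, adjugate_mul, Matrix.smul_mul,
      Matrix.one_mul, mul_smul]
  have : l • n • W.det • A ∈ S.matrix := e ▸ mul_mem (lat2_adj hW) (sub_mem
    (lat2_sm (mul_mem hq hn) (mul_mem hC hW)) (lat2_sm (mul_mem hq hl)
      (sub_mem (lat2_sm hn fun i k => hd _ (hW i k)) (lat2_sm (hd _ hn) hW))))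
  exact this i k

end

theorem lat2_ev (x : ℂ) (p : Polynomial ℂ) : ev1 (sc x p) = p.eval x := by
  induction p using Polynomial.induction_on' with
  | add p q h h' => rw [map_add, map_add, h, h', Polynomial.eval_add]
  | monomial k c => rw [sc_mono, map_mul, ev1_C, ev1_T, mul_one, Polynomial.eval_monomial, mul_comm]

theorem lat2_mem {S : Subring ℂ} {f : ℂ[T;T⁻¹]} (h : f ∈ LS S) : ev1 f ∈ S := by
  obtain ⟨g, rfl⟩ := h
  exact ev1_mp S.subtype g ▸ (ev1 g).2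

theorem lat2_th {S : Subring ℂ} {f : ℂ[T;T⁻¹]} (h : f ∈ LS S) : th f ∈ LS S := by
  obtain ⟨g, rfl⟩ := h
  exact ⟨_, mp_th _ g⟩

theorem lat2_le (ht : t ∈ O) : O ≤ Lo O ht := fun y hy =>
  show ∃ e : ℕ, t ^ e * y ∈ O from ⟨0, by simpa using hy⟩

theorem lat2_lo (ht : t ∈ O) (f : O[T;T⁻¹]) : mp O.subtype f ∈ LS (Lo O ht) :=
  LS_mono (lat2_le ht) ⟨f, rfl⟩

theorem lat2_nd (H : Frame O t) (J : Multiset Oˣ) {c d : O[T;T⁻¹]} (hc : IsUnit c) {s : O}
    (hs : Prime s) (h : s ∣ ⟨t, H.mem⟩) (hd : C s ∣ d - 1) :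
    ¬ C s ∣ c * (J.map fun y => T 1 - C (y : O)).prod * d := fun e => by
  obtain ⟨ρ, hρ⟩ := H.res s hs h
  have k : ∀ f, C s ∣ f → mp ρ f = 0 := by
    rintro _ ⟨g, rfl⟩
    simp [(hρ s).2 dvd_rfl]
  have h1 := k _ hd
  have h2 := k _ e
  rw [map_sub, map_one, sub_eq_zero] at h1
  rw [map_mul, map_mul, h1, mul_one, (hc.map _).mul_right_eq_zero, map_multiset_prod,
    Multiset.prod_eq_zero_iff, Multiset.map_map, Multiset.mem_map] at h2
  obtain ⟨y, -, hy⟩ := h2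
  simp only [Function.comp, map_sub, mp_T, mp_C, sub_eq_zero] at hy
  have := th_CT (1 : ℂ) 1
  rw [map_one, one_mul, hy, ← mul_one (C (ρ y)), ← T_zero, th_CT] at this
  simp only [Int.cast_zero, zero_mul, map_zero, Int.cast_one, mul_one, map_one, one_mul,
    T_zero] at this
  exact (isUnit_T (R := ℂ) 1).ne_zero (hy.trans this.symm)

theorem lat2_unit (H : Frame O t) (ht : ¬ IsUnit (⟨t, H.mem⟩ : O)) {M R : ℕ} {β : Fin M → ℂ}
    {cls : Fin M → Fin (R + 1)} {x : Fin (R + 1) → ℂ} (S : Spn O t β cls x) {j : Fin (R + 1)}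
    (hx : x j ≠ 0) {l : Fin M} {y : Oˣ} (h : β l = x j * (y : O)) : cls l = j := by
  have k : ∀ y : Oˣ, ¬ Sm O t (y : O) := fun y ⟨_, d, z, hz, e⟩ =>
    ht (isUnit_of_mul_isUnit_left (y := ⟨z, hz⟩)
      (by rw [show (⟨t, H.mem⟩ * ⟨z, hz⟩ : O) = (y : O) ^ d from Subtype.ext e.symm]
          exact y.isUnit.pow d))
  rcases lt_trichotomy (cls l) j with e | e | e
  · exact (k y (by simpa [h, hx] using S.lt l j e)).elim
  · exact e
  · refine (k y⁻¹ ?_).elim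
    have := S.gt l j e
    rwa [h, div_mul_cancel_left₀ hx, ← eq_inv_of_mul_eq_one_left
      (congrArg Subtype.val y.inv_mul)] at this

theorem lat2_np (H : Frame O t) {M R : ℕ} {β : Fin M → ℂ} {cls : Fin M → Fin (R + 1)}
    {x : Fin (R + 1) → ℂ} (S : Spn O t β cls x) (j : Fin (R + 1))
    (hβ : ∀ l, β l ≠ 0 ∧ β l ∈ Lo O H.mem ∧ (β l)⁻¹ ∈ Lo O H.mem) (hx : ∃ l, x j = β l)
    {f : Polynomial ℂ} (hf : f ≠ 0)
    (h1 : f.leadingCoeff ∈ Lo O H.mem ∧ f.leadingCoeff⁻¹ ∈ Lo O H.mem)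
    (h2 : ∀ y, y ≠ 0 → f.eval y = 0 → ∃ l, β l = y) :
    ∃ (κ κ' : ℂ[T;T⁻¹]) (J : Multiset Oˣ) (d : O[T;T⁻¹]), κ ∈ LS (Lo O H.mem) ∧
      κ' ∈ LS (Lo O H.mem) ∧ κ' * κ = 1 ∧ (∀ y ∈ J, f.eval (x j * (y : O)) = 0) ∧
      (∀ s : O, Prime s → s ∣ ⟨t, H.mem⟩ → C s ∣ d - 1) ∧ sc (x j) f =
        κ * mp O.subtype ((J.map fun y => T 1 - C (y : O)).prod * d) := by
  obtain ⟨c, k, J, d, c0, c1, c2, h⟩ := norm_poly H S j hβ hx hf h1 h2
  exact ⟨_, C c⁻¹ * T (-k), J, d, mul_mem (C_mem c1) (T_mem _ _), mul_mem (C_mem c2) (T_mem _ _),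
    by rw [mul_mul_mul_comm, ← map_mul, ← T_add, inv_mul_cancel₀ c0, neg_add_cancel, T_zero,
      map_one, one_mul], h⟩

omit [DecidableEq ι] in
theorem lat2_q (H : Frame O t) (ht : ¬ IsUnit (⟨t, H.mem⟩ : O)) {M R r : ℕ} {β : Fin M → ℂ}
    {cls : Fin M → Fin (R + 1)} {x : Fin (R + 1) → ℂ} (S : Spn O t β cls x) (j : Fin (R + 1))
    (hβ : ∀ l, β l ≠ 0 ∧ β l ∈ Lo O H.mem ∧ (β l)⁻¹ ∈ Lo O H.mem) (hx : ∃ l, x j = β l)
    {a : Fin (r + 1) → ℂ} (ha : Function.Injective a) (hab : ∀ i, ∃ l, β l = a i)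
    (hxa : ∀ l i, β l = a i → x (cls l) = a i) {e : ℕ} {qo : Polynomial ℂ}
    (hq : qo = Polynomial.X ^ e * ∏ i, (Polynomial.X - Polynomial.C (a i)))
    {Ao : Matrix ι ι (Polynomial ℂ)}
    (res : ∀ i, ∃ (u v : ι → ℂ) (γ : ℚ), (∀ k, u k ∈ Lo O H.mem) ∧
      Ao.map (Polynomial.eval (a i)) = (dz qo).eval (a i) • vecMulVec u v ∧ ∑ k, u k * v k = γ ∧
        ((∀ z : ℤ, γ ≠ z) ∨ vecMulVec u v = 0)) :
    ∃ (g : ℂ[T;T⁻¹]) (d : O[T;T⁻¹]) (u v : ι → ℂ) (γ : ℚ), g ∈ LS (Lo O H.mem) ∧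
      g * sc (x j) qo = (1 - T 1) * mp O.subtype d ∧
      (∀ s : O, Prime s → s ∣ ⟨t, H.mem⟩ → C s ∣ d - 1) ∧ (∀ k, u k ∈ Lo O H.mem) ∧
      (g • Ao.map (sc (x j))).map ev1 = vecMulVec u v ∧ ∑ k, u k * v k = γ * (ev1 d : O) ∧
        ((∀ z : ℤ, γ ≠ z) ∨ vecMulVec u v = 0) := by
  classical
  obtain ⟨x0, x1, x2⟩ : x j ≠ 0 ∧ x j ∈ Lo O H.mem ∧ (x j)⁻¹ ∈ Lo O H.mem :=
    hx.elim fun l e => e ▸ hβ l
  set q' : Polynomial ℂ := Polynomial.X ^ e *
    ∏ i ∈ univ.filter fun i => ¬ a i = x j, (Polynomial.X - Polynomial.C (a i)) with hq'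
  have mo : q'.Monic := (Polynomial.monic_X_pow e).mul
    (Polynomial.monic_prod_of_monic _ _ fun _ _ => Polynomial.monic_X_sub_C _)
  have rt : ∀ y, y ≠ 0 → q'.eval y = 0 → ∃ i, a i ≠ x j ∧ y = a i := fun y hy h => by
    simpa [hq', Polynomial.eval_prod, prod_eq_zero_iff, hy, sub_eq_zero] using h
  obtain ⟨c, κ, J, d, -, m0, c0, hJ, hd, hs⟩ := lat2_np H S j hβ hx mo.ne_zero
    (by rw [mo.leadingCoeff, inv_one]; exact ⟨one_mem _, one_mem _⟩) fun y hy h => by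
      obtain ⟨i, -, rfl⟩ := rt y hy h
      exact hab i
  obtain rfl : J = 0 := Multiset.eq_zero_of_forall_notMem fun y hy => by
    obtain ⟨i, h1, h2⟩ := rt _ (mul_ne_zero x0 (by simp)) (hJ y hy)
    obtain ⟨l, hl⟩ := hab i
    exact h1 (lat2_unit H ht S x0 (hl.trans h2.symm) ▸ (hxa l i hl).symm)
  have hs : κ * sc (x j) q' = mp O.subtype d := by
    rw [hs, ← mul_assoc, c0, one_mul]
    exact congrArg _ (one_mul d)
  rw [← prod_filter_mul_prod_filter_not univ fun i => a i = x j, mul_left_comm, ← hq'] at hq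
  by_cases h : ∃ i, a i = x j
  · obtain ⟨i, hi⟩ := h
    rw [show (univ.filter fun i => a i = x j) = {i} from by
      ext i'; simp [← hi, ha.eq_iff], prod_singleton, hi] at hq
    obtain ⟨u, v, γ, h1, h2, h3, h4⟩ := res i
    have e : -C (x j)⁻¹ * κ * sc (x j) qo = (1 - T 1) * mp O.subtype d := by
      have : (C (x j)⁻¹ * C (x j) : ℂ[T;T⁻¹]) = 1 := by
        rw [← map_mul, inv_mul_cancel₀ x0, map_one]
      rw [hq, map_mul, map_sub, sc_X, sc_C, ← hs]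
      linear_combination (1 - T 1) * κ * sc (x j) q' * this
    refine ⟨_, d, fun k => -(ev1 d : O) * u k, v, -γ, mul_mem (neg_mem (C_mem x2)) m0, e, hd,
      fun k => mul_mem (neg_mem (lat2_le _ (ev1 d).2)) (h1 k), ?_, ?_, h4.imp
        (fun h z l => h (-z) (by simp [← l])) fun h => ?_⟩
    · have e1 := congrArg (fun f => ev1 (th f)) e
      have e2 : th (1 - T 1 : ℂ[T;T⁻¹]) = -T 1 := by
        have := th_CT (1 : ℂ) 1
        rw [map_one, one_mul, Int.cast_one, mul_one, map_one, one_mul] at this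
        rw [Am1_sub dv_th, Am1_one dv_th, this, zero_sub]
      have e3 : qo.eval (x j) = 0 := by simp [hq]
      simp only [dv_th.2, map_add, map_mul ev1, ← sc_dz, lat2_ev, e2, e3, map_sub, map_one, map_neg,
        ev1_T, ev1_mp, Subring.coe_subtype] at e1
      ext i k
      have := congrFun (congrFun h2 i) k
      simp only [hi, map_apply, Matrix.smul_apply, smul_eq_mul, vecMulVec_apply] at this
      simp only [map_apply, Matrix.smul_apply, smul_eq_mul, vecMulVec_apply, map_mul ev1, lat2_ev,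
        this, map_neg]
      linear_combination u i * v k * e1
    · simp only [mul_assoc, ← mul_sum, h3]
      push_cast
      ring
    · ext i k
      have := congrFun (congrFun h i) k
      simp only [vecMulVec_apply] at this ⊢
      rw [mul_assoc, this]
      simp
  · rw [filter_false_of_mem fun i _ l => h ⟨i, l⟩, prod_empty, one_mul] at hq
    refine ⟨(1 - T 1) * κ, d, 0, 0, 0, mul_mem (sub_mem (one_mem _) (T_mem _ _)) m0,
      by rw [hq, mul_assoc, hs], hd, fun _ => zero_mem _, ?_, by simp, Or.inr (by simp)⟩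
    ext i k
    simp [ev1_T]

theorem lattice (H : Frame O t) (ht : ¬ IsUnit (⟨t, H.mem⟩ : O)) {M R r : ℕ} {β : Fin M → ℂ}
    {cls : Fin M → Fin (R + 1)} {x : Fin (R + 1) → ℂ} (S : Spn O t β cls x) (j : Fin (R + 1))
    (hβ : ∀ l, β l ≠ 0 ∧ β l ∈ Lo O H.mem ∧ (β l)⁻¹ ∈ Lo O H.mem) (hx : ∃ l, x j = β l)
    {a : Fin (r + 1) → ℂ} (ha : Function.Injective a) (hab : ∀ i, ∃ l, β l = a i)
    (hxa : ∀ l i, β l = a i → x (cls l) = a i) {e : ℕ} {qo no lo : Polynomial ℂ}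
    (hq : qo = Polynomial.X ^ e * ∏ i, (Polynomial.X - Polynomial.C (a i)))
    {Ao Wo Co : Matrix ι ι (Polynomial ℂ)} (rel : Rel dz qo Ao lo Co no Wo)
    (hA : ∀ i k m, (Ao i k).coeff m ∈ Lo O H.mem) (hW : ∀ i k m, (Wo i k).coeff m ∈ Lo O H.mem)
    (n0 : no ≠ 0) (n1 : no.leadingCoeff ∈ Lo O H.mem ∧ no.leadingCoeff⁻¹ ∈ Lo O H.mem)
    (W0 : Wo.det ≠ 0)
    (W1 : Wo.det.leadingCoeff ∈ Lo O H.mem ∧ Wo.det.leadingCoeff⁻¹ ∈ Lo O H.mem)
    (rt : ∀ y, y ≠ 0 → (no * Wo.det).eval y = 0 → ∃ l, β l = y)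
    (res : ∀ i, ∃ (u v : ι → ℂ) (γ : ℚ), (∀ k, u k ∈ Lo O H.mem) ∧
      Ao.map (Polynomial.eval (a i)) = (dz qo).eval (a i) • vecMulVec u v ∧ ∑ k, u k * v k = γ ∧
        ((∀ z : ℤ, γ ≠ z) ∨ vecMulVec u v = 0))
    {f : ℂ[T;T⁻¹]} {l : O[T;T⁻¹]} {Cm : Matrix ι ι O[T;T⁻¹]}
    (hl : mp O.subtype l = f * sc (x j) lo)
    (hC : Cm.map (mp O.subtype) = f • Co.map (sc (x j)))
    (l0 : ∀ s : O, Prime s → s ∣ ⟨t, H.mem⟩ → ¬ C s ∣ l) :
    ∃ (δ n : O[T;T⁻¹]) (A W : Matrix ι ι O[T;T⁻¹]), Rel th ((1 - T 1) * δ) A l Cm n W ∧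
      (∀ s : O, Prime s → s ∣ ⟨t, H.mem⟩ → C s ∣ δ - 1 ∧ ¬ C s ∣ n ∧ ¬ C s ∣ W.det) ∧
      ∃ (u v : ι → O) (γ : ℚ), A.map ev1 = vecMulVec u v ∧
        ((∑ k, u k * v k : O) : ℂ) = γ * (ev1 δ : O) ∧ ((∀ z : ℤ, γ ≠ z) ∨ vecMulVec u v = 0) := by
  obtain ⟨x0, x1, x2⟩ : x j ≠ 0 ∧ x j ∈ Lo O H.mem ∧ (x j)⁻¹ ∈ Lo O H.mem :=
    hx.elim fun l e => e ▸ hβ l
  obtain ⟨g, dq, u, v, γ, g1, g2, g3, u1, g4, g5, g6⟩ := lat2_q H ht S j hβ hx ha hab hxa hq res
  obtain ⟨κ, κ', Jn, dn, k1, k2, k3, -, hn, en⟩ := lat2_np H S j hβ hx n0 n1 fun y hy h =>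
    rt y hy (by rw [Polynomial.eval_mul, h, zero_mul])
  obtain ⟨ω, ω', J, dW, w1, w2, w3, -, hd, eW⟩ := lat2_np H S j hβ hx W0 W1 fun y hy h =>
    rt y hy (by rw [Polynomial.eval_mul, h, mul_zero])
  obtain ⟨W₁, E, c, f1, f2, f3, f4⟩ := fact_mat H J (W := Wo.map (sc (x j)))
    (fun i k => sc_mem x1 (hW i k)) (d := ω * mp O.subtype dW)
    (by rw [← RingHom.mapMatrix_apply, ← RingHom.map_det, eW, map_mul, mul_left_comm])
  have n2 := fun s hs h => lat2_nd H Jn isUnit_one hs h (hn s hs h)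
  have d2 := fun s hs h => lat2_nd H J (d := 1) (c.isUnit.map C) (s := s) hs h (by simp)
  simp only [one_mul] at n2
  simp only [mul_one, ← f3] at d2
  generalize (Jn.map fun y => T 1 - C (y : O)).prod * dn = n at en n2
  set E₂ := (κ * C ((c : O) : ℂ) * ω') • adjugate E with hE
  have e0 : κ' * (κ * C ((c : O) : ℂ) * ω' * E.det) = mp O.subtype dW := by
    linear_combination ω' * f4 + mp O.subtype dW * w3 + C ((c : O) : ℂ) * ω' * E.det * k3
  have e1 : (κ' • E) * E₂ = mp O.subtype dW • 1 := by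
    rw [hE, Matrix.smul_mul, Matrix.mul_smul, mul_adjugate, smul_smul, smul_smul, mul_assoc, e0]
  have e2 : E₂ * (κ' • E) = mp O.subtype dW • 1 := by
    rw [hE, Matrix.mul_smul, Matrix.smul_mul, adjugate_mul, smul_smul, smul_smul, mul_assoc, e0]
  have m1 : κ' • E ∈ (LS (Lo O H.mem)).matrix := lat2_sm k2 f2
  have m2 : E₂ ∈ (LS (Lo O H.mem)).matrix :=
    lat2_sm (mul_mem (mul_mem k1 (C_mem (lat2_le _ (c : O).2))) w2) (lat2_adj f2)
  have R := lat2_nW dv_th (lat2_lC (lat2_qA (rel.map _ (sc_dz (x j))) g) f) κ'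
  rw [← hl, ← hC, en, ← mul_assoc, k3, one_mul, f1, ← Matrix.mul_smul] at R
  generalize κ' • E = E₁ at e1 e2 m1 R
  replace R := lat2_bas dv_th R e1
  set A₁ := ((g * sc (x j) qo) • E₁.map th + E₁ * g • Ao.map (sc (x j))) * E₂ with hA1
  have eq : mp O.subtype dW * (g * sc (x j) qo) = mp O.subtype ((1 - T 1) * (dq * dW)) := by
    simp only [g2, map_mul, map_sub, map_one, mp_T]
    ring
  have m3 : A₁ ∈ (LS (Lo O H.mem)).matrix := mul_mem (add_mem (lat2_sm (g2 ▸ mul_mem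
    (sub_mem (one_mem _) (T_mem _ _)) (lat2_lo _ _)) fun i k => lat2_th (m1 i k))
      (mul_mem m1 (lat2_sm g1 fun i k => sc_mem x1 (hA i k)))) m2
  rw [eq] at R
  have m4 : ∀ i k, A₁ i k ∈ LS O := fun i k => by
    have := lat2_int (S := LS O) (fun _ => lat2_th) R ⟨_, rfl⟩ ⟨_, rfl⟩ ⟨_, rfl⟩
      (fun _ _ => ⟨_, rfl⟩) (fun _ _ => ⟨_, rfl⟩) i k
    rw [← RingHom.mapMatrix_apply, ← RingHom.map_det] at this
    have a := mul_mem (lat2_lo H.mem W₁.det) (m3 i k)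
    exact gauss H d2 (m3 i k) (gauss H n2 a (gauss H l0 (mul_mem (lat2_lo _ _) a) this))
  choose A hA' using m4
  have hA2 : (of A).map (mp O.subtype) = A₁ := Matrix.ext hA'
  have e3 : ((of A).map ev1).map O.subtype =
      vecMulVec (E₁.map ev1 *ᵥ u) (v ᵥ* E₂.map ev1) := by
    rw [show ((of A).map ev1).map O.subtype = A₁.map ev1 from
      hA2 ▸ Matrix.ext fun i k => (ev1_mp O.subtype (A i k)).symm, hA1, Matrix.map_mul,
      Am1_add,
      Am1_smul, Matrix.map_mul, g4, g2, map_mul, map_sub, map_one, ev1_T, sub_self, zero_mul,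
      zero_smul, zero_add, mul_vecMulVec, vecMulVec_mul]
  obtain ⟨u', v', e4⟩ := rank_one H (fun i => sum_mem fun k _ =>
    mul_mem (lat2_mem (m1 i k)) (u1 k)) e3
  refine ⟨dq * dW, n, of A, W₁, lat2_inj _ (mp_inj O) (mp_th _) (hA2 ▸ R), fun s hs h =>
    ⟨?_, n2 s hs h, d2 s hs h⟩, u', v', γ, e4, ?_, g6.imp_right fun h => ?_⟩
  · rw [show dq * dW - 1 = (dq - 1) * dW + (dW - 1) by ring]
    exact dvd_add ((g3 s hs h).mul_right _) (hd s hs h)
  · have e5 := congrArg trace e3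
    have e6 := congrArg (·.map ev1) e2
    simp only [Matrix.map_mul, Am1_smul, ev1_mp, Matrix.map_one _ (map_zero _) (map_one _)] at e6
    rw [e4, ← AddMonoidHom.map_trace O.subtype, trace_vecMulVec, trace_vecMulVec,
      dotProduct_comm (_ *ᵥ u), ← dotProduct_mulVec, mulVec_mulVec, e6, smul_mulVec, one_mulVec,
      dotProduct_smul, dotProduct_comm v, dotProduct, dotProduct, g5] at e5
    rw [map_mul, Subring.coe_mul]
    exact e5.trans (by rw [smul_eq_mul, Subring.coe_subtype]; ring)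
  · rw [← vecMulVec_mul, ← mul_vecMulVec, h, Matrix.mul_zero, Matrix.zero_mul, e4] at e3
    ext i k
    exact congrFun (congrFun e3 i) k

end Pool.Agent.Lib.MP_815ef6_nt.Ch
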