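import Pool.Agent.Lib.MP_815ef6_nt.CS.Def

/-! The arithmetic of the extensions of a Kummer system by a hypergeometric system. -/

namespace Pool.Agent.Lib.MP_815ef6_nt.Ch
open Finset LaurentPolynomial Matrix

variable {ι : Type*} [Fintype ι] [DecidableEq ι] {μ u v κ : ι → ℚ} {c : ℚ}

/-- The first special point after `c` comes from `μ`, modulo all large primes. -/
def First (u μ κ : ι → ℚ) (c : ℚ) : Prop := ∃ p₀ : ℕ, ∀ p : ℕ, p.Prime → p₀ ≤ p → ∀ i, u i ≠ 0 →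
  ∀ l : ℕ, (p : ℤ) ∣ (c + l - κ i).num → ∃ l' ≤ l, ∃ j, u j ≠ 0 ∧ (p : ℤ) ∣ (c + (l' : ℕ) - μ j).num

theorem lcA_dv {m x y : ℤ} (h : m ∣ x) (e : y = x) : m ∣ y := e ▸ h

theorem lcA_num {p N : ℕ} (hp : p.Prime) (h0 : 0 < N) (hN : N < p) {q : ℚ} {z : ℤ}
    (e : N * q = z) : (p : ℤ) ∣ q.num ↔ (p : ℤ) ∣ z := by
  have e' : (N : ℤ) * q.num = z * q.den := by
    have : (N : ℚ) * q.num = z * q.den := by rw [← e, mul_assoc, Rat.mul_den_eq_num]
    exact_mod_cast this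
  have hp' := Nat.prime_iff_prime_int.1 hp
  exact ⟨fun h => (hp'.dvd_or_dvd (e' ▸ h.mul_left N)).resolve_right fun h' =>
      hp.one_lt.ne' (Nat.eq_one_of_dvd_coprimes q.reduced (Int.natCast_dvd.1 h)
        (Int.natCast_dvd_natCast.1 h')),
    fun h => (hp'.dvd_or_dvd (e' ▸ h.mul_right _ : (p : ℤ) ∣ N * q.num)).resolve_left fun h' =>
      (Nat.le_of_dvd h0 (Int.natCast_dvd_natCast.1 h')).not_gt hN⟩

theorem lcA_can {p N : ℕ} (hp : p.Prime) (h0 : 0 < N) (hN : N < p) {z : ℤ} (h : (p : ℤ) ∣ N * z) :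
    (p : ℤ) ∣ z := ((Nat.prime_iff_prime_int.1 hp).dvd_or_dvd h).resolve_left fun h' =>
      (Nat.le_of_dvd h0 (Int.natCast_dvd_natCast.1 h')).not_gt hN

theorem lcA_ex {p N : ℕ} (hp : p.Prime) (h0 : 0 < N) (hN : N < p) (a : ℤ) :
    ∃ l < p, (p : ℤ) ∣ N * (l : ℕ) - a := by
  have := Fact.mk hp
  refine ⟨((a : ZMod p) / N).val, ZMod.val_lt _, (ZMod.intCast_zmod_eq_zero_iff_dvd _ p).1 ?_⟩
  have : (N : ZMod p) ≠ 0 := fun e =>
    (Nat.le_of_dvd h0 ((ZMod.natCast_eq_zero_iff _ _).1 e)).not_gt hN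
  push_cast
  rw [ZMod.natCast_zmod_val, mul_div_cancel₀ _ this, sub_self]

theorem lcA_uq {p N l l' : ℕ} (hp : p.Prime) (h0 : 0 < N) (hN : N < p) {a : ℤ} (hl : l < p)
    (hl' : l' < p) (h : (p : ℤ) ∣ N * l - a) (h' : (p : ℤ) ∣ N * l' - a) : l = l' := by
  have := Int.eq_zero_of_abs_lt_dvd (lcA_can hp h0 hN (z := l - l')
    (lcA_dv (h.sub h') (by ring))) (by rw [abs_lt]; omega)
  omega

omit [DecidableEq ι] in
theorem lcA_den (f g : ι → ℚ) : ∃ N : ℕ, 0 < N ∧ ∃ (a b : ι → ℤ) (B : ℕ),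
    ∀ i, (N * f i = a i ∧ N * g i = b i) ∧ |a i| ≤ B ∧ |b i| ≤ B := by
  have (i : ι ⊕ ι) : ∃ a : ℤ, ((∏ i, (Sum.elim f g i).den : ℕ) : ℚ) * Sum.elim f g i = a := by
    obtain ⟨w, e⟩ := dvd_prod_of_mem (fun i => (Sum.elim f g i).den) (mem_univ i)
    exact ⟨w * (Sum.elim f g i).num, by
      rw [e, Nat.cast_mul, mul_right_comm, Rat.den_mul_eq_num, Int.cast_mul, Int.cast_natCast,
        mul_comm]⟩
  choose a ha using this
  obtain ⟨B, hB⟩ := Finite.exists_le fun i => (a i).natAbs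
  have (i : ι ⊕ ι) : |a i| ≤ B := by
    rw [Int.abs_eq_natAbs]
    exact_mod_cast hB i
  exact ⟨_, prod_pos fun i _ => Rat.den_pos _, fun i => a (.inl i), fun i => a (.inr i), B,
    fun i => ⟨⟨ha (.inl i), ha (.inr i)⟩, this _, this _⟩⟩

omit [Fintype ι] [DecidableEq ι] in
theorem lcA_ord (S : Finset ι) (k m : ι → ℕ) (ik : ∀ i ∈ S, ∀ i' ∈ S, k i = k i' → i = i')
    (hF : ∀ i ∈ S, ∃ j ∈ S, m j ≤ k i)
    (hG : ∀ i ∈ S, ∀ i' ∈ S, k i < k i' → ∃ j ∈ S, k i < m j ∧ m j ≤ k i') :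
    ∑ j ∈ S, m j ≤ ∑ i ∈ S, k i ∧ ∀ j ∈ S, ∃ i ∈ S, m j ≤ k i := by
  have (i : ι) : ∃ j, i ∈ S → (j ∈ S ∧ m j ≤ k i) ∧ ∀ j' ∈ S, m j' ≤ k i → m j' ≤ m j := by
    by_cases hi : i ∈ S
    · obtain ⟨j, hj, h⟩ := exists_max_image (S.filter fun j => m j ≤ k i) m
        ((hF i hi).imp fun j a => mem_filter.2 a)
      exact ⟨j, fun _ => ⟨mem_filter.1 hj, fun j' a b => h j' (mem_filter.2 ⟨a, b⟩)⟩⟩
    · exact ⟨i, fun a => absurd a hi⟩
  choose σ hσ using this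
  have lt : ∀ i ∈ S, ∀ i' ∈ S, k i < k i' → σ i ≠ σ i' := fun i a i' b l e => by
    obtain ⟨j, h1, h2, h3⟩ := hG i a i' b l
    have := (hσ i' b).2 j h1 h3
    have := (hσ i a).1.2
    rw [e] at this
    omega
  have inj : Set.InjOn σ S := fun i a i' b e => ik i a i' b (le_antisymm
    (not_lt.1 fun l => lt i' b i a l e.symm) (not_lt.1 fun l => lt i a i' b l e))
  have sur := surjOn_of_injOn_of_card_le σ (fun i a => (hσ i a).1.1) inj le_rfl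
  refine ⟨?_, fun j hj => ?_⟩
  · rw [← sum_nbij σ (fun i a => (hσ i a).1.1) inj sur fun _ _ => rfl]
    exact sum_le_sum fun i a => (hσ i a).1.2
  · obtain ⟨i, a, rfl⟩ := sur hj
    exact ⟨i, a, (hσ i a).1.2⟩

theorem lcA_t {p N l : ℕ} {a : ℤ} (hl : l < p) (ha : |a| < p) (h : (p : ℤ) ∣ N * l - a) :
    ∃ t : ℤ, 0 ≤ t ∧ t ≤ N ∧ N * l = a + t * p := by
  obtain ⟨t, e⟩ := h
  rw [abs_lt] at ha
  have h1 : (0 : ℤ) ≤ N * l := by positivity
  have h2 : (N : ℤ) * l ≤ N * p := by gcongr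
  have h3 : (0 : ℤ) < p := by omega
  exact ⟨t, by nlinarith, by nlinarith, by linear_combination e⟩

theorem lcA_tt {p p' N l l' : ℕ} {a : ℤ} (hl : l < p) (hl' : l' < p') (ha : |a| < p)
    (ha' : |a| < p') (h : (p : ℤ) ∣ N * l - a) (h' : (p' : ℤ) ∣ N * l' - a) (e : (N : ℤ) ∣ 1 - p)
    (e' : (N : ℤ) ∣ -1 - p') (n : ¬ (N : ℤ) ∣ a) :
    ∃ t : ℤ, N * l = a + t * p ∧ N * l' = a + (N - t) * p' := by
  obtain ⟨t, h1, h2, h3⟩ := lcA_t hl ha h
  obtain ⟨s, h4, h5, h6⟩ := lcA_t hl' ha' h'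
  have d1 : (N : ℤ) ∣ a + t :=
    lcA_dv ((dvd_mul_right (N : ℤ) l).add (e.mul_left t)) (by linear_combination -h3)
  have d2 : (N : ℤ) ∣ a - s :=
    lcA_dv ((dvd_mul_right (N : ℤ) l').add (e'.mul_left s)) (by linear_combination -h6)
  have t0 : t ≠ 0 := fun z => n (by simpa [z] using d1)
  have t1 : t ≠ N := fun z => n (by simpa [z] using d1)
  have := Int.eq_zero_of_abs_lt_dvd (m := N) (x := t + s - N)
    (lcA_dv ((d1.sub d2).sub dvd_rfl) (by ring)) (by rw [abs_lt]; omega)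
  exact ⟨t, h3, by rw [h6, show N - t = s by omega]⟩

omit [DecidableEq ι] in
theorem lcA_pos (iκ : ∀ l l', u l ≠ 0 → u l' ≠ 0 → κ l = κ l' → l = l')
    (ne : ∀ i l, u i ≠ 0 → u l ≠ 0 → κ i ≠ μ l) (gap : Gap u κ μ) (h : First u μ κ c) {N B : ℕ}
    (h0 : 0 < N) {a b : ι → ℤ}
    (H : ∀ i, (N * (κ i - c) = a i ∧ N * (μ i - c) = b i) ∧ |a i| ≤ B ∧ |b i| ≤ B) :
    ∃ p₀ : ℕ, ∀ p : ℕ, p.Prime → p₀ ≤ p → ∃ k m : ι → ℕ,
      (∀ i, k i < p ∧ (p : ℤ) ∣ N * k i - a i) ∧ (∀ j, m j < p ∧ (p : ℤ) ∣ N * m j - b j) ∧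
      ∑ j with u j ≠ 0, m j ≤ ∑ i with u i ≠ 0, k i ∧ ∀ j, u j ≠ 0 → ∃ i, u i ≠ 0 ∧ m j ≤ k i := by
  obtain ⟨p₁, gap⟩ := gap
  obtain ⟨p₂, h⟩ := h
  refine ⟨p₁ + p₂ + N + 2 * B + 1, fun p hp l => ?_⟩
  have hN : N < p := by omega
  have n0 : (N : ℚ) ≠ 0 := by positivity
  choose k hk using fun i => lcA_ex hp h0 hN (a i)
  choose m hm using fun i => lcA_ex hp h0 hN (b i)
  have sm : ∀ {x y : ℤ} {l : ℕ}, |x| ≤ B → |y| ≤ B → (p : ℤ) ∣ N * l - x → (p : ℤ) ∣ N * l - y →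
      x = y := fun r s d d' => by
    rw [abs_le] at r s
    have := Int.eq_zero_of_abs_lt_dvd (d.sub d') (by rw [abs_lt]; omega)
    omega
  have := lcA_ord (univ.filter fun i => u i ≠ 0) k m (fun i x i' y e => ?_) (fun i x => ?_)
    fun i x i' y e => ?_
  · exact ⟨k, m, hk, hm, this.1, by simpa using this.2⟩
  · refine iκ i i' (by simpa using x) (by simpa using y)
      ((sub_left_inj (a := c)).1 (mul_left_cancel₀ n0 ?_))
    rw [(H i).1.1, (H i').1.1, sm (H i).2.1 (H i').2.1 (hk i).2 (e ▸ (hk i').2)]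
  · obtain ⟨l', r, j, s, d⟩ := h p hp (by omega) i (by simpa using x) (k i)
      ((lcA_num hp h0 hN (by push_cast; linear_combination -(H i).1.1)).2 (hk i).2)
    refine ⟨j, by simpa using s, (lcA_uq hp h0 hN (hm j).1 (r.trans_lt (hk i).1) (hm j).2
      ((lcA_num hp h0 hN (by push_cast; linear_combination -(H j).1.2)).1 d)).trans_le r⟩
  · obtain ⟨l, e'⟩ := Nat.exists_eq_add_of_lt e
    obtain ⟨l', r, j, s, d⟩ := gap p hp (by omega) i i' (by simpa using x) (by simpa using y) (l + 1)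
      l.succ_pos ((lcA_num hp h0 hN (z := N * k i' - a i' - (N * k i - a i)) (by
        rw [e']
        push_cast
        linear_combination (H i).1.1 - (H i').1.1)).2 ((hk i').2.sub (hk i).2))
    have d' := ((lcA_num hp h0 hN (z := N * (k i + l' : ℕ) - b j - (N * k i - a i)) (by
      push_cast
      linear_combination (H i).1.1 - (H j).1.2)).1 d).add (hk i).2
    rw [sub_add_cancel] at d'
    have q := lcA_uq hp h0 hN (hm j).1 (by have := (hk i').1; omega) (hm j).2 d'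
    refine ⟨j, by simpa using s, lt_of_le_of_ne (by omega) fun z => ?_, by omega⟩
    refine ne i j (by simpa using x) s ((sub_left_inj (a := c)).1 (mul_left_cancel₀ n0 ?_))
    rw [(H i).1.1, (H j).1.2, sm (H i).2.1 (H j).2.2 (hk i).2 (z ▸ (hm j).2)]

theorem lc_arith (iμ : ∀ l l', u l ≠ 0 → u l' ≠ 0 → μ l = μ l' → l = l')
    (iκ : ∀ l l', u l ≠ 0 → u l' ≠ 0 → κ l = κ l' → l = l')
    (ne : ∀ i l, u i ≠ 0 → u l ≠ 0 → κ i ≠ μ l) (tr : ∀ z : ℤ, ∑ i with u i ≠ 0, (κ i - μ i) ≠ z)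
    (gap : Gap u κ μ) (h : First u μ κ c) :
    (∃ (j : ι) (d : ℕ), u j ≠ 0 ∧ c + d = μ j ∧ ∀ i, u i ≠ 0 → ∀ d' ≤ d, c + (d' : ℕ) ≠ κ i) ∨
      ∃ (i : ι) (d : ℕ), u i ≠ 0 ∧ c - (d + 1) = κ i ∧
        ∀ j, u j ≠ 0 → ∀ d' ≤ d, c - ((d' : ℕ) + 1) ≠ μ j := by
  classical
  obtain ⟨N, h0, a, b, B, H⟩ := lcA_den (fun i => κ i - c) fun i => μ i - c
  obtain ⟨p₀, P⟩ := lcA_pos iκ ne gap h h0 H
  obtain ⟨p₁, h⟩ := h
  have n0 : (N : ℚ) ≠ 0 := by positivity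
  have F (i : ι) (d : ℕ) (hi : u i ≠ 0) (e : c + d = κ i) :
      ∃ d' ≤ d, ∃ j, u j ≠ 0 ∧ c + (d' : ℕ) = μ j := by
    obtain ⟨p, l, hp⟩ := Nat.exists_infinite_primes (p₁ + N * d + N + B + 1)
    obtain ⟨d', r, j, s, q⟩ := h p hp (by omega) i hi d (by simp [e])
    refine ⟨d', r, j, s, mul_left_cancel₀ n0 ?_⟩
    have t := Nat.mul_le_mul_left N r
    have t' := abs_le.1 (H j).2.2
    have := Int.eq_zero_of_abs_lt_dvd ((lcA_num hp h0 (by omega) (z := (N * d' : ℕ) - b j)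
      (by push_cast; linear_combination -(H j).1.2)).1 q) (by rw [abs_lt]; omega)
    have : ((N * d' : ℕ) : ℚ) = b j := by exact_mod_cast sub_eq_zero.1 this
    push_cast at this
    linear_combination this - (H j).1.2
  have L (j : ι) (d : ℕ) (hj : u j ≠ 0) (e : c - (d + 1) = μ j) :
      ∃ d' ≤ d, ∃ i, u i ≠ 0 ∧ c - ((d' : ℕ) + 1) = κ i := by
    obtain ⟨p, l, hp⟩ := Nat.exists_infinite_primes (p₀ + N * (d + 1) + N + B + 1)
    obtain ⟨k, m, hk, hm, -, q⟩ := P p hp (by omega)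
    obtain ⟨i, hi, q⟩ := q j hj
    have e1 : b j = -(N * (d + 1)) := by
      have : (b j : ℚ) = -(N * (d + 1)) := by linear_combination -(H j).1.2 - N * e
      exact_mod_cast this
    have := Int.le_of_dvd (by positivity) (lcA_can hp h0 (by omega) (z := m j + (d + 1))
      (lcA_dv (hm j).2 (by rw [e1]; ring)))
    obtain ⟨d', e2⟩ := Nat.exists_eq_add_of_lt (hk i).1
    have r : d' + 1 ≤ d + 1 := by omega
    refine ⟨d', by omega, i, hi, mul_left_cancel₀ n0 ?_⟩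
    have t := Nat.mul_le_mul_left N r
    have t' := abs_le.1 (H i).2.1
    have := Int.eq_zero_of_abs_lt_dvd (m := p) (x := (N * (d' + 1) : ℕ) + a i)
      (lcA_dv ((dvd_mul_left (p : ℤ) N).sub (hk i).2) (by rw [e2]; push_cast; ring))
      (by rw [abs_lt]; omega)
    have : ((N * (d' + 1) : ℕ) : ℚ) + a i = 0 := by exact_mod_cast this
    push_cast at this
    linear_combination -this - (H i).1.1
  by_cases c1 : ∃ d : ℕ, ∃ j, u j ≠ 0 ∧ c + d = μ j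
  · obtain ⟨j, hj, e⟩ := Nat.find_spec c1
    refine .inl ⟨j, _, hj, e, fun i hi d r e' => ?_⟩
    obtain ⟨d', r', j', hj', e''⟩ := F i d hi e'
    have := Nat.find_min' c1 ⟨j', hj', e''⟩
    exact ne i j' hi hj' (by rw [← e', ← e'', show d = d' by omega])
  by_cases c2 : ∃ d : ℕ, ∃ i, u i ≠ 0 ∧ c - (d + 1) = κ i
  · obtain ⟨i, hi, e⟩ := Nat.find_spec c2
    refine .inr ⟨i, _, hi, e, fun j hj d r e' => ?_⟩
    obtain ⟨d', r', i', hi', e''⟩ := L j d hj e'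
    have := Nat.find_min' c2 ⟨i', hi', e''⟩
    exact ne i' j hi' hj (by rw [← e', ← e'', show d = d' by omega])
  have nd : ∀ {x : ℚ} {y : ℤ}, N * (x - c) = y → (N : ℤ) ∣ y →
      (∃ d : ℕ, c + d = x) ∨ ∃ d : ℕ, c - (d + 1) = x := fun {x y} e ⟨z, e'⟩ => by
    have : x - c = z := mul_left_cancel₀ n0 (by rw [e, e']; push_cast; rfl)
    rcases z with d | d
    · exact .inl ⟨d, by rw [Int.ofNat_eq_natCast, Int.cast_natCast] at this; linarith⟩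
    · exact .inr ⟨d, by rw [Int.cast_negSucc] at this; push_cast at this; linarith⟩
  have na (i) (hi : u i ≠ 0) : ¬ (N : ℤ) ∣ a i := fun d => (nd (H i).1.1 d).elim
    (fun ⟨d, e⟩ => c1 ((F i d hi e).imp fun _ => And.right)) fun ⟨d, e⟩ => c2 ⟨d, i, hi, e⟩
  have nb (i) (hi : u i ≠ 0) : ¬ (N : ℤ) ∣ b i := fun d => (nd (H i).1.2 d).elim
    (fun ⟨d, e⟩ => c1 ⟨d, i, hi, e⟩) fun ⟨d, e⟩ => c2 ((L i d hi e).imp fun _ => And.right)
  obtain ⟨A, hA⟩ : ∃ A, ∑ i with u i ≠ 0, (a i - b i) = A := ⟨_, rfl⟩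
  obtain ⟨p, l, hp, e⟩ := Nat.forall_exists_prime_gt_and_zmodEq (p₀ + B + A.natAbs) h0.ne'
    (isCoprime_one_left (x := (N : ℤ)))
  obtain ⟨p', l', hp', e'⟩ := Nat.forall_exists_prime_gt_and_zmodEq (p₀ + B + A.natAbs) h0.ne'
    (isCoprime_one_left (x := (N : ℤ))).neg_left
  obtain ⟨k, m, hk, hm, q, -⟩ := P p hp (by omega)
  obtain ⟨k', m', hk', hm', q', -⟩ := P p' hp' (by omega)
  have (i : ι) : ∃ t : ℤ, u i ≠ 0 → N * ((k i : ℤ) - m i) = a i - b i + t * p ∧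
      N * ((k' i : ℤ) - m' i) = a i - b i - t * p' := by
    by_cases hi : u i ≠ 0
    · obtain ⟨t, h1, h2⟩ := lcA_tt (hk i).1 (hk' i).1 ((H i).2.1.trans_lt (by omega))
        ((H i).2.1.trans_lt (by omega)) (hk i).2 (hk' i).2 e.dvd e'.dvd (na i hi)
      obtain ⟨s, h3, h4⟩ := lcA_tt (hm i).1 (hm' i).1 ((H i).2.2.trans_lt (by omega))
        ((H i).2.2.trans_lt (by omega)) (hm i).2 (hm' i).2 e.dvd e'.dvd (nb i hi)
      exact ⟨t - s, fun _ => ⟨by linear_combination h1 - h3, by linear_combination h2 - h4⟩⟩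
    · exact ⟨0, fun z => absurd z hi⟩
  choose t ht using this
  have s1 := sum_congr (s₁ := univ.filter fun i => u i ≠ 0) rfl fun i hi =>
    (ht i (mem_filter.1 hi).2).1
  have s2 := sum_congr (s₁ := univ.filter fun i => u i ≠ 0) rfl fun i hi =>
    (ht i (mem_filter.1 hi).2).2
  rw [← mul_sum, sum_add_distrib, hA, ← sum_mul] at s1
  rw [← mul_sum, sum_sub_distrib (fun i => a i - b i), hA, ← sum_mul] at s2
  have g1 : 0 ≤ ∑ i with u i ≠ 0, ((k i : ℤ) - m i) := by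
    rw [sum_sub_distrib, sub_nonneg]
    exact_mod_cast q
  have g2 : 0 ≤ ∑ i with u i ≠ 0, ((k' i : ℤ) - m' i) := by
    rw [sum_sub_distrib, sub_nonneg]
    exact_mod_cast q'
  have g3 := s1 ▸ mul_nonneg (Int.natCast_nonneg N) g1
  have g4 := s2 ▸ mul_nonneg (Int.natCast_nonneg N) g2
  have a1 : A < p := by omega
  have a2 : A < p' := by omega
  have p1 : (0 : ℤ) < p := by omega
  have p2 : (0 : ℤ) < p' := by omega
  have z : ∑ i with u i ≠ 0, t i = 0 := le_antisymm (by nlinarith) (by nlinarith)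
  rw [z, zero_mul, add_zero, ← hA] at s1
  refine (tr (∑ i with u i ≠ 0, ((k i : ℤ) - m i)) (mul_left_cancel₀ n0 ?_)).elim
  rw [← Int.cast_natCast (R := ℚ) N, ← Int.cast_mul, s1, mul_sum, Int.cast_sum]
  refine sum_congr rfl fun i _ => ?_
  push_cast
  linear_combination (H i).1.1 - (H i).1.2

end Pool.Agent.Lib.MP_815ef6_nt.Ch
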