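import Pool.Agent.Lib.MP_815ef6_nt.CS.Gp
import Pool.Agent.Lib.MP_815ef6_nt.CS.LcA

/-! Extensions of a Kummer system by a model split. -/

namespace Pool.Agent.Lib.MP_815ef6_nt.Ch
open Finset LaurentPolynomial Matrix

variable {ι : Type*} [Fintype ι] [DecidableEq ι] {μ u v κ : ι → ℚ} {c : ℚ}

section
variable {R Λ : Type*} [CommRing R] [CommRing Λ]

theorem LcB_sum (F : R[T;T⁻¹] →+* Λ) (μ u v : ι → R) (y : ι → Λ) (l : ι) :
    ∑ j, F (mA μ u v l j) * y j =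
      F (1 - T 1) * (F (C (μ l)) * y l) + F (C (u l)) * ∑ j, F (C (v j)) * y j := by
  have e : ∀ j, mA μ u v l j = (if l = j then (1 - T 1) * C (μ l) else 0) + C (u l) * C (v j) :=
    fun j => by
      simp only [mA, Matrix.add_apply, Matrix.smul_apply, map_apply, diagonal_apply,
        vecMulVec_apply, map_mul, smul_eq_mul]
      split_ifs <;> simp
  simp only [e, map_add, map_mul, apply_ite F, map_zero, add_mul, ite_mul, zero_mul,
    sum_add_distrib, sum_ite_eq, mem_univ, if_true, mul_sum, mul_assoc]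

omit [Fintype ι] in
theorem LcB_map (φ : R →+* Λ) (μ u v : ι → R) (E : Matrix ι ι R) :
    (fromBlocks (mA μ u v) (E.map C) 0 (mA μ u v)).map (mp φ) =
      fromBlocks (mA (φ ∘ μ) (φ ∘ u) (φ ∘ v)) ((E.map φ).map C) 0 (mA (φ ∘ μ) (φ ∘ u) (φ ∘ v)) := by
  rw [fromBlocks_map, gp_map, Matrix.map_zero _ (map_zero _)]
  congr 1
  exact Matrix.ext fun i j => mp_C _ _

theorem LcB_mul {f g : Ls R} (hf : ∀ a < 0, f.coeff a = 0) (hg : ∀ a < 0, g.coeff a = 0) :
    ∀ a < 0, (f * g).coeff a = 0 := fun a ha => by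
  rw [HahnSeries.coeff_mul]
  refine sum_eq_zero fun x hx => ?_
  have := (mem_antidiagonal.1 hx).2.2
  by_cases h : x.1 < 0
  · rw [hf _ h, zero_mul]
  · rw [hg _ (by omega), mul_zero]

/-- The operator on one block. -/
noncomputable def LcBop (μ u v : ι → R) (c : R) (y : ι → Ls R) (l : ι) : Ls R :=
  io true (1 - T 1) * (dS true (y l) + cS (c - μ l) * y l) - cS (u l) * ∑ j, cS (v j) * y j

omit [DecidableEq ι] in
theorem LcB_coeff (μ u v : ι → R) (c : R) (y : ι → Ls R) (l : ι) (a : ℤ) :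
    (LcBop μ u v c y l).coeff a = (c + a - μ l) * (y l).coeff a -
      (c + (a - 1) - μ l) * (y l).coeff (a - 1) - u l * ∑ j, v j * (y j).coeff a := by
  simp only [LcBop, map_sub (io true), map_one, io_T, sub_mul, one_mul, HahnSeries.coeff_sub,
    HahnSeries.coeff_add, HahnSeries.coeff_single_mul, coeff_cS_mul, coeff_dS, sg,
    HahnSeries.coeff_sum, mul_one]
  push_cast
  ring

theorem LcB_df (μ u v : ι → R) (c : R) (E : Matrix ι ι R) (Ψ : Matrix (ι ⊕ ι) Unit (Ls R)) (l : ι) :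
    df true (1 - T 1) (fromBlocks (mA μ u v) (E.map C) 0 (mA μ u v)) (fun _ => c) Ψ (.inl l) () =
      LcBop μ u v c (fun j => Ψ (.inl j) ()) l - ∑ j, cS (E l j) * Ψ (.inr j) () ∧
    df true (1 - T 1) (fromBlocks (mA μ u v) (E.map C) 0 (mA μ u v)) (fun _ => c) Ψ (.inr l) () =
      LcBop μ u v c (fun j => Ψ (.inr j) ()) l := by
  simp only [df, gf, LcBop, Matrix.add_apply, Matrix.sub_apply, Matrix.smul_apply, map_apply,
    mul_apply, Fintype.sum_sum_type, fromBlocks_apply₁₁, fromBlocks_apply₁₂, fromBlocks_apply₂₁,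
    fromBlocks_apply₂₂, LcB_sum, io_C, Fintype.sum_unique, diagonal_apply_eq, smul_eq_mul,
    Matrix.zero_apply, map_zero, zero_mul, sum_const_zero, map_sub cS]
  constructor <;> ring

theorem LcB_sol {p : ℕ} (hp : p.Prime) (h0 : (p : R) = 0) {μ u v : ι → R} {E : Matrix ι ι R} {i : ι}
    (hA : Am th (1 - T 1) (fromBlocks (mA μ u v) (E.map C) 0 (mA μ u v)) p = 0) (hv : v i = 0)
    (hK : μ i ^ p = μ i) : ∃ y : ι → ℤ → R, (∀ l, y l (-1) = 0) ∧ ∀ l (a : ℤ),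
      (μ i + a - μ l) * y l a - (μ i + (a - 1) - μ l) * y l (a - 1) - u l * ∑ j, v j * y j a =
        if a = 0 then E l i else 0 := by
  obtain ⟨g, g1, g2⟩ := exists_inv_one_sub (R := R) true
  have g3 : ∀ a < 0, g.coeff a = 0 := fun a ha => by simp [g2, ha]
  have z : ∀ l, LcBop μ u v (μ i) (fun _ => 0) l = 0 := fun l =>
    HahnSeries.ext (funext fun a => by simp [LcB_coeff])
  let Y : Matrix (ι ⊕ ι) Unit (Ls R) := fun x _ => if x = .inr i then 1 else 0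
  have y1 : ∀ l, ∑ j, cS (E l j) * Y (.inr j) () = cS (E l i) := fun l => by simp [Y]
  have d1 : dS true (1 : Ls R) = 0 := map_one (cS (R := R)) ▸ dS_cS true 1
  have d0 : dS true (0 : Ls R) = 0 := Am1_zero (dv_dS true)
  obtain ⟨Z, ⟨z1, z2⟩, z3⟩ := proj_sol hp h0 hA g1 (K := fun _ : Unit => μ i) (fun _ => hK)
    (W := {Z | (∀ l, ∀ a < 0, (Z (.inl l) ()).coeff a = 0) ∧ ∀ l, Z (.inr l) () = 0})
    (fun Z ⟨z1, z2⟩ => ⟨fun l => LcB_mul g3 fun a ha => by
      simp [(LcB_df _ _ _ _ _ _ _).1, z2, LcB_coeff, z1 _ _ ha, z1 l (a - 1) (by omega)],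
      fun l => by simp [(LcB_df _ _ _ _ _ _ _).2, z2, z]⟩) (Y := Y)
    ⟨fun l => LcB_mul g3 fun a ha => by
      rw [(LcB_df _ _ _ _ _ _ _).1, y1]
      simp [Y, z, ha.ne],
    fun l => by
      rw [Matrix.smul_apply, (LcB_df _ _ _ _ _ _ _).2, LcBop]
      by_cases k : l = i
      · simp [Y, k, hv, d1]
      · simp [Y, k, hv, d0]⟩
  refine ⟨fun l a => -(Z (.inl l) ()).coeff a, fun l => by simp [z1], fun l a => ?_⟩
  have e := congrArg (fun x => x.coeff a)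
    ((LcB_df _ _ _ _ _ _ l).1.symm.trans (congrFun (congrFun z3 _) _))
  simp only [Matrix.sub_apply, z2, sub_zero, y1, HahnSeries.coeff_sub, LcB_coeff] at e
  by_cases k : a = 0 <;> simpa [Y, sub_eq_zero, k] using e

end

omit [DecidableEq ι] in
theorem LcB_ne {k : Type*} [Field k] [DecidableEq ι] {μ u v κ : ι → k} {c ε : k} (hε : ε ≠ 0)
    {S : Finset ι} (hv : ∀ l ∉ S, v l = 0) {y : ι → ℤ → k} (h0 : ∀ l, y l (-1) = 0)
    (h : ∀ l (a : ℤ), (c + a - μ l) * y l a - (c + (a - 1) - μ l) * y l (a - 1) -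
      u l * ∑ j, v j * y j a = if a = 0 then ε * u l else 0)
    (e : ∀ n : ℕ, ∏ i ∈ S, (c + n - κ i) = ∏ i ∈ S, (c + n - μ i) -
      ∑ l ∈ S, u l * v l * ∏ i ∈ S.erase l, (c + n - μ i)) (n : ℕ)
    (H : ∀ m ≤ n, ∏ i ∈ S, (c + (m : ℕ) - μ i) ≠ 0) : ∏ i ∈ S, (c + n - κ i) ≠ 0 := by
  let σ : ℕ → k := fun n => ε + ∑ m ∈ range n, ∑ j, v j * y j m
  have s : ∀ n, σ (n + 1) = σ n + ∑ j, v j * y j n := fun n => by
    simp only [σ, sum_range_succ, add_assoc]
  have k1 : ∀ l (n : ℕ), (c + n - μ l) * y l n = u l * σ (n + 1) := fun l n => by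
    induction n with
    | zero =>
      have := h l 0
      simp only [σ, zero_sub, h0, if_true, zero_add, sum_range_one, Nat.cast_zero,
        Int.cast_zero] at this ⊢
      linear_combination this
    | succ n ih =>
      have := h l (n + 1)
      rw [if_neg (by omega), add_sub_cancel_right] at this
      rw [s]
      push_cast at this ⊢
      linear_combination this + ih
  have k2 : ∀ n : ℕ, σ (n + 1) * ∏ i ∈ S, (c + n - κ i) = σ n * ∏ i ∈ S, (c + n - μ i) := fun n => by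
    rw [e, mul_sub, mul_sum, sub_eq_iff_eq_add, s n, add_mul, ← s n, add_right_inj,
      ← sum_subset (subset_univ S) fun l _ hl => by rw [hv l hl, zero_mul], sum_mul]
    refine sum_congr rfl fun l hl => ?_
    rw [← mul_prod_erase _ _ hl]
    linear_combination (v l * ∏ i ∈ S.erase l, (c + n - μ i)) * k1 l n
  have k3 : ∀ m ≤ n, σ m ≠ 0 := fun m => by
    induction m with
    | zero => simpa [σ] using hε
    | succ m ih =>
      exact fun hm => left_ne_zero_of_mul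
        (k2 m ▸ mul_ne_zero (ih (by omega)) (H m (by omega)))
  exact right_ne_zero_of_mul (k2 n ▸ mul_ne_zero (k3 n le_rfl) (H n le_rfl))

theorem LcB_seq (y z : ι → ℕ → ℚ) (t s : ℕ → ℚ) (N : ℕ) (h0 : ∀ l, ∀ n > N, y l n = 0 ∧ z l n = 0)
    (h1 : ∀ l n, (c + n - μ l) * y l n = u l * t (n + 1))
    (h2 : ∀ l n, (c - (n + 1) - μ l) * z l n = u l * s n) (h3 : t 0 = s 0 + 1)
    (h4 : ∀ n, t (n + 1) - ∑ j, v j * y j n = t n) (h5 : ∀ n, s n - ∑ j, v j * z j n = s (n + 1)) :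
    ∃ y : ι → ℂ[T;T⁻¹], ∀ l,
      (1 - T 1) * (th (y l) + C (c : ℂ) * y l) - (mC μ u v *ᵥ y) l = C (u l : ℂ) := by
  obtain ⟨g, g1, g2⟩ : ∃ g : ι → ℤ → ℚ, (∀ l (n : ℕ), g l n = y l n) ∧
      ∀ l n, g l (Int.negSucc n) = z l n :=
    ⟨fun l a => Int.rec (y l) (z l) a, fun _ _ => rfl, fun _ _ => rfl⟩
  have g0 : ∀ l a, (g l a : ℂ) ≠ 0 → a ∈ Icc (-(N + 1 : ℤ)) N := fun l a h => by
    by_contra k
    rw [mem_Icc] at k
    refine h (Rat.cast_eq_zero.2 ?_)
    rcases a with n | n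
    · exact (g1 l n).trans (h0 l n (by simp only [Int.ofNat_eq_natCast] at k; omega)).1
    · exact (g2 l n).trans (h0 l n (by omega)).2
  let Y : ι → ℂ[T;T⁻¹] := fun l => .ofCoeff (Finsupp.onFinset _ _ (g0 l))
  have hY : ∀ l a, (Y l).coeff a = (g l a : ℂ) := fun _ _ => rfl
  refine ⟨Y, fun l => LaurentPolynomial.ext fun a => ?_⟩
  have e : (c + a - μ l) * g l a - (c + (a - 1 : ℤ) - μ l) * g l (a - 1) -
      u l * ∑ j, v j * g j a = if 0 = a then u l else 0 := by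
    rcases a with (_ | n) | n
    · have := h2 l 0
      rw [if_pos (by rfl), show Int.ofNat 0 - 1 = Int.negSucc 0 from rfl]
      simp only [Int.ofNat_eq_natCast, g1, g2]
      push_cast at this ⊢
      linear_combination h1 l 0 - this + u l * h4 0 + u l * h3
    · rw [if_neg (by simp only [Int.ofNat_eq_natCast]; omega),
        show Int.ofNat (n + 1) - 1 = Int.ofNat n by simp]
      simp only [Int.ofNat_eq_natCast, g1, Int.cast_natCast]
      linear_combination h1 l (n + 1) - h1 l n + u l * h4 (n + 1)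
    · have := h2 l (n + 1)
      rw [if_neg (by omega), show Int.negSucc n - 1 = Int.negSucc (n + 1) by omega]
      simp only [g2]
      push_cast at this ⊢
      linear_combination h2 l n - this + u l * h5 n
  have e' := congrArg (Rat.cast : ℚ → ℂ) e
  rw [mulVec, dotProduct, show ∑ j, mC μ u v l j * Y j = _ from LcB_sum (RingHom.id _) _ _ _ Y l,
    ← mul_one (C (u l : ℂ)), ← T_zero, coeff_CT]
  simp only [RingHom.id_apply, sub_mul, one_mul, AddMonoidAlgebra.coeff_sub,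
    AddMonoidAlgebra.coeff_add, Finsupp.sub_apply, Finsupp.add_apply, coeff_T_mul, coeff_C_mul,
    coeff_th, hY, T_zero, mul_one, AddMonoidAlgebra.coeff_sum, Finsupp.finsetSum_apply]
  push_cast [apply_ite (Rat.cast : ℚ → ℂ)] at e' ⊢
  linear_combination e'

theorem LcB_rho (h : Mdl μ u v) (e : Exq μ u v κ) {x : ℚ} (h1 : ∀ i, u i ≠ 0 → x ≠ μ i)
    (h2 : ∀ i, u i ≠ 0 → x ≠ κ i) : 1 - ∑ l, u l * v l / (x - μ l) ≠ 0 := fun k => by
  refine (prod_ne_zero_iff (s := univ.filter fun i => u i ≠ 0) (f := fun i => x - κ i)).2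
    (fun i hi => sub_ne_zero.2 (h2 i (mem_filter.1 hi).2)) ?_
  rw [e.poly h, ← one_mul (∏ i with u i ≠ 0, (x - μ i)), sub_eq_zero.1 k, sum_mul, sub_eq_zero,
    sum_filter]
  refine sum_congr rfl fun l _ => ?_
  split_ifs with hl
  · rw [← mul_prod_erase _ _ (mem_filter.2 ⟨mem_univ l, hl⟩), ← mul_assoc,
      div_mul_cancel₀ _ (sub_ne_zero.2 (h1 l hl))]
  · simp [not_not.1 hl]

theorem lc_poly (h : Mdl μ u v) (e : Exq μ u v κ)
    (H : (∃ (j : ι) (d : ℕ), u j ≠ 0 ∧ c + d = μ j ∧ ∀ i, u i ≠ 0 → ∀ d' ≤ d, c + (d' : ℕ) ≠ κ i) ∨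
      ∃ (i : ι) (d : ℕ), u i ≠ 0 ∧ c - (d + 1) = κ i ∧
        ∀ j, u j ≠ 0 → ∀ d' ≤ d, c - ((d' : ℕ) + 1) ≠ μ j) :
    ∃ y : ι → ℂ[T;T⁻¹], ∀ l,
      (1 - T 1) * (th (y l) + C (c : ℂ) * y l) - (mC μ u v *ᵥ y) l = C (u l : ℂ) := by
  classical
  rcases H with ⟨j0, d0, a1, a2, a3⟩ | ⟨i, d, a1, a2, a3⟩
  · have ex : ∃ d : ℕ, ∃ j, u j ≠ 0 ∧ c + d = μ j := ⟨d0, j0, a1, a2⟩
    obtain ⟨j, b1, b2⟩ := Nat.find_spec ex
    have b3 : ∀ n < Nat.find ex, ∀ l, u l ≠ 0 → c + n ≠ μ l := fun n hn l hl k =>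
      Nat.find_min ex hn ⟨l, hl, k⟩
    have b4 : Nat.find ex ≤ d0 := Nat.find_min' ex ⟨j0, a1, a2⟩
    generalize Nat.find ex = d at b2 b3 b4
    let τ : ℕ → ℚ := fun n => ∏ m ∈ range n, (1 - ∑ l, u l * v l / (c + m - μ l))⁻¹
    refine LcB_seq (fun l n => if n < d then u l * τ (n + 1) / (c + n - μ l) else
      if n = d ∧ l = j then -τ d / v j else 0) 0 (fun n => if n ≤ d then τ n else 0) 0 d
      (fun l n hn => ⟨by rw [if_neg (by omega), if_neg (by omega)], rfl⟩) (fun l n => ?_)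
      (by simp) (by simp [τ]) (fun n => ?_) (by simp)
    · by_cases k : n < d
      · rw [if_pos k, if_pos (by omega)]
        by_cases hl : u l = 0
        · simp [hl]
        · rw [mul_div_cancel₀ _ (sub_ne_zero.2 (b3 n k l hl))]
      · rw [if_neg k, if_neg (show ¬n + 1 ≤ d by omega)]
        split_ifs with k'
        · rw [k'.1, k'.2, b2, sub_self, zero_mul, mul_zero]
        · rw [mul_zero, mul_zero]
    · rcases lt_trichotomy n d with k | rfl | k
      · have := LcB_rho h e (b3 n k) fun i hi => a3 i hi n (by omega)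
        simp only [if_pos k, if_pos k.le, if_pos (Nat.succ_le_of_lt k)]
        rw [show τ n = τ (n + 1) * (1 - ∑ l, u l * v l / (c + n - μ l)) from
          ((mul_inv_eq_iff_eq_mul₀ this).1 (prod_range_succ _ n).symm), mul_sub, mul_one, mul_sum]
        exact congrArg _ (sum_congr rfl fun l _ => by ring)
      · simp [mul_div_cancel₀ _ (mt (h.uv j).2 b1)]
      · simp [k.not_gt, k.ne', k.not_ge, show ¬n + 1 ≤ d by omega]
  · let s : ℕ → ℚ := fun n => -∏ m ∈ range n, (1 - ∑ l, u l * v l / (c - (m + 1) - μ l))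
    have s0 : ∀ n > d, s n = 0 := fun n hn => neg_eq_zero.2
      (prod_eq_zero (mem_range.2 hn) (by rw [a2, e.eq i a1, sub_self]))
    refine LcB_seq 0 (fun l n => u l * s n / (c - (n + 1) - μ l)) 0 s d
      (fun l n hn => ⟨rfl, by simp [s0 n hn]⟩) (by simp) (fun l n => ?_) (by simp [s]) (by simp)
      fun n => ?_
    · by_cases hl : u l = 0
      · simp [hl]
      by_cases k : n ≤ d
      · rw [mul_div_cancel₀ _ (sub_ne_zero.2 (a3 l hl n k))]
      · simp [s0 n (by omega)]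
    · rw [show s (n + 1) = s n * (1 - ∑ l, u l * v l / (c - (n + 1) - μ l)) by
        simp only [s, prod_range_succ, neg_mul], mul_sub, mul_one, mul_sum]
      exact congrArg _ (sum_congr rfl fun l _ => by ring)

theorem lc_first (h : Mdl μ u v) (e : Exq μ u v κ) {R : Matrix ι ι ℂ}
    (md : MD (1 - T 1) (fromBlocks (mC μ u v) (R.map C) 0 (mC μ u v))) {i : ι} (hi : u i = 0)
    {ε : ℂ} (hε : ε ≠ 0) (hR : ∀ l, R l i = ε * u l) : First u μ κ (μ i) := by
  classical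
  obtain ⟨S, hS, q', B, b1, b2, p₀, b3⟩ := md.mb (insert ε (insert ε⁻¹
    ((univ.image fun x : ι × ι => R x.1 x.2) ∪ (univ.biUnion fun l : ι =>
      ({μ l, u l, v l, κ l} : Finset ℚ)).image fun x : ℚ => (x : ℂ))))
  obtain ⟨p₁, h1⟩ := exists_char S
  refine ⟨p₀ + p₁, fun p hp hle i' hi' n hn => ?_⟩
  obtain ⟨k, _, _, ⟨φ⟩⟩ := h1 p hp (by omega)
  let Q : Subring ℚ := (cl S).comap (Rat.castHom ℂ)
  let ρ : Q →+* cl S := (Rat.castHom ℂ).restrict Q (cl S) fun _ hx => hx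
  have hQ : ∀ (l : ι) (x : ℚ), x ∈ ({μ l, u l, v l, κ l} : Finset ℚ) → x ∈ Q := fun l x hx =>
    kr_mem (hS (mem_insert_of_mem (mem_insert_of_mem (mem_union_right _
      (mem_image.2 ⟨x, mem_biUnion.2 ⟨l, mem_univ _, hx⟩, rfl⟩)))))
  let μ' : ι → Q := fun l => ⟨μ l, hQ l _ (by simp)⟩
  let u' : ι → Q := fun l => ⟨u l, hQ l _ (by simp)⟩
  let v' : ι → Q := fun l => ⟨v l, hQ l _ (by simp)⟩
  let κ' : ι → Q := fun l => ⟨κ l, hQ l _ (by simp)⟩
  let E : Matrix ι ι (cl S) := fun l j => ⟨R l j, kr_mem (hS (mem_insert_of_mem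
    (mem_insert_of_mem (mem_union_left _ (mem_image.2 ⟨(l, j), mem_univ _, rfl⟩)))))⟩
  let ε' : cl S := ⟨ε, kr_mem (hS (mem_insert_self _ _))⟩
  let ψ : Q →+* k := φ.comp ρ
  have e0 : φ ε' ≠ 0 := left_ne_zero_of_mul_eq_one
    (b := φ ⟨ε⁻¹, kr_mem (hS (mem_insert_of_mem (mem_insert_self _ _)))⟩) (by
      rw [← map_mul, ← map_one φ]
      exact congrArg φ (Subtype.ext (mul_inv_cancel₀ hε)))
  have e1 : mp φ q' = 1 - T 1 := by
    rw [show q' = 1 - T 1 from mp_inj _ (by rw [b1]; simp)]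
    simp
  have e2 : B = fromBlocks (mA (ρ ∘ μ') (ρ ∘ u') (ρ ∘ v')) (E.map C) 0
      (mA (ρ ∘ μ') (ρ ∘ u') (ρ ∘ v')) := Matrix.map_injective (mp_inj _) (by
    beta_reduce
    rw [b2, LcB_map]
    rfl)
  have e3 : Am th (1 - T 1) (B.map (mp φ)) p = 0 := by
    rw [← e1, ← Am_map (mp φ) (mp_th φ)]
    ext1 i j
    obtain ⟨g, hg⟩ := b3 p hp (by omega) i j
    rw [Matrix.map_apply, hg, map_mul, map_natCast, ← map_natCast C, CharP.cast_eq_zero, map_zero,
      zero_mul, Matrix.zero_apply]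
  have e4 : ∀ l, u l = 0 → ψ (v' l) = 0 := fun l hl =>
    (congrArg ψ (Subtype.ext ((h.uv l).1 hl))).trans (map_zero ψ)
  rw [e2, LcB_map] at e3
  obtain ⟨y, y1, y2⟩ := LcB_sol hp (CharP.cast_eq_zero k p) e3 (e4 i hi) (gp_pow hp ψ (μ' i))
  by_contra! H
  refine LcB_ne (μ := fun l => ψ (μ' l)) (u := fun l => ψ (u' l)) (v := fun l => ψ (v' l))
    (κ := fun l => ψ (κ' l)) (c := ψ (μ' i)) e0 (S := univ.filter fun l => u l ≠ 0)
    (fun l hl => e4 l (by simpa using hl)) y1 (fun l a => (y2 l a).trans ?_) (fun m => ?_) n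
    (fun m hm => prod_ne_zero_iff.2 fun j hj k' => H m hm j (mem_filter.1 hj).2 ?_)
    (prod_eq_zero (mem_filter.2 ⟨mem_univ i', hi'⟩) ?_)
  · rw [show (E.map φ) l i = φ ε' * ψ (u' l) from
      (congrArg φ (Subtype.ext (hR l))).trans (map_mul φ ε' (ρ (u' l)))]
  · simp only [← map_natCast ψ m, ← map_add, ← map_sub, ← map_prod, ← map_mul, ← map_sum]
    refine congrArg ψ (Subtype.ext ?_)
    simpa [μ', u', v', κ'] using e.poly h (μ i + m)
  · simpa [μ'] using (gp_num hp ψ (μ' i + m - μ' j)).2 (by simpa using k')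
  · simpa using (gp_num hp ψ (μ' i + n - κ' i')).1 (by simpa [μ', κ'] using hn)

theorem Mdl.col (h : Mdl μ u v) {R : Matrix ι ι ℂ}
    (md : MD (1 - T 1) (fromBlocks (mC μ u v) (R.map C) 0 (mC μ u v))) {i : ι} (hi : u i = 0)
    {ε : ℂ} (hR : ∀ l, R l i = ε * u l) : ∃ y : ι → ℂ[T;T⁻¹], ∀ l,
      (1 - T 1) * (th (y l) + C (μ i : ℂ) * y l) - (mC μ u v *ᵥ y) l = C (R l i) := by
  by_cases k : ε = 0 ∨ ∀ l, u l = 0
  · refine ⟨0, fun l => ?_⟩
    have : R l i = 0 := by rcases k with k | k <;> simp [hR, k]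
    have z : th (0 : ℂ[T;T⁻¹]) = 0 := LaurentPolynomial.ext fun a => by simp
    simp [this, z]
  obtain ⟨κ, e⟩ := h.exq
  obtain ⟨y, hy⟩ := lc_poly h e (lc_arith h.inj e.inj e.ne
    (fun z => e.tr h ▸ h.tr.resolve_right (fun k' => k (.inr k')) z) (h.gap e)
    (lc_first h e md hi (fun k' => k (.inl k')) hR))
  refine ⟨C ε • y, fun l => ?_⟩
  rw [hR, map_mul, ← hy, mulVec_smul, Pi.smul_apply, Pi.smul_apply, smul_eq_mul, smul_eq_mul,
    th_C_mul]
  ring

end Pool.Agent.Lib.MP_815ef6_nt.Ch
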