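import Pool.Agent.Lib.MP_815ef6_nt.CS.Amx

/-! Stability of the vanishing of the `p`-curvature. -/

namespace Pool.Agent.Lib.MP_815ef6_nt.Ch
open Finset LaurentPolynomial Matrix

variable {ι ι' : Type*} [Fintype ι] [DecidableEq ι] [Fintype ι'] [DecidableEq ι']
  {q : ℂ[T;T⁻¹]} {A A' G : Matrix ι ι ℂ[T;T⁻¹]}

/-- The part of weight `k`. -/
def wp {Λ : Type*} [Zero Λ] (wt : ι → ℕ) (k : ℕ) (A : Matrix ι ι Λ) : Matrix ι ι Λ :=
  fun i j => if wt j = wt i + k then A i j else 0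

theorem MDx_fin {κ : Type*} [Fintype κ] (f : κ → ℂ[T;T⁻¹]) (F : Finset ℂ) :
    ∃ S : Finset ℂ, F ⊆ S ∧ ∀ k a, (f k).coeff a ∈ cl S := by
  classical
  refine ⟨F ∪ univ.biUnion fun k => (f k).coeff.support.image (f k).coeff, subset_union_left,
    fun k a => ?_⟩
  by_cases h : a ∈ (f k).coeff.support
  · exact Subring.subset_closure
      (mem_union_right _ (mem_biUnion.2 ⟨k, mem_univ _, mem_image_of_mem _ h⟩))
  · exact Finsupp.notMem_support_iff.1 h ▸ zero_mem _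

omit [Fintype ι] [DecidableEq ι] in
theorem MDx_lift {F S : Finset ℂ} (hS : F ⊆ S) (h : ∀ i j a, (A i j).coeff a ∈ cl F) :
    ∃ B : Matrix ι ι (LaurentPolynomial (cl S)), B.map (mp (cl S).subtype) = A := by
  choose B hB using fun i j => exists_mp (φ := (cl S).subtype) (f := A i j) fun a =>
    ⟨⟨_, Subring.closure_mono (coe_subset.2 hS) (h i j a)⟩, rfl⟩
  exact ⟨B, Matrix.ext hB⟩

theorem MD.mb (h : MD q A) (F : Finset ℂ) : ∃ S : Finset ℂ, F ⊆ S ∧
    ∃ (q' : LaurentPolynomial (cl S)) (B : Matrix ι ι (LaurentPolynomial (cl S))),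
      mp (cl S).subtype q' = q ∧ B.map (mp (cl S).subtype) = A ∧ MB q' B := by
  classical
  obtain ⟨F₀, p₀, h⟩ := h
  obtain ⟨S, h1, h2⟩ := MDx_fin (fun k : Option (ι × ι) => k.elim q fun x => A x.1 x.2) (F ∪ F₀)
  obtain ⟨q', rfl⟩ := exists_mp (φ := (cl S).subtype) (f := q) fun a => ⟨⟨_, h2 none a⟩, rfl⟩
  obtain ⟨B, rfl⟩ := MDx_lift (A := A) subset_rfl fun i j => h2 (some (i, j))
  refine ⟨S, subset_union_left.trans h1, q', B, rfl, rfl, p₀, fun p hp hle i j => ?_⟩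
  rw [← map_natCast C, dvd_iff]
  intro a
  obtain ⟨y, hy, e⟩ := h p hp hle i j a
  rw [← Am_map _ (mp_th _), map_apply, coeff_mp] at e
  exact ⟨⟨y, Subring.closure_mono (coe_subset.2 (subset_union_right.trans h1)) hy⟩,
    Subtype.ext e⟩

theorem MB.md {B : Type*} [CommRing B] {q : B[T;T⁻¹]} {A : Matrix ι ι B[T;T⁻¹]} (h : MB q A)
    (ρ : B →+* ℂ) (fg : ∃ S : Finset ℂ, ∀ x, ρ x ∈ cl S) : MD (mp ρ q) (A.map (mp ρ)) := by
  obtain ⟨S, hS⟩ := fg
  obtain ⟨p₀, h⟩ := h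
  refine ⟨S, p₀, fun p hp hle i j a => ?_⟩
  obtain ⟨g, e⟩ := h p hp hle i j
  refine ⟨_, hS (g.coeff a), ?_⟩
  rw [← Am_map _ (mp_th _), map_apply, coeff_mp, e, ← map_natCast C, coeff_C_mul, map_mul,
    map_natCast]

theorem MB.map {B B' : Type*} [CommRing B] [CommRing B'] {q : B[T;T⁻¹]} {A : Matrix ι ι B[T;T⁻¹]}
    (h : MB q A) (φ : B →+* B') : MB (mp φ q) (A.map (mp φ)) := by
  obtain ⟨p₀, h⟩ := h
  refine ⟨p₀, fun p hp hle i j => ?_⟩
  rw [← Am_map _ (mp_th _), ← map_natCast (mp φ)]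
  exact map_dvd _ (h p hp hle i j)

section
variable {B : Type*} [CommRing B]

theorem MDx_mod (q : B[T;T⁻¹]) (A : Matrix ι ι B[T;T⁻¹]) (p k : ℕ) :
    Dd (p : B[T;T⁻¹]) (Am th q A k) ↔ Am th (mp (Ideal.Quotient.mk (Ideal.span {(p : B)})) q)
      (A.map (mp (Ideal.Quotient.mk (Ideal.span {(p : B)})))) k = 0 := by
  rw [← Am_map _ (mp_th _), ← Matrix.ext_iff]
  refine forall₂_congr fun i j => ?_
  rw [← map_natCast C, dvd_iff, map_apply, Matrix.zero_apply]
  refine ⟨fun h => LaurentPolynomial.ext fun a => ?_, fun h a => ?_⟩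
  · exact (coeff_mp _ _ _).trans
      (Ideal.Quotient.eq_zero_iff_mem.2 (Ideal.mem_span_singleton.2 (h a)))
  · refine Ideal.mem_span_singleton.1 (Ideal.Quotient.eq_zero_iff_mem.1 ?_)
    rw [← coeff_mp, h]
    rfl

theorem MDx_zero (p : ℕ) : (p : B ⧸ Ideal.span {(p : B)}) = 0 :=
  Ideal.Quotient.eq_zero_iff_mem.2 (Ideal.mem_span_singleton_self _)

theorem MDx_reg {f g : B[T;T⁻¹]} {a : ℤ} (h1 : IsUnit (f.coeff a))
    (h2 : ∀ a', a < a' → f.coeff a' = 0) (h : f * g = 0) : g = 0 := by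
  by_contra hg
  have hn : g.coeff.support.Nonempty := Finsupp.support_nonempty_iff.2 fun e =>
    hg (LaurentPolynomial.ext fun a => by rw [e]; rfl)
  have e := coeff_mul' f g (a + g.coeff.support.max' hn)
  rw [h, smul_apply, Finsupp.sum_eq_single a (fun a' h3 h4 => ?_) fun _ => zero_mul _,
    add_sub_cancel_left] at e
  · exact Finsupp.mem_support_iff.1 (max'_mem _ hn) (h1.mul_right_eq_zero.1 e.symm)
  · have h5 : a' < a := lt_of_le_of_ne (not_lt.1 fun l => h3 (h2 _ l)) h4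
    refine mul_eq_zero_of_right _ (Finsupp.notMem_support_iff.1 fun l => ?_)
    have := le_max' _ _ l
    omega

theorem MDx_gauge {q : B[T;T⁻¹]} {A A' G : Matrix ι ι B[T;T⁻¹]} (h : gf th q A A' G = 0) {a : ℤ}
    (h1 : IsUnit (G.det.coeff a)) (h2 : ∀ a', a < a' → G.det.coeff a' = 0) :
    MB q A ↔ MB q A' := by
  refine exists_congr fun p₀ => forall_congr' fun p => forall_congr' fun hp =>
    forall_congr' fun _ => ?_
  rw [MDx_mod, MDx_mod]
  have h0 := MDx_zero (B := B) p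
  generalize Ideal.Quotient.mk (Ideal.span {(p : B)}) = φ
  have e := Am_gauge_p dv_th ((gf_map (mp φ) (mp_th φ)).symm.trans
    (by rw [h, Matrix.map_zero _ (map_zero _)])) hp (by rw [← map_natCast C, h0, map_zero])
    (pf_th_p hp h0)
  have k : ∀ M : Matrix ι ι _, (G.map (mp φ)).det • M = 0 → M = 0 := fun M hM =>
    Matrix.ext fun i j => by
      have e : (G.map (mp φ)).det = mp φ G.det := ((mp φ).map_det G).symm
      exact MDx_reg (f := (G.map (mp φ)).det) (a := a) (by rw [e, coeff_mp]; exact h1.map φ)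
        (fun a' l => by rw [e, coeff_mp, h2 a' l, map_zero]) (congrFun₂ hM i j)
  refine ⟨fun H => k _ ?_, fun H => k _ ?_⟩
  · rw [← one_mul (Am _ _ _ _), ← smul_mul_assoc, ← adjugate_mul, mul_assoc, ← e, H, zero_mul,
      mul_zero]
  · rw [← mul_one (Am _ _ _ _), ← mul_smul_comm, ← mul_adjugate, ← mul_assoc, e, H, mul_zero,
      zero_mul]

theorem MDx_dual {q : B[T;T⁻¹]} {A : Matrix ι ι B[T;T⁻¹]} (h : MB q A) : MB q (-Aᵀ) := by
  refine h.imp fun p₀ h p hp hle => ?_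
  have H := (MDx_mod ..).1 (h p hp hle)
  rw [MDx_mod]
  have h0 := MDx_zero (B := B) p
  generalize Ideal.Quotient.mk (Ideal.span {(p : B)}) = φ at H ⊢
  obtain ⟨m, hm⟩ := Nat.exists_eq_succ_of_ne_zero hp.ne_zero
  have e := Am_dual (q := mp φ q) (A := A.map (mp φ)) dv_th m
  rw [show m + 1 = p from hm.symm, sum_eq_single (0, p) (fun x hx l => ?_) (by simp)] at e
  · rw [Matrix.map_neg _ (map_neg _), transpose_map]
    simpa [Am] using e
  · have hx := mem_antidiagonal.1 hx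
    by_cases l' : x.1 = p
    · rw [l', H, zero_mul, smul_zero]
    · obtain ⟨c, hc⟩ := hp.dvd_choose_self (k := x.1) (fun l0 => l (Prod.ext l0 (by omega)))
        (by omega)
      rw [hc, Nat.cast_mul, ← map_natCast C p, h0, map_zero, zero_mul, zero_smul]

end

section
variable {Λ : Type*} [CommRing Λ] {wt : ι → ℕ} {k : ℕ} {M N : Matrix ι ι Λ}

omit [DecidableEq ι] in
theorem MDx_mul (hk : 0 < k) (hM : ∀ i j, M i j ≠ 0 → wt j = wt i ∨ wt i + k ≤ wt j)
    (hN : ∀ i j, N i j ≠ 0 → wt j = wt i ∨ wt i + k ≤ wt j) :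
    (∀ i j, (M * N) i j ≠ 0 → wt j = wt i ∨ wt i + k ≤ wt j) ∧
      wp wt 0 (M * N) = wp wt 0 M * wp wt 0 N ∧
        wp wt k (M * N) = wp wt k M * wp wt 0 N + wp wt 0 M * wp wt k N := by
  refine ⟨fun i j h => ?_, Matrix.ext fun i j => ?_, Matrix.ext fun i j => ?_⟩
  · obtain ⟨t, -, ht⟩ := exists_ne_zero_of_sum_ne_zero h
    have := hM i t (left_ne_zero_of_mul ht)
    have := hN t j (right_ne_zero_of_mul ht)
    omega
  all_goals
    simp only [wp, mul_apply, Matrix.add_apply, ← sum_add_distrib]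
    rw [ite_sum_zero]
    refine sum_congr rfl fun t _ => ?_
    by_cases h1 : M i t = 0
    · simp [h1]
    by_cases h2 : N t j = 0
    · simp [h2]
    have := hM i t h1
    have := hN t j h2
    split_ifs <;> first | omega | simp

theorem MDx_wt {d : Λ → Λ} (hd : d 0 = 0) (q : Λ) (hk : 0 < k)
    (hN : ∀ i j, N i j ≠ 0 → wt j = wt i ∨ wt i + k ≤ wt j) (m : ℕ) :
    (∀ i j, Am d q N m i j ≠ 0 → wt j = wt i ∨ wt i + k ≤ wt j) ∧
      wp wt 0 (Am d q N m) = Am d q (wp wt 0 N) m ∧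
        wp wt k (Am d q N m) = Zm d q (wp wt 0 N) (wp wt k N) (wp wt 0 N) m := by
  induction m with
  | zero =>
    refine ⟨fun i j h => .inl ?_, Matrix.ext fun i j => ?_, Matrix.ext fun i j => ?_⟩
    · rw [by_contra fun l => h (one_apply_ne l : (1 : Matrix ι ι Λ) i j = 0)]
    · simp only [wp, Am, one_apply]
      split_ifs with h1 h2 h2
      exacts [rfl, rfl, (h1 (h2 ▸ rfl)).elim, rfl]
    · simp only [wp, Am, Zm, one_apply, Matrix.zero_apply]
      split_ifs with h1 h2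
      exacts [by subst h2; omega, rfl, rfl]
  | succ m ih =>
    obtain ⟨h1, h2, h3⟩ := ih
    obtain ⟨k1, k2, k3⟩ := MDx_mul hk h1 hN
    have e : ∀ l (c : Λ) (X Y : Matrix ι ι Λ), wp wt l (q • X.map d + Y - c • X) =
        q • (wp wt l X).map d + wp wt l Y - c • wp wt l X := fun l c X Y => by
      ext i j
      simp only [wp, Matrix.sub_apply, Matrix.add_apply, Matrix.smul_apply, map_apply]
      split_ifs <;> simp [hd]
    refine ⟨fun i j h => ?_, by rw [Am, Am, e, k2, h2], by rw [Am, Zm, e, k3, h2, h3, add_assoc]⟩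
    by_contra l
    have a1 : Am d q N m i j = 0 := by_contra fun l' => l (h1 i j l')
    have a2 : (Am d q N m * N) i j = 0 := by_contra fun l' => l (k1 i j l')
    exact h (by simp [Am, a1, a2, hd])

end

theorem MD.gauge (h : gf th q A A' G = 0) (hG : G.det ≠ 0) : MD q A ↔ MD q A' := by
  have hn : G.det.coeff.support.Nonempty := Finsupp.support_nonempty_iff.2 fun e =>
    hG (LaurentPolynomial.ext fun a => by rw [e]; rfl)
  have h1 := Finsupp.mem_support_iff.1 (max'_mem _ hn)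
  have h2 : ∀ a', G.det.coeff.support.max' hn < a' → G.det.coeff a' = 0 := fun a' l =>
    Finsupp.notMem_support_iff.1 fun l' => not_lt.2 (le_max' _ _ l') l
  generalize G.det.coeff.support.max' hn = a at h1 h2
  obtain ⟨F, k1, k2⟩ := MDx_fin (fun x : Fin 3 × ι × ι => ![A, A', G] x.1 x.2.1 x.2.2)
    {(G.det.coeff a)⁻¹}
  have key : ∀ S, F ⊆ S → ∀ (q' : LaurentPolynomial (cl S))
      (B B' : Matrix ι ι (LaurentPolynomial (cl S))), mp (cl S).subtype q' = q →
      B.map (mp (cl S).subtype) = A → B'.map (mp (cl S).subtype) = A' →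
      (MB q' B ↔ MB q' B') := by
    rintro S hS q' B B' rfl rfl rfl
    obtain ⟨G', rfl⟩ := MDx_lift (A := G) hS fun i j => k2 (2, i, j)
    have e : ∀ a, (G'.map (mp (cl S).subtype)).det.coeff a = (G'.det.coeff a : ℂ) := fun a =>
      (congrArg (fun f : ℂ[T;T⁻¹] => f.coeff a) ((mp (cl S).subtype).map_det G')).symm.trans
        (coeff_mp _ _ _)
    rw [← gf_map _ (mp_th _)] at h
    simp only [e] at h1 h2 k1
    refine MDx_gauge (G := G') (a := a) (Matrix.ext fun i j => LaurentPolynomial.ext fun a =>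
      Subtype.ext ((coeff_mp (cl S).subtype _ a).symm.trans
        (congrArg (fun f : ℂ[T;T⁻¹] => f.coeff a) (congrFun₂ h i j))))
      (IsUnit.of_mul_eq_one ⟨_, Subring.subset_closure (hS (k1 (mem_singleton_self _)))⟩
        (Subtype.ext (mul_inv_cancel₀ h1))) fun a' l => Subtype.ext (h2 a' l)
  refine ⟨fun H => ?_, fun H => ?_⟩
  · obtain ⟨S, hS, q', B, e1, e2, H⟩ := H.mb F
    obtain ⟨B', e3⟩ := MDx_lift (A := A') hS fun i j => k2 (1, i, j)
    exact e1 ▸ e3 ▸ ((key S hS q' B B' e1 e2 e3).1 H).md _ ⟨S, fun x => x.2⟩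
  · obtain ⟨S, hS, q', B', e1, e3, H⟩ := H.mb F
    obtain ⟨B, e2⟩ := MDx_lift (A := A) hS fun i j => k2 (0, i, j)
    exact e1 ▸ e2 ▸ ((key S hS q' B B' e1 e2 e3).2 H).md _ ⟨S, fun x => x.2⟩

theorem MD.dual (h : MD q A) : MD q (-Aᵀ) := by
  obtain ⟨S, -, q', B, rfl, rfl, H⟩ := h.mb ∅
  have := (MDx_dual H).md (cl S).subtype ⟨S, fun x => x.2⟩
  rwa [Matrix.map_neg _ (map_neg _), transpose_map] at this

theorem MD.reindex (h : MD q A) (e : ι' ≃ ι) : MD q (A.submatrix e e) := by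
  obtain ⟨F, p₀, h⟩ := h
  refine ⟨F, p₀, fun p hp hle i j a => ?_⟩
  rw [Am_reindex]
  exact h p hp hle _ _ a

theorem MD.weight (h : MD q A) (wt : ι → ℕ) (hw : ∀ i j, wt j < wt i → A i j = 0) {k : ℕ}
    (hk : 0 < k) (h0 : ∀ l, 0 < l → l < k → wp wt l A = 0) :
    MD q (wp wt 0 A) ∧ MD q (fromBlocks (wp wt 0 A) (wp wt k A) 0 (wp wt 0 A)) := by
  obtain ⟨F, p₀, h⟩ := h
  have k := MDx_wt (N := A) (wt := wt) (d := th) (by ext a; simp) q hk fun i j l => by
    by_contra l'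
    rcases lt_or_ge (wt j) (wt i) with a | a
    · exact l (hw i j a)
    · have := congrFun₂ (h0 (wt j - wt i) (by omega) (by omega)) i j
      rw [wp, if_pos (by omega)] at this
      exact l this
  have k1 : ∀ l (p : ℕ), p.Prime → p₀ ≤ p → ∀ i j a,
      ∃ y ∈ cl F, (wp wt l (Am th q A p) i j).coeff a = p * y := fun l p hp hle i j a => by
    rw [wp]
    split_ifs
    exacts [h p hp hle i j a, ⟨0, zero_mem _, (mul_zero _).symm⟩]
  refine ⟨⟨F, p₀, fun p hp hle => (k p).2.1 ▸ k1 0 p hp hle⟩, F, p₀, fun p hp hle i j a => ?_⟩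
  rw [Am_blocks dv_th, ← (k p).2.1, ← (k p).2.2]
  rcases i with i | i <;> rcases j with j | j
  exacts [k1 0 p hp hle i j a, k1 _ p hp hle i j a, ⟨0, zero_mem _, (mul_zero _).symm⟩,
    k1 0 p hp hle i j a]

end Pool.Agent.Lib.MP_815ef6_nt.Ch
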