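import Pool.Agent.Lib.MP_815ef6_nt.CS.MDx

/-! Exponents of the models. -/

namespace Pool.Agent.Lib.MP_815ef6_nt.Ch

section
open Finset Polynomial Matrix
variable {ι : Type*} [DecidableEq ι] {K : Type*} [Field K] {S : Finset ι} {μ γ κ : ι → K}

/-- The numerator of `∑ l, γ l / (x - μ l)`. -/
noncomputable def modL (S : Finset ι) (μ γ : ι → K) : K[X] :=
  ∑ l ∈ S, C (γ l) * ∏ i ∈ S.erase l, (X - C (μ i))

/-- The characteristic polynomial. -/
noncomputable def modP (S : Finset ι) (μ γ : ι → K) : K[X] :=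
  ∏ i ∈ S, (X - C (μ i)) - modL S μ γ

omit [DecidableEq ι] in
theorem mod_degN (S : Finset ι) (μ : ι → K) :
    Polynomial.degree (∏ i ∈ S, (X - C (μ i))) = S.card := by
  rw [degree_eq_natDegree (monic_prod_X_sub_C μ S).ne_zero, natDegree_finsetProd_X_sub_C_eq_card]

theorem mod_degL (S : Finset ι) (μ γ : ι → K) : (modL S μ γ).degree < S.card := by
  refine (degree_sum_le _ _).trans_lt ((Finset.sup_lt_iff (WithBot.bot_lt_coe _)).2 fun l hl => ?_)
  rw [← smul_eq_C_mul]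
  refine (degree_smul_le _ _).trans_lt ?_
  rw [mod_degN]
  exact_mod_cast card_erase_lt_of_mem hl

theorem mod_monic (S : Finset ι) (μ γ : ι → K) : (modP S μ γ).Monic :=
  (monic_prod_X_sub_C μ S).sub_of_left (by rw [mod_degN]; exact mod_degL S μ γ)

theorem mod_degP (S : Finset ι) (μ γ : ι → K) : (modP S μ γ).degree = S.card := by
  rw [modP, degree_sub_eq_left_of_degree_lt (by rw [mod_degN]; exact mod_degL S μ γ), mod_degN]

theorem mod_evalL (x : K) :
    (modL S μ γ).eval x = ∑ l ∈ S, γ l * ∏ i ∈ S.erase l, (x - μ i) := by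
  simp [modL, eval_finsetSum, eval_prod]

theorem mod_evalL' {x : K} (hx : ∀ l ∈ S, x ≠ μ l) :
    (modL S μ γ).eval x = (∏ i ∈ S, (x - μ i)) * ∑ l ∈ S, γ l / (x - μ l) := by
  rw [mod_evalL, mul_sum]
  refine sum_congr rfl fun l hl => ?_
  have := sub_ne_zero.2 (hx l hl)
  rw [← mul_prod_erase S _ hl]
  field_simp

theorem mod_evalM (hμ : Set.InjOn μ S) {l : ι} (hl : l ∈ S) (h : (modL S μ γ).eval (μ l) = 0) :
    γ l = 0 := by
  rw [mod_evalL, sum_eq_single_of_mem l hl fun k hk e => mul_eq_zero_of_right _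
    (prod_eq_zero (mem_erase.2 ⟨e.symm, hl⟩) (sub_self _))] at h
  exact (mul_eq_zero.1 h).resolve_right (prod_ne_zero_iff.2 fun i hi e =>
    (mem_erase.1 hi).1 (hμ hl (mem_erase.1 hi).2 (sub_eq_zero.1 e)).symm)

theorem mod_evalP {x : K} (hx : ∀ l ∈ S, x ≠ μ l) :
    (modP S μ γ).eval x = (∏ i ∈ S, (x - μ i)) * (1 - ∑ l ∈ S, γ l / (x - μ l)) := by
  rw [modP, eval_sub, mod_evalL' hx, mul_sub, mul_one]
  simp [eval_prod]

theorem mod_cauchy (hμ : Set.InjOn μ S) (hκ : Set.InjOn κ S) (ne : ∀ i ∈ S, ∀ l ∈ S, κ i ≠ μ l)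
    (h : ∀ i ∈ S, ∑ l ∈ S, γ l / (κ i - μ l) = 0) {l : ι} (hl : l ∈ S) : γ l = 0 :=
  mod_evalM hμ hl (by
    rw [eq_zero_of_degree_lt_of_eval_index_eq_zero S hκ (mod_degL S μ γ) fun i hi => by
      rw [mod_evalL' (ne i hi), h i hi, mul_zero], eval_zero])

theorem mod_fac (hκ : Set.InjOn κ S) (ne : ∀ i ∈ S, ∀ l ∈ S, κ i ≠ μ l)
    (h : ∀ i ∈ S, ∑ l ∈ S, γ l / (κ i - μ l) = 1) : ∏ i ∈ S, (X - C (κ i)) = modP S μ γ :=
  sub_eq_zero.1 (eq_zero_of_degree_lt_of_eval_index_eq_zero S hκ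
    ((degree_sub_lt_left ((mod_degN S κ).trans (mod_degP S μ γ).symm) (monic_prod_X_sub_C κ S).ne_zero
      ((monic_prod_X_sub_C κ S).leadingCoeff.trans (mod_monic S μ γ).leadingCoeff.symm)).trans_eq
        (mod_degN S κ)) fun i hi => by
      rw [eval_sub, mod_evalP (ne i hi), h i hi, sub_self, mul_zero, sub_zero, eval_prod]
      exact prod_eq_zero hi (by simp))

theorem mod_tr (h : ∏ i ∈ S, (X - C (κ i)) = modP S μ γ) :
    ∑ i ∈ S, (κ i - μ i) = ∑ l ∈ S, γ l := by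
  rcases S.eq_empty_or_nonempty with rfl | hS
  · simp
  have e := congrArg (fun f => f.coeff (S.card - 1)) h
  simp only [modP, modL, coeff_sub, prod_X_sub_C_coeff_card_pred _ _ hS.card_pos, finsetSum_coeff,
    Polynomial.coeff_C_mul] at e
  rw [sum_congr rfl fun l hl => show γ l * _ = γ l by
    rw [← card_erase_of_mem hl, ← natDegree_finsetProd_X_sub_C_eq_card (f := μ),
      (monic_prod_X_sub_C μ (S.erase l)).coeff_natDegree, mul_one]] at e
  rw [sum_sub_distrib]
  linear_combination -e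

theorem mod_root (hμ : Set.InjOn μ S) (hγ : ∀ l ∈ S, γ l ≠ 0) {x : K}
    (hx : (modP S μ γ).IsRoot x) : (∀ l ∈ S, x ≠ μ l) ∧ ∑ l ∈ S, γ l / (x - μ l) = 1 := by
  have ne : ∀ l ∈ S, x ≠ μ l := fun l hl e => hγ l hl (mod_evalM hμ hl (by
    rw [IsRoot, modP, eval_sub, eval_prod, prod_eq_zero hl (by simp [e]), e] at hx
    linear_combination -hx))
  rw [IsRoot, mod_evalP ne] at hx
  exact ⟨ne, (sub_eq_zero.1 ((mul_eq_zero.1 hx).resolve_left
    (prod_ne_zero_iff.2 fun i hi => sub_ne_zero.2 (ne i hi)))).symm⟩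

theorem mod_der {x : K} (ne : ∀ l ∈ S, x ≠ μ l) (h : ∑ l ∈ S, γ l / (x - μ l) = 1)
    (hx : (derivative (modP S μ γ)).IsRoot x) : ∑ l ∈ S, γ l / (x - μ l) ^ 2 = 0 := by
  set N' := (derivative (∏ i ∈ S, (X - C (μ i)))).eval x with hN
  have e : ∀ l ∈ S, (derivative (C (γ l) * ∏ i ∈ S.erase l, (X - C (μ i)))).eval x =
      N' * (γ l / (x - μ l)) - (∏ i ∈ S, (x - μ i)) * (γ l / (x - μ l) ^ 2) := fun l hl => by
    have := sub_ne_zero.2 (ne l hl)
    rw [hN, ← mul_prod_erase S _ hl, ← mul_prod_erase S _ hl, derivative_mul, derivative_mul]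
    simp only [derivative_C, derivative_sub, derivative_X, eval_add, eval_mul, eval_sub, eval_X,
      eval_C, eval_prod, eval_zero, eval_one]
    field_simp
    ring
  rw [IsRoot, modP, modL, derivative_sub, derivative_sum, eval_sub, eval_finsetSum,
    sum_congr rfl e, sum_sub_distrib, ← mul_sum, ← mul_sum, h, ← hN] at hx
  exact (mul_eq_zero.1 (show (∏ i ∈ S, (x - μ i)) * _ = 0 by linear_combination hx)).resolve_left
    (prod_ne_zero_iff.2 fun i hi => sub_ne_zero.2 (ne i hi))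

/-- The falling powers. -/
noncomputable def modF (k : ℕ) : ℤ[X] := ∏ j ∈ range k, (X - C (j : ℤ))

theorem mod_mem {T : Finset ℂ} {x : ℂ} (hx : x ∈ cl T) (F : ℤ[X]) : aeval x F ∈ cl T := by
  rw [aeval_eq_sum_range]
  exact sum_mem fun i _ => zsmul_mem (pow_mem hx i) _

variable [Fintype ι] {A : Matrix ι ι ℂ} {x : ℂ} {y y' : ι → ℂ}

theorem mod_succ (k : ℕ) (y : ι → ℂ) : Am (fun _ => 0) 1 A (k + 1) *ᵥ y =
    Am (fun _ => 0) 1 A k *ᵥ A *ᵥ y - (k : ℂ) • Am (fun _ => 0) 1 A k *ᵥ y := by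
  rw [Am, show (Am (fun _ => 0) 1 A k).map (fun _ => (0 : ℂ)) = 0 from rfl, smul_zero, zero_add,
    add_zero, mul_one, sub_mulVec, smul_mulVec, mulVec_mulVec]

theorem mod_one (h : A *ᵥ y = x • y) (k : ℕ) :
    Am (fun _ => 0) 1 A k *ᵥ y = aeval x (modF k) • y := by
  induction k with
  | zero => simp [Am, modF]
  | succ k ih =>
    rw [mod_succ, h, mulVec_smul, ih, modF, modF, prod_range_succ, map_mul]
    simp only [map_sub, aeval_X, map_natCast]
    module

theorem mod_two (h : A *ᵥ y = x • y) (h' : A *ᵥ y' = x • y' + y) (k : ℕ) :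
    Am (fun _ => 0) 1 A k *ᵥ y' =
      aeval x (modF k) • y' + aeval x (derivative (modF k)) • y := by
  induction k with
  | zero => simp [Am, modF]
  | succ k ih =>
    rw [mod_succ, h', mulVec_add, mulVec_smul, ih, mod_one h,
      show modF (k + 1) = modF k * (X - C (k : ℤ)) from prod_range_succ _ _, derivative_mul]
    simp only [map_sub, map_add, map_mul, aeval_X, map_natCast,
      derivative_X, derivative_natCast, map_one, map_zero]
    module

/-- The constant system has vanishing `p`-curvature. -/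
def ModH (A : Matrix ι ι ℂ) : Prop := ∃ (F : Finset ℂ) (p₀ : ℕ), ∀ p : ℕ, p.Prime → p₀ ≤ p →
  ∀ i j, ∃ z ∈ cl F, Am (fun _ => 0) 1 A p i j = p * z

theorem mod_key (H : ModH A) (x : ℂ) (y y' : ι → ℂ) (l : ι) : ∃ (F : Finset ℂ) (p₀ : ℕ),
    x ∈ cl F ∧ (y l)⁻¹ ∈ cl F ∧ y l ∈ cl F ∧ y' l ∈ cl F ∧ ∀ p : ℕ, p.Prime → p₀ ≤ p →
      (∃ z ∈ cl F, (Am (fun _ => 0) 1 A p *ᵥ y) l = p * z) ∧
        ∃ z ∈ cl F, (Am (fun _ => 0) 1 A p *ᵥ y') l = p * z := by
  classical
  obtain ⟨F, p₀, H⟩ := H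
  let F' := insert x (insert (y l)⁻¹ (F ∪ (univ.image y ∪ univ.image y')))
  have k : ∀ w : ι → ℂ, (∀ i, w i ∈ cl F') → ∀ p : ℕ, p.Prime → p₀ ≤ p →
      ∃ z ∈ cl F', (Am (fun _ => 0) 1 A p *ᵥ w) l = p * z := fun w hw p hp h => by
    choose z hz e using H p hp h l
    refine ⟨∑ j, z j * w j, sum_mem fun j _ => mul_mem (kr_mono (fun a ha => ?_) (hz j)) (hw j), ?_⟩
    · simp [F', ha]
    · simp only [mulVec, dotProduct, e, mul_sum, mul_assoc]
  have a : ∀ i, y i ∈ cl F' := fun i => kr_mem (by simp [F'])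
  have a' : ∀ i, y' i ∈ cl F' := fun i => kr_mem (by simp [F'])
  exact ⟨F', p₀, kr_mem (by simp [F']), kr_mem (by simp [F']), a l, a' l,
    fun p hp h => ⟨k y a p hp h, k y' a' p hp h⟩⟩

theorem mod_rat (H : ModH A) (h : A *ᵥ y = x • y) {l : ι} (hl : y l ≠ 0) : ∃ q : ℚ, x = q := by
  obtain ⟨F, p₀, hx, hi, -, -, H⟩ := mod_key H x y y l
  refine kron F p₀ fun p hp k => ?_
  obtain ⟨⟨z, hz, e⟩, -⟩ := H p hp k
  obtain ⟨G, hG⟩ := prod_char (R := ℤ) hp
  rw [mod_one h, modF, hG] at e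
  simp only [map_add, map_sub, map_mul, map_pow, aeval_X, map_natCast, Pi.smul_apply,
    smul_eq_mul] at e
  refine ⟨z * (y l)⁻¹ - aeval x G, sub_mem (mul_mem hz hi) (mod_mem hx G), ?_⟩
  field_simp
  linear_combination e

theorem mod_simple (H : ModH A) (h : A *ᵥ y = x • y) (h' : A *ᵥ y' = x • y' + y) (l : ι) :
    y l = 0 := by
  by_contra hl
  obtain ⟨F, p₀, hx, hi, hy, hy', H⟩ := mod_key H x y y' l
  refine hl (fg_zero F p₀ fun p hp k => ⟨1, ?_⟩)
  obtain ⟨⟨z, hz, e⟩, z', hz', e'⟩ := H p hp k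
  obtain ⟨G, hG⟩ := prod_char (R := ℤ) hp
  have d : derivative (modF p) = (p : ℤ[X]) * (X ^ (p - 1) + derivative G) - 1 := by
    rw [modF, hG]
    simp only [map_add, map_sub, derivative_mul, derivative_natCast, derivative_X_pow, derivative_X,
      map_natCast]
    ring
  rw [mod_one h] at e
  rw [mod_two h h', d] at e'
  simp only [map_add, map_sub, map_mul, map_pow, aeval_X, map_natCast, Pi.smul_apply, map_one,
    smul_eq_mul, Pi.add_apply] at e e'
  refine ⟨z * (y l)⁻¹ * y' l + (x ^ (p - 1) + aeval x (derivative G)) * y l - z',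
    sub_mem (add_mem (mul_mem (mul_mem hz hi) hy')
      (mul_mem (add_mem (pow_mem hx _) (mod_mem hx _)) hy)) hz', ?_⟩
  field_simp
  linear_combination y' l * e - y l * e'

end

open Finset LaurentPolynomial Matrix

variable {ι : Type*} [Fintype ι] [DecidableEq ι] {μ u v κ : ι → ℚ}

theorem mod_th (f : Polynomial ℂ) :
    Polynomial.toLaurent (Polynomial.X * Polynomial.derivative f) = th (Polynomial.toLaurent f) := by
  ext a
  rw [coeff_th]
  rcases lt_or_ge a 0 with h | h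
  · rw [coeff_tl_neg _ h, coeff_tl_neg _ h, mul_zero]
  · obtain ⟨k, rfl⟩ := Int.eq_ofNat_of_zero_le h
    rw [coeff_tl, coeff_tl]
    cases k <;> simp [Polynomial.coeff_X_mul, Polynomial.coeff_derivative, mul_comm]

theorem mod_H {μ u v : ι → ℂ} (h : MD (1 - T 1) (mA μ u v)) :
    ModH (diagonal μ + vecMulVec u v) := by
  obtain ⟨F, p₀, h⟩ := h
  refine ⟨F, p₀, fun p hp k i j => ?_⟩
  obtain ⟨z, hz, e⟩ := h p hp k i j 0
  refine ⟨z, hz, Eq.trans ?_ e⟩
  let A : Matrix ι ι (Polynomial ℂ) := (1 - Polynomial.X : Polynomial ℂ) •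
    (diagonal μ).map Polynomial.C + (vecMulVec u v).map Polynomial.C
  have e1 := Am_map (q := 1 - Polynomial.X) (A := A) Polynomial.toLaurent mod_th p
  have e2 := Am_map (d := fun f => Polynomial.X * Polynomial.derivative f) (d' := fun _ => 0)
    (q := 1 - Polynomial.X) (A := A) (Polynomial.evalRingHom 0) (fun f => by simp) p
  rw [show A.map Polynomial.toLaurent = mA μ u v by
    ext1 i j; simp [A, mA, -diagonal_map], map_sub, map_one,
    Polynomial.toLaurent_X] at e1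
  rw [show A.map (Polynomial.evalRingHom 0) = diagonal μ + vecMulVec u v by
    ext1 i j; simp [A, -diagonal_map],
    show Polynomial.evalRingHom (0 : ℂ) (1 - Polynomial.X) = 1 by simp] at e2
  rw [← e1, ← e2, map_apply, map_apply]
  exact (Polynomial.coeff_zero_eq_eval_zero _).symm.trans (coeff_tl _ 0).symm

omit [DecidableEq ι] in
theorem mod_sum {K : Type*} [Field K] {x : ι → K} (h : ∀ l, u l = 0 → x l = 0) (f : ι → K) :
    ∑ l with u l ≠ 0, x l / f l = ∑ l, x l / f l :=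
  sum_filter_of_ne fun l _ e k => e (by rw [h l k, zero_div])

theorem mod_mulVec {K : Type*} [Field K] (μ u v y : ι → K) (l : ι) :
    ((diagonal μ + vecMulVec u v) *ᵥ y) l = μ l * y l + u l * ∑ k, v k * y k := by
  rw [add_mulVec, Pi.add_apply, mulVec_diagonal]
  simp only [mulVec, dotProduct, vecMulVec_apply, mul_sum, mul_assoc]

theorem Mdl.exq (h : Mdl μ u v) : ∃ κ, Exq μ u v κ := by
  classical
  have H := mod_H h.md
  set S := univ.filter fun i => u i ≠ 0 with hS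
  have mS : ∀ {i}, i ∈ S ↔ u i ≠ 0 := by simp [hS]
  set χ := modP S (fun i => (μ i : ℂ)) fun l => (u l : ℂ) * v l with hχ
  have h0 : χ ≠ 0 := (mod_monic _ _ _).ne_zero
  have z : ∀ l, u l = 0 → (u l : ℂ) * v l = 0 := fun l k => by simp [k]
  have rt : ∀ x, χ.IsRoot x → (∀ l ∈ S, x ≠ μ l) ∧ ∑ l ∈ S, (u l : ℂ) * v l / (x - μ l) = 1 :=
    fun x hx => mod_root
      (fun i hi j hj k => h.inj i j (mS.1 hi) (mS.1 hj) (Rat.cast_injective k))
      (fun l hl => mul_ne_zero (Rat.cast_ne_zero.2 (mS.1 hl))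
        (Rat.cast_ne_zero.2 (mt (h.uv l).2 (mS.1 hl)))) hx
  have ev : ∀ x, χ.IsRoot x → (diagonal (fun i => (μ i : ℂ)) + vecMulVec (fun i => (u i : ℂ))
      fun i => (v i : ℂ)) *ᵥ (fun l => u l / (x - μ l)) = x • fun l => u l / (x - μ l) :=
    fun x hx => funext fun l => by
      have e := (rt x hx).2
      rw [mod_sum z] at e
      rw [mod_mulVec, sum_congr rfl fun k _ => show (v k : ℂ) * (u k / (x - μ k)) =
        u k * v k / (x - μ k) by ring, e, Pi.smul_apply, smul_eq_mul]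
      by_cases k : u l = 0
      · simp [k]
      · have := sub_ne_zero.2 ((rt x hx).1 l (mS.2 k))
        field_simp
        ring
  have nz : ∀ x, χ.IsRoot x → ∃ l, (u l : ℂ) / (x - μ l) ≠ 0 := fun x hx => by
    obtain ⟨l, -, k⟩ := exists_ne_zero_of_sum_ne_zero ((rt x hx).2.trans_ne one_ne_zero)
    exact ⟨l, fun e => k (by rw [mul_div_right_comm, e, zero_mul])⟩
  have nd : χ.roots.Nodup := Multiset.nodup_iff_count_le_one.2 fun x => by
    rw [Polynomial.count_roots]
    refine le_of_not_gt fun k => ?_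
    obtain ⟨hx, hx'⟩ := (Polynomial.one_lt_rootMultiplicity_iff_isRoot h0).1 k
    obtain ⟨l, hl⟩ := nz x hx
    have e := mod_der (rt x hx).1 (rt x hx).2 hx'
    rw [mod_sum z] at e
    refine hl (mod_simple H (ev x hx) (y' := fun l => -(u l / (x - μ l) ^ 2)) (funext fun l => ?_) l)
    rw [mod_mulVec, sum_congr rfl fun k _ => show (v k : ℂ) * -(u k / (x - μ k) ^ 2) =
      -(u k * v k / (x - μ k) ^ 2) by ring, sum_neg_distrib, e, Pi.add_apply, Pi.smul_apply,
      smul_eq_mul]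
    by_cases k : u l = 0
    · simp [k]
    · have := sub_ne_zero.2 ((rt x hx).1 l (mS.2 k))
      field_simp
      ring
  have cd : S.card = χ.roots.toFinset.card := by
    rw [Multiset.toFinset_card_of_nodup nd, IsAlgClosed.card_roots_eq_natDegree,
      Polynomial.natDegree_eq_of_degree_eq_some (mod_degP _ _ _)]
  let e := equivOfCardEq cd
  have er : ∀ i : S, χ.IsRoot (e i) := fun i =>
    (Polynomial.mem_roots h0).1 (Multiset.mem_toFinset.1 (e i).2)
  choose q hq using fun i : S => (nz _ (er i)).elim fun l hl => mod_rat H (ev _ (er i)) hl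
  refine ⟨fun l => if k : l ∈ S then q ⟨l, k⟩ else μ l, fun l k => dif_neg fun a => mS.1 a k,
    fun l l' a b k => ?_, fun i l a b k => ?_, fun i a => ?_⟩
  · rw [dif_pos (mS.2 a), dif_pos (mS.2 b)] at k
    exact congrArg Subtype.val (e.injective (Subtype.ext ((hq ⟨l, mS.2 a⟩).trans
      ((congrArg _ k).trans (hq ⟨l', mS.2 b⟩).symm))))
  · rw [dif_pos (mS.2 a)] at k
    exact (rt _ (er ⟨i, mS.2 a⟩)).1 l (mS.2 b) (by rw [hq, k])
  · have := (rt _ (er ⟨i, mS.2 a⟩)).2
    rw [mod_sum z, hq] at this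
    rw [dif_pos (mS.2 a)]
    exact_mod_cast this

theorem mod_eq (e : Exq μ u v κ) :
    ∏ i with u i ≠ 0, (Polynomial.X - Polynomial.C (κ i)) =
      modP (univ.filter fun i => u i ≠ 0) μ fun l => u l * v l :=
  mod_fac (fun i hi j hj => e.inj i j (by simpa using hi) (by simpa using hj))
    (fun i hi l hl => e.ne i l (mem_filter.1 hi).2 (mem_filter.1 hl).2) fun i hi => by
      rw [mod_sum fun l k => by rw [k, zero_mul], e.eq i (mem_filter.1 hi).2]

theorem Exq.poly (h : Mdl μ u v) (e : Exq μ u v κ) (x : ℚ) :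
    ∏ i with u i ≠ 0, (x - κ i) = ∏ i with u i ≠ 0, (x - μ i) -
      ∑ l with u l ≠ 0, u l * v l * ∏ i ∈ (univ.filter fun i => u i ≠ 0).erase l, (x - μ i) := by
  have := congrArg (Polynomial.eval x) (mod_eq e)
  rw [modP, Polynomial.eval_sub, mod_evalL] at this
  simpa only [Polynomial.eval_prod, Polynomial.eval_sub, Polynomial.eval_X, Polynomial.eval_C]
    using this

theorem Exq.tr (h : Mdl μ u v) (e : Exq μ u v κ) :
    ∑ i with u i ≠ 0, (κ i - μ i) = ∑ l, u l * v l :=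
  (mod_tr (mod_eq e)).trans (sum_filter_of_ne fun _ _ k => left_ne_zero_of_mul k)

theorem mod_cau {K : Type*} [Field K] [CharZero K] (h : Mdl μ u v) (e : Exq μ u v κ) {x : ι → K}
    (h0 : ∀ l, u l = 0 → x l = 0) (hx : ∀ i, u i ≠ 0 → ∑ l, x l / (κ i - μ l : ℚ) = 0) (l : ι) :
    x l = 0 := by
  by_cases hl : u l = 0
  · exact h0 l hl
  refine mod_cauchy (S := univ.filter fun i => u i ≠ 0) (μ := fun i => (μ i : K))
    (κ := fun i => (κ i : K))
    (fun i hi j hj k => h.inj i j (by simpa using hi) (by simpa using hj) (Rat.cast_injective k))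
    (fun i hi j hj k => e.inj i j (by simpa using hi) (by simpa using hj) (Rat.cast_injective k))
    (fun i hi l hl k => e.ne i l (mem_filter.1 hi).2 (mem_filter.1 hl).2 (Rat.cast_injective k))
    (fun i hi => ?_) (mem_filter.2 ⟨mem_univ _, hl⟩)
  rw [mod_sum h0]
  simpa only [Rat.cast_sub] using hx i (mem_filter.1 hi).2

theorem Exq.eig (h : Mdl μ u v) (e : Exq μ u v κ) : ∃ P P' : Matrix ι ι ℚ, P * P' = 1 ∧
    (diagonal μ + vecMulVec u v) * P = P * diagonal κ ∧
      ∀ l i, P l i = if u i = 0 then (if l = i then 1 else 0) else u l / (κ i - μ l) := by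
  let P : Matrix ι ι ℚ := fun l i =>
    if u i = 0 then (if l = i then 1 else 0) else u l / (κ i - μ l)
  have d : P.det ≠ 0 := fun k => by
    obtain ⟨y, hy, k⟩ := exists_vecMul_eq_zero_iff.2 k
    refine hy (funext fun l => ?_)
    by_cases a : u l = 0
    · simpa [vecMul, dotProduct, P, a] using congrFun k l
    · refine (mul_eq_zero.1 (mod_cau h e (x := fun l => y l * u l)
        (fun l k => by rw [k, mul_zero]) (fun i hi => ?_) l)).resolve_right a
      simpa [vecMul, dotProduct, P, hi, mul_div_assoc] using congrFun k i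
  refine ⟨P, P⁻¹, mul_nonsing_inv P (isUnit_iff_ne_zero.2 d), ?_, fun _ _ => rfl⟩
  ext l i
  rw [mul_diagonal]
  refine (mod_mulVec μ u v (fun k => P k i) l).trans ?_
  by_cases a : u i = 0
  · by_cases b : l = i <;> simp [P, a, b, (h.uv i).1 a, e.fr i a, mul_comm]
  · simp only [P, if_neg a]
    rw [sum_congr rfl fun k _ => show v k * (u k / (κ i - μ k)) = u k * v k / (κ i - μ k) by ring,
      e.eq i a]
    by_cases k : u l = 0
    · simp [k]
    · have := sub_ne_zero.2 (e.ne i l a k)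
      field_simp
      ring

theorem Exq.cauchy (h : Mdl μ u v) (e : Exq μ u v κ) {x : ι → ℂ} (h0 : ∀ l, u l = 0 → x l = 0)
    (hx : ∀ i, u i ≠ 0 → ∑ l, x l / (κ i - μ l : ℚ) = 0) (l : ι) : x l = 0 :=
  mod_cau h e h0 hx l

theorem Mdl.dual (h : Mdl μ u v) : Mdl (-μ) v (-u) := by
  refine ⟨fun l => by rw [Pi.neg_apply, neg_eq_zero, h.uv], fun l l' a b k =>
    h.inj l l' (mt (h.uv l).1 a) (mt (h.uv l').1 b) (neg_injective k), ?_, ?_⟩
  · refine h.tr.imp (fun k z e => k (-z) ?_) fun k l => (h.uv l).1 (k l)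
    rw [Int.cast_neg, ← e, ← sum_neg_distrib]
    exact sum_congr rfl fun l _ => by rw [Pi.neg_apply]; ring
  · convert h.md.dual using 1
    ext1 i j
    by_cases k : i = j
    · subst k
      simp [mA, vecMulVec_apply, mul_comm, add_comm]
    · simp [mA, vecMulVec_apply, mul_comm, diagonal_apply_ne _ k]

end Pool.Agent.Lib.MP_815ef6_nt.Ch
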