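import Pool.Agent.Lib.MP_815ef6_nt.CS.SyD
import Pool.Agent.Lib.MP_815ef6_nt.CS.Am1

/-! Normalization of the residues. -/

namespace Pool.Agent.Lib.MP_815ef6_nt.Ch
open Finset Polynomial Matrix

variable {n r : ℕ} {a : Fin r → ℂ}

theorem Res_sys (a : Fin r → ℂ) (R : Fin r → Matrix (Fin n) (Fin n) ℂ) (e : ℕ)
    (L : Matrix (Fin n) (Fin n) ℂ[X]) (j k : Fin n) :
    sysM a R e L j k * am (X ^ e * ∏ i, (X - C (a i))) =
      am (∑ i, C (R i j k) * (X ^ e * ∏ l ∈ univ.erase i, (X - C (a l))) +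
        L j k * ∏ i, (X - C (a i))) := by
  have h2 : (RatFunc.X : RatFunc ℂ) ≠ 0 := RatFunc.X_ne_zero
  rw [sysM, add_mul, sum_mul, map_add, map_sum]
  congr 1
  · refine sum_congr rfl fun i _ => ?_
    have h1 : (RatFunc.X - RatFunc.C (a i) : RatFunc ℂ) = am (X - C (a i)) := by
      rw [map_sub, am_X, am_C]
    have h3 := am_ne (X_sub_C_ne_zero (a i))
    rw [← mul_prod_erase univ (fun l => (X - C (a l) : ℂ[X])) (mem_univ i), h1, ← am_C,
      div_mul_eq_mul_div, div_eq_iff h3, ← map_mul, ← map_mul]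
    congr 1
    ring
  · rw [map_mul, map_mul, map_pow, am_X]
    field_simp

theorem Res_ev (a c : Fin r → ℂ) (e : ℕ) (i : Fin r) :
    eval (a i) (∑ m, C (c m) * (X ^ e * ∏ l ∈ univ.erase m, (X - C (a l)))) =
      c i * (a i ^ e * ∏ l ∈ univ.erase i, (a i - a l)) := by
  rw [eval_finsetSum, sum_eq_single i (fun m _ hm => ?_) (by simp)]
  · simp [eval_prod]
  · rw [eval_mul, eval_mul, eval_prod, prod_eq_zero (i := i) (by simp [hm.symm]) (by simp)]
    simp

theorem Res_root (a : Fin r → ℂ) (i : Fin r) : eval (a i) (∏ l, (X - C (a l))) = 0 := by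
  rw [eval_prod]
  exact prod_eq_zero (mem_univ i) (by simp)

theorem Res_dz (a : Fin r → ℂ) (e : ℕ) (i : Fin r) :
    (dz (X ^ e * ∏ l, (X - C (a l)))).eval (a i) =
      a i * (a i ^ e * ∏ l ∈ univ.erase i, (a i - a l)) := by
  rw [← mul_prod_erase univ (fun l => (X - C (a l) : ℂ[X])) (mem_univ i), dz, derivative_mul,
    derivative_mul]
  simp [eval_prod]

theorem Res_aseq {A : Matrix (Fin n) (Fin n) (RatFunc ℂ)} {q : ℂ[X]}
    {Ao : Matrix (Fin n) (Fin n) ℂ[X]} (h : ∀ j k, A j k * am (X * q) = am (Ao j k)) (m : ℕ)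
    (i j : Fin n) : am (X * q) ^ m * Aseq A m i j = am (Am dz q Ao m i j) := by
  induction m generalizing j with
  | zero =>
    simp only [pow_zero, one_mul, Aseq, Am, Matrix.one_apply, apply_ite am, map_one, map_zero]
  | succ m ih =>
    have e1 := congrArg rder (ih j)
    rw [rder_mul, ← map_pow, rder_am, rder_am, map_pow] at e1
    have e2 : am (X * q) * am (derivative ((X * q) ^ m)) =
        (m : RatFunc ℂ) * (am q + am (dz q)) * am (X * q) ^ m := by
      rw [← map_natCast am, ← map_pow, ← map_add, ← map_mul, ← map_mul, ← map_mul]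
      congr 1
      cases m with
      | zero => simp
      | succ m =>
        rw [derivative_pow, derivative_mul, derivative_X, dz, Nat.add_sub_cancel, map_natCast]
        ring
    have e3 : am (X * q) ^ (m + 1) * ∑ k, Aseq A m i k * A k j =
        am (∑ k, Am dz q Ao m i k * Ao k j) := by
      rw [map_sum, mul_sum]
      refine sum_congr rfl fun k _ => ?_
      rw [map_mul _ (Am dz q Ao m i k), ← ih k, ← h]
      ring
    have e6 := ih j
    simp only [Aseq, Am, Matrix.add_apply, Matrix.sub_apply, Matrix.map_apply, Matrix.mul_apply,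
      Matrix.smul_apply, smul_eq_mul]
    rw [mul_add, e3]
    generalize (∑ k, Am dz q Ao m i k * Ao k j) = s
    generalize Am dz q Ao m i j = w at e1 e6 ⊢
    have e7 : am (dz w) = am X * am (derivative w) := map_mul _ _ _
    have e8 : am (X * q) = am X * am q := map_mul _ _ _
    simp only [map_sub, map_add, map_natCast, map_mul am q, map_mul am _ w,
      map_mul am (m : ℂ[X]), e7]
    linear_combination am (X * q) * e1 - Aseq A m i j * e2 -
      (m : RatFunc ℂ) * (am q + am (dz q)) * e6 + am (derivative w) * e8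

theorem Res_dorm {A : Matrix (Fin n) (Fin n) (RatFunc ℂ)} {q : ℂ[X]}
    {Ao : Matrix (Fin n) (Fin n) ℂ[X]} (hA : ∀ j k, A j k * am (X * q) = am (Ao j k))
    (h : Dormant A) : ∃ p₀ : ℕ, ∀ᶠ T : Finset ℂ in Filter.atTop, ∀ p : ℕ, p.Prime → p₀ ≤ p →
      ∀ i j, C (p : ℂ)⁻¹ * Am dz q Ao p i j ∈ lifts (cl T).subtype := by
  obtain ⟨T₀, D, hD, hc, -, p₀, h⟩ := h
  refine ⟨p₀, ((ev_le T₀).and ((ev_mem D.leadingCoeff⁻¹).and (ev_poly q))).mono
    fun T ⟨h1, h2, h3⟩ p hp hp0 i j => ?_⟩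
  obtain ⟨g, ⟨Q, s, hQ, hg⟩, hij⟩ := h p hp hp0 i j
  have e := Res_aseq hA p i j
  have hp' : (p : ℂ) ≠ 0 := by exact_mod_cast hp.ne_zero
  rw [hij] at e
  generalize Am dz q Ao p i j = w at e ⊢
  have l1 : C D.leadingCoeff⁻¹ ∈ lifts (cl T).subtype := C_mem_lifts _ (⟨_, h2⟩ : cl T)
  have l2 : D ∈ lifts (cl T).subtype := ana_lifts.mpr fun a => h1 (hc a)
  have l3 : (D * C D.leadingCoeff⁻¹) ^ s * (C (p : ℂ)⁻¹ * w) =
      C D.leadingCoeff⁻¹ ^ s * ((X * q) ^ p * Q) := by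
    have e1 : am (C (p : ℂ)⁻¹) * (p : RatFunc ℂ) = 1 := by
      rw [← map_natCast am, ← map_mul, ← map_natCast (C : ℂ →+* ℂ[X]), ← map_mul,
        inv_mul_cancel₀ hp', map_one, map_one]
    apply am_inj
    rw [mul_pow, map_mul, map_mul, map_mul, map_mul, map_mul, map_pow am D, map_pow am (X * q),
      ← e, ← hg]
    linear_combination am D ^ s * am (C D.leadingCoeff⁻¹ ^ s) * am (X * q) ^ p * g * e1
  exact ana_div ((monic_mul_leadingCoeff_inv hD).pow s)
    (pow_mem (mul_mem l2 l1) s) (l3 ▸ mul_mem (pow_mem l1 s) (mul_mem (pow_mem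
      (mul_mem (X_mem_lifts _) (ana_lifts.mpr h3)) p) (ana_lifts.mpr fun a => h1 (hQ a))))

theorem Res_fall {q : ℂ[X]} {Ao : Matrix (Fin n) (Fin n) ℂ[X]} {x : ℂ}
    {R : Matrix (Fin n) (Fin n) ℂ} (hq : q.eval x = 0)
    (h : Ao.map (eval x) = (dz q).eval x • R) (m : ℕ) : (Am dz q Ao m).map (eval x) =
      (dz q).eval x ^ m • aeval R (∏ j ∈ range m, (X - C (j : ℤ))) := by
  induction m with
  | zero =>
    rw [Am, pow_zero, one_smul, prod_range_zero, map_one]
    exact Matrix.map_one _ eval_zero eval_one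
  | succ m ih =>
    have e1 : (Am dz q Ao (m + 1)).map (eval x) = (Am dz q Ao m).map (eval x) * Ao.map (eval x) -
        ((m : ℂ) * (dz q).eval x) • (Am dz q Ao m).map (eval x) := by
      ext i j
      simp only [Am, Matrix.add_apply, Matrix.sub_apply, Matrix.map_apply, Matrix.mul_apply,
        Matrix.smul_apply, smul_eq_mul, eval_sub, eval_add, eval_mul, eval_finsetSum, hq,
        eval_natCast, zero_mul, zero_add]
    rw [e1, ih, h, prod_range_succ, map_mul, map_sub, aeval_X, aeval_C, mul_sub, smul_sub,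
      smul_mul_smul_comm, smul_smul, pow_succ, eq_intCast, Int.cast_natCast,
      ← nsmul_eq_mul', ← Nat.cast_smul_eq_nsmul ℂ, smul_smul]
    congr 2
    ring

theorem Res_mem {S : Subring ℂ} {R : Matrix (Fin n) (Fin n) ℂ} (h : ∀ j k, R j k ∈ S) (F : ℤ[X])
    (j k : Fin n) : aeval R F j k ∈ S := by
  let R' : Matrix (Fin n) (Fin n) S := fun j k => ⟨R j k, h j k⟩
  have e : R = (S.subtype.mapMatrix : Matrix (Fin n) (Fin n) S →+* _).toIntAlgHom R' := rfl
  rw [e, aeval_algHom_apply]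
  exact (aeval R' F j k).2

theorem sys_poly (a : Fin r → ℂ) (R : Fin r → Matrix (Fin n) (Fin n) ℂ) (e : ℕ)
    (L : Matrix (Fin n) (Fin n) ℂ[X]) : ∃ Ao : Matrix (Fin n) (Fin n) ℂ[X],
      (∀ j k, sysM a R e L j k * am (X * (X ^ e * ∏ i, (X - C (a i)))) = am (Ao j k)) ∧
      ∀ i, Ao.map (eval (a i)) = (dz (X ^ e * ∏ i, (X - C (a i)))).eval (a i) • R i := by
  refine ⟨fun j k => X * (∑ i, C (R i j k) * (X ^ e * ∏ l ∈ univ.erase i, (X - C (a l))) +
    L j k * ∏ i, (X - C (a i))), fun j k => ?_, fun i => ?_⟩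
  · rw [map_mul am X, mul_left_comm, Res_sys, ← map_mul]
  · ext j k
    rw [Matrix.map_apply, eval_mul, eval_add, Res_ev a fun m => R m j k, eval_mul, Res_root, Res_dz,
      eval_X, Matrix.smul_apply, smul_eq_mul]
    ring

theorem res_pow (ha : Function.Injective a) (h0 : ∀ i, a i ≠ 0)
    {R : Fin r → Matrix (Fin n) (Fin n) ℂ} {e : ℕ} {L : Matrix (Fin n) (Fin n) ℂ[X]}
    (h : Dormant (sysM a R e L)) (i : Fin r) : ∃ (F : Finset ℂ) (p₀ : ℕ), ∀ p : ℕ, p.Prime → p₀ ≤ p →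
      ∀ j k, ∃ y ∈ cl F, (R i ^ p - R i) j k = p * y := by
  obtain ⟨Ao, h1, h2⟩ := sys_poly a R e L
  obtain ⟨p₀, h3⟩ := Res_dorm h1 h
  have hq : (X ^ e * ∏ l, (X - C (a l)) : ℂ[X]).eval (a i) = 0 := by
    rw [eval_mul, Res_root, mul_zero]
  have hl : (dz (X ^ e * ∏ l, (X - C (a l)))).eval (a i) ≠ 0 := by
    rw [Res_dz]
    exact mul_ne_zero (h0 i) (mul_ne_zero (pow_ne_zero _ (h0 i)) (prod_ne_zero_iff.mpr
      fun l hl => sub_ne_zero.mpr fun h => (mem_erase.mp hl).1 (ha h).symm))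
  have h4 := Res_fall hq (h2 i)
  generalize (X ^ e * ∏ l, (X - C (a l)) : ℂ[X]) = q at h3 h4 hl
  generalize (dz q).eval (a i) = lam at h4 hl
  obtain ⟨T, h5, h6, h7, h8⟩ := (h3.and ((ev_mem (a i)).and ((ev_mem lam⁻¹).and
    (Filter.eventually_all.mpr fun j => Filter.eventually_all.mpr fun k =>
      ev_mem (R i j k))))).exists
  refine ⟨T, p₀, fun p hp hp0 j k => ?_⟩
  have hp' : (p : ℂ) ≠ 0 := by exact_mod_cast hp.ne_zero
  obtain ⟨Q, hQ⟩ := (mem_lifts _).mp (h5 p hp hp0 j k)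
  obtain ⟨G, hG⟩ := prod_char (R := ℤ) hp
  have e1 := congrFun (congrFun (h4 p) j) k
  have e2 := congrArg (eval (a i)) hQ
  have e3 : eval (a i) (Q.map (cl T).subtype) ∈ cl T := by
    rw [show a i = (cl T).subtype ⟨a i, h6⟩ from rfl, eval_map, eval₂_at_apply]
    exact (Q.eval ⟨a i, h6⟩).2
  rw [hG, map_add, map_sub, map_pow, aeval_X, map_mul, map_natCast, ← nsmul_eq_mul,
    Matrix.map_apply, Matrix.smul_apply, Matrix.add_apply, Matrix.smul_apply, smul_eq_mul,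
    nsmul_eq_mul] at e1
  rw [eval_mul, eval_C, e1] at e2
  refine ⟨lam⁻¹ ^ p * eval (a i) (Q.map (cl T).subtype) - aeval (R i) G j k,
    sub_mem (mul_mem (pow_mem h7 p) e3) (Res_mem h8 G j k), ?_⟩
  rw [e2, inv_pow]
  have := pow_ne_zero p hl
  field_simp
  ring

theorem sys_of (ha : Function.Injective a) (h0 : ∀ i, a i ≠ 0)
    {A : Matrix (Fin n) (Fin n) (RatFunc ℂ)} {e : ℕ} {N : Matrix (Fin n) (Fin n) ℂ[X]}
    (h : ∀ j k, A j k * am (X ^ e * ∏ i, (X - C (a i))) = am (N j k)) :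
    ∃ L, A = sysM a (fun i => (a i ^ e * ∏ l ∈ univ.erase i, (a i - a l))⁻¹ • N.map (eval (a i))) e L := by
  generalize hR : (fun i => (a i ^ e * ∏ l ∈ univ.erase i, (a i - a l))⁻¹ •
    N.map (eval (a i))) = R
  have h1 : ∀ j k, ∏ i, (X - C (a i)) ∣
      N j k - ∑ i, C (R i j k) * (X ^ e * ∏ l ∈ univ.erase i, (X - C (a l))) := fun j k => by
    refine Finset.prod_dvd_of_coprime (fun i _ l _ hil => pairwise_coprime_X_sub_C ha hil)
      fun i _ => dvd_iff_isRoot.mpr ?_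
    have hl : a i ^ e * ∏ l ∈ univ.erase i, (a i - a l) ≠ 0 :=
      mul_ne_zero (pow_ne_zero _ (h0 i)) (prod_ne_zero_iff.mpr
        fun l hl => sub_ne_zero.mpr fun h => (mem_erase.mp hl).1 (ha h).symm)
    rw [IsRoot.def, eval_sub, Res_ev a fun m => R m j k, ← congrFun hR i, Matrix.smul_apply,
      Matrix.map_apply, smul_eq_mul, mul_comm _⁻¹, inv_mul_cancel_right₀ hl, sub_self]
  choose L hL using h1
  refine ⟨L, Matrix.ext fun j k => mul_right_cancel₀ (am_ne (mul_ne_zero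
    (pow_ne_zero e X_ne_zero) (prod_ne_zero_iff.mpr fun i (_ : i ∈ univ) =>
      X_sub_C_ne_zero (a i)))) ?_⟩
  rw [h, Res_sys, mul_comm (L j k), ← hL, add_sub_cancel]

end Pool.Agent.Lib.MP_815ef6_nt.Ch
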