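import Pool.Agent.Lib.MP_815ef6_nt.CS.Def

/-! The spine of the tree of all singular points. -/

namespace Pool.Agent.Lib.MP_815ef6_nt.Ch
open Finset LaurentPolynomial Matrix

/-- Topologically nilpotent elements. -/
def Sm (O : Subring ℂ) (t y : ℂ) : Prop := y ∈ O ∧ ∃ d : ℕ, ∃ z ∈ O, y ^ d = t * z

/-- The ring `O[1 / t]`. -/
def Lo (O : Subring ℂ) {t : ℂ} (ht : t ∈ O) : Subring ℂ where
  carrier := {y | ∃ e : ℕ, t ^ e * y ∈ O}
  zero_mem' := ⟨0, by simp⟩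
  one_mem' := ⟨0, by simp⟩
  neg_mem' := fun ⟨e, h⟩ => ⟨e, by rw [mul_neg]; exact neg_mem h⟩
  add_mem' := fun {x y} ⟨e, he⟩ ⟨f, hf⟩ => ⟨e + f, by
    rw [show t ^ (e + f) * (x + y) = t ^ f * (t ^ e * x) + t ^ e * (t ^ f * y) by ring]
    exact add_mem (mul_mem (pow_mem ht f) he) (mul_mem (pow_mem ht e) hf)⟩
  mul_mem' := fun {x y} ⟨e, he⟩ ⟨f, hf⟩ => ⟨e + f, by
    rw [pow_add, mul_mul_mul_comm]
    exact mul_mem he hf⟩

/-- The points `β l` lie on the circles through the points `x j`. -/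
structure Spn (O : Subring ℂ) (t : ℂ) {M R : ℕ} (β : Fin M → ℂ) (cls : Fin M → Fin (R + 1))
    (x : Fin (R + 1) → ℂ) : Prop where
  lt : ∀ l j, cls l < j → Sm O t (β l / x j)
  gt : ∀ l j, j < cls l → Sm O t (x j / β l)
  eq : ∀ l, β l / x (cls l) ∈ O ∧ x (cls l) / β l ∈ O
  nx : ∀ j : Fin R, Sm O t (x j.castSucc / x j.succ)

end Pool.Agent.Lib.MP_815ef6_nt.Ch
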