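import Pool.Agent.Lib.MP_815ef6_nt.Defs

/-! Systems with simple poles. -/

namespace Pool.Agent.Lib.MP_815ef6_nt.Ch
open Polynomial Finset

/-- The matrix `∑ i, R i / (z - a i) + L(z) / z ^ e`. -/
noncomputable def sysM {n r : ℕ} (a : Fin r → ℂ) (R : Fin r → Matrix (Fin n) (Fin n) ℂ) (e : ℕ)
    (L : Matrix (Fin n) (Fin n) ℂ[X]) : Matrix (Fin n) (Fin n) (RatFunc ℂ) := fun j k =>
  ∑ i, RatFunc.C (R i j k) / (RatFunc.X - RatFunc.C (a i)) +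
    algebraMap ℂ[X] (RatFunc ℂ) (L j k) / RatFunc.X ^ e

end Pool.Agent.Lib.MP_815ef6_nt.Ch
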