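import Pool.Agent.Lib.MP_815ef6_nt.CS.Cx3
import Pool.Agent.Lib.MP_815ef6_nt.CS.As5
import Pool.Agent.Lib.MP_815ef6_nt.CS.Lat2

/-! The integrality of the falling powers. -/

namespace Pool.Agent.Lib.MP_815ef6_nt.Ch
open Finset LaurentPolynomial Filter Matrix

variable {n M R r : ℕ} {O : Subring ℂ} {t : ℂ}

theorem Rel.other {ι : Type*} [Fintype ι] [DecidableEq ι] {q l l' m : O[T;T⁻¹]}
    {A C C' W : Matrix ι ι O[T;T⁻¹]} (h : Rel th q A l C m W) {f : ℂ[T;T⁻¹]}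
    (h1 : mp O.subtype l' = f * mp O.subtype l)
    (h2 : C'.map (mp O.subtype) = f • C.map (mp O.subtype)) : Rel th q A l' C' m W := by
  have e := h.map (mp O.subtype) (mp_th _)
  have k : Rel th (mp O.subtype q) (A.map (mp O.subtype)) (mp O.subtype l') (C'.map (mp O.subtype))
      (mp O.subtype m) (W.map (mp O.subtype)) := by
    rw [Rel] at e ⊢
    rw [h1, h2, mul_left_comm, mul_smul f, e, smul_mul_assoc, smul_comm _ f, mul_assoc, mul_smul f,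
      smul_sub]
  ext1 i j
  apply mp_inj
  have := congrFun (congrFun k i) j
  simpa only [Matrix.smul_apply, Matrix.sub_apply, map_apply, mul_apply, smul_eq_mul, map_mul,
    map_sub, map_sum, mp_th] using this

theorem St2.main {β : Fin M → ℂ} {cls : Fin M → Fin (R + 1)} {x : Fin (R + 1) → ℂ}
    {Z : ℕ → Polynomial ℂ} {F : Finset ℂ} {p₀ : ℕ} (S : St2 O t β cls x Z n F p₀)
    (hβ : ∀ l, β l ∈ Lo O S.fr.mem ∧ (β l)⁻¹ ∈ Lo O S.fr.mem)
    {a : Fin (r + 1) → ℂ} (ha : Function.Injective a) (hab : ∀ i, ∃ l, β l = a i)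
    (hxa : ∀ l i, β l = a i → x (cls l) = a i) {e : ℕ} {qo no : Polynomial ℂ}
    (hq : qo = Polynomial.X ^ e * ∏ i, (Polynomial.X - Polynomial.C (a i)))
    {Ao Wo : Matrix (Fin (n + 1)) (Fin (n + 1)) (Polynomial ℂ)}
    (rel : Rel dz qo Ao (Z (n + 1)) (cM n Z) no Wo)
    (hA : ∀ i k m, (Ao i k).coeff m ∈ Lo O S.fr.mem) (hW : ∀ i k m, (Wo i k).coeff m ∈ Lo O S.fr.mem)
    (n0 : no ≠ 0) (n1 : no.leadingCoeff ∈ Lo O S.fr.mem ∧ no.leadingCoeff⁻¹ ∈ Lo O S.fr.mem)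
    (W0 : Wo.det ≠ 0)
    (W1 : Wo.det.leadingCoeff ∈ Lo O S.fr.mem ∧ Wo.det.leadingCoeff⁻¹ ∈ Lo O S.fr.mem)
    (rt : ∀ y, y ≠ 0 → (no * Wo.det).eval y = 0 → ∃ l, β l = y)
    (res : ∀ i, ∃ (u v : Fin (n + 1) → ℂ) (γ : ℚ), (∀ k, u k ∈ Lo O S.fr.mem) ∧
      Ao.map (Polynomial.eval (a i)) = (dz qo).eval (a i) • vecMulVec u v ∧ ∑ k, u k * v k = γ ∧
        ((∀ z : ℤ, γ ≠ z) ∨ vecMulVec u v = 0)) :
    ∃ T : Finset ℂ, ∀ i₀ ≤ n, ∀ m : ℕ, ∀ i ≤ n, ∀ e, ∃ w ∈ cl T,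
      (rr dz 1 n Z (bs _ i₀) m i).coeff e = m.factorial * w := by
  obtain ⟨L, hL⟩ := S.lift
  have H := S.fr
  obtain ⟨T, hT⟩ := H.crt (fun m (y : Fin (n + 1) × Fin (n + 1) × ℤ) =>
    ((Am th (L 0 true (n + 1)) (cM n (L 0 true)) m y.1 y.2.1).coeff y.2.2 : ℂ)) (by
      filter_upwards [ev_gd, ev_lift (L 0 true (n + 1)), ev_liftM (cM n (L 0 true))]
        with T G h1 h2 m y
      obtain ⟨l, e1⟩ := h1 G.le
      obtain ⟨C, e2⟩ := h2 G.le
      rw [← e1, ← e2, ← Am_map _ (mp_th _), map_apply, coeff_mp]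
      exact Subtype.property (p := (· ∈ cl T)) _) fun s hp hs => by
    obtain ⟨ρ, hρ⟩ := H.res s hp hs
    have rg := fun {s : O} => S.rg (s := s) hL
    choose δ m A W rel' h1 h2 using fun j => lattice H (fun k => hp.not_isUnit (isUnit_of_dvd_unit hs k))
      S.spn j (fun l => ⟨S.ne l, hβ l⟩) (S.hx j) ha hab hxa hq rel hA hW n0 n1 W0 W1 rt res
      (hL j true _ le_rfl) (cM_map _ _ (hL j true)) fun s hp hs k => hp.not_dvd_one (by
        simpa using (dvd_iff.1 k 0).sub (rg hp hs j true).re.one)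
    obtain ⟨κ, hκ⟩ := S.exps hL hp hs hρ
    refine (ev_chain H hp hs hρ S.hF (p₀ := p₀)
      (X := fun j => ⟨δ j, m j, A j, W j, fun b => L j b (n + 1), fun b => cM n (L j b)⟩)
      (fun j => ⟨(h1 j s hp hs).1, fun b => ?_, fun b => (rg hp hs j b).re, (h1 j s hp hs).2.1,
        (h1 j s hp hs).2.2, h2 j, fun b p hp' h0 i i' => ?_⟩)
      (fun j => eg_cM ρ (fun b => (hκ j b).1) fun b => (hκ j b).2) (fun j b => (hκ j b).1)
      (fun j => (S.spn.nx j).dvd H hp hs) (fun j => S.nd hL j _ le_rfl)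
      (fun j => nd_cM (S.nd hL j)) (fun j => rfl) (fun j => rfl) (S.rg0 hL _).re
      (S.rg1 hL _).re).mono fun T h E m y => h E m y.1 y.2.1 y.2.2
    · obtain ⟨w, hw⟩ := (ub_unit (cls := cls) (v := ps j true) S.ne (S.x0 j)).exists_left_inv
      have k : ∀ i ≤ n + 1, mp O.subtype (L j b i) =
          ub β cls (ps j b) (x j) * w * mp O.subtype (L j true i) := fun i hi => by
        rw [hL j b i hi, hL j true i hi, Ln, Ln, mul_assoc, ← mul_assoc w, hw, one_mul]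
      exact (rel' j).other (k _ le_rfl) (cM_map _ _ k)
    · rw [St2.am hL]
      exact S.dm p hp' h0 j b i i.is_le i' i'.is_le
  refine Ln_back (cls := cls) S.ne (S.x0 0) (T := T) fun i₀ h₀ m i hi e => ?_
  obtain ⟨w, hw, k⟩ := hT m (⟨i₀, by omega⟩, ⟨i, by omega⟩, e)
  refine ⟨w, hw, ?_⟩
  rw [← k]
  exact (congrArg (fun f : ℂ[T;T⁻¹] => f.coeff e)
    (St2.am hL 0 true m ⟨i₀, by omega⟩ ⟨i, by omega⟩)).symm.trans (coeff_mp _ _ _)

end Pool.Agent.Lib.MP_815ef6_nt.Ch
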